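import Mathlib

set_option autoImplicit false

namespace Pool.Agent.Helper827.B

open Filter Topology Set

/-! Transfinite descending composition of maps of the line. -/

noncomputable def tails (ζ : Ordinal.{0}) : Filter Ordinal.{0} :=
  ⨅ ξ : Set.Iio ζ, 𝓟 (Set.Ico ξ.1 ζ)

lemma tails_neBot {ζ : Ordinal.{0}} (h : ζ ≠ 0) : (tails ζ).NeBot := by
  have : Nonempty (Set.Iio ζ) := ⟨⟨0, pos_iff_ne_zero.2 h⟩⟩
  unfold tails
  apply Filter.iInf_neBot_of_directed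
  · intro a b
    refine ⟨max a b, ?_, ?_⟩
    · apply Filter.principal_mono.2
      intro x hx
      exact ⟨le_trans (by exact_mod_cast le_max_left a b) hx.1, hx.2⟩
    · apply Filter.principal_mono.2
      intro x hx
      exact ⟨le_trans (by exact_mod_cast le_max_right a b) hx.1, hx.2⟩
  · intro a
    rw [Filter.principal_neBot_iff]
    exact ⟨a.1, le_refl _, a.2⟩

open Classical in
noncomputable def U (ζ : Ordinal.{0}) : Ultrafilter Ordinal.{0} :=
  if h : ζ ≠ 0 then @Ultrafilter.of _ (tails ζ) (tails_neBot h) else pure 0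

lemma U_mem {ζ ξ : Ordinal.{0}} (h : ξ < ζ) : Set.Ico ξ ζ ∈ U ζ := by
  have h0 : ζ ≠ 0 := by
    rintro rfl
    exact absurd h (not_lt_of_ge zero_le)
  unfold U
  rw [dif_pos h0]
  have := tails_neBot h0
  apply Ultrafilter.of_le (tails ζ)
  unfold tails
  exact Filter.mem_iInf_of_mem (⟨ξ, h⟩ : Set.Iio ζ) (by simp)

lemma U_lt {ζ : Ordinal.{0}} (h : ζ ≠ 0) : ∀ᶠ x in (U ζ : Filter Ordinal.{0}), x < ζ := by
  have := U_mem (pos_iff_ne_zero.2 h)
  filter_upwards [this] with x hx using hx.2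

noncomputable def ulim (V : Ultrafilter Ordinal.{0}) (a : Ordinal.{0} → ℝ) : ℝ :=
  limUnder (V : Filter Ordinal.{0}) a

lemma ulim_tendsto {V : Ultrafilter Ordinal.{0}} {a : Ordinal.{0} → ℝ} {p q : ℝ}
    (h : ∀ᶠ i in (V : Filter Ordinal.{0}), a i ∈ Icc p q) :
    Tendsto a (V : Filter Ordinal.{0}) (𝓝 (ulim V a)) := by
  have hc : IsCompact (Icc p q) := isCompact_Icc
  have h1 : (V.map a : Filter ℝ) ≤ 𝓟 (Icc p q) := by
    rw [Filter.le_principal_iff]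
    exact h
  obtain ⟨x, -, hx⟩ := hc.ultrafilter_le_nhds (V.map a) h1
  exact tendsto_nhds_limUnder ⟨x, hx⟩

noncomputable def Th (T : Ordinal.{0} → ℝ → ℝ) (ζ : Ordinal.{0}) : ℝ → ℝ := fun e =>
  open Classical in
  if ζ = 0 then e else ulim (U ζ) (fun ζ' => if h : ζ' < ζ then Th T ζ' (T ζ' e) else 0)
termination_by ζ
decreasing_by exact h

lemma Th_zero (T : Ordinal.{0} → ℝ → ℝ) (e : ℝ) : Th T 0 e = e := by
  rw [Th]; simp

lemma Th_ne (T : Ordinal.{0} → ℝ → ℝ) {ζ : Ordinal.{0}} (h : ζ ≠ 0) (e : ℝ) :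
    Th T ζ e = ulim (U ζ) (fun ζ' => Th T ζ' (T ζ' e)) := by
  rw [Th, if_neg h]
  unfold ulim limUnder
  congr 1
  apply Filter.map_congr
  filter_upwards [U_lt h] with x hx
  rw [dif_pos hx]

structure TT (T : Ordinal.{0} → ℝ → ℝ) (S κ : ℝ) : Prop where
  ge : ∀ ζ e, e ≤ T ζ e
  le : ∀ ζ e, e ≤ S → T ζ e ≤ S + κ * (S - e)
  eq : ∀ ζ e, S ≤ e → T ζ e = e

lemma Th_bounds {T : Ordinal.{0} → ℝ → ℝ} {S κ : ℝ} (hκ : 0 ≤ κ) (hT : TT T S κ)
    (ζ : Ordinal.{0}) : ∀ e, e ≤ Th T ζ e ∧ (e ≤ S → Th T ζ e ≤ S + κ * (S - e)) ∧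
      (S ≤ e → Th T ζ e = e) ∧
      (ζ ≠ 0 → Tendsto (fun ζ' => Th T ζ' (T ζ' e)) (U ζ : Filter Ordinal.{0}) (𝓝 (Th T ζ e))) := by
  induction ζ using WellFoundedLT.induction with
  | ind ζ ih =>
    intro e
    by_cases h0 : ζ = 0
    · subst h0
      rw [Th_zero]
      refine ⟨le_refl _, fun h => ?_, fun _ => rfl, fun h => absurd rfl h⟩
      nlinarith [mul_nonneg hκ (sub_nonneg.2 h)]
    · -- values are bounded
      have hb : ∀ ζ' < ζ, e ≤ Th T ζ' (T ζ' e) ∧ (e ≤ S → Th T ζ' (T ζ' e) ≤ S + κ * (S - e)) ∧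
          (S ≤ e → Th T ζ' (T ζ' e) = e) := by
        intro ζ' h'
        obtain ⟨a1, a2, a3, -⟩ := ih ζ' h' (T ζ' e)
        have g := hT.ge ζ' e
        refine ⟨g.trans a1, fun h => ?_, fun h => ?_⟩
        · rcases le_total (T ζ' e) S with h2 | h2
          · refine (a2 h2).trans ?_
            nlinarith
          · rw [a3 h2]
            exact hT.le ζ' e h
        · rw [hT.eq ζ' e h] at a3 ⊢
          exact a3 h
      have hbd : ∀ᶠ i in (U ζ : Filter Ordinal.{0}),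
          Th T i (T i e) ∈ Icc e (max e (S + κ * (S - e))) := by
        filter_upwards [U_lt h0] with i hi
        obtain ⟨b1, b2, b3⟩ := hb i hi
        refine ⟨b1, ?_⟩
        rcases le_total e S with h | h
        · exact (b2 h).trans (le_max_right _ _)
        · rw [b3 h]; exact le_max_left _ _
      have ht := ulim_tendsto hbd
      rw [← Th_ne T h0] at ht
      have hlt := U_lt h0
      refine ⟨?_, ?_, ?_, fun _ => ht⟩
      · refine ge_of_tendsto ht ?_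
        filter_upwards [hlt] with i hi using (hb i hi).1
      · intro h
        refine le_of_tendsto ht ?_
        filter_upwards [hlt] with i hi using (hb i hi).2.1 h
      · intro h
        refine tendsto_nhds_unique ht ?_
        refine tendsto_const_nhds.congr' ?_
        filter_upwards [hlt] with i hi using ((hb i hi).2.2 h).symm

lemma Th_tendsto {T : Ordinal.{0} → ℝ → ℝ} {S κ : ℝ} (hκ : 0 ≤ κ) (hT : TT T S κ)
    {ζ : Ordinal.{0}} (h : ζ ≠ 0) (e : ℝ) :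
    Tendsto (fun ζ' => Th T ζ' (T ζ' e)) (U ζ : Filter Ordinal.{0}) (𝓝 (Th T ζ e)) :=
  (Th_bounds hκ hT ζ e).2.2.2 h

/-- inactive tail -/
lemma Th_tail {T : Ordinal.{0} → ℝ → ℝ} {S κ : ℝ} (hκ : 0 ≤ κ) (hT : TT T S κ)
    (ζ : Ordinal.{0}) (e : ℝ) (μ : Ordinal.{0}) (hμ : ζ ≤ μ)
    (hin : ∀ ζ', ζ ≤ ζ' → ζ' < μ → T ζ' e = e) : Th T μ e = Th T ζ e := by
  induction μ using WellFoundedLT.induction with
  | ind μ ih =>
    rcases hμ.eq_or_lt with rfl | hlt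
    · rfl
    · have h0 : μ ≠ 0 := by
        rintro rfl
        exact absurd hlt (not_lt_of_ge zero_le)
      refine tendsto_nhds_unique (Th_tendsto hκ hT h0 e) ?_
      refine tendsto_const_nhds.congr' ?_
      filter_upwards [U_mem hlt] with i hi
      rw [hin i hi.1 hi.2]
      exact (ih i hi.2 hi.1 (fun ζ' h1 h2 => hin ζ' h1 (h2.trans hi.2))).symm

lemma Th_succ {T : Ordinal.{0} → ℝ → ℝ} {S κ : ℝ} (hκ : 0 ≤ κ) (hT : TT T S κ)
    (ζ : Ordinal.{0}) (e : ℝ) : Th T (ζ + 1) e = Th T ζ (T ζ e) := by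
  have h0 : ζ + 1 ≠ 0 := by
    exact (pos_iff_ne_zero.1 (lt_of_le_of_lt (zero_le : 0 ≤ ζ) (Order.lt_add_one_iff.2 le_rfl)))
  refine tendsto_nhds_unique (Th_tendsto hκ hT h0 e) ?_
  refine tendsto_const_nhds.congr' ?_
  filter_upwards [U_mem (ξ := ζ) (ζ := ζ + 1) (Order.lt_add_one_iff.2 le_rfl)] with i hi
  have : i = ζ := le_antisymm (Order.lt_add_one_iff.1 hi.2) hi.1
  rw [this]

/-- comparison of two processes -/
lemma Th_cmp {T T' : Ordinal.{0} → ℝ → ℝ} {S κ S' κ' : ℝ} (hκ : 0 ≤ κ) (hT : TT T S κ)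
    (hκ' : 0 ≤ κ') (hT' : TT T' S' κ') (Loc : ℝ → ℝ → Prop)
    (hLoc : ∀ e f e' f', Loc e f → e ≤ e' → f ≤ f' → Loc e' f') (R : ℝ)
    (hstep : ∀ ζ e f, Loc e f → |T ζ e - T' ζ f| ≤ max |e - f| R) (hR : 0 ≤ R)
    (ζ : Ordinal.{0}) : ∀ e f, Loc e f → |Th T ζ e - Th T' ζ f| ≤ max |e - f| R := by
  induction ζ using WellFoundedLT.induction with
  | ind ζ ih =>
    intro e f hl
    by_cases h0 : ζ = 0
    · subst h0
      rw [Th_zero, Th_zero]
      exact le_max_left _ _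
    · have h1 := Th_tendsto hκ hT h0 e
      have h2 := Th_tendsto hκ' hT' h0 f
      refine le_of_tendsto (h1.sub h2).abs ?_
      filter_upwards [U_lt h0] with i hi
      refine (ih i hi _ _ (hLoc _ _ _ _ hl (hT.ge i e) (hT'.ge i f))).trans ?_
      exact max_le (hstep i e f hl) (le_max_right _ _)

lemma Th_cmp4 {T T' : Ordinal.{0} → ℝ → ℝ} {S κ S' κ' : ℝ} (hκ : 0 ≤ κ) (hT : TT T S κ)
    (hκ' : 0 ≤ κ') (hT' : TT T' S' κ') (Loc : ℝ → ℝ → Prop)
    (hLoc : ∀ e f e' f', Loc e f → e ≤ e' → f ≤ f' → Loc e' f') (R : ℝ)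
    (hstep : ∀ ζ e f, Loc e f → |T ζ e - T' ζ f| ≤ max |e - f| R) (hR : 0 ≤ R)
    (q : ℝ) (hq : 0 ≤ q) (G : ℝ → ℝ → Prop)
    (hstep4 : ∀ ζ e f, Loc e f → G e f → (|T ζ e - T' ζ f| ≤ q * |e - f| + R ∨
      (ζ ≠ 0 ∧ G (T ζ e) (T' ζ f) ∧ |T ζ e - T' ζ f| ≤ |e - f|)))
    (ζ : Ordinal.{0}) : ζ ≠ 0 → ∀ e f, Loc e f → G e f →
      |Th T ζ e - Th T' ζ f| ≤ q * |e - f| + R := by
  induction ζ using WellFoundedLT.induction with
  | ind ζ ih =>
    intro h0 e f hl hg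
    have h1 := Th_tendsto hκ hT h0 e
    have h2 := Th_tendsto hκ' hT' h0 f
    refine le_of_tendsto (h1.sub h2).abs ?_
    filter_upwards [U_lt h0] with i hi
    have hl' := hLoc _ _ _ _ hl (hT.ge i e) (hT'.ge i f)
    rcases hstep4 i e f hl hg with h | ⟨hi0, hg', h⟩
    · refine (Th_cmp hκ hT hκ' hT' Loc hLoc R hstep hR i _ _ hl').trans ?_
      refine max_le h ?_
      nlinarith [mul_nonneg hq (abs_nonneg (e - f))]
    · refine (ih i hi hi0 _ _ hl' hg').trans ?_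
      nlinarith

lemma Th_translate {T T' : Ordinal.{0} → ℝ → ℝ} {S κ S' κ' : ℝ} (hκ : 0 ≤ κ) (hT : TT T S κ)
    (hκ' : 0 ≤ κ') (hT' : TT T' S' κ') (t : ℝ) (h : ∀ ζ e, T' ζ (e + t) = T ζ e + t)
    (ζ : Ordinal.{0}) : ∀ e, Th T' ζ (e + t) = Th T ζ e + t := by
  induction ζ using WellFoundedLT.induction with
  | ind ζ ih =>
    intro e
    by_cases h0 : ζ = 0
    · subst h0
      rw [Th_zero, Th_zero]
    · have h1 := Th_tendsto hκ hT h0 e
      have h2 := Th_tendsto hκ' hT' h0 (e + t)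
      refine tendsto_nhds_unique h2 ?_
      refine (h1.add_const t).congr' ?_
      filter_upwards [U_lt h0] with i hi
      rw [h, ih i hi]

lemma Th_congr {T T' : Ordinal.{0} → ℝ → ℝ} (h : ∀ ζ e, T ζ e = T' ζ e) (ζ : Ordinal.{0}) (e : ℝ) :
    Th T ζ e = Th T' ζ e := by
  have : T = T' := by funext a b; exact h a b
  rw [this]

end Pool.Agent.Helper827.B
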