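import Mathlib
import Pool.Agent.Helper827.B1

set_option autoImplicit false

namespace Pool.Agent.Helper827.B

open Filter Topology Set

set_option linter.unusedSectionVars false

variable {K : Type} [TopologicalSpace K]

/-- transfinite iteration of a derivation on sets -/
noncomputable def it (D : Set K → Set K) (A : Set K) (ζ : Ordinal.{0}) : Set K :=
  A ∩ ⋂ ξ : Set.Iio ζ, D (it D A ξ.1)
termination_by ζ
decreasing_by exact ξ.2

structure Der (D : Set K → Set K) : Prop where
  closed : ∀ S, IsClosed S → IsClosed (D S)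
  sub : ∀ S, D S ⊆ S
  ne : ∀ S, IsClosed S → S.Nonempty → D S ≠ S

lemma it_zero (D : Set K → Set K) (A : Set K) : it D A 0 = A := by
  rw [it]
  have : IsEmpty (Set.Iio (0 : Ordinal.{0})) := by simp
  simp

lemma it_closed {D : Set K → Set K} (hD : Der D) {A : Set K} (hA : IsClosed A) (ζ : Ordinal.{0}) :
    IsClosed (it D A ζ) := by
  induction ζ using WellFoundedLT.induction with
  | ind ζ ih =>
    rw [it]
    exact hA.inter (isClosed_iInter fun ξ => hD.closed _ (ih ξ.1 ξ.2))

lemma it_anti (D : Set K → Set K) (A : Set K) {ξ ζ : Ordinal.{0}} (h : ξ ≤ ζ) :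
    it D A ζ ⊆ it D A ξ := by
  rw [it, it]
  intro x hx
  refine ⟨hx.1, ?_⟩
  have := hx.2
  simp only [mem_iInter] at this ⊢
  intro i
  exact this ⟨i.1, lt_of_lt_of_le i.2 h⟩

lemma it_sub (D : Set K → Set K) (A : Set K) (ζ : Ordinal.{0}) : it D A ζ ⊆ A := by
  have := it_anti D A (zero_le : 0 ≤ ζ)
  rwa [it_zero] at this

lemma it_lt (D : Set K → Set K) (A : Set K) {ξ ζ : Ordinal.{0}} (h : ξ < ζ) :
    it D A ζ ⊆ D (it D A ξ) := by
  intro x hx
  rw [it] at hx
  have := hx.2
  simp only [mem_iInter] at this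
  exact this ⟨ξ, h⟩

lemma it_succ {D : Set K → Set K} (hD : Der D) (A : Set K) (ζ : Ordinal.{0}) :
    it D A (ζ + 1) = D (it D A ζ) := by
  apply Subset.antisymm (it_lt D A (Order.lt_add_one_iff.2 le_rfl))
  intro x hx
  have h1 := hD.sub _ hx
  rw [it]
  refine ⟨it_sub _ _ _ h1, ?_⟩
  simp only [mem_iInter]
  intro i
  rcases (Order.lt_add_one_iff.1 (show i.1 < ζ + 1 from i.2)).eq_or_lt with h | h
  · rw [h]; exact hx
  · exact it_lt D A h h1

lemma it_empty {D : Set K → Set K} (hD : Der D) {A : Set K} (hA : IsClosed A) :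
    ∃ ζ : Ordinal.{0}, ζ ≠ 0 ∧ it D A ζ = ∅ := by
  by_contra hcon
  push Not at hcon
  have hne : ∀ ζ : Ordinal.{0}, (it D A ζ).Nonempty := by
    intro ζ
    have := hcon (ζ + 1) (pos_iff_ne_zero.1 (lt_of_le_of_lt (zero_le : 0 ≤ ζ) (Order.lt_add_one_iff.2 le_rfl)))
    obtain ⟨x, hx⟩ := this
    exact ⟨x, it_anti D A (le_of_lt (Order.lt_add_one_iff.2 le_rfl)) hx⟩
  have hinj : Function.Injective (it D A) := by
    have key : ∀ ξ ζ : Ordinal.{0}, ξ < ζ → it D A ξ ≠ it D A ζ := by
      intro ξ ζ h he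
      have h1 := it_lt D A h
      rw [← he] at h1
      exact hD.ne _ (it_closed hD hA ξ) (hne ξ) (Subset.antisymm (hD.sub _) h1)
    intro ξ ζ h
    rcases lt_trichotomy ξ ζ with h1 | h1 | h1
    · exact absurd h (key _ _ h1)
    · exact h1
    · exact absurd h.symm (key _ _ h1)
  exact not_injective_of_ordinal _ hinj

open Classical in
noncomputable def Lam (D : Set K → Set K) (A : Set K) : Ordinal.{0} :=
  if h : ∃ ζ : Ordinal.{0}, ζ ≠ 0 ∧ it D A ζ = ∅ then Classical.choose h else 1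

lemma Lam_ne (D : Set K → Set K) (A : Set K) : Lam D A ≠ 0 := by
  unfold Lam
  split_ifs with h
  · exact (Classical.choose_spec h).1
  · exact one_ne_zero

lemma Lam_empty {D : Set K → Set K} (hD : Der D) {A : Set K} (hA : IsClosed A) :
    it D A (Lam D A) = ∅ := by
  unfold Lam
  rw [dif_pos (it_empty hD hA)]
  exact (Classical.choose_spec (it_empty hD hA)).2

/-- one step -/
noncomputable def Tm (D : Set K → Set K) (ε : ℝ) (F : Set K → ℝ → (K → ℝ) → ℝ) (A : Set K)
    (u : K → ℝ) (ζ : Ordinal.{0}) (e : ℝ) : ℝ :=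
  (1 + ε) * F (it D A ζ) e u - ε * e

noncomputable def Proc (D : Set K → Set K) (ε : ℝ) (F : Set K → ℝ → (K → ℝ) → ℝ) (A : Set K)
    (e : ℝ) (u : K → ℝ) : ℝ :=
  Th (Tm D ε F A u) (Lam D A) e

structure Good (F : Set K → ℝ → (K → ℝ) → ℝ) (κ M : ℝ) : Prop where
  eq : ∀ A e u, IsClosed A → Continuous u → (∀ h ∈ A, u h ≤ e) → F A e u = e
  ge : ∀ A e u, IsClosed A → Continuous u → e ≤ F A e u
  ub : ∀ A e u, IsClosed A → Continuous u → ∀ h ∈ A, u h ≤ F A e u
  lip : ∀ A e f u v η, IsClosed A → Continuous u → Continuous v →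
    (∀ h ∈ A, (e ≤ u h ∨ f ≤ v h) → |u h - v h| ≤ η) →
    (∃ h ∈ A, e ≤ u h) → (∃ h ∈ A, f ≤ v h) →
    |F A e u - F A f v| ≤ κ * |e - f| + M * η
  tr : ∀ A e u t, IsClosed A → Continuous u → F A (e + t) (fun h => u h + t) = F A e u + t

variable [CompactSpace K]

lemma exists_max {A : Set K} (hA : IsClosed A) {u : K → ℝ} (hu : Continuous u) {e : ℝ}
    (hact : ∃ h ∈ A, e ≤ u h) : ∃ h ∈ A, e ≤ u h ∧ ∀ x ∈ A, u x ≤ u h := by
  obtain ⟨h, hh, he⟩ := hact
  obtain ⟨h0, h1, h2⟩ := hA.isCompact.exists_isMaxOn ⟨h, hh⟩ hu.continuousOn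
  exact ⟨h0, h1, he.trans (h2 hh), fun x hx => h2 hx⟩

lemma Good.up {F : Set K → ℝ → (K → ℝ) → ℝ} {κ M : ℝ} (hκ : 0 ≤ κ) (hF : Good F κ M)
    {A : Set K} {e S : ℝ} {u : K → ℝ} (hA : IsClosed A) (hu : Continuous u)
    (hS : ∀ h ∈ A, u h ≤ S) (he : e ≤ S) : F A e u ≤ S + κ * (S - e) := by
  by_cases hact : ∃ h ∈ A, e ≤ u h
  · obtain ⟨h0, h1, h2, h3⟩ := exists_max hA hu hact
    have h4 := hF.lip A e (u h0) u u 0 hA hu hu (fun h _ _ => by simp) ⟨h0, h1, h2⟩
      ⟨h0, h1, le_refl _⟩
    rw [hF.eq A (u h0) u hA hu h3] at h4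
    have h5 := hS h0 h1
    have h6 : |e - u h0| = u h0 - e := by rw [abs_sub_comm, abs_of_nonneg (by linarith)]
    rw [h6] at h4
    have h7 := (abs_le.1 h4).2
    nlinarith
  · push Not at hact
    rw [hF.eq A e u hA hu (fun h hh => (hact h hh).le)]
    nlinarith [mul_nonneg hκ (sub_nonneg.2 he)]

lemma Tm_TT {D : Set K → Set K} (hD : Der D) {ε : ℝ} (hε : 0 ≤ ε)
    {F : Set K → ℝ → (K → ℝ) → ℝ} {κ' M' κ : ℝ} (hκ' : 0 ≤ κ') (hF : Good F κ' M')
    (hκ : (1 + ε) * κ' + ε ≤ κ) {A : Set K} (hA : IsClosed A) {u : K → ℝ} (hu : Continuous u)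
    {S : ℝ} (hS : ∀ h ∈ A, u h ≤ S) : TT (Tm D ε F A u) S κ where
  ge := by
    intro ζ e
    have := hF.ge (it D A ζ) e u (it_closed hD hA ζ) hu
    unfold Tm
    nlinarith
  le := by
    intro ζ e he
    have := hF.up hκ' (it_closed hD hA ζ) hu (fun h hh => hS h (it_sub D A ζ hh)) he
    unfold Tm
    have h1 : 0 ≤ S - e := by linarith
    nlinarith [mul_le_mul_of_nonneg_right hκ h1, mul_le_mul_of_nonneg_left this (by linarith : 0 ≤ 1 + ε)]
  eq := by
    intro ζ e he
    unfold Tm
    rw [hF.eq (it D A ζ) e u (it_closed hD hA ζ) hu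
      (fun h hh => (hS h (it_sub D A ζ hh)).trans he)]
    ring

lemma exists_ub {u : K → ℝ} (hu : Continuous u) (A : Set K) : ∃ S, ∀ h ∈ A, u h ≤ S := by
  obtain ⟨S, hS⟩ := (isCompact_univ.bddAbove_image hu.continuousOn)
  exact ⟨S, fun h _ => hS ⟨h, mem_univ _, rfl⟩⟩

lemma Tm_both {D : Set K → Set K} (hD : Der D) {ε : ℝ} (hε : 0 ≤ ε)
    {F : Set K → ℝ → (K → ℝ) → ℝ} {κ' M' κ : ℝ} (hF : Good F κ' M')
    (hκ : (1 + ε) * κ' + ε ≤ κ) {A : Set K} (hA : IsClosed A) {u v : K → ℝ}
    (hu : Continuous u) (hv : Continuous v) {e f η : ℝ} (ζ : Ordinal.{0})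
    (hloc : ∀ h ∈ it D A ζ, (e ≤ u h ∨ f ≤ v h) → |u h - v h| ≤ η)
    (hau : ∃ h ∈ it D A ζ, e ≤ u h) (hav : ∃ h ∈ it D A ζ, f ≤ v h) :
    |Tm D ε F A u ζ e - Tm D ε F A v ζ f| ≤ κ * |e - f| + (1 + ε) * M' * η := by
  have h1 := hF.lip (it D A ζ) e f u v η (it_closed hD hA ζ) hu hv hloc hau hav
  unfold Tm
  have h2 : (1 + ε) * F (it D A ζ) e u - ε * e - ((1 + ε) * F (it D A ζ) f v - ε * f)
      = (1 + ε) * (F (it D A ζ) e u - F (it D A ζ) f v) - ε * (e - f) := by ring
  rw [h2]
  refine (abs_sub _ _).trans ?_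
  rw [abs_mul, abs_mul, abs_of_nonneg hε, abs_of_nonneg (by linarith : 0 ≤ 1 + ε)]
  have h3 := abs_nonneg (e - f)
  nlinarith [mul_le_mul_of_nonneg_left h1 (by linarith : 0 ≤ 1 + ε),
    mul_le_mul_of_nonneg_right hκ h3]

lemma Tm_mix {D : Set K → Set K} (hD : Der D) {ε : ℝ} (hε : 0 ≤ ε)
    {F : Set K → ℝ → (K → ℝ) → ℝ} {κ' M' κ : ℝ} (hκ' : 0 ≤ κ') (hF : Good F κ' M')
    (hκ : (1 + ε) * κ' + ε ≤ κ) {A : Set K} (hA : IsClosed A) {u v : K → ℝ}
    (hu : Continuous u) {e f η : ℝ} (ζ : Ordinal.{0})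
    (hloc : ∀ h ∈ it D A ζ, e ≤ u h → |u h - v h| ≤ η)
    (hau : ∃ h ∈ it D A ζ, e ≤ u h) (hav : ∀ h ∈ it D A ζ, v h ≤ f) :
    Tm D ε F A u ζ e - f ≤ κ * |e - f| + (1 + κ) * η := by
  obtain ⟨h0, h1, h2, h3⟩ := exists_max (it_closed hD hA ζ) hu hau
  have h4 := hF.up hκ' (it_closed hD hA ζ) hu h3 h2
  have h5 := (abs_le.1 (hloc h0 h1 h2)).2
  have h6 := hav h0 h1
  unfold Tm
  have hκ0 : 0 ≤ κ := by nlinarith
  have h7 : f - e ≤ |e - f| := by rw [abs_sub_comm]; exact le_abs_self _
  have h8 : u h0 ≤ f + η := by linarith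
  have h9 : 0 ≤ u h0 - e := by linarith
  have h10 := mul_le_mul_of_nonneg_left h4 (by linarith : 0 ≤ 1 + ε)
  have h11 := mul_le_mul_of_nonneg_right hκ h9
  have h12 : κ * (u h0 - e) ≤ κ * (η + |e - f|) := mul_le_mul_of_nonneg_left (by linarith) hκ0
  nlinarith

theorem Good.proc {D : Set K → Set K} (hD : Der D) {ε : ℝ} (hε : 0 ≤ ε)
    {F : Set K → ℝ → (K → ℝ) → ℝ} {κ' M' κ M : ℝ} (hκ' : 0 ≤ κ') (hF : Good F κ' M')
    (hκ : (1 + ε) * κ' + ε ≤ κ) (hκ1 : κ < 1) (hM1 : (1 + ε) * M' ≤ (1 - κ) * M)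
    (hM2 : 1 + κ ≤ (1 - κ) * M) : Good (Proc D ε F) κ M := by
  have hκ0 : 0 ≤ κ := by nlinarith
  have hM0 : 1 ≤ M := by nlinarith
  refine ⟨?_, ?_, ?_, ?_, ?_⟩
  · intro A e u hA hu h
    obtain ⟨S, hS⟩ := exists_ub hu A
    have hT := Tm_TT hD hε hκ' hF hκ hA hu h
    exact (Th_bounds hκ0 hT (Lam D A) e).2.2.1 le_rfl
  · intro A e u hA hu
    obtain ⟨S, hS⟩ := exists_ub hu A
    have hT := Tm_TT hD hε hκ' hF hκ hA hu hS
    exact (Th_bounds hκ0 hT (Lam D A) e).1
  · intro A e u hA hu h hh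
    obtain ⟨S, hS⟩ := exists_ub hu A
    have hT := Tm_TT hD hε hκ' hF hκ hA hu hS
    have key : ∀ ζ : Ordinal.{0}, ζ ≠ 0 → ∀ e, u h ≤ Th (Tm D ε F A u) ζ e := by
      intro ζ
      induction ζ using WellFoundedLT.induction with
      | ind ζ ih =>
        intro h0 e
        refine ge_of_tendsto (Th_tendsto hκ0 hT h0 e) ?_
        filter_upwards [U_lt h0] with i hi
        by_cases hi0 : i = 0
        · subst hi0
          rw [Th_zero]
          unfold Tm
          rw [it_zero]
          have h1 := hF.ub A e u hA hu h hh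
          have h2 := hF.ge A e u hA hu
          nlinarith
        · exact ih i hi hi0 _
    exact key _ (Lam_ne D A) e
  · intro A e f u v η hA hu hv hloc hau hav
    have hη : 0 ≤ η := by
      obtain ⟨h, hh, he⟩ := hau
      exact (abs_nonneg _).trans (hloc h hh (Or.inl he))
    obtain ⟨S, hS⟩ := exists_ub hu A
    obtain ⟨S', hS'⟩ := exists_ub hv A
    have hT := Tm_TT hD hε hκ' hF hκ hA hu hS
    have hT' := Tm_TT hD hε hκ' hF hκ hA hv hS'
    have hstep : ∀ ζ e f, (∀ h ∈ A, (e ≤ u h ∨ f ≤ v h) → |u h - v h| ≤ η) →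
        |Tm D ε F A u ζ e - Tm D ε F A v ζ f| ≤ max |e - f| (M * η) := by
      intro ζ e f hl
      have hl' : ∀ h ∈ it D A ζ, (e ≤ u h ∨ f ≤ v h) → |u h - v h| ≤ η :=
        fun h hh => hl h (it_sub D A ζ hh)
      have hbig : ∀ x : ℝ, 0 ≤ x → ∀ P, P ≤ (1 - κ) * M * η → κ * x + P ≤ max x (M * η) := by
        intro x hx P hP
        rcases le_total x (M * η) with h | h
        · refine le_trans ?_ (le_max_right _ _)
          nlinarith
        · refine le_trans ?_ (le_max_left _ _)
          nlinarith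
      by_cases hau : ∃ h ∈ it D A ζ, e ≤ u h
      · by_cases hav : ∃ h ∈ it D A ζ, f ≤ v h
        · refine (Tm_both hD hε hF hκ hA hu hv ζ hl' hau hav).trans ?_
          exact hbig _ (abs_nonneg _) _ (by nlinarith)
        · push Not at hav
          have hav' : ∀ h ∈ it D A ζ, v h ≤ f := fun h hh => (hav h hh).le
          have h1 := Tm_mix hD hε hκ' hF hκ hA hu ζ (fun h hh he => hl' h hh (Or.inl he)) hau hav'
          have h2 : Tm D ε F A v ζ f = f := by
            unfold Tm
            rw [hF.eq _ f v (it_closed hD hA ζ) hv hav']; ring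
          rw [h2, abs_le]
          constructor
          · have h3 := hT.ge ζ e
            have h4 : f - e ≤ |e - f| := by rw [abs_sub_comm]; exact le_abs_self _
            have h5 := le_max_left |e - f| (M * η)
            linarith
          · exact h1.trans (hbig _ (abs_nonneg _) _ (by nlinarith))
      · push Not at hau
        have hau' : ∀ h ∈ it D A ζ, u h ≤ e := fun h hh => (hau h hh).le
        have h2 : Tm D ε F A u ζ e = e := by
          unfold Tm
          rw [hF.eq _ e u (it_closed hD hA ζ) hu hau']; ring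
        by_cases hav : ∃ h ∈ it D A ζ, f ≤ v h
        · have h1 := Tm_mix hD hε hκ' hF hκ hA hv ζ
            (fun h hh he => by rw [abs_sub_comm]; exact hl' h hh (Or.inr he)) hav hau'
          rw [h2, abs_le]
          rw [abs_sub_comm] at h1
          constructor
          · have := h1.trans (hbig _ (abs_nonneg _) _ (by nlinarith : (1 + κ) * η ≤ (1 - κ) * M * η))
            linarith
          · have h3 := hT'.ge ζ f
            have h4 : e - f ≤ |e - f| := le_abs_self _
            have h5 := le_max_left |e - f| (M * η)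
            linarith
        · push Not at hav
          have hav' : ∀ h ∈ it D A ζ, v h ≤ f := fun h hh => (hav h hh).le
          have h3 : Tm D ε F A v ζ f = f := by
            unfold Tm
            rw [hF.eq _ f v (it_closed hD hA ζ) hv hav']; ring
          rw [h2, h3]
          exact le_max_left _ _
    have hMM : (1 - κ) * M ≤ M := by nlinarith
    have hP1 : (1 + ε) * M' * η ≤ M * η := mul_le_mul_of_nonneg_right (hM1.trans hMM) hη
    have hP2 : (1 + κ) * η ≤ M * η := mul_le_mul_of_nonneg_right (hM2.trans hMM) hη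
    refine Th_cmp4 hκ0 hT hκ0 hT' (fun e f => ∀ h ∈ A, (e ≤ u h ∨ f ≤ v h) → |u h - v h| ≤ η)
      ?_ (M * η) hstep (by positivity) κ hκ0
      (fun e f => (∃ h ∈ A, e ≤ u h) ∧ (∃ h ∈ A, f ≤ v h)) ?_ (Lam D A) (Lam_ne D A) e f hloc
      ⟨hau, hav⟩
    · intro e f e' f' hl h1 h2 h hh hor
      exact hl h hh (hor.imp (fun h3 => h1.trans h3) (fun h3 => h2.trans h3))
    · intro ζ e f hl hG
      have hl' : ∀ h ∈ it D A ζ, (e ≤ u h ∨ f ≤ v h) → |u h - v h| ≤ η :=
        fun h hh => hl h (it_sub D A ζ hh)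
      by_cases hau : ∃ h ∈ it D A ζ, e ≤ u h
      · by_cases hav : ∃ h ∈ it D A ζ, f ≤ v h
        · left
          refine (Tm_both hD hε hF hκ hA hu hv ζ hl' hau hav).trans ?_
          linarith
        · push Not at hav
          have hav' : ∀ h ∈ it D A ζ, v h ≤ f := fun h hh => (hav h hh).le
          have h1 := Tm_mix hD hε hκ' hF hκ hA hu ζ (fun h hh he => hl' h hh (Or.inl he)) hau hav'
          have h2 : Tm D ε F A v ζ f = f := by
            unfold Tm
            rw [hF.eq _ f v (it_closed hD hA ζ) hv hav']; ring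
          have hge := hT.ge ζ e
          rw [h2]
          by_cases hlt : f ≤ Tm D ε F A u ζ e
          · left
            rw [abs_of_nonneg (by linarith)]
            linarith
          · push Not at hlt
            have h4 : f - e ≤ |e - f| := by rw [abs_sub_comm]; exact le_abs_self _
            have habs : |Tm D ε F A u ζ e - f| = f - Tm D ε F A u ζ e := by
              rw [abs_sub_comm, abs_of_nonneg (by linarith)]
            by_cases hact : ∃ h ∈ A, Tm D ε F A u ζ e ≤ u h
            · right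
              refine ⟨?_, ⟨hact, hG.2⟩, ?_⟩
              · rintro rfl
                rw [it_zero] at hav
                obtain ⟨h, hh, hf⟩ := hG.2
                exact absurd (hav h hh) (not_lt.2 hf)
              · rw [habs]; linarith
            · left
              push Not at hact
              obtain ⟨h, hh, hf⟩ := hG.2
              have h5 := hl h hh (Or.inr hf)
              have h6 := hact h hh
              have h7 := (abs_le.1 h5).1
              rw [habs]
              nlinarith [mul_nonneg hκ0 (abs_nonneg (e - f))]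
      · push Not at hau
        have hau' : ∀ h ∈ it D A ζ, u h ≤ e := fun h hh => (hau h hh).le
        have h2 : Tm D ε F A u ζ e = e := by
          unfold Tm
          rw [hF.eq _ e u (it_closed hD hA ζ) hu hau']; ring
        have hζ0 : ζ ≠ 0 := by
          rintro rfl
          rw [it_zero] at hau
          obtain ⟨h, hh, hf⟩ := hG.1
          exact absurd (hau h hh) (not_lt.2 hf)
        by_cases hav : ∃ h ∈ it D A ζ, f ≤ v h
        · have h1 := Tm_mix hD hε hκ' hF hκ hA hv ζ
            (fun h hh he => by rw [abs_sub_comm]; exact hl' h hh (Or.inr he)) hav hau'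
          have hge := hT'.ge ζ f
          rw [h2]
          rw [abs_sub_comm f e] at h1
          by_cases hlt : e ≤ Tm D ε F A v ζ f
          · left
            rw [abs_sub_comm, abs_of_nonneg (by linarith)]
            linarith
          · push Not at hlt
            have h4 : e - f ≤ |e - f| := le_abs_self _
            have habs : |e - Tm D ε F A v ζ f| = e - Tm D ε F A v ζ f := by
              rw [abs_of_nonneg (by linarith)]
            by_cases hact : ∃ h ∈ A, Tm D ε F A v ζ f ≤ v h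
            · right
              refine ⟨hζ0, ⟨hG.1, hact⟩, ?_⟩
              rw [habs]; linarith
            · left
              push Not at hact
              obtain ⟨h, hh, hf⟩ := hG.1
              have h5 := hl h hh (Or.inl hf)
              have h6 := hact h hh
              have h7 := (abs_le.1 h5).2
              rw [habs]
              nlinarith [mul_nonneg hκ0 (abs_nonneg (e - f))]
        · push Not at hav
          have hav' : ∀ h ∈ it D A ζ, v h ≤ f := fun h hh => (hav h hh).le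
          have h3 : Tm D ε F A v ζ f = f := by
            unfold Tm
            rw [hF.eq _ f v (it_closed hD hA ζ) hv hav']; ring
          right
          rw [h2, h3]
          exact ⟨hζ0, hG, le_rfl⟩
  · intro A e u t hA hu
    obtain ⟨S, hS⟩ := exists_ub hu A
    have hu' : Continuous (fun h => u h + t) := hu.add continuous_const
    obtain ⟨S', hS'⟩ := exists_ub hu' A
    have hT := Tm_TT hD hε hκ' hF hκ hA hu hS
    have hT' := Tm_TT hD hε hκ' hF hκ hA hu' hS'
    refine Th_translate hκ0 hT hκ0 hT' t ?_ (Lam D A) e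
    intro ζ e
    unfold Tm
    rw [hF.tr _ e u t (it_closed hD hA ζ) hu]
    ring

end Pool.Agent.Helper827.B
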