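import Mathlib
import Pool.Agent.Helper827.B2

set_option autoImplicit false
set_option linter.unusedSectionVars false

namespace Pool.Agent.Helper827.B

open Filter Topology Set

variable {K : Type} [TopologicalSpace K] [CompactSpace K]

noncomputable def F0 (A : Set K) (e : ℝ) (u : K → ℝ) : ℝ := sSup (insert e (u '' A))

lemma F0_inactive {A : Set K} {e : ℝ} {u : K → ℝ} (h : ∀ x ∈ A, u x ≤ e) : F0 A e u = e := by
  unfold F0
  apply le_antisymm
  · apply csSup_le ⟨e, mem_insert _ _⟩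
    rintro x (rfl | ⟨y, hy, rfl⟩)
    · exact le_rfl
    · exact h y hy
  · apply le_csSup
    · refine ⟨e, ?_⟩
      rintro x (rfl | ⟨y, hy, rfl⟩)
      · exact le_rfl
      · exact h y hy
    · exact mem_insert _ _

lemma F0_active {A : Set K} {e : ℝ} {u : K → ℝ} {h0 : K} (h1 : h0 ∈ A) (h2 : e ≤ u h0)
    (h3 : ∀ x ∈ A, u x ≤ u h0) : F0 A e u = u h0 := by
  unfold F0
  apply le_antisymm
  · apply csSup_le ⟨e, mem_insert _ _⟩
    rintro x (rfl | ⟨y, hy, rfl⟩)
    · exact h2
    · exact h3 y hy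
  · apply le_csSup
    · refine ⟨u h0, ?_⟩
      rintro x (rfl | ⟨y, hy, rfl⟩)
      · exact h2
      · exact h3 y hy
    · exact mem_insert_of_mem _ ⟨h0, h1, rfl⟩

lemma F0_bdd {A : Set K} {e : ℝ} {u : K → ℝ} (hu : Continuous u) : BddAbove (insert e (u '' A)) := by
  obtain ⟨S, hS⟩ := exists_ub hu A
  refine ⟨max e S, ?_⟩
  rintro x (rfl | ⟨y, hy, rfl⟩)
  · exact le_max_left _ _
  · exact (hS y hy).trans (le_max_right _ _)

lemma F0_good : Good (F0 (K := K)) 0 1 := by
  refine ⟨?_, ?_, ?_, ?_, ?_⟩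
  · intro A e u _ _ h
    exact F0_inactive h
  · intro A e u _ hu
    exact le_csSup (F0_bdd hu) (mem_insert _ _)
  · intro A e u _ hu h hh
    exact le_csSup (F0_bdd hu) (mem_insert_of_mem _ ⟨h, hh, rfl⟩)
  · intro A e f u v η hA hu hv hloc hau hav
    obtain ⟨a, a1, a2, a3⟩ := exists_max hA hu hau
    obtain ⟨b, b1, b2, b3⟩ := exists_max hA hv hav
    rw [F0_active a1 a2 a3, F0_active b1 b2 b3, abs_le]
    have h1 := abs_le.1 (hloc a a1 (Or.inl a2))
    have h2 := abs_le.1 (hloc b b1 (Or.inr b2))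
    have h3 := a3 b b1
    have h4 := b3 a a1
    constructor <;> linarith [h1.1, h1.2, h2.1, h2.2]
  · intro A e u t hA hu
    by_cases h : ∃ x ∈ A, e ≤ u x
    · obtain ⟨a, a1, a2, a3⟩ := exists_max hA hu h
      rw [F0_active a1 a2 a3]
      exact F0_active (u := fun h => u h + t) a1 (by simpa using a2) (fun x hx => by simpa using a3 x hx)
    · push Not at h
      rw [F0_inactive (fun x hx => (h x hx).le)]
      exact F0_inactive (fun x hx => by simpa using (h x hx).le)

lemma Good.mono {F : Set K → ℝ → (K → ℝ) → ℝ} {κ M κ₂ M₂ : ℝ} (hF : Good F κ M) (h1 : κ ≤ κ₂)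
    (h2 : M ≤ M₂) : Good F κ₂ M₂ := by
  refine ⟨hF.eq, hF.ge, hF.ub, ?_, hF.tr⟩
  intro A e f u v η hA hu hv hloc hau hav
  have hη : 0 ≤ η := by
    obtain ⟨h, hh, he⟩ := hau
    exact (abs_nonneg _).trans (hloc h hh (Or.inl he))
  refine (hF.lip A e f u v η hA hu hv hloc hau hav).trans ?_
  nlinarith [mul_le_mul_of_nonneg_right h1 (abs_nonneg (e - f)), mul_le_mul_of_nonneg_right h2 hη]

noncomputable def eps (k : ℕ) : ℝ := (1 / 64) ^ (k + 1)
noncomputable def kap (k : ℕ) : ℝ := 2 * eps k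
noncomputable def MM (k : ℕ) : ℝ := 1 + 6 * eps k

lemma eps_pos (k : ℕ) : 0 < eps k := by unfold eps; positivity
lemma eps_le (k : ℕ) : eps k ≤ 1 / 64 := by
  unfold eps
  calc (1 / 64 : ℝ) ^ (k + 1) ≤ (1 / 64) ^ 1 :=
        pow_le_pow_of_le_one (by norm_num) (by norm_num) (by omega)
    _ = 1 / 64 := by norm_num
lemma eps_succ (k : ℕ) : eps (k + 1) = eps k / 64 := by unfold eps; ring
lemma kap_pos (k : ℕ) : 0 < kap k := by unfold kap; have := eps_pos k; linarith
lemma kap_le (k : ℕ) : kap k ≤ 1 / 32 := by unfold kap; have := eps_le k; linarith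
lemma MM_le (k : ℕ) : MM k ≤ 2 := by unfold MM; have := eps_le k; linarith
lemma MM_ge (k : ℕ) : 1 ≤ MM k := by unfold MM; have := eps_pos k; linarith

lemma good_step {D : Set K → Set K} (hD : Der D) {F : Set K → ℝ → (K → ℝ) → ℝ} (k : ℕ)
    (hF : Good F (kap (k + 1)) (MM (k + 1))) : Good (Proc D (eps k) F) (kap k) (MM k) := by
  have h0 := eps_pos k
  have h1 := eps_le k
  have h2 := eps_succ k
  refine Good.proc hD h0.le (kap_pos (k + 1)).le hF ?_ ?_ ?_ ?_
  · unfold kap; rw [h2]; nlinarith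
  · have := kap_le k; linarith
  · unfold kap MM; rw [h2]; nlinarith
  · unfold kap MM; nlinarith

noncomputable def PhiM (D : ℕ → Set K → Set K) : ℕ → ℕ → Set K → ℝ → (K → ℝ) → ℝ
  | 0, _ => F0
  | m + 1, k => Proc (D k) (eps k) (PhiM D m (k + 1))

lemma PhiM_good {D : ℕ → Set K → Set K} (hD : ∀ k, Der (D k)) (m : ℕ) :
    ∀ k, Good (PhiM D m k) (kap k) (MM k) := by
  induction m with
  | zero =>
    intro k
    exact F0_good.mono (kap_pos k).le (MM_ge k)
  | succ m ih =>
    intro k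
    exact good_step (hD k) k (ih (k + 1))

/-- stability of the process -/
lemma proc_err {D : Set K → Set K} (hD : Der D) {F1 F2 : Set K → ℝ → (K → ℝ) → ℝ} (k : ℕ)
    (hF1 : Good F1 (kap (k + 1)) (MM (k + 1))) (hF2 : Good F2 (kap (k + 1)) (MM (k + 1)))
    {u : K → ℝ} (hu : Continuous u) {e0 θ : ℝ}
    (h : ∀ A, IsClosed A → ∀ e, e0 ≤ e → |F1 A e u - F2 A e u| ≤ θ) {A : Set K} (hA : IsClosed A)
    {e : ℝ} (he : e0 ≤ e) :
    |Proc D (eps k) F1 A e u - Proc D (eps k) F2 A e u| ≤ 2 * θ := by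
  have h0 := eps_pos k
  have h1 := eps_le k
  have h2 := eps_succ k
  have hθ : 0 ≤ θ := (abs_nonneg _).trans (h A hA e he)
  have hκ : (1 + eps k) * kap (k + 1) + eps k ≤ kap k := by unfold kap; rw [h2]; nlinarith
  have hκ1 := kap_le k
  have hκ0 := kap_pos k
  obtain ⟨S, hS⟩ := exists_ub hu A
  have hT1 := Tm_TT hD h0.le (kap_pos (k + 1)).le hF1 hκ hA hu hS
  have hT2 := Tm_TT hD h0.le (kap_pos (k + 1)).le hF2 hκ hA hu hS
  have hbig : ∀ x : ℝ, 0 ≤ x → ∀ P, P ≤ (1 + eps k) * θ → kap k * x + P ≤ max x (2 * θ) := by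
    intro x hx P hP
    rcases le_total x (2 * θ) with h | h
    · refine le_trans ?_ (le_max_right _ _)
      nlinarith
    · refine le_trans ?_ (le_max_left _ _)
      nlinarith
  have hθ2 : 0 ≤ (1 + eps k) * θ := by positivity
  have := Th_cmp hκ0.le hT1 hκ0.le hT2 (fun e f => e0 ≤ e ∧ e0 ≤ f)
    (fun e f e' f' hl h1 h2 => ⟨hl.1.trans h1, hl.2.trans h2⟩) (2 * θ) ?_ (by positivity)
    (Lam D A) e e ⟨he, he⟩
  · rw [sub_self, abs_zero, max_eq_right (by positivity)] at this
    exact this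
  · intro ζ e f hl
    by_cases hau : ∃ h ∈ it D A ζ, e ≤ u h
    · by_cases hav : ∃ h ∈ it D A ζ, f ≤ u h
      · have a1 := Tm_both hD h0.le hF1 hκ hA hu hu (η := 0) ζ (fun h _ _ => by simp) hau hav
        have a2 : |Tm D (eps k) F1 A u ζ f - Tm D (eps k) F2 A u ζ f| ≤ (1 + eps k) * θ := by
          have := h (it D A ζ) (it_closed hD hA ζ) f hl.2
          unfold Tm
          have e1 : (1 + eps k) * F1 (it D A ζ) f u - eps k * f -
            ((1 + eps k) * F2 (it D A ζ) f u - eps k * f) =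
            (1 + eps k) * (F1 (it D A ζ) f u - F2 (it D A ζ) f u) := by ring
          rw [e1, abs_mul, abs_of_nonneg (by linarith : 0 ≤ 1 + eps k)]
          exact mul_le_mul_of_nonneg_left this (by linarith)
        have a3 := abs_sub_le (Tm D (eps k) F1 A u ζ e) (Tm D (eps k) F1 A u ζ f)
          (Tm D (eps k) F2 A u ζ f)
        have a4 := hbig _ (abs_nonneg (e - f)) _ le_rfl
        linarith
      · push Not at hav
        have hav' : ∀ h ∈ it D A ζ, u h ≤ f := fun h hh => (hav h hh).le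
        have b1 := Tm_mix hD h0.le (kap_pos (k + 1)).le hF1 hκ hA hu (v := u) (f := f) (η := 0) ζ
          (fun h _ _ => by simp) hau hav'
        have b2 : Tm D (eps k) F2 A u ζ f = f := by
          unfold Tm
          rw [hF2.eq _ f u (it_closed hD hA ζ) hu hav']; ring
        have b3 := hT1.ge ζ e
        have b4 : f - e ≤ |e - f| := by rw [abs_sub_comm]; exact le_abs_self _
        have b5 := hbig _ (abs_nonneg (e - f)) 0 hθ2
        have b6 := le_max_left |e - f| (2 * θ)
        rw [b2, abs_le]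
        constructor <;> linarith
    · push Not at hau
      have hau' : ∀ h ∈ it D A ζ, u h ≤ e := fun h hh => (hau h hh).le
      have b2 : Tm D (eps k) F1 A u ζ e = e := by
        unfold Tm
        rw [hF1.eq _ e u (it_closed hD hA ζ) hu hau']; ring
      have b6 := le_max_left |e - f| (2 * θ)
      by_cases hav : ∃ h ∈ it D A ζ, f ≤ u h
      · have b1 := Tm_mix hD h0.le (kap_pos (k + 1)).le hF2 hκ hA hu (v := u) (f := e) (η := 0) ζ
          (fun h _ _ => by simp) hav hau'
        rw [abs_sub_comm f e] at b1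
        have b3 := hT2.ge ζ f
        have b4 : e - f ≤ |e - f| := le_abs_self _
        have b5 := hbig _ (abs_nonneg (e - f)) 0 hθ2
        rw [b2, abs_le]
        constructor <;> linarith
      · push Not at hav
        have hav' : ∀ h ∈ it D A ζ, u h ≤ f := fun h hh => (hav h hh).le
        have b3 : Tm D (eps k) F2 A u ζ f = f := by
          unfold Tm
          rw [hF2.eq _ f u (it_closed hD hA ζ) hu hav']; ring
        rw [b2, b3]
        exact b6

lemma PhiM_cauchy {D : ℕ → Set K → Set K} (hD : ∀ k, Der (D k)) {u : K → ℝ} (hu : Continuous u)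
    {e0 R : ℝ} (hR : ∀ h : K, u h - e0 ≤ R) (hR0 : 0 ≤ R) (m : ℕ) :
    ∀ k, ∀ A, IsClosed A → ∀ e, e0 ≤ e →
      |PhiM D (m + 1) k A e u - PhiM D m k A e u| ≤ 2 ^ m * kap (k + m) * R := by
  induction m with
  | zero =>
    intro k A hA e he
    have g0 := PhiM_good hD 0 k
    have g1 := PhiM_good hD 1 k
    by_cases hact : ∃ h ∈ A, e ≤ u h
    · obtain ⟨a, a1, a2, a3⟩ := exists_max hA hu hact
      have e0' : PhiM D 0 k A e u = u a := F0_active a1 a2 a3
      have h1 := g1.ub A e u hA hu a a1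
      have h2 := g1.up (kap_pos k).le hA hu a3 a2
      have h3 := hR a
      have h4 := kap_pos k
      simp only [zero_add] at *
      rw [e0', abs_of_nonneg (by linarith)]
      simp only [pow_zero, one_mul, add_zero]
      have h5 : kap k * (u a - e) ≤ kap k * R := mul_le_mul_of_nonneg_left (by linarith) h4.le
      linarith
    · push Not at hact
      have h1 := g0.eq A e u hA hu (fun h hh => (hact h hh).le)
      have h2 := g1.eq A e u hA hu (fun h hh => (hact h hh).le)
      simp only [zero_add] at *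
      rw [h1, h2, sub_self, abs_zero]
      have := kap_pos k
      simp only [pow_zero, one_mul, add_zero]
      positivity
  | succ m ih =>
    intro k A hA e he
    have := proc_err (hD k) k (PhiM_good hD (m + 1) (k + 1)) (PhiM_good hD m (k + 1)) hu
      (fun A hA e he => ih (k + 1) A hA e he) hA he
    have e1 : 2 * (2 ^ m * kap (k + 1 + m) * R) = 2 ^ (m + 1) * kap (k + (m + 1)) * R := by
      rw [show k + 1 + m = k + (m + 1) by omega]; ring
    rw [e1] at this
    exact this

lemma kap_geom (k m : ℕ) : 2 ^ m * kap (k + m) = kap k * (1 / 32) ^ m := by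
  unfold kap eps
  have : (1 / 64 : ℝ) ^ (k + m + 1) = (1 / 64) ^ (k + 1) * (1 / 64) ^ m := by ring
  rw [this]
  have h2 : (1 / 32 : ℝ) ^ m = 2 ^ m * (1 / 64) ^ m := by
    rw [← mul_pow]; norm_num
  rw [h2]; ring

noncomputable def Phi (D : ℕ → Set K → Set K) (k : ℕ) (A : Set K) (e : ℝ) (u : K → ℝ) : ℝ :=
  limUnder atTop (fun m => PhiM D m k A e u)

lemma exists_R {u : K → ℝ} (hu : Continuous u) (e0 : ℝ) : ∃ R, 0 ≤ R ∧ ∀ h : K, u h - e0 ≤ R := by
  obtain ⟨S, hS⟩ := exists_ub hu univ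
  refine ⟨max 0 (S - e0), le_max_left _ _, fun h => ?_⟩
  have := hS h (mem_univ _)
  exact le_trans (by linarith) (le_max_right _ _)

lemma Phi_tendsto {D : ℕ → Set K → Set K} (hD : ∀ k, Der (D k)) (k : ℕ) {A : Set K}
    (hA : IsClosed A) (e : ℝ) {u : K → ℝ} (hu : Continuous u) :
    Tendsto (fun m => PhiM D m k A e u) atTop (𝓝 (Phi D k A e u)) := by
  obtain ⟨R, hR0, hR⟩ := exists_R hu e
  have hc : CauchySeq (fun m => PhiM D m k A e u) := by
    apply cauchySeq_of_le_geometric (1 / 32) (kap k * R) (by norm_num)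
    intro m
    rw [dist_comm, Real.dist_eq]
    refine (PhiM_cauchy hD hu hR hR0 m k A hA e le_rfl).trans ?_
    rw [kap_geom]
    apply le_of_eq; ring
  exact (cauchySeq_tendsto_of_complete hc).elim fun x hx => tendsto_nhds_limUnder ⟨x, hx⟩

lemma Phi_err {D : ℕ → Set K → Set K} (hD : ∀ k, Der (D k)) (k : ℕ) {u : K → ℝ}
    (hu : Continuous u) {e0 R : ℝ} (hR : ∀ h : K, u h - e0 ≤ R) (hR0 : 0 ≤ R) (m : ℕ) {A : Set K}
    (hA : IsClosed A) {e : ℝ} (he : e0 ≤ e) :
    |PhiM D m k A e u - Phi D k A e u| ≤ 2 * (kap k * R) * (1 / 32) ^ m := by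
  have := dist_le_of_le_geometric_of_tendsto (1 / 32) (kap k * R) (by norm_num)
    (f := fun m => PhiM D m k A e u) (by
      intro m
      rw [dist_comm, Real.dist_eq]
      refine (PhiM_cauchy hD hu hR hR0 m k A hA e he).trans ?_
      rw [kap_geom]
      apply le_of_eq; ring) (Phi_tendsto hD k hA e hu) m
  rw [Real.dist_eq] at this
  refine this.trans ?_
  have h1 : 0 ≤ kap k * R := mul_nonneg (kap_pos k).le hR0
  have h2 : (0 : ℝ) ≤ (1 / 32) ^ m := by positivity
  rw [div_le_iff₀ (by norm_num)]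
  nlinarith [mul_nonneg h1 h2]

theorem Phi_good {D : ℕ → Set K → Set K} (hD : ∀ k, Der (D k)) (k : ℕ) :
    Good (Phi D k) (kap k) (MM k) := by
  have hg := fun m => PhiM_good hD m k
  refine ⟨?_, ?_, ?_, ?_, ?_⟩
  · intro A e u hA hu h
    refine tendsto_nhds_unique (Phi_tendsto hD k hA e hu) ?_
    refine tendsto_const_nhds.congr ?_
    intro m
    exact ((hg m).eq A e u hA hu h).symm
  · intro A e u hA hu
    exact ge_of_tendsto' (Phi_tendsto hD k hA e hu) (fun m => (hg m).ge A e u hA hu)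
  · intro A e u hA hu h hh
    exact ge_of_tendsto' (Phi_tendsto hD k hA e hu) (fun m => (hg m).ub A e u hA hu h hh)
  · intro A e f u v η hA hu hv hloc hau hav
    exact le_of_tendsto' ((Phi_tendsto hD k hA e hu).sub (Phi_tendsto hD k hA f hv)).abs
      (fun m => (hg m).lip A e f u v η hA hu hv hloc hau hav)
  · intro A e u t hA hu
    refine tendsto_nhds_unique
      (Phi_tendsto hD k hA (e + t) (hu.add continuous_const : Continuous fun h => u h + t)) ?_
    refine ((Phi_tendsto hD k hA e hu).add_const t).congr ?_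
    intro m
    exact ((hg m).tr A e u t hA hu).symm

theorem Phi_self {D : ℕ → Set K → Set K} (hD : ∀ k, Der (D k)) (k : ℕ) {A : Set K}
    (hA : IsClosed A) (e : ℝ) {u : K → ℝ} (hu : Continuous u) :
    Phi D k A e u = Proc (D k) (eps k) (Phi D (k + 1)) A e u := by
  obtain ⟨R, hR0, hR⟩ := exists_R hu e
  have h1 : Tendsto (fun m => PhiM D (m + 1) k A e u) atTop (𝓝 (Phi D k A e u)) :=
    (tendsto_add_atTop_iff_nat 1).2 (Phi_tendsto hD k hA e hu)
  refine tendsto_nhds_unique h1 ?_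
  rw [tendsto_iff_dist_tendsto_zero]
  have h2 : Tendsto (fun m : ℕ => 2 * (2 * (kap (k + 1) * R) * (1 / 32 : ℝ) ^ m)) atTop (𝓝 0) := by
    have := tendsto_pow_atTop_nhds_zero_of_lt_one (r := (1 / 32 : ℝ)) (by norm_num) (by norm_num)
    have h3 := this.const_mul (2 * (2 * (kap (k + 1) * R)))
    rw [mul_zero] at h3
    refine h3.congr (fun m => by ring)
  refine squeeze_zero (fun _ => dist_nonneg) (fun m => ?_) h2
  rw [Real.dist_eq]
  exact proc_err (hD k) k (PhiM_good hD m (k + 1)) (Phi_good hD (k + 1)) hu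
    (fun A hA e he => Phi_err hD (k + 1) hu hR hR0 m hA he) hA le_rfl

end Pool.Agent.Helper827.B
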