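import Mathlib
import Pool.Agent.Helper827.B3

set_option autoImplicit false
set_option linter.unusedSectionVars false

namespace Pool.Agent.Helper827.B

open Filter Topology Set

variable {K : Type} [TopologicalSpace K] [CompactSpace K]

lemma Tm_lip {D : Set K → Set K} (hD : Der D) {ε : ℝ} (hε : 0 ≤ ε)
    {F : Set K → ℝ → (K → ℝ) → ℝ} {κ' M' κ M : ℝ} (hκ' : 0 ≤ κ') (hF : Good F κ' M')
    (hκ : (1 + ε) * κ' + ε ≤ κ) (hκ1 : κ < 1) (hM1 : (1 + ε) * M' ≤ (1 - κ) * M)
    (hM2 : 1 + κ ≤ (1 - κ) * M) {A : Set K} (hA : IsClosed A) {u v : K → ℝ} (hu : Continuous u)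
    (hv : Continuous v) {e f η : ℝ} (hη : 0 ≤ η) (ζ : Ordinal.{0})
    (hl : ∀ h ∈ it D A ζ, |u h - v h| ≤ η) :
    |Tm D ε F A u ζ e - Tm D ε F A v ζ f| ≤ max |e - f| (M * η) := by
  have hκ0 : 0 ≤ κ := by nlinarith
  have hl' : ∀ h ∈ it D A ζ, (e ≤ u h ∨ f ≤ v h) → |u h - v h| ≤ η := fun h hh _ => hl h hh
  have hbig : ∀ x : ℝ, 0 ≤ x → ∀ P, P ≤ (1 - κ) * M * η → κ * x + P ≤ max x (M * η) := by
    intro x hx P hP
    rcases le_total x (M * η) with h | h
    · refine le_trans ?_ (le_max_right _ _)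
      nlinarith
    · refine le_trans ?_ (le_max_left _ _)
      nlinarith
  obtain ⟨S, hS⟩ := exists_ub hu A
  obtain ⟨S', hS'⟩ := exists_ub hv A
  have hT := Tm_TT hD hε hκ' hF hκ hA hu hS
  have hT' := Tm_TT hD hε hκ' hF hκ hA hv hS'
  by_cases hau : ∃ h ∈ it D A ζ, e ≤ u h
  · by_cases hav : ∃ h ∈ it D A ζ, f ≤ v h
    · refine (Tm_both hD hε hF hκ hA hu hv ζ hl' hau hav).trans ?_
      exact hbig _ (abs_nonneg _) _ (by nlinarith)
    · push Not at hav
      have hav' : ∀ h ∈ it D A ζ, v h ≤ f := fun h hh => (hav h hh).le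
      have h1 := Tm_mix hD hε hκ' hF hκ hA hu ζ (fun h hh he => hl' h hh (Or.inl he)) hau hav'
      have h2 : Tm D ε F A v ζ f = f := by
        unfold Tm
        rw [hF.eq _ f v (it_closed hD hA ζ) hv hav']; ring
      rw [h2, abs_le]
      constructor
      · have h3 := hT.ge ζ e
        have h4 : f - e ≤ |e - f| := by rw [abs_sub_comm]; exact le_abs_self _
        have h5 := le_max_left |e - f| (M * η)
        linarith
      · exact h1.trans (hbig _ (abs_nonneg _) _ (by nlinarith))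
  · push Not at hau
    have hau' : ∀ h ∈ it D A ζ, u h ≤ e := fun h hh => (hau h hh).le
    have h2 : Tm D ε F A u ζ e = e := by
      unfold Tm
      rw [hF.eq _ e u (it_closed hD hA ζ) hu hau']; ring
    by_cases hav : ∃ h ∈ it D A ζ, f ≤ v h
    · have h1 := Tm_mix hD hε hκ' hF hκ hA hv ζ
        (fun h hh he => by rw [abs_sub_comm]; exact hl' h hh (Or.inr he)) hav hau'
      rw [h2, abs_le]
      rw [abs_sub_comm] at h1
      constructor
      · have := h1.trans (hbig _ (abs_nonneg _) _ (by nlinarith : (1 + κ) * η ≤ (1 - κ) * M * η))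
        linarith
      · have h3 := hT'.ge ζ f
        have h4 : e - f ≤ |e - f| := le_abs_self _
        have h5 := le_max_left |e - f| (M * η)
        linarith
    · push Not at hav
      have hav' : ∀ h ∈ it D A ζ, v h ≤ f := fun h hh => (hav h hh).le
      have h3 : Tm D ε F A v ζ f = f := by
        unfold Tm
        rw [hF.eq _ f v (it_closed hD hA ζ) hv hav']; ring
      rw [h2, h3]
      exact le_max_left _ _

variable (D : ℕ → Set K → Set K)

/-- the one-step map at level k -/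
noncomputable def TT1 (k : ℕ) (A : Set K) (u : K → ℝ) (ζ : Ordinal.{0}) (e : ℝ) : ℝ :=
  Tm (D k) (eps k) (Phi D (k + 1)) A u ζ e

variable {D}

lemma const1 (k : ℕ) : (1 + eps k) * kap (k + 1) + eps k ≤ kap k := by
  have h0 := eps_pos k
  have h1 := eps_le k
  have h2 := eps_succ k
  unfold kap; rw [h2]; nlinarith

lemma TT1_TT (hD : ∀ k, Der (D k)) (k : ℕ) {A : Set K} (hA : IsClosed A) {u : K → ℝ}
    (hu : Continuous u) {S : ℝ} (hS : ∀ h ∈ A, u h ≤ S) : TT (TT1 D k A u) S (kap k) :=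
  Tm_TT (hD k) (eps_pos k).le (kap_pos (k + 1)).le (Phi_good hD (k + 1)) (const1 k) hA hu hS

lemma TT1_lip (hD : ∀ k, Der (D k)) (k : ℕ) {A : Set K} (hA : IsClosed A) {u v : K → ℝ}
    (hu : Continuous u) (hv : Continuous v) {e f η : ℝ} (hη : 0 ≤ η) (ζ : Ordinal.{0})
    (hl : ∀ h ∈ it (D k) A ζ, |u h - v h| ≤ η) :
    |TT1 D k A u ζ e - TT1 D k A v ζ f| ≤ max |e - f| (MM k * η) := by
  have h0 := eps_pos k
  have h1 := eps_le k
  have h2 := eps_succ k
  refine Tm_lip (hD k) h0.le (kap_pos (k + 1)).le (Phi_good hD (k + 1)) (const1 k) ?_ ?_ ?_ hA hu hv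
    hη ζ hl
  · have := kap_le k; linarith
  · unfold kap MM; rw [h2]; nlinarith
  · unfold kap MM; nlinarith

lemma one_step (hD : ∀ k, Der (D k)) (k : ℕ) {A : Set K} (hA : IsClosed A) {v : K → ℝ}
    (hv : Continuous v) (ζ : Ordinal.{0}) {f : ℝ}
    (h : ∀ x ∈ it (D k) A (ζ + 1), v x ≤ f) :
    Phi D k A f v = Phi D k A (TT1 D k A v ζ f) v := by
  obtain ⟨S, hS⟩ := exists_ub hv A
  have hT := TT1_TT hD k hA hv hS
  have hκ := (kap_pos k).le
  have hg := Phi_good hD (k + 1)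
  rw [Phi_self hD k hA f hv, Phi_self hD k hA _ hv]
  unfold Proc
  have hTT : Tm (D k) (eps k) (Phi D (k + 1)) A v = TT1 D k A v := rfl
  rw [hTT]
  rcases lt_or_ge ζ (Lam (D k) A) with hlt | hge
  · have h1 : Th (TT1 D k A v) (Lam (D k) A) f = Th (TT1 D k A v) (ζ + 1) f := by
      apply Th_tail hκ hT
      · exact Order.add_one_le_of_lt hlt
      · intro ζ' h1 h2
        unfold TT1 Tm
        rw [hg.eq _ f v (it_closed (hD k) hA ζ') hv (fun x hx => h x (it_anti _ _ h1 hx))]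
        ring
    have h2 : Th (TT1 D k A v) (Lam (D k) A) (TT1 D k A v ζ f)
        = Th (TT1 D k A v) ζ (TT1 D k A v ζ f) := by
      apply Th_tail hκ hT
      · exact hlt.le
      · intro ζ' h1 h2
        have hz : ∀ x ∈ it (D k) A ζ', v x ≤ TT1 D k A v ζ f := by
          intro x hx
          have hx' := it_anti _ _ h1 hx
          have a1 := hg.ub _ f v (it_closed (hD k) hA ζ) hv x hx'
          have a2 := hg.ge _ f v (it_closed (hD k) hA ζ) hv
          unfold TT1 Tm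
          have := eps_pos k
          nlinarith
        have key : ∀ w, (∀ x ∈ it (D k) A ζ', v x ≤ w) → TT1 D k A v ζ' w = w := by
          intro w hw
          unfold TT1 Tm
          rw [hg.eq _ _ v (it_closed (hD k) hA ζ') hv hw]
          ring
        have := key _ hz
        exact this
    rw [h1, h2, Th_succ hκ hT]
  · have h1 : it (D k) A ζ = ∅ := by
      have := it_anti (D k) A hge
      rw [Lam_empty (hD k) hA] at this
      exact subset_empty_iff.1 this
    have : TT1 D k A v ζ f = f := by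
      unfold TT1 Tm
      rw [hg.eq _ f v (it_closed (hD k) hA ζ) hv (by rw [h1]; simp)]
      ring
    rw [this]

/-- the strictly highest active index -/
def Top (D : ℕ → Set K → Set K) (k : ℕ) (A : Set K) (u : K → ℝ) (ζ : Ordinal.{0}) (e : ℝ) : Prop :=
  (∃ h ∈ it (D k) A ζ, e < u h) ∧ (∀ h ∈ it (D k) A (ζ + 1), u h < e)

lemma top_exists (hD : ∀ k, Der (D k)) (k : ℕ) {A : Set K} (hA : IsClosed A) {u : K → ℝ}
    (hu : Continuous u) {e : ℝ} (hact : ∃ h ∈ A, e ≤ u h) :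
    ∃ ζ, (∃ h ∈ it (D k) A ζ, e ≤ u h) ∧ (∀ h ∈ it (D k) A (ζ + 1), u h < e) := by
  have hex : ∃ ζ, ∀ h ∈ it (D k) A ζ, u h < e := by
    obtain ⟨ζ, -, hz⟩ := it_empty (hD k) hA
    exact ⟨ζ, by rw [hz]; simp⟩
  let P : Set Ordinal.{0} := {ζ | ∀ h ∈ it (D k) A ζ, u h < e}
  have hP : P.Nonempty := hex
  let μ := WellFounded.min (wellFounded_lt (α := Ordinal.{0})) P hP
  have hμ : μ ∈ P := WellFounded.min_mem _ _ _
  have hmin : ∀ ζ < μ, ∃ h ∈ it (D k) A ζ, e ≤ u h := by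
    intro ζ hζ
    by_contra hcon
    push Not at hcon
    exact WellFounded.not_lt_min (wellFounded_lt (α := Ordinal.{0})) P (x := ζ) hcon hζ
  have hμ0 : μ ≠ 0 := by
    intro h0
    obtain ⟨h, hh, he⟩ := hact
    have := hμ h (by rw [h0, it_zero]; exact hh)
    linarith
  -- the intersection of the sets D (it ζ), ζ < μ
  by_contra hcon
  push Not at hcon
  -- for each ζ < μ there is an active point of it (ζ+1)
  have h2 : ∀ ζ < μ, ∃ h ∈ it (D k) A (ζ + 1), e ≤ u h := fun ζ hζ => hcon ζ (hmin ζ hζ)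
  have : (⋂ ζ : Set.Iio μ, (it (D k) A (ζ.1 + 1) ∩ {h | e ≤ u h})).Nonempty := by
    have : Nonempty (Set.Iio μ) := ⟨⟨0, pos_iff_ne_zero.2 hμ0⟩⟩
    apply IsCompact.nonempty_iInter_of_directed_nonempty_isCompact_isClosed
    · intro a b
      refine ⟨max a b, ?_, ?_⟩
      · intro x hx
        exact ⟨it_anti _ _ (add_le_add_left (by exact_mod_cast le_max_left a b : a.1 ≤ (max a b).1) 1) hx.1, hx.2⟩
      · intro x hx
        exact ⟨it_anti _ _ (add_le_add_left (by exact_mod_cast le_max_right a b : b.1 ≤ (max a b).1) 1) hx.1, hx.2⟩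
    · intro a
      obtain ⟨h, hh, he⟩ := h2 a.1 a.2
      exact ⟨h, hh, he⟩
    · intro a
      exact ((it_closed (hD k) hA _).inter (isClosed_le continuous_const hu)).isCompact
    · intro a
      exact (it_closed (hD k) hA _).inter (isClosed_le continuous_const hu)
  obtain ⟨x, hx⟩ := this
  simp only [mem_iInter] at hx
  have hxμ : x ∈ it (D k) A μ := by
    rw [it]
    refine ⟨?_, ?_⟩
    · exact it_sub _ _ _ (hx ⟨0, pos_iff_ne_zero.2 hμ0⟩).1
    · simp only [mem_iInter]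
      intro i
      have := (hx i).1
      rw [it_succ (hD k)] at this
      exact this
  have h3 := hμ x hxμ
  have h4 : e ≤ u x := (hx ⟨0, pos_iff_ne_zero.2 hμ0⟩).2
  linarith

lemma countable_left {s : Set ℝ} (h : ∀ x ∈ s, ∃ y < x, s ∩ Ioo y x = ∅) : s.Countable := by
  choose! y hy h'y using h
  apply Set.PairwiseDisjoint.countable_of_isOpen (s := fun x => Ioo (y x) x) _
    (fun x _ => isOpen_Ioo) (fun x hx => nonempty_Ioo.2 (hy x hx))
  intro a ha b hb hab
  have key : ∀ a ∈ s, ∀ b ∈ s, a < b → Disjoint (Ioo (y a) a) (Ioo (y b) b) := by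
    intro a ha b hb hab
    have : a ≤ y b := by
      by_contra hcon
      push Not at hcon
      have : a ∈ s ∩ Ioo (y b) b := ⟨ha, hcon, hab⟩
      rw [h'y b hb] at this
      exact this
    rw [Set.disjoint_left]
    intro z hz hz'
    have := hz.2
    have := hz'.1
    linarith
  rcases lt_or_gt_of_ne hab with h1 | h1
  · exact key a ha b hb h1
  · exact (key b hb a ha h1).symm

/-- points where the active index is not strict -/
def Exc0 (D : ℕ → Set K → Set K) (k : ℕ) (A : Set K) (u : K → ℝ) : Set ℝ :=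
  {e | (∃ h ∈ A, e ≤ u h) ∧ ¬ ∃ ζ, Top D k A u ζ e}

lemma Exc0_countable (hD : ∀ k, Der (D k)) (k : ℕ) {A : Set K} (hA : IsClosed A) {u : K → ℝ}
    (hu : Continuous u) : (Exc0 D k A u).Countable := by
  apply countable_left
  intro e he
  obtain ⟨hact, hno⟩ := he
  obtain ⟨ζ, h1, h2⟩ := top_exists hD k hA hu hact
  -- y below e with everything on the next set below y
  have hy : ∃ y < e, ∀ h ∈ it (D k) A (ζ + 1), u h ≤ y := by
    by_cases hne : (it (D k) A (ζ + 1)).Nonempty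
    · obtain ⟨x, hx, hmax⟩ := (it_closed (hD k) hA (ζ + 1)).isCompact.exists_isMaxOn hne hu.continuousOn
      exact ⟨u x, h2 x hx, fun h hh => hmax hh⟩
    · refine ⟨e - 1, by linarith, fun h hh => absurd ⟨h, hh⟩ hne⟩
  obtain ⟨y, hye, hy⟩ := hy
  refine ⟨y, hye, ?_⟩
  rw [Set.eq_empty_iff_forall_notMem]
  rintro e' ⟨⟨-, hno'⟩, hy1, hy2⟩
  apply hno'
  obtain ⟨h, hh, he⟩ := h1
  exact ⟨ζ, ⟨h, hh, by linarith⟩, fun h hh => by have := hy h hh; linarith⟩

lemma Top_isOpen (hD : ∀ k, Der (D k)) (k : ℕ) {A : Set K} (hA : IsClosed A) {u : K → ℝ}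
    (hu : Continuous u) (ζ : Ordinal.{0}) : IsOpen {e | Top D k A u ζ e} := by
  rw [isOpen_iff_mem_nhds]
  rintro e ⟨⟨h, hh, he⟩, h2⟩
  have hy : ∃ y < e, ∀ h ∈ it (D k) A (ζ + 1), u h ≤ y := by
    by_cases hne : (it (D k) A (ζ + 1)).Nonempty
    · obtain ⟨x, hx, hmax⟩ := (it_closed (hD k) hA (ζ + 1)).isCompact.exists_isMaxOn hne hu.continuousOn
      exact ⟨u x, h2 x hx, fun h hh => hmax hh⟩
    · refine ⟨e - 1, by linarith, fun h hh => absurd ⟨h, hh⟩ hne⟩
  obtain ⟨y, hye, hy⟩ := hy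
  filter_upwards [Ioo_mem_nhds hye he] with e' he'
  exact ⟨⟨h, hh, he'.2⟩, fun x hx => lt_of_le_of_lt (hy x hx) he'.1⟩

lemma Top_unique (k : ℕ) {A : Set K} {u : K → ℝ} {ζ ξ : Ordinal.{0}} {e : ℝ}
    (h1 : Top D k A u ζ e) (h2 : Top D k A u ξ e) : ζ = ξ := by
  have key : ∀ ζ ξ : Ordinal.{0}, Top D k A u ζ e → Top D k A u ξ e → ¬ ζ < ξ := by
    intro ζ ξ h1 h2 hlt
    obtain ⟨h, hh, he⟩ := h2.1
    have := h1.2 h (it_anti _ _ (Order.add_one_le_of_lt hlt) hh)
    linarith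
  exact le_antisymm (not_lt.1 (key ξ ζ h2 h1)) (not_lt.1 (key ζ ξ h1 h2))

/-- exceptional initial states -/
def Exc (D : ℕ → Set K → Set K) (u : K → ℝ) : ℕ → ℕ → Set K → Set ℝ
  | 0, k, A => Exc0 D k A u
  | n + 1, k, A => Exc0 D k A u ∪ ⋃ ζ : Ordinal.{0}, {e | Top D k A u ζ e ∧
      (e ∈ Exc D u n (k + 1) (it (D k) A ζ) ∨ TT1 D k A u ζ e ∈ Exc D u n k A)}

lemma TT1_anti (hD : ∀ k, Der (D k)) (k : ℕ) {A : Set K} (hA : IsClosed A) {u : K → ℝ}
    (hu : Continuous u) {ζ : Ordinal.{0}} {e f : ℝ} (hef : e < f)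
    (hf : ∃ h ∈ it (D k) A ζ, f ≤ u h) : TT1 D k A u ζ f < TT1 D k A u ζ e := by
  have hg := Phi_good hD (k + 1)
  have he : ∃ h ∈ it (D k) A ζ, e ≤ u h := by
    obtain ⟨h, hh, h1⟩ := hf
    exact ⟨h, hh, by linarith⟩
  have h1 := hg.lip (it (D k) A ζ) e f u u 0 (it_closed (hD k) hA ζ) hu hu (fun h _ _ => by simp)
    he hf
  have h2 := abs_le.1 h1
  have h3 : |e - f| = f - e := by rw [abs_sub_comm, abs_of_pos (by linarith)]
  rw [h3] at h2
  have h4 := eps_pos k
  have h5 := eps_succ k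
  have h6 := eps_le k
  have h7 : kap (k + 1) = eps k / 32 := by unfold kap; rw [h5]; ring
  unfold TT1 Tm
  rw [h7] at h2
  have h8 : 0 < f - e := by linarith
  have h9 : 0 < eps k * (f - e) := mul_pos h4 h8
  nlinarith [h2.1, h2.2, mul_le_mul_of_nonneg_left h2.1 (by linarith : 0 ≤ 1 + eps k)]

lemma Exc_countable (hD : ∀ k, Der (D k)) {u : K → ℝ} (hu : Continuous u) (n : ℕ) :
    ∀ k A, IsClosed A → (Exc D u n k A).Countable := by
  induction n with
  | zero => intro k A hA; exact Exc0_countable hD k hA hu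
  | succ n ih =>
    intro k A hA
    refine (Exc0_countable hD k hA hu).union ?_
    let Z : Set Ordinal.{0} := {ζ | ∃ e, Top D k A u ζ e}
    have hZ : Z.Countable := by
      apply Set.PairwiseDisjoint.countable_of_isOpen (s := fun ζ => {e | Top D k A u ζ e}) _
        (fun ζ _ => Top_isOpen hD k hA hu ζ) (fun ζ hζ => hζ)
      intro ζ _ ξ _ hne
      rw [Function.onFun, Set.disjoint_left]
      intro e h1 h2
      exact hne (Top_unique k h1 h2)
    have : (⋃ ζ : Ordinal.{0}, {e | Top D k A u ζ e ∧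
      (e ∈ Exc D u n (k + 1) (it (D k) A ζ) ∨ TT1 D k A u ζ e ∈ Exc D u n k A)}) ⊆
      ⋃ ζ ∈ Z, {e | Top D k A u ζ e ∧
      (e ∈ Exc D u n (k + 1) (it (D k) A ζ) ∨ TT1 D k A u ζ e ∈ Exc D u n k A)} := by
      intro e he
      simp only [mem_iUnion] at he ⊢
      obtain ⟨ζ, h1, h2⟩ := he
      exact ⟨ζ, ⟨e, h1⟩, h1, h2⟩
    refine Set.Countable.mono this (hZ.biUnion fun ζ _ => ?_)
    have hsplit : {e | Top D k A u ζ e ∧
      (e ∈ Exc D u n (k + 1) (it (D k) A ζ) ∨ TT1 D k A u ζ e ∈ Exc D u n k A)} ⊆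
      Exc D u n (k + 1) (it (D k) A ζ) ∪ {e | Top D k A u ζ e ∧ TT1 D k A u ζ e ∈ Exc D u n k A} := by
      rintro e ⟨h1, h2 | h2⟩
      · exact Or.inl h2
      · exact Or.inr ⟨h1, h2⟩
    refine Set.Countable.mono hsplit ((ih (k + 1) _ (it_closed (hD k) hA ζ)).union ?_)
    apply countable_of_injective_of_countable_image (f := fun e => TT1 D k A u ζ e)
    · intro a ha b hb hab
      obtain ⟨h, hh, h1⟩ := ha.1.1
      obtain ⟨h', hh', h1'⟩ := hb.1.1
      simp only at hab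
      rcases lt_trichotomy a b with h2 | h2 | h2
      · have := TT1_anti hD k hA hu h2 ⟨h', hh', h1'.le⟩
        linarith
      · exact h2
      · have := TT1_anti hD k hA hu h2 ⟨h, hh, h1.le⟩
        linarith
    · refine Set.Countable.mono ?_ (ih k A hA)
      rintro x ⟨e, he, rfl⟩
      exact he.2

/-- generic initial states -/
def Gen (D : ℕ → Set K → Set K) (u : K → ℝ) (k : ℕ) (A : Set K) (e : ℝ) : Prop :=
  ∀ n, e ∉ Exc D u n k A

lemma Gen_countable (hD : ∀ k, Der (D k)) {u : K → ℝ} (hu : Continuous u) (k : ℕ) {A : Set K}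
    (hA : IsClosed A) : {e | ¬ Gen D u k A e}.Countable := by
  have : {e | ¬ Gen D u k A e} = ⋃ n, Exc D u n k A := by
    ext e; simp [Gen]
  rw [this]
  exact countable_iUnion fun n => Exc_countable hD hu n k A hA

lemma Gen.cases {u : K → ℝ} {k : ℕ} {A : Set K} {e : ℝ} (h : Gen D u k A e) :
    (∀ x ∈ A, u x < e) ∨ ∃ ζ, Top D k A u ζ e ∧ Gen D u (k + 1) (it (D k) A ζ) e ∧
      Gen D u k A (TT1 D k A u ζ e) := by
  by_cases hact : ∀ x ∈ A, u x < e
  · exact Or.inl hact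
  · right
    push Not at hact
    have h0 : ∃ ζ, Top D k A u ζ e := by
      by_contra hcon
      exact h 0 ⟨hact, hcon⟩
    obtain ⟨ζ, hζ⟩ := h0
    refine ⟨ζ, hζ, ?_, ?_⟩
    · intro n hn
      apply h (n + 1)
      right
      simp only [mem_iUnion]
      exact ⟨ζ, hζ, Or.inl hn⟩
    · intro n hn
      apply h (n + 1)
      right
      simp only [mem_iUnion]
      exact ⟨ζ, hζ, Or.inr hn⟩

end Pool.Agent.Helper827.B
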