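import Mathlib
import Pool.Agent.Helper827.B4

set_option autoImplicit false
set_option linter.unusedSectionVars false

namespace Pool.Agent.Helper827.B

open Filter Topology Set

variable {K : Type} [TopologicalSpace K] [CompactSpace K]
variable {Y : Type} [NormedAddCommGroup Y] [NormedSpace ℝ Y]

/-- perturbed functions -/
def pu (u : K → ℝ) (ev : K → (Y →L[ℝ] ℝ)) (y : Y) : K → ℝ := fun h => u h + ev h y

structure EvOK (ev : K → (Y →L[ℝ] ℝ)) : Prop where
  norm : ∀ h, ‖ev h‖ ≤ 1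
  cont : ∀ y, Continuous (fun h => ev h y)

lemma pu_zero (u : K → ℝ) (ev : K → (Y →L[ℝ] ℝ)) : pu u ev 0 = u := by
  funext h; simp [pu]

lemma pu_cont {u : K → ℝ} (hu : Continuous u) {ev : K → (Y →L[ℝ] ℝ)} (hev : EvOK ev) (y : Y) :
    Continuous (pu u ev y) := hu.add (hev.cont y)

lemma ev_le {ev : K → (Y →L[ℝ] ℝ)} (hev : EvOK ev) (h : K) (y : Y) : |ev h y| ≤ ‖y‖ := by
  have h1 := (ev h).le_opNorm y
  have h2 := hev.norm h
  rw [Real.norm_eq_abs] at h1
  nlinarith [norm_nonneg y]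

lemma pu_sub {u : K → ℝ} {ev : K → (Y →L[ℝ] ℝ)} (hev : EvOK ev) (y y' : Y) (h : K) :
    |pu u ev y h - pu u ev y' h| ≤ ‖y - y'‖ := by
  have : pu u ev y h - pu u ev y' h = ev h (y - y') := by
    unfold pu; rw [map_sub]; ring
  rw [this]
  exact ev_le hev h _

def SDs (s : ℝ → Y → ℝ) (e a b : ℝ) : Prop :=
  ∃ (α : ℝ) (L : Y →L[ℝ] ℝ) (r : ℝ), 0 < r ∧ ∀ f f' y y', |f - e| < r → |f' - e| < r →
    ‖y‖ < r → ‖y'‖ < r →
    |s f y - s f' y' - α * (f - f') - L (y - y')| ≤ a * |f - f'| + b * ‖y - y'‖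

def LipS (s : ℝ → Y → ℝ) (e M : ℝ) : Prop :=
  ∃ r : ℝ, 0 < r ∧ ∀ f f' y y', |f - e| < r → |f' - e| < r → ‖y‖ < r → ‖y'‖ < r →
    |s f y - s f' y'| ≤ max |f - f'| (M * ‖y - y'‖)

lemma SDs.congr {s s' : ℝ → Y → ℝ} {e a b : ℝ} (h : SDs s e a b) {r : ℝ} (hr : 0 < r)
    (heq : ∀ f y, |f - e| < r → ‖y‖ < r → s' f y = s f y) : SDs s' e a b := by
  obtain ⟨α, L, r', hr', H⟩ := h
  refine ⟨α, L, min r r', lt_min hr hr', ?_⟩
  intro f f' y y' h1 h2 h3 h4
  rw [lt_min_iff] at h1 h2 h3 h4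
  rw [heq f y h1.1 h3.1, heq f' y' h2.1 h4.1]
  exact H f f' y y' h1.2 h2.2 h3.2 h4.2

lemma SDs.mono {s : ℝ → Y → ℝ} {e a b a' b' : ℝ} (h : SDs s e a b) (ha : a ≤ a') (hb : b ≤ b') :
    SDs s e a' b' := by
  obtain ⟨α, L, r', hr', H⟩ := h
  refine ⟨α, L, r', hr', ?_⟩
  intro f f' y y' h1 h2 h3 h4
  refine (H f f' y y' h1 h2 h3 h4).trans ?_
  have := mul_le_mul_of_nonneg_right ha (abs_nonneg (f - f'))
  have := mul_le_mul_of_nonneg_right hb (norm_nonneg (y - y'))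
  linarith

lemma SDs.decouple {s : ℝ → Y → ℝ} {e a b a' b' : ℝ} (h : SDs s e a b) (h' : SDs s e a' b') :
    SDs s e a b' := by
  obtain ⟨α, L, r, hr, H⟩ := h
  obtain ⟨α', L', r', hr', H'⟩ := h'
  refine ⟨α, L', min r r', lt_min hr hr', ?_⟩
  intro f f' y y' h1 h2 h3 h4
  rw [lt_min_iff] at h1 h2 h3 h4
  have a1 := H f f' y y h1.1 h2.1 h3.1 h3.1
  have a2 := H' f' f' y y' h2.2 h2.2 h3.2 h4.2
  rw [sub_self, map_zero, norm_zero, mul_zero, add_zero, sub_zero] at a1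
  rw [sub_self, mul_zero, sub_zero, abs_zero, mul_zero, zero_add] at a2
  have e1 : s f y - s f' y' - α * (f - f') - L' (y - y') =
    (s f y - s f' y - α * (f - f')) + (s f' y - s f' y' - L' (y - y')) := by ring
  rw [e1]
  exact (abs_add_le _ _).trans (add_le_add a1 a2)

lemma margin {B : Set K} (hB : IsClosed B) {u : K → ℝ} (hu : Continuous u) {e : ℝ}
    (h : ∀ x ∈ B, u x < e) : ∃ δ > 0, ∀ x ∈ B, u x ≤ e - δ := by
  by_cases hne : B.Nonempty
  · obtain ⟨x, hx, hmax⟩ := hB.isCompact.exists_isMaxOn hne hu.continuousOn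
    refine ⟨e - u x, by have := h x hx; linarith, fun y hy => ?_⟩
    have := hmax hy
    simp only [Set.mem_setOf_eq] at this
    linarith
  · exact ⟨1, one_pos, fun x hx => absurd ⟨x, hx⟩ hne⟩

variable {D : ℕ → Set K → Set K}

lemma MM_nonneg (k : ℕ) : 0 ≤ MM k := by have := MM_ge k; linarith

lemma LipS.near {s : ℝ → Y → ℝ} {e0 : ℝ} {k : ℕ} (h : LipS s e0 (MM k)) {ρ : ℝ} (hρ : 0 < ρ) :
    ∃ r > 0, r ≤ ρ ∧ (∀ f y, |f - e0| < r → ‖y‖ < r → |s f y - s e0 0| < ρ) ∧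
      ∀ f f' y y', |f - e0| < r → |f' - e0| < r → ‖y‖ < r → ‖y'‖ < r →
        |s f y - s f' y'| ≤ max |f - f'| (MM k * ‖y - y'‖) := by
  obtain ⟨r, hr, H⟩ := h
  refine ⟨min r (ρ / 2), lt_min hr (by linarith), (min_le_right _ _).trans (by linarith), ?_, ?_⟩
  · intro f y h1 h2
    rw [lt_min_iff] at h1 h2
    have := H f e0 y 0 h1.1 (by simpa using hr) h2.1 (by simpa using hr)
    refine lt_of_le_of_lt this ?_
    rw [sub_zero]
    have := MM_le k
    have := norm_nonneg y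
    exact max_lt (by linarith) (by nlinarith [h2.2])
  · intro f f' y y' h1 h2 h3 h4
    rw [lt_min_iff] at h1 h2 h3 h4
    exact H f f' y y' h1.1 h2.1 h3.1 h4.1

lemma step_SD (hD : ∀ k, Der (D k)) {ev : K → (Y →L[ℝ] ℝ)} (hev : EvOK ev) {u : K → ℝ}
    (hu : Continuous u) (k : ℕ) {A : Set K} (hA : IsClosed A) {a' b' A_ B_ : ℝ} (ha' : 0 ≤ a')
    (hA_ : 0 ≤ A_) (hB_ : 0 ≤ B_)
    (hc1 : (kap k + 2 * a') * A_ + (1 + eps k) * a' ≤ A_)
    (hc2 : (kap k + 2 * a') * B_ + (1 + eps k) * (b' + 2 * a') ≤ B_)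
    {e0 e' : ℝ} {ζ : Ordinal.{0}} (hact : ∃ h ∈ it (D k) A ζ, e' < u h)
    (H : SDs (fun f y => Phi D (k + 1) (it (D k) A ζ) f (pu u ev y)) e' a' b')
    {s : ℝ → Y → ℝ} (hs : s e0 0 = e') (hLip : LipS s e0 (MM k)) (hSD : SDs s e0 A_ B_) :
    LipS (fun f y => TT1 D k A (pu u ev y) ζ (s f y)) e0 (MM k) ∧
    SDs (fun f y => TT1 D k A (pu u ev y) ζ (s f y)) e0 A_ B_ := by
  constructor
  · obtain ⟨r, hr, Hl⟩ := hLip
    refine ⟨r, hr, ?_⟩
    intro f f' y y' h1 h2 h3 h4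
    have a1 := TT1_lip hD k hA (pu_cont hu hev y) (pu_cont hu hev y') (e := s f y) (f := s f' y')
      (norm_nonneg (y - y')) ζ (fun h _ => pu_sub hev y y' h)
    refine a1.trans (max_le (Hl f f' y y' h1 h2 h3 h4) (le_max_right _ _))
  · obtain ⟨α', L', r', hr', H'⟩ := H
    obtain ⟨αs, Ls, rs, hrs, Hs⟩ := hSD
    have hε := eps_pos k
    have hε1 := eps_le k
    have hk1 := kap_pos (k + 1)
    have hc0 := const1 k
    -- bound for α'
    have hα' : |α'| ≤ kap (k + 1) + a' := by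
      obtain ⟨h0, hh0, he0⟩ := hact
      obtain ⟨δ, hδ, hδ1, hδ2⟩ : ∃ δ > 0, δ < r' ∧ e' + δ ≤ u h0 := by
        refine ⟨min (r' / 2) (u h0 - e'), lt_min (by linarith) (by linarith), ?_, ?_⟩
        · exact lt_of_le_of_lt (min_le_left _ _) (by linarith)
        · have := min_le_right (r' / 2) (u h0 - e'); linarith
      have b1 := H' e' (e' + δ) 0 0 (by simpa using hr') (by simpa [abs_of_pos hδ] using hδ1)
        (by simpa using hr') (by simpa using hr')
      have b2 := (Phi_good hD (k + 1)).lip (it (D k) A ζ) e' (e' + δ) u u 0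
        (it_closed (hD k) hA ζ) hu hu (fun h _ _ => by simp) ⟨h0, hh0, he0.le⟩ ⟨h0, hh0, hδ2⟩
      simp only [pu_zero, sub_self, map_zero, norm_zero, mul_zero, add_zero, sub_zero] at b1 b2
      have b3 : |e' - (e' + δ)| = δ := by
        rw [show e' - (e' + δ) = -δ by ring, abs_neg, abs_of_pos hδ]
      rw [b3] at b1 b2
      have b4 := abs_le.1 b1
      have b5 := abs_le.1 b2
      have b6 : |α'| * δ ≤ (kap (k + 1) + a') * δ := by
        rw [← abs_of_pos hδ, ← abs_mul, abs_of_pos hδ, abs_le]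
        constructor <;> nlinarith [b4.1, b4.2, b5.1, b5.2]
      exact le_of_mul_le_mul_right b6 hδ
    obtain ⟨r1, hr1, hr1', Hn, Hl⟩ := hLip.near hr'
    rw [hs] at Hn
    refine ⟨((1 + eps k) * α' - eps k) * αs, (((1 + eps k) * α' - eps k) • Ls + (1 + eps k) • L'),
      min r1 rs, lt_min hr1 hrs, ?_⟩
    intro f f' y y' h1 h2 h3 h4
    rw [lt_min_iff] at h1 h2 h3 h4
    have c1 := H' (s f y) (s f' y') y y' (Hn f y h1.1 h3.1) (Hn f' y' h2.1 h4.1)
      (h3.1.trans_le hr1') (h4.1.trans_le hr1')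
    have c2 := Hs f f' y y' h1.2 h2.2 h3.2 h4.2
    have c3 := Hl f f' y y' h1.1 h2.1 h3.1 h4.1
    have hMM := MM_le k
    have hny := norm_nonneg (y - y')
    have hnf := abs_nonneg (f - f')
    have c4 : |s f y - s f' y'| ≤ |f - f'| + 2 * ‖y - y'‖ := by
      refine c3.trans (max_le (by linarith) ?_)
      nlinarith
    simp only at c1
    unfold TT1 Tm
    set P := Phi D (k + 1) (it (D k) A ζ) (s f y) (pu u ev y)
    set P' := Phi D (k + 1) (it (D k) A ζ) (s f' y') (pu u ev y')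
    set dy := y - y'
    set df := f - f'
    set ds := s f y - s f' y' with hds
    set αT := (1 + eps k) * α' - eps k with hαT
    have hαTb : |αT| ≤ kap k + 2 * a' := by
      rw [hαT]
      refine (abs_sub _ _).trans ?_
      rw [abs_mul, abs_of_pos hε, abs_of_pos (by linarith : 0 < 1 + eps k)]
      have := mul_le_mul_of_nonneg_left hα' (by linarith : 0 ≤ 1 + eps k)
      nlinarith
    have hexp : (1 + eps k) * P - eps k * s f y - ((1 + eps k) * P' - eps k * s f' y') -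
        αT * αs * df - (αT • Ls + (1 + eps k) • L') dy =
        αT * (ds - αs * df - Ls dy) + (1 + eps k) * (P - P' - α' * ds - L' dy) := by
      simp only [ContinuousLinearMap.add_apply, ContinuousLinearMap.smul_apply, smul_eq_mul, hαT, hds]
      ring
    rw [hexp]
    refine (abs_add_le _ _).trans ?_
    rw [abs_mul, abs_mul, abs_of_pos (by linarith : 0 < 1 + eps k)]
    have d1 : |αT| * |ds - αs * df - Ls dy| ≤ (kap k + 2 * a') * (A_ * |df| + B_ * ‖dy‖) :=
      mul_le_mul hαTb c2 (abs_nonneg _) (by have := kap_pos k; linarith)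
    have d2 : (1 + eps k) * |P - P' - α' * ds - L' dy| ≤
        (1 + eps k) * (a' * (|df| + 2 * ‖dy‖) + b' * ‖dy‖) := by
      apply mul_le_mul_of_nonneg_left _ (by linarith)
      refine c1.trans ?_
      have := mul_le_mul_of_nonneg_left c4 ha'
      linarith
    have d3 := mul_le_mul_of_nonneg_right hc1 hnf
    have d4 := mul_le_mul_of_nonneg_right hc2 hny
    nlinarith

lemma rl (hD : ∀ k, Der (D k)) {ev : K → (Y →L[ℝ] ℝ)} (hev : EvOK ev) {u : K → ℝ}
    (hu : Continuous u) (k : ℕ) {A : Set K} (hA : IsClosed A) {a' b' A_ B_ : ℝ} (ha' : 0 ≤ a')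
    (hA_ : 0 ≤ A_) (hB_ : 0 ≤ B_)
    (hc1 : (kap k + 2 * a') * A_ + (1 + eps k) * a' ≤ A_)
    (hc2 : (kap k + 2 * a') * B_ + (1 + eps k) * (b' + 2 * a') ≤ B_)
    {e0 : ℝ} (H : ∀ ζ e', e0 ≤ e' → Top D k A u ζ e' → Gen D u (k + 1) (it (D k) A ζ) e' →
      SDs (fun f y => Phi D (k + 1) (it (D k) A ζ) f (pu u ev y)) e' a' b') (μ : Ordinal.{0}) :
    ∀ e', (∀ h ∈ it (D k) A μ, u h < e') → e0 ≤ e' → Gen D u k A e' → ∀ s : ℝ → Y → ℝ,
      s e0 0 = e' → LipS s e0 (MM k) → SDs s e0 A_ B_ →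
      SDs (fun f y => Phi D k A (s f y) (pu u ev y)) e0 A_ B_ := by
  induction μ using WellFoundedLT.induction with
  | ind μ ih =>
    intro e' hμ he hgen s hs hLip hSD
    rcases hgen.cases with hin | ⟨ζ, htop, hg1, hg2⟩
    · obtain ⟨δ, hδ, hmar⟩ := margin hA hu hin
      obtain ⟨r, hr, hrδ, Hn, -⟩ := hLip.near (half_pos hδ)
      rw [hs] at Hn
      refine hSD.congr hr ?_
      intro f y h1 h2
      apply (Phi_good hD k).eq A _ _ hA (pu_cont hu hev y)
      intro x hx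
      have b1 := hmar x hx
      have b2 := abs_lt.1 (Hn f y h1 h2)
      have b3 := abs_le.1 (ev_le hev x y)
      unfold pu
      linarith [b2.1, b3.2]
    · have hζμ : ζ < μ := by
        by_contra hcon
        push Not at hcon
        obtain ⟨h, hh, he'⟩ := htop.1
        have := hμ h (it_anti _ _ hcon hh)
        linarith
      have hst := step_SD hD hev hu k hA ha' hA_ hB_ hc1 hc2 htop.1 (H ζ e' he htop hg1) hs hLip hSD
      obtain ⟨S, hS⟩ := exists_ub hu A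
      have hT := TT1_TT hD k hA hu hS
      have hstrict : ∀ h ∈ it (D k) A ζ, u h < TT1 D k A u ζ e' := by
        intro h hh
        obtain ⟨h0, hh0, he0⟩ := htop.1
        have g1 := (Phi_good hD (k + 1)).ub _ e' u (it_closed (hD k) hA ζ) hu h hh
        have g2 := (Phi_good hD (k + 1)).ub _ e' u (it_closed (hD k) hA ζ) hu h0 hh0
        have := eps_pos k
        unfold TT1 Tm
        nlinarith
      have hfin := ih ζ hζμ (TT1 D k A u ζ e') hstrict (he.trans (hT.ge ζ e')) hg2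
        (fun f y => TT1 D k A (pu u ev y) ζ (s f y)) (by simp only [pu_zero, hs]) hst.1 hst.2
      obtain ⟨δ, hδ, hmar⟩ := margin (it_closed (hD k) hA (ζ + 1)) hu htop.2
      obtain ⟨r, hr, hrδ, Hn, -⟩ := hLip.near (half_pos hδ)
      rw [hs] at Hn
      refine hfin.congr hr ?_
      intro f y h1 h2
      apply one_step hD k hA (pu_cont hu hev y) ζ
      intro x hx
      have b1 := hmar x hx
      have b2 := abs_lt.1 (Hn f y h1 h2)
      have b3 := abs_le.1 (ev_le hev x y)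
      unfold pu
      linarith [b2.1, b3.2]

lemma rl0 (hD : ∀ k, Der (D k)) {ev : K → (Y →L[ℝ] ℝ)} (hev : EvOK ev) {u : K → ℝ}
    (hu : Continuous u) (k : ℕ) {A : Set K} (hA : IsClosed A) {a' b' A_ B_ : ℝ} (ha' : 0 ≤ a')
    (hA_ : 0 ≤ A_) (hB_ : 0 ≤ B_)
    (hc1 : (kap k + 2 * a') * A_ + (1 + eps k) * a' ≤ A_)
    (hc2 : (kap k + 2 * a') * B_ + (1 + eps k) * (b' + 2 * a') ≤ B_)
    {e0 : ℝ} (H : ∀ ζ e', e0 ≤ e' → Top D k A u ζ e' → Gen D u (k + 1) (it (D k) A ζ) e' →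
      SDs (fun f y => Phi D (k + 1) (it (D k) A ζ) f (pu u ev y)) e' a' b')
    (hgen : Gen D u k A e0) :
    SDs (fun f y => Phi D k A f (pu u ev y)) e0 A_ B_ := by
  obtain ⟨μ, -, hμ⟩ := it_empty (hD k) hA
  refine rl hD hev hu k hA ha' hA_ hB_ hc1 hc2 H μ e0 (by rw [hμ]; simp) le_rfl hgen
    (fun f _ => f) rfl ?_ ?_
  · exact ⟨1, one_pos, fun f f' y y' _ _ _ _ => le_max_left _ _⟩
  · refine ⟨1, 0, 1, one_pos, fun f f' y y' _ _ _ _ => ?_⟩
    have : f - f' - 1 * (f - f') - (0 : Y →L[ℝ] ℝ) (y - y') = 0 := by simp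
    rw [this, abs_zero]
    positivity

/-- trivial bound -/
lemma SD_triv (hD : ∀ k, Der (D k)) {ev : K → (Y →L[ℝ] ℝ)} (hev : EvOK ev) {u : K → ℝ}
    (hu : Continuous u) (k : ℕ) {A : Set K} (hA : IsClosed A) {e : ℝ} (hgen : Gen D u k A e) :
    SDs (fun f y => Phi D k A f (pu u ev y)) e (kap k) (MM k) := by
  rcases hgen.cases with hin | ⟨ζ, htop, -, -⟩
  · obtain ⟨δ, hδ, hmar⟩ := margin hA hu hin
    have : SDs (fun (f : ℝ) (_ : Y) => f) e (kap k) (MM k) := by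
      refine ⟨1, 0, 1, one_pos, fun f f' y y' _ _ _ _ => ?_⟩
      have : f - f' - 1 * (f - f') - (0 : Y →L[ℝ] ℝ) (y - y') = 0 := by simp
      rw [this, abs_zero]
      have := kap_pos k
      have := MM_nonneg k
      positivity
    refine this.congr (half_pos hδ) ?_
    intro f y h1 h2
    apply (Phi_good hD k).eq A _ _ hA (pu_cont hu hev y)
    intro x hx
    have b1 := hmar x hx
    have b2 := abs_lt.1 h1
    have b3 := abs_le.1 (ev_le hev x y)
    unfold pu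
    linarith [b2.1, b3.2]
  · obtain ⟨h0, hh0, he0⟩ := htop.1
    have hh0A := it_sub _ _ _ hh0
    refine ⟨0, 0, (u h0 - e) / 2, by linarith, ?_⟩
    intro f f' y y' h1 h2 h3 h4
    have b1 := abs_lt.1 h1
    have b2 := abs_lt.1 h2
    have b3 := abs_le.1 (ev_le hev h0 y)
    have b4 := abs_le.1 (ev_le hev h0 y')
    have := (Phi_good hD k).lip A f f' (pu u ev y) (pu u ev y') ‖y - y'‖ hA (pu_cont hu hev y)
      (pu_cont hu hev y') (fun h _ _ => pu_sub hev y y' h)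
      ⟨h0, hh0A, by unfold pu; linarith [b1.2, b3.1]⟩ ⟨h0, hh0A, by unfold pu; linarith [b2.2, b4.1]⟩
    simpa using this

/-- parallel motion -/
lemma SD_par (hD : ∀ k, Der (D k)) {ev : K → (Y →L[ℝ] ℝ)} (hev : EvOK ev) {u : K → ℝ}
    (hu : Continuous u) (k : ℕ) {A : Set K} (hA : IsClosed A) {e ν r0 : ℝ} (hr0 : 0 < r0)
    (hν : 0 ≤ ν) (hact : ∃ h ∈ A, e < u h)
    (hosc : ∀ h ∈ A, ∀ h' ∈ A, e - r0 ≤ u h → e - r0 ≤ u h' → ‖ev h - ev h'‖ ≤ ν) :
    SDs (fun f y => Phi D k A f (pu u ev y)) e (kap k) (kap k + 2 * ν) := by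
  obtain ⟨h0, hh0, he0⟩ := hact
  refine ⟨0, ev h0, min (r0 / 2) ((u h0 - e) / 2), lt_min (by linarith) (by linarith), ?_⟩
  intro f f' y y' h1 h2 h3 h4
  rw [lt_min_iff] at h1 h2 h3 h4
  set t := ev h0 (y - y') with ht
  have hty : |t| ≤ ‖y - y'‖ := ev_le hev h0 _
  have hcy : Continuous (fun h => pu u ev y h - t) := (pu_cont hu hev y).sub continuous_const
  have htr := (Phi_good hD k).tr A (f - t) (fun h => pu u ev y h - t) t hA hcy
  simp only [sub_add_cancel] at htr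
  have hlip := (Phi_good hD k).lip A (f - t) f' (fun h => pu u ev y h - t) (pu u ev y')
    (ν * ‖y - y'‖) hA hcy (pu_cont hu hev y') ?_ ?_ ?_
  · have e1 : (fun h => pu u ev y h) = pu u ev y := rfl
    rw [e1] at htr
    simp only
    rw [htr]
    have e2 : Phi D k A (f - t) (fun h => pu u ev y h - t) + t - Phi D k A f' (pu u ev y')
        - 0 * (f - f') - t =
        Phi D k A (f - t) (fun h => pu u ev y h - t) - Phi D k A f' (pu u ev y') := by ring
    rw [e2]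
    refine hlip.trans ?_
    have e3 : |f - t - f'| ≤ |f - f'| + ‖y - y'‖ := by
      rw [show f - t - f' = (f - f') - t by ring]
      exact (abs_sub _ _).trans (by linarith)
    have hk := kap_pos k
    have hM := MM_le k
    have hn := norm_nonneg (y - y')
    have e4 := mul_le_mul_of_nonneg_left e3 hk.le
    have e5 : MM k * (ν * ‖y - y'‖) ≤ 2 * (ν * ‖y - y'‖) :=
      mul_le_mul_of_nonneg_right hM (by positivity)
    linarith
  · intro h hh hor
    have b1 := abs_lt.1 h1.1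
    have b2 := abs_lt.1 h2.1
    have b3 := abs_le.1 (ev_le hev h y)
    have b4 := abs_le.1 (ev_le hev h y')
    have hlow : e - r0 ≤ u h := by
      rcases hor with h5 | h5
      · simp only [pu] at h5
        linarith [b1.1, b3.2, h3.1]
      · simp only [pu] at h5
        linarith [b2.1, b4.2, h4.1]
    have h6 := hosc h hh h0 hh0 hlow (by linarith)
    have h7 : pu u ev y h - t - pu u ev y' h = (ev h - ev h0) (y - y') := by
      simp only [pu, ht, ContinuousLinearMap.sub_apply, map_sub]; ring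
    rw [h7, ← Real.norm_eq_abs]
    refine ((ev h - ev h0).le_opNorm _).trans ?_
    exact mul_le_mul_of_nonneg_right h6 (norm_nonneg _)
  · have b1 := abs_lt.1 h1.2
    have b3 := abs_le.1 (ev_le hev h0 y)
    refine ⟨h0, hh0, ?_⟩
    simp only [pu]
    linarith [b1.2, b3.1, h3.2]
  · have b1 := abs_lt.1 h2.2
    have b3 := abs_le.1 (ev_le hev h0 y')
    refine ⟨h0, hh0, ?_⟩
    simp only [pu]
    linarith [b1.2, b3.1, h4.2]

end Pool.Agent.Helper827.B
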