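import Mathlib
import Pool.Agent.Helper827.B5

set_option autoImplicit false
set_option linter.unusedSectionVars false

namespace Pool.Agent.Helper827.B

open Filter Topology Set

variable {K : Type} [TopologicalSpace K] [CompactSpace K]
variable {Y : Type} [NormedAddCommGroup Y] [NormedSpace ℝ Y]
variable {D : ℕ → Set K → Set K}

lemma kap_succ (k : ℕ) : kap (k + 1) = kap k / 64 := by
  unfold kap; rw [eps_succ]; ring

lemma stage1 (hD : ∀ k, Der (D k)) {ev : K → (Y →L[ℝ] ℝ)} (hev : EvOK ev) {u : K → ℝ}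
    (hu : Continuous u) (n : ℕ) : ∀ (k : ℕ) (A : Set K) (_ : IsClosed A) (e : ℝ)
    (_ : Gen D u k A e),
    SDs (fun f y => Phi D k A f (pu u ev y)) e (kap k * (1 / 32) ^ n) (MM k) := by
  induction n with
  | zero =>
    intro k A hA e hgen
    simpa using SD_triv hD hev hu k hA hgen
  | succ n ih =>
    intro k A hA e hgen
    set a' := kap (k + 1) * (1 / 32) ^ n with ha'
    have hk := kap_pos k
    have hk2 := kap_le k
    have hk1 := kap_pos (k + 1)
    have hk3 := kap_le (k + 1)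
    have hp : (0 : ℝ) < (1 / 32) ^ n := by positivity
    have hp1 : (1 / 32 : ℝ) ^ n ≤ 1 := pow_le_one₀ (by norm_num) (by norm_num)
    have hε := eps_pos k
    have hε1 := eps_le k
    have ha0 : 0 < a' := by positivity
    have ha1 : a' ≤ 1 / 32 := by
      rw [ha']; nlinarith
    have hM := MM_le (k + 1)
    have h1 : SDs (fun f y => Phi D k A f (pu u ev y)) e (2 * a') 8 := by
      refine rl0 hD hev hu k hA ha0.le (by positivity) (by norm_num) (b' := MM (k + 1)) ?_ ?_ ?_ hgen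
      · nlinarith
      · nlinarith
      · intro ζ e' _ _ hg
        exact ih (k + 1) _ (it_closed (hD k) hA ζ) e' hg
    have h2 := h1.decouple (SD_triv hD hev hu k hA hgen)
    have h3 : 2 * a' = kap k * (1 / 32) ^ (n + 1) := by
      rw [ha', kap_succ, pow_succ]; ring
    rw [h3] at h2
    exact h2

lemma all_a (hD : ∀ k, Der (D k)) {ev : K → (Y →L[ℝ] ℝ)} (hev : EvOK ev) {u : K → ℝ}
    (hu : Continuous u) {k : ℕ} {A : Set K} (hA : IsClosed A) {e : ℝ}
    (hgen : Gen D u k A e) {a : ℝ} (ha : 0 < a) :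
    SDs (fun f y => Phi D k A f (pu u ev y)) e a (MM k) := by
  obtain ⟨n, hn⟩ := exists_pow_lt_of_lt_one ha (by norm_num : (1 / 32 : ℝ) < 1)
  refine (stage1 hD hev hu n k A hA e hgen).mono ?_ le_rfl
  have := kap_le k
  have := kap_pos k
  have hp : (0 : ℝ) < (1 / 32) ^ n := by positivity
  nlinarith

lemma branch (hD : ∀ k, Der (D k)) {ev : K → (Y →L[ℝ] ℝ)} (hev : EvOK ev) {u : K → ℝ}
    (hu : Continuous u) {k : ℕ} {A : Set K} (hA : IsClosed A) {e0 : ℝ}
    (hgen : Gen D u k A e0) {b : ℝ} (hb : 0 < b)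
    (hno : ¬ ∃ a, SDs (fun f y => Phi D k A f (pu u ev y)) e0 a (b * (1 + (1 / 2) ^ k))) :
    ∃ ζ e', e0 ≤ e' ∧ Top D k A u ζ e' ∧ Gen D u (k + 1) (it (D k) A ζ) e' ∧
      ¬ ∃ a, SDs (fun f y => Phi D (k + 1) (it (D k) A ζ) f (pu u ev y)) e' a
        (b * (1 + (1 / 2) ^ (k + 1))) := by
  by_contra hcon
  push Not at hcon
  apply hno
  set q : ℝ := (1 / 2) ^ k with hq
  have hq0 : 0 < q := by positivity
  have hq1 : q ≤ 1 := pow_le_one₀ (by norm_num) (by norm_num)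
  have hqs : (1 / 2 : ℝ) ^ (k + 1) = q / 2 := by rw [hq, pow_succ]; ring
  have hεq : eps k ≤ q / 64 := by
    unfold eps
    rw [pow_succ, hq]
    have : (1 / 64 : ℝ) ^ k ≤ (1 / 2) ^ k := pow_le_pow_left₀ (by norm_num) (by norm_num) k
    linarith
  have hε := eps_pos k
  have hε1 := eps_le k
  have hkap : kap k = 2 * eps k := rfl
  set a' : ℝ := q * b / (16 * (b + 1)) with ha'
  have hb1 : 0 < b + 1 := by linarith
  have ha0 : 0 < a' := by positivity
  have ha1 : a' * (16 * (b + 1)) = q * b := by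
    rw [ha']; field_simp
  have ha2 : a' ≤ 1 / 16 := by
    rw [ha', div_le_iff₀ (by positivity)]
    nlinarith
  refine ⟨2 * a', ?_⟩
  refine rl0 hD hev hu k hA ha0.le (by positivity) (by positivity)
    (b' := b * (1 + (1 / 2) ^ (k + 1))) ?_ ?_ ?_ hgen
  · rw [hkap]; nlinarith
  · rw [hkap, hqs]
    have h1 : (2 * eps k) * (b * (1 + q)) ≤ (q / 32) * (b * 2) := by
      apply mul_le_mul (by linarith) _ (by positivity) (by positivity)
      nlinarith
    have h2 : eps k * (b * (1 + q / 2) + 2 * a') ≤ (q / 64) * (b * 2) + 2 * a' * (1 / 64) := by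
      have : eps k * (b * (1 + q / 2)) ≤ (q / 64) * (b * 2) := by
        apply mul_le_mul hεq _ (by positivity) (by positivity)
        nlinarith
      nlinarith
    have h3 : 2 * a' * (b * (1 + q)) ≤ 4 * a' * b := by nlinarith [mul_pos ha0 hb]
    have hqb : 0 < q * b := by positivity
    have hab : 0 < a' * b := by positivity
    have e1 : (2 * eps k + 2 * a') * (b * (1 + q)) + (1 + eps k) * (b * (1 + q / 2) + 2 * a')
      = (2 * eps k) * (b * (1 + q)) + 2 * a' * (b * (1 + q)) + (b * (1 + q / 2) + 2 * a')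
        + eps k * (b * (1 + q / 2) + 2 * a') := by ring
    rw [e1]
    nlinarith
  · intro ζ e' h1 h2 h3
    obtain ⟨a, ha⟩ := hcon ζ e' h1 h2 h3
    exact (all_a hD hev hu (it_closed (hD k) hA ζ) h3 ha0).decouple ha

/-- fragmentation hypothesis along decreasing sequences -/
def Frag (D : ℕ → Set K → Set K) (u : K → ℝ) (ev : K → (Y →L[ℝ] ℝ)) : Prop :=
  ∀ (A : ℕ → Set K) (e : ℕ → ℝ), (∀ k, IsClosed (A k)) → (∀ k, A (k + 1) ⊆ A k) →
    (∀ k, e k ≤ e (k + 1)) → (∀ k, ∀ h ∈ D k (A (k + 1)), u h < e (k + 1)) →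
    (∀ k, ∃ h ∈ A (k + 1), e (k + 1) < u h) → ∀ ν > 0, ∃ k0, ∀ k ≥ k0, ∃ r > 0,
    ∀ h ∈ A (k + 1), ∀ h' ∈ A (k + 1), e (k + 1) - r ≤ u h → e (k + 1) - r ≤ u h' →
      ‖ev h - ev h'‖ ≤ ν

theorem main_SD (hD : ∀ k, Der (D k)) {ev : K → (Y →L[ℝ] ℝ)} (hev : EvOK ev) {u : K → ℝ}
    (hu : Continuous u) (hF : Frag D u ev) {e0 : ℝ} (hgen : Gen D u 0 univ e0) {a b : ℝ}
    (ha : 0 < a) (hb : 0 < b) :
    SDs (fun f y => Phi D 0 univ f (pu u ev y)) e0 a b := by
  have hmain : ∃ a, SDs (fun f y => Phi D 0 univ f (pu u ev y)) e0 a b := by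
    by_contra hno
    let Q : ℕ → Set K × ℝ → Prop := fun k x =>
      ∃ a, SDs (fun f y => Phi D k x.1 f (pu u ev y)) x.2 a (b / 2 * (1 + (1 / 2) ^ k))
    let P : ℕ → Set K × ℝ → Prop := fun k x => IsClosed x.1 ∧ Gen D u k x.1 x.2 ∧ ¬ Q k x
    let R : ℕ → Set K × ℝ → Set K × ℝ → Prop := fun k x y => y.1 ⊆ x.1 ∧ x.2 ≤ y.2 ∧
      (∀ h ∈ D k y.1, u h < y.2) ∧ (∃ h ∈ y.1, y.2 < u h)
    have key : ∀ k (x : {x // P k x}), ∃ y : {y // P (k + 1) y}, R k x.1 y.1 := by
      rintro k ⟨⟨A, e⟩, hA, hg, hq⟩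
      obtain ⟨ζ, e', h1, h2, h3, h4⟩ := branch hD hev hu hA hg (half_pos hb) hq
      refine ⟨⟨(it (D k) A ζ, e'), it_closed (hD k) hA ζ, h3, h4⟩, it_sub _ _ _, h1, ?_, h2.1⟩
      have := h2.2
      rw [it_succ (hD k)] at this
      exact this
    choose next hnext using key
    have h0 : P 0 (univ, e0) := by
      refine ⟨isClosed_univ, hgen, ?_⟩
      rintro ⟨a, ha⟩
      apply hno
      refine ⟨a, ?_⟩
      have : b / 2 * (1 + (1 / 2 : ℝ) ^ 0) = b := by norm_num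
      simp only [this] at ha
      exact ha
    let seq : ∀ k, {x // P k x} := fun k => Nat.rec ⟨(univ, e0), h0⟩ (fun k x => next k x) k
    have hseq : ∀ k, R k (seq k).1 (seq (k + 1)).1 := fun k => hnext k (seq k)
    obtain ⟨k0, hk0⟩ := hF (fun k => (seq k).1.1) (fun k => (seq k).1.2)
      (fun k => (seq k).2.1) (fun k => (hseq k).1) (fun k => (hseq k).2.1)
      (fun k => (hseq k).2.2.1) (fun k => (hseq k).2.2.2) (b / 16) (by linarith)
    obtain ⟨n, hn⟩ := exists_pow_lt_of_lt_one (show 0 < b / 16 by linarith)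
      (by norm_num : (1 / 64 : ℝ) < 1)
    obtain ⟨r, hr, hosc⟩ := hk0 (max k0 n) (le_max_left _ _)
    set k := max k0 n with hk
    have hpar := SD_par hD hev hu (k + 1) (seq (k + 1)).2.1 hr (by linarith : 0 ≤ b / 16)
      (hseq k).2.2.2 hosc
    apply (seq (k + 1)).2.2.2
    refine ⟨kap (k + 1), hpar.mono le_rfl ?_⟩
    have h1 : kap (k + 1) ≤ b / 8 := by
      unfold kap eps
      have : (1 / 64 : ℝ) ^ (k + 1 + 1) ≤ (1 / 64) ^ n :=
        pow_le_pow_of_le_one (by norm_num) (by norm_num) (by have := le_max_right k0 n; omega)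
      linarith
    have h2 : (0 : ℝ) < (1 / 2) ^ (k + 1) := by positivity
    nlinarith
  obtain ⟨a', ha'⟩ := hmain
  exact (all_a hD hev hu isClosed_univ hgen ha).decouple ha'

/-- strict differentiability in the second variable -/
theorem exists_strict {s : ℝ → Y → ℝ} {e : ℝ} (h : ∀ a > 0, ∀ b > 0, SDs s e a b) :
    ∃ L : Y →L[ℝ] ℝ, ∀ b > 0, ∃ r > 0, ∀ f y y', |f - e| < r → ‖y‖ < r → ‖y'‖ < r →
      |s f y - s f y' - L (y - y')| ≤ b * ‖y - y'‖ := by
  have h1 : ∀ n : ℕ, ∃ (L : Y →L[ℝ] ℝ) (r : ℝ), 0 < r ∧ ∀ f y y', |f - e| < r → ‖y‖ < r →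
      ‖y'‖ < r → |s f y - s f y' - L (y - y')| ≤ (1 / 2) ^ n * ‖y - y'‖ := by
    intro n
    obtain ⟨α, L, r, hr, H⟩ := h 1 one_pos ((1 / 2) ^ n) (by positivity)
    refine ⟨L, r, hr, fun f y y' h1 h2 h3 => ?_⟩
    have := H f f y y' h1 h1 h2 h3
    simpa using this
  choose L r hr H using h1
  have hdiff : ∀ m n, ‖L m - L n‖ ≤ (1 / 2) ^ m + (1 / 2) ^ n := by
    intro m n
    apply ContinuousLinearMap.opNorm_le_bound _ (by positivity)
    intro z
    obtain ⟨t, ht, htz⟩ : ∃ t : ℝ, 0 < t ∧ ‖t • z‖ < min (r m) (r n) := by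
      have hm : 0 < min (r m) (r n) := lt_min (hr m) (hr n)
      refine ⟨min (r m) (r n) / (2 * (‖z‖ + 1)), by positivity, ?_⟩
      rw [norm_smul, Real.norm_eq_abs, abs_of_pos (by positivity), div_mul_eq_mul_div,
        div_lt_iff₀ (by positivity)]
      have := norm_nonneg z
      nlinarith
    rw [lt_min_iff] at htz
    have a1 := H m e (t • z) 0 (by simpa using hr m) htz.1 (by simpa using hr m)
    have a2 := H n e (t • z) 0 (by simpa using hr n) htz.2 (by simpa using hr n)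
    rw [sub_zero, map_smul, norm_smul, Real.norm_eq_abs, abs_of_pos ht, smul_eq_mul] at a1 a2
    have a3 := abs_le.1 a1
    have a4 := abs_le.1 a2
    rw [Real.norm_eq_abs]
    have : t * |(L m - L n) z| ≤ t * (((1 / 2) ^ m + (1 / 2) ^ n) * ‖z‖) := by
      rw [← abs_of_pos ht, ← abs_mul, abs_of_pos ht]
      have e1 : (L m - L n) z = L m z - L n z := rfl
      rw [e1, abs_le]
      constructor <;> nlinarith [a3.1, a3.2, a4.1, a4.2]
    exact le_of_mul_le_mul_left this ht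
  have hc : CauchySeq L := by
    apply cauchySeq_of_le_geometric (1 / 2) 2 (by norm_num)
    intro n
    rw [dist_eq_norm]
    refine (hdiff n (n + 1)).trans ?_
    have : (0 : ℝ) < (1 / 2) ^ n := by positivity
    rw [pow_succ]; linarith
  obtain ⟨L0, hL0⟩ := cauchySeq_tendsto_of_complete hc
  have hlim : ∀ n, ‖L n - L0‖ ≤ (1 / 2) ^ n := by
    intro n
    have t1 : Tendsto (fun m => ‖L n - L m‖) atTop (𝓝 ‖L n - L0‖) :=
      (tendsto_const_nhds.sub hL0).norm
    have t2 : Tendsto (fun m : ℕ => (1 / 2 : ℝ) ^ n + (1 / 2) ^ m) atTop (𝓝 ((1 / 2) ^ n + 0)) :=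
      tendsto_const_nhds.add (tendsto_pow_atTop_nhds_zero_of_lt_one (by norm_num) (by norm_num))
    rw [add_zero] at t2
    exact le_of_tendsto_of_tendsto' t1 t2 (fun m => hdiff n m)
  refine ⟨L0, fun b hb => ?_⟩
  obtain ⟨n, hn⟩ := exists_pow_lt_of_lt_one (half_pos hb) (by norm_num : (1 / 2 : ℝ) < 1)
  refine ⟨r n, hr n, fun f y y' h1 h2 h3 => ?_⟩
  have a1 := H n f y y' h1 h2 h3
  have a2 : |(L n - L0) (y - y')| ≤ (1 / 2) ^ n * ‖y - y'‖ :=
    ((L n - L0).le_opNorm _).trans (mul_le_mul_of_nonneg_right (hlim n) (norm_nonneg _))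
  have e1 : s f y - s f y' - L0 (y - y') =
      (s f y - s f y' - L n (y - y')) + (L n - L0) (y - y') := by
    simp only [ContinuousLinearMap.sub_apply]; ring
  rw [e1]
  refine (abs_add_le _ _).trans ?_
  have := norm_nonneg (y - y')
  nlinarith

end Pool.Agent.Helper827.B
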