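import Mathlib

set_option autoImplicit false
set_option linter.unusedSectionVars false

namespace Pool.Agent.Helper827.B

open Filter Topology Set MeasureTheory

variable {Y : Type} [NormedAddCommGroup Y] [NormedSpace ℝ Y]

def Str (E : ℝ → Y → ℝ) (c : ℝ) (y : Y) (L : Y →L[ℝ] ℝ) : Prop :=
  ∀ b > 0, ∃ r > 0, ∀ f z z', |f - c| < r → ‖z‖ < r → ‖z'‖ < r →
    |E f (y + z) - E f (y + z') - L (z - z')| ≤ b * ‖z - z'‖

structure Param (E : ℝ → Y → ℝ) : Prop where
  lip : ∀ c c' y y', |E c y - E c' y'| ≤ |c - c'| + 2 * ‖y - y'‖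
  str : ∀ y, {c | ¬ ∃ L : Y →L[ℝ] ℝ, Str E c y L}.Countable

lemma Str.hasF {E : ℝ → Y → ℝ} {c : ℝ} {y : Y} {L : Y →L[ℝ] ℝ} (h : Str E c y L) :
    HasFDerivAt (E c) L y := by
  rw [hasFDerivAt_iff_isLittleO_nhds_zero, Asymptotics.isLittleO_iff]
  intro b hb
  obtain ⟨r, hr, H⟩ := h b hb
  filter_upwards [Metric.ball_mem_nhds (0 : Y) hr] with z hz
  have := H c z 0 (by simpa using hr) (by simpa using hz) (by simpa using hr)
  rw [add_zero, sub_zero] at this
  exact this

lemma Str.close {E : ℝ → Y → ℝ} {c : ℝ} {y : Y} {L : Y →L[ℝ] ℝ} (h : Str E c y L) {b : ℝ}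
    (hb : 0 < b) : ∃ r > 0, ∀ f w (L' : Y →L[ℝ] ℝ), |f - c| < r → ‖w - y‖ < r →
      HasFDerivAt (E f) L' w → ‖L' - L‖ ≤ b := by
  obtain ⟨r, hr, H⟩ := h b hb
  refine ⟨r, hr, ?_⟩
  intro f w L' hf hw hd
  have hd2 : HasFDerivAt (fun v => E f v - L v) (L' - L) w := hd.sub L.hasFDerivAt
  refine hd2.le_of_lip' hb.le ?_
  have : ∀ᶠ v in 𝓝 w, ‖v - y‖ < r := by
    have hc : ContinuousAt (fun v : Y => ‖v - y‖) w := by fun_prop
    exact hc.eventually (Iio_mem_nhds hw)
  filter_upwards [this] with v hv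
  have := H f (v - y) (w - y) hf hv hw
  simp only [add_sub_cancel, sub_sub_sub_cancel_right] at this
  have e1 : E f v - L v - (E f w - L w) = E f v - E f w - L (v - w) := by rw [map_sub]; ring
  rw [e1]
  exact this

variable {E : ℝ → Y → ℝ}

noncomputable def Bf (E : ℝ → Y → ℝ) (y : Y) : ℝ := ∫ c in Set.Icc (1 : ℝ) 2, E c y

lemma Param.cont (hE : Param E) (y : Y) : Continuous (fun c => E c y) := by
  have : LipschitzWith 1 (fun c => E c y) := by
    apply LipschitzWith.of_dist_le_mul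
    intro c c'
    have := hE.lip c c' y y
    rw [sub_self, norm_zero, mul_zero, add_zero] at this
    simpa [Real.dist_eq] using this
  exact this.continuous

lemma Param.int (hE : Param E) (y : Y) : Integrable (fun c => E c y) (volume.restrict (Set.Icc (1 : ℝ) 2)) :=
  (hE.cont y).continuousOn.integrableOn_compact isCompact_Icc

lemma Param.Blip (hE : Param E) (y y' : Y) : |Bf E y - Bf E y'| ≤ 2 * ‖y - y'‖ := by
  unfold Bf
  rw [← integral_sub (hE.int y) (hE.int y'), ← Real.norm_eq_abs]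
  have := norm_setIntegral_le_of_norm_le_const (μ := volume) (s := Set.Icc (1 : ℝ) 2)
    (f := fun c => E c y - E c y') (C := 2 * ‖y - y'‖) (by simp) (fun c _ => by
      have := hE.lip c c y y'
      rw [sub_self, abs_zero, zero_add] at this
      rwa [Real.norm_eq_abs])
  refine this.trans ?_
  have h2 : (volume : Measure ℝ).real (Set.Icc (1 : ℝ) 2) = 1 := by
    simp [Measure.real]; norm_num
  rw [h2, mul_one]

lemma ae_good {s : Set ℝ} (hs : s.Countable) : ∀ᵐ c ∂(volume.restrict (Set.Icc (1 : ℝ) 2)), c ∉ s :=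
  hs.ae_notMem _

lemma Param.meas (hE : Param E) (y : Y) :
    AEStronglyMeasurable (fun c => fderiv ℝ (E c) y) (volume.restrict (Set.Icc (1 : ℝ) 2)) := by
  set G : Set ℝ := {c | ∃ L : Y →L[ℝ] ℝ, Str E c y L} with hG
  have hGc : Gᶜ.Countable := hE.str y
  have hGm : MeasurableSet G := hGc.measurableSet.of_compl
  have hcont : ContinuousOn (fun c => fderiv ℝ (E c) y) G := by
    intro c hc
    obtain ⟨L, hL⟩ := hc
    have hLc : fderiv ℝ (E c) y = L := hL.hasF.fderiv
    rw [Metric.continuousWithinAt_iff]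
    intro b hb
    obtain ⟨r, hr, H⟩ := hL.close (half_pos hb)
    refine ⟨r, hr, fun {f} hf hfc => ?_⟩
    obtain ⟨L', hL'⟩ := hf
    have h1 : fderiv ℝ (E f) y = L' := hL'.hasF.fderiv
    rw [hLc, h1, dist_eq_norm]
    have := H f y L' (by simpa [Real.dist_eq] using hfc) (by simpa using hr) hL'.hasF
    linarith
  have h1 := hcont.aestronglyMeasurable (μ := volume.restrict (Set.Icc (1 : ℝ) 2)) hGm
  have h2 : (volume.restrict (Set.Icc (1 : ℝ) 2)).restrict G = volume.restrict (Set.Icc (1 : ℝ) 2) := by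
    apply Measure.restrict_eq_self_of_ae_mem
    filter_upwards [ae_good hGc] with c hc
    simpa using hc
  rwa [h2] at h1

lemma Param.deriv (hE : Param E) (y : Y) :
    HasFDerivAt (Bf E) (∫ c in Set.Icc (1 : ℝ) 2, fderiv ℝ (E c) y) y := by
  have := hasFDerivAt_integral_of_dominated_loc_of_lip (𝕜 := ℝ)
    (μ := volume.restrict (Set.Icc (1 : ℝ) 2)) (F := fun y c => E c y) (x₀ := y)
    (F' := fun c => fderiv ℝ (E c) y) (bound := fun _ => 2) (s := univ) univ_mem
    (Eventually.of_forall fun x => (hE.cont x).aestronglyMeasurable) (hE.int y) (hE.meas y) ?_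
    (integrable_const _) ?_
  · exact this.2
  · refine Eventually.of_forall fun c => ?_
    rw [lipschitzOnWith_univ]
    apply LipschitzWith.of_dist_le_mul
    intro a b
    have := hE.lip c c a b
    rw [sub_self, abs_zero, zero_add] at this
    simpa [Real.dist_eq, dist_eq_norm] using this
  · filter_upwards [ae_good (hE.str y)] with c hc
    simp only [mem_setOf_eq, not_not] at hc
    obtain ⟨L, hL⟩ := hc
    have h1 : fderiv ℝ (E c) y = L := hL.hasF.fderiv
    rw [h1]
    exact hL.hasF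

lemma Param.fderiv_le (hE : Param E) (c : ℝ) (y : Y) : ‖fderiv ℝ (E c) y‖ ≤ 2 := by
  by_cases hd : DifferentiableAt ℝ (E c) y
  · refine hd.hasFDerivAt.le_of_lip' (by norm_num) (Eventually.of_forall fun x => ?_)
    have := hE.lip c c x y
    rw [sub_self, abs_zero, zero_add] at this
    rwa [Real.norm_eq_abs]
  · rw [fderiv_zero_of_not_differentiableAt hd, norm_zero]; norm_num

theorem Param.contDiff (hE : Param E) : ContDiff ℝ 1 (Bf E) := by
  rw [contDiff_one_iff_fderiv]
  refine ⟨fun y => (hE.deriv y).differentiableAt, ?_⟩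
  have heq : fderiv ℝ (Bf E) = fun y => ∫ c in Set.Icc (1 : ℝ) 2, fderiv ℝ (E c) y := by
    funext y; exact (hE.deriv y).fderiv
  rw [heq, continuous_iff_seqContinuous]
  intro x y hx
  apply tendsto_integral_of_dominated_convergence (fun _ => (2 : ℝ))
  · intro n; exact hE.meas (x n)
  · exact integrable_const _
  · intro n
    exact Eventually.of_forall fun c => hE.fderiv_le c (x n)
  · have h1 : ∀ᵐ c ∂(volume.restrict (Set.Icc (1 : ℝ) 2)),
        ∀ n, c ∉ {c | ¬ ∃ L : Y →L[ℝ] ℝ, Str E c (x n) L} := by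
      rw [ae_all_iff]
      intro n
      exact ae_good (hE.str (x n))
    filter_upwards [h1, ae_good (hE.str y)] with c hc hcy
    simp only [mem_setOf_eq, not_not] at hc hcy
    obtain ⟨L, hL⟩ := hcy
    have hLc : fderiv ℝ (E c) y = L := hL.hasF.fderiv
    rw [Metric.tendsto_nhds]
    intro b hb
    obtain ⟨r, hr, H⟩ := hL.close (half_pos hb)
    have h2 : ∀ᶠ n in atTop, ‖x n - y‖ < r := by
      have := Metric.tendsto_nhds.1 hx r hr
      filter_upwards [this] with n hn
      rwa [dist_eq_norm] at hn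
    filter_upwards [h2] with n hn
    obtain ⟨L', hL'⟩ := hc n
    have h3 : fderiv ℝ (E c) (x n) = L' := hL'.hasF.fderiv
    rw [hLc, h3, dist_eq_norm]
    have := H c (x n) L' (by simpa using hr) hn hL'.hasF
    linarith

end Pool.Agent.Helper827.B
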