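import Mathlib
import Pool.Agent.Helper827.B6
import Pool.Agent.Helper827.B7

set_option autoImplicit false
set_option linter.unusedSectionVars false

namespace Pool.Agent.Helper827.B

open Filter Topology Set MeasureTheory

variable {K : Type} [TopologicalSpace K] [CompactSpace K]
variable {Y : Type} [NormedAddCommGroup Y] [NormedSpace ℝ Y]
variable {X : Type} [NormedAddCommGroup X] [NormedSpace ℝ X]
variable {D : ℕ → Set K → Set K}

lemma lip3 (hD : ∀ k, Der (D k)) {A : Set K} (hA : IsClosed A) {u v : K → ℝ} (hu : Continuous u)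
    (hv : Continuous v) {η : ℝ} (hη : 0 ≤ η) (huv : ∀ h, |u h - v h| ≤ η) (k : ℕ) (e f : ℝ) :
    |Phi D k A e u - Phi D k A f v| ≤ |e - f| + 2 * η := by
  have hg := Phi_good hD k
  have hκ := kap_pos k
  have hκ1 := kap_le k
  have hM := MM_le k
  have mix : ∀ (u v : K → ℝ) (_ : Continuous u) (_ : Continuous v) (_ : ∀ h, |u h - v h| ≤ η)
      (e f : ℝ), (∃ h ∈ A, e ≤ u h) → (∀ h ∈ A, v h < f) →
      |Phi D k A e u - Phi D k A f v| ≤ |e - f| + 2 * η := by
    intro u v hu hv huv e f hau hav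
    obtain ⟨h0, h1, h2, h3⟩ := exists_max hA hu hau
    have h4 := hg.up hκ.le hA hu h3 h2
    have h5 := hg.ge A e u hA hu
    rw [hg.eq A f v hA hv (fun h hh => (hav h hh).le)]
    have h6 := abs_le.1 (huv h0)
    have h7 := hav h0 h1
    have h8 : f - e ≤ |e - f| := by rw [abs_sub_comm]; exact le_abs_self _
    have h10 : 0 ≤ u h0 - e := by linarith
    have h11 : kap k * (u h0 - e) ≤ 1 / 32 * (u h0 - e) := mul_le_mul_of_nonneg_right hκ1 h10
    have h12 := abs_nonneg (e - f)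
    rw [abs_le]
    constructor <;> linarith [h6.1, h6.2]
  by_cases hau : ∃ h ∈ A, e ≤ u h
  · by_cases hav : ∃ h ∈ A, f ≤ v h
    · refine (hg.lip A e f u v η hA hu hv (fun h _ _ => huv h) hau hav).trans ?_
      have := abs_nonneg (e - f)
      nlinarith
    · push Not at hav
      exact mix u v hu hv huv e f hau hav
  · push Not at hau
    by_cases hav : ∃ h ∈ A, f ≤ v h
    · have := mix v u hv hu (fun h => by rw [abs_sub_comm]; exact huv h) f e hav hau
      rw [abs_sub_comm, abs_sub_comm f e] at this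
      exact this
    · push Not at hav
      rw [hg.eq A e u hA hu (fun h hh => (hau h hh).le), hg.eq A f v hA hv (fun h hh => (hav h hh).le)]
      linarith

noncomputable def EE (D : ℕ → Set K → Set K) (ev0 : K → (X →L[ℝ] ℝ)) (c : ℝ) (x : X) : ℝ :=
  Phi D 0 univ c (fun h => ev0 h x)

lemma EE_lip (hD : ∀ k, Der (D k)) {ev0 : K → (X →L[ℝ] ℝ)} (hev : EvOK ev0) (c c' : ℝ) (x x' : X) :
    |EE D ev0 c x - EE D ev0 c' x'| ≤ |c - c'| + 2 * ‖x - x'‖ := by
  refine lip3 hD isClosed_univ (hev.cont x) (hev.cont x') (norm_nonneg _) (fun h => ?_) 0 c c'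
  rw [← map_sub]
  exact ev_le hev h _

lemma EE_const (hD : ∀ k, Der (D k)) {ev0 : K → (X →L[ℝ] ℝ)} (hev : EvOK ev0) {c : ℝ} {x : X}
    (h : ‖x‖ ≤ c) : EE D ev0 c x = c := by
  apply (Phi_good hD 0).eq _ _ _ isClosed_univ (hev.cont x)
  intro g _
  have := (abs_le.1 (ev_le hev g x)).2
  linarith

lemma EE_ge (hD : ∀ k, Der (D k)) {ev0 : K → (X →L[ℝ] ℝ)} (hev : EvOK ev0) {c : ℝ} {x : X}
    {g : K} (hg : ev0 g x = ‖x‖) : ‖x‖ ≤ EE D ev0 c x := by
  rw [← hg]
  exact (Phi_good hD 0).ub univ c (fun h => ev0 h x) isClosed_univ (hev.cont x) g (mem_univ _)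

lemma EE_ge' (hD : ∀ k, Der (D k)) {ev0 : K → (X →L[ℝ] ℝ)} (hev : EvOK ev0) {c : ℝ} {x : X} :
    c ≤ EE D ev0 c x :=
  (Phi_good hD 0).ge univ c (fun h => ev0 h x) isClosed_univ (hev.cont x)

theorem param_of_frag (hD : ∀ k, Der (D k)) {ev0 : K → (X →L[ℝ] ℝ)} (hev : EvOK ev0) (x : X)
    (P : Y →L[ℝ] X) (hP : ‖P‖ ≤ 1)
    (hF : ∀ y, Frag D (fun h => ev0 h (x + P y)) (fun h => (ev0 h).comp P)) :
    Param (fun c y => EE D ev0 c (x + P y)) := by
  have hPle : ∀ y, ‖P y‖ ≤ ‖y‖ := by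
    intro y
    have := P.le_opNorm y
    nlinarith [norm_nonneg y]
  have hev1 : EvOK (fun h => (ev0 h).comp P) := by
    refine ⟨fun h => ?_, fun y => ?_⟩
    · refine (ContinuousLinearMap.opNorm_comp_le _ _).trans ?_
      have := hev.norm h
      have := norm_nonneg P
      nlinarith
    · exact hev.cont (P y)
  refine ⟨?_, ?_⟩
  · intro c c' y y'
    refine (EE_lip hD hev c c' _ _).trans ?_
    have : x + P y - (x + P y') = P (y - y') := by rw [map_sub]; abel
    rw [this]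
    have := hPle (y - y')
    linarith
  · intro y
    refine Set.Countable.mono ?_ (Gen_countable hD (hev.cont (x + P y)) 0 isClosed_univ)
    intro c hc hgen
    apply hc
    obtain ⟨L, hL⟩ := exists_strict (s := fun f z => Phi D 0 univ f
      (pu (fun h => ev0 h (x + P y)) (fun h => (ev0 h).comp P) z)) (e := c)
      (fun a ha b hb => main_SD hD hev1 (hev.cont (x + P y)) (hF y) hgen ha hb)
    refine ⟨L, fun b hb => ?_⟩
    obtain ⟨r, hr, H⟩ := hL b hb
    refine ⟨r, hr, fun f z z' h1 h2 h3 => ?_⟩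
    have h4 := H f z z' h1 h2 h3
    have key : ∀ z, (pu (fun h => ev0 h (x + P y)) (fun h => (ev0 h).comp P) z) =
        fun h => ev0 h (x + P (y + z)) := by
      intro z
      funext h
      simp only [pu, ContinuousLinearMap.comp_apply, map_add]
      ring
    simp only [key] at h4
    exact h4

/-- derivation attached to a fragmentation -/
noncomputable def mkD (S : ℕ → Set K → Prop)
    (hS : ∀ k, ∀ M : Set K, IsClosed M → M.Nonempty → ∃ O : Set K, IsOpen O ∧ (M ∩ O).Nonempty ∧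
      S k (M ∩ O)) (k : ℕ) (A : Set K) : Set K :=
  open Classical in
  if h : IsClosed A ∧ A.Nonempty then A \ Classical.choose (hS k A h.1 h.2) else A

lemma mkD_der {S : ℕ → Set K → Prop}
    (hS : ∀ k, ∀ M : Set K, IsClosed M → M.Nonempty → ∃ O : Set K, IsOpen O ∧ (M ∩ O).Nonempty ∧
      S k (M ∩ O)) (k : ℕ) : Der (mkD S hS k) := by
  refine ⟨?_, ?_, ?_⟩
  · intro A hA
    unfold mkD
    split_ifs with h
    · exact hA.sdiff (Classical.choose_spec (hS k A h.1 h.2)).1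
    · exact hA
  · intro A
    unfold mkD
    split_ifs with h
    · exact diff_subset
    · exact subset_rfl
  · intro A hA hne heq
    unfold mkD at heq
    rw [dif_pos ⟨hA, hne⟩] at heq
    obtain ⟨-, ⟨x, hx, hxO⟩, -⟩ := Classical.choose_spec (hS k A hA hne)
    have : x ∈ A \ Classical.choose (hS k A hA hne) := by rw [heq]; exact hx
    exact this.2 hxO

lemma mkD_small {S : ℕ → Set K → Prop}
    (hS : ∀ k, ∀ M : Set K, IsClosed M → M.Nonempty → ∃ O : Set K, IsOpen O ∧ (M ∩ O).Nonempty ∧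
      S k (M ∩ O)) (k : ℕ) {A : Set K} (hA : IsClosed A) (hne : A.Nonempty) :
    S k (A \ mkD S hS k A) := by
  unfold mkD
  rw [dif_pos ⟨hA, hne⟩, diff_diff_right_self]
  exact (Classical.choose_spec (hS k A hA hne)).2.2

lemma frag_F (hD : ∀ k, Der (D k)) {ev : K → (Y →L[ℝ] ℝ)} {u : K → ℝ} (hu : Continuous u)
    (hS : ∀ k A, IsClosed A → A.Nonempty → ∀ h ∈ A \ D k A, ∀ h' ∈ A \ D k A,
      ‖ev h - ev h'‖ ≤ (1 / 2) ^ k) : Frag D u ev := by
  intro A e hA hsub hmono hin hact ν hν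
  obtain ⟨n, hn⟩ := exists_pow_lt_of_lt_one hν (by norm_num : (1 / 2 : ℝ) < 1)
  refine ⟨n, fun k hk => ?_⟩
  obtain ⟨δ, hδ, hmar⟩ := margin ((hD k).closed _ (hA (k + 1))) hu (hin k)
  refine ⟨δ / 2, half_pos hδ, ?_⟩
  intro h hh h' hh' h1 h2
  have hne : (A (k + 1)).Nonempty := ⟨h, hh⟩
  have h3 : ∀ g ∈ A (k + 1), e (k + 1) - δ / 2 ≤ u g → g ∈ A (k + 1) \ D k (A (k + 1)) := by
    intro g hg hge
    refine ⟨hg, fun hgD => ?_⟩
    have := hmar g hgD
    linarith
  refine (hS k _ (hA (k + 1)) hne h (h3 h hh h1) h' (h3 h' hh' h2)).trans ?_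
  have : (1 / 2 : ℝ) ^ k ≤ (1 / 2) ^ n := pow_le_pow_of_le_one (by norm_num) (by norm_num) hk
  linarith

lemma frag_G {ev : K → (Y →L[ℝ] ℝ)} (hevc : Continuous ev)
    {u : K → ℝ} (hu : Continuous u) (ρ : K → K → ℝ) (hρ0 : ∀ f g, ρ f g = 0 ↔ f = g)
    (hρ : ∀ f g, 0 ≤ ρ f g)
    (hS : ∀ k A, IsClosed A → A.Nonempty → ∀ h ∈ A \ D k A, ∀ h' ∈ A \ D k A,
      ρ h h' ≤ (1 / 2) ^ k) : Frag D u ev := by
  intro A e hA hsub hmono hin hact ν hν
  let F : ℕ → Set K := fun k => A (k + 1) ∩ {h | e (k + 1) ≤ u h}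
  have hFc : ∀ k, IsClosed (F k) := fun k => (hA (k + 1)).inter (isClosed_le continuous_const hu)
  have hFne : ∀ k, (F k).Nonempty := by
    intro k
    obtain ⟨h, hh, he⟩ := hact k
    exact ⟨h, hh, he.le⟩
  have hFs : ∀ k, F (k + 1) ⊆ F k := by
    intro k h hh
    exact ⟨hsub (k + 1) hh.1, (hmono (k + 1)).trans hh.2⟩
  have hFanti : Antitone F := antitone_nat_of_succ_le hFs
  obtain ⟨g, hg⟩ := IsCompact.nonempty_iInter_of_sequence_nonempty_isCompact_isClosed F hFs hFne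
    (hFc 0).isCompact hFc
  rw [mem_iInter] at hg
  have hFD : ∀ k, ∀ h ∈ F k, h ∈ A (k + 1) \ D k (A (k + 1)) := by
    intro k h hh
    refine ⟨hh.1, fun hD => ?_⟩
    have := hin k h hD
    have := hh.2
    simp only [mem_setOf_eq] at this
    linarith
  have huniq : ∀ h, (∀ k, h ∈ F k) → h = g := by
    intro h hh
    rw [← hρ0]
    apply le_antisymm _ (hρ _ _)
    have : ∀ k : ℕ, ρ h g ≤ (1 / 2) ^ k := fun k =>
      hS k _ (hA (k + 1)) ⟨h, (hh k).1⟩ h (hFD k h (hh k)) g (hFD k g (hg k))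
    exact ge_of_tendsto' (tendsto_pow_atTop_nhds_zero_of_lt_one (by norm_num) (by norm_num)) this
  let O : Set K := {h | ‖ev h - ev g‖ < ν / 2}
  have hO : IsOpen O := isOpen_lt ((hevc.sub continuous_const).norm) continuous_const
  have h1 : ∃ k0, F k0 ⊆ O := by
    by_contra hcon
    push Not at hcon
    have hne : ∀ k, (F k ∩ Oᶜ).Nonempty := by
      intro k
      obtain ⟨h, h1, h2⟩ := Set.not_subset.1 (hcon k)
      exact ⟨h, h1, h2⟩
    obtain ⟨h, hh⟩ := IsCompact.nonempty_iInter_of_sequence_nonempty_isCompact_isClosed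
      (fun k => F k ∩ Oᶜ) (fun k => inter_subset_inter_left _ (hFs k)) hne
      ((hFc 0).inter hO.isClosed_compl).isCompact (fun k => (hFc k).inter hO.isClosed_compl)
    rw [mem_iInter] at hh
    have h3 := huniq h (fun k => (hh k).1)
    have h4 := (hh 0).2
    rw [h3] at h4
    apply h4
    simp only [O, mem_setOf_eq, sub_self, norm_zero]
    linarith
  obtain ⟨k0, hk0⟩ := h1
  refine ⟨k0, fun k hk => ?_⟩
  have hkO : F k ⊆ O := (hFanti hk).trans hk0
  have h2 : ∃ n : ℕ, (A (k + 1) ∩ {h | e (k + 1) - 1 / ((n : ℝ) + 1) ≤ u h}) ⊆ O := by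
    by_contra hcon
    push Not at hcon
    let G : ℕ → Set K := fun n => (A (k + 1) ∩ {h | e (k + 1) - 1 / ((n : ℝ) + 1) ≤ u h}) ∩ Oᶜ
    have hGc : ∀ n, IsClosed (G n) := fun n =>
      ((hA (k + 1)).inter (isClosed_le continuous_const hu)).inter hO.isClosed_compl
    have hne : ∀ n, (G n).Nonempty := by
      intro n
      obtain ⟨h, h1, h2⟩ := Set.not_subset.1 (hcon n)
      exact ⟨h, h1, h2⟩
    have hGs : ∀ n, G (n + 1) ⊆ G n := by
      intro n h hh
      refine ⟨⟨hh.1.1, ?_⟩, hh.2⟩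
      have h3 := hh.1.2
      simp only [mem_setOf_eq] at h3 ⊢
      refine le_trans ?_ h3
      push_cast
      have : 1 / ((n : ℝ) + 1 + 1) ≤ 1 / ((n : ℝ) + 1) := by
        apply one_div_le_one_div_of_le <;> linarith [(Nat.cast_nonneg n : (0 : ℝ) ≤ n)]
      linarith
    obtain ⟨h, hh⟩ := IsCompact.nonempty_iInter_of_sequence_nonempty_isCompact_isClosed
      G hGs hne (hGc 0).isCompact hGc
    rw [mem_iInter] at hh
    have h3 : h ∈ F k := by
      refine ⟨(hh 0).1.1, ?_⟩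
      have ht : Tendsto (fun n : ℕ => e (k + 1) - 1 / ((n : ℝ) + 1)) atTop (𝓝 (e (k + 1) - 0)) :=
        tendsto_const_nhds.sub tendsto_one_div_add_atTop_nhds_zero_nat
      rw [sub_zero] at ht
      exact le_of_tendsto' ht (fun n => (hh n).1.2)
    exact (hh 0).2 (hkO h3)
  obtain ⟨n, hn⟩ := h2
  refine ⟨1 / ((n : ℝ) + 1), by positivity, ?_⟩
  intro h hh h' hh' h3 h4
  have a1 := hn ⟨hh, h3⟩
  have a2 := hn ⟨hh', h4⟩
  simp only [O, mem_setOf_eq] at a1 a2
  calc ‖ev h - ev h'‖ = ‖(ev h - ev g) - (ev h' - ev g)‖ := by congr 1; abel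
    _ ≤ ‖ev h - ev g‖ + ‖ev h' - ev g‖ := norm_sub_le _ _
    _ ≤ ν := by linarith

end Pool.Agent.Helper827.B
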