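import Mathlib
import Pool.Agent.Helper827.B8

set_option autoImplicit false
set_option linter.unusedSectionVars false

namespace Pool.Agent.Helper827.B

open Filter Topology Set MeasureTheory

variable {X : Type} [NormedAddCommGroup X] [NormedSpace ℝ X]

/-- the dual unit ball with the weak-star topology -/
def DB (X : Type) [NormedAddCommGroup X] [NormedSpace ℝ X] : Type :=
  {φ : WeakDual ℝ X // ∀ x : X, |φ x| ≤ ‖x‖}

noncomputable instance : TopologicalSpace (DB X) := instTopologicalSpaceSubtype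

noncomputable def toF (h : DB X) : X →L[ℝ] ℝ := WeakDual.toStrongDual h.1

lemma toF_apply (h : DB X) (x : X) : toF h x = h.1 x := rfl

lemma DB_cont (x : X) : Continuous fun h : DB X => toF h x :=
  (WeakDual.eval_continuous x).comp continuous_subtype_val

lemma toF_norm (h : DB X) : ‖toF h‖ ≤ 1 := by
  refine ContinuousLinearMap.opNorm_le_bound _ zero_le_one (fun x => ?_)
  rw [one_mul]
  exact h.2 x

lemma toF_inj {h k : DB X} (H : toF h = toF k) : h = k := by
  apply Subtype.ext
  apply DFunLike.ext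
  intro x
  have := congrArg (fun f : X →L[ℝ] ℝ => f x) H
  exact this

noncomputable def ofF (f : X →L[ℝ] ℝ) (hf : ‖f‖ ≤ 1) : DB X :=
  ⟨StrongDual.toWeakDual f, fun x => by
    have := f.le_opNorm x
    have h2 : ‖f‖ * ‖x‖ ≤ 1 * ‖x‖ := mul_le_mul_of_nonneg_right hf (norm_nonneg _)
    rw [one_mul] at h2
    exact this.trans h2⟩

lemma toF_ofF (f : X →L[ℝ] ℝ) (hf : ‖f‖ ≤ 1) : toF (ofF f hf) = f := rfl

instance : CompactSpace (DB X) := by
  have h : IsCompact {φ : WeakDual ℝ X | ∀ x : X, |φ x| ≤ ‖x‖} := by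
    have h2 := WeakDual.isCompact_closedBall (𝕜 := ℝ) (E := X) 0 1
    have heq : {φ : WeakDual ℝ X | ∀ x : X, |φ x| ≤ ‖x‖} =
        WeakDual.toStrongDual ⁻¹' Metric.closedBall 0 1 := by
      ext φ
      simp only [mem_setOf_eq, mem_preimage, mem_closedBall_zero_iff]
      constructor
      · intro h
        refine ContinuousLinearMap.opNorm_le_bound _ zero_le_one (fun x => ?_)
        rw [one_mul]
        exact h x
      · intro h x
        have := ContinuousLinearMap.le_opNorm (WeakDual.toStrongDual φ) x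
        refine this.trans ?_
        calc _ ≤ 1 * ‖x‖ := by gcongr
          _ = _ := one_mul _
    rw [heq]
    exact h2
  exact isCompact_iff_compactSpace.1 h

lemma toF_ok : EvOK (fun h : DB X => toF h) := ⟨toF_norm, DB_cont⟩

lemma exists_norming (x : X) : ∃ h : DB X, toF h x = ‖x‖ := by
  by_cases hx : x = 0
  · subst hx
    refine ⟨ofF 0 (by simp), by simp⟩
  · obtain ⟨g, hg, hgx⟩ := exists_dual_vector ℝ x (by simpa using hx)
    refine ⟨ofF g hg.le, ?_⟩
    rw [toF_ofF]
    simpa using hgx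

/-- continuity into the pointwise topology of the dual -/
lemma toF_cont_ind : @Continuous (DB X) (X →L[ℝ] ℝ) _
    (TopologicalSpace.induced (fun f : X →L[ℝ] ℝ => (⇑f : X → ℝ)) Pi.topologicalSpace) toF := by
  rw [continuous_induced_rng]
  exact continuous_pi fun x => DB_cont x

noncomputable def BB (D : ℕ → Set (DB X) → Set (DB X)) : X → ℝ := Bf (EE D (fun h : DB X => toF h))

variable {D : ℕ → Set (DB X) → Set (DB X)}

lemma EE_int (hD : ∀ k, Der (D k)) (x : X) :
    Integrable (fun c => EE D (fun h : DB X => toF h) c x) (volume.restrict (Set.Icc (1 : ℝ) 2)) := by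
  have : LipschitzWith 1 (fun c => EE D (fun h : DB X => toF h) c x) := by
    apply LipschitzWith.of_dist_le_mul
    intro c c'
    have := EE_lip hD (toF_ok (X := X)) c c' x x
    rw [sub_self, norm_zero, mul_zero, add_zero] at this
    simpa [Real.dist_eq] using this
  exact this.continuous.continuousOn.integrableOn_compact isCompact_Icc

lemma BB_one (hD : ∀ k, Der (D k)) {x : X} (hx : ‖x‖ ≤ 1) : BB D x = 3 / 2 := by
  unfold BB Bf
  have h1 : ∫ c in Set.Icc (1 : ℝ) 2, EE D (fun h : DB X => toF h) c x = ∫ c in Set.Icc (1 : ℝ) 2, c := by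
    apply setIntegral_congr_fun measurableSet_Icc
    intro c hc
    exact EE_const hD toF_ok (hx.trans hc.1)
  rw [h1, integral_Icc_eq_integral_Ioc, ← intervalIntegral.integral_of_le (by norm_num), integral_id]
  norm_num

lemma vol1 : (volume : Measure ℝ).real (Set.Icc (1 : ℝ) 2) = 1 := by
  simp [Measure.real]; norm_num

lemma BB_ge (hD : ∀ k, Der (D k)) (x : X) : ‖x‖ ≤ BB D x := by
  unfold BB Bf
  obtain ⟨g, hg⟩ := exists_norming x
  have h1 : ∫ _ in Set.Icc (1 : ℝ) 2, ‖x‖ = ‖x‖ := by
    rw [setIntegral_const, vol1, one_smul]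
  rw [← h1]
  apply integral_mono (integrable_const _) (EE_int hD x)
  intro c
  have : ‖x‖ ≤ EE D (fun h : DB X => toF h) c x := EE_ge hD toF_ok hg
  simpa [h1] using this

lemma BB_lip (hD : ∀ k, Der (D k)) (x y : X) : |BB D x - BB D y| ≤ 2 * ‖x - y‖ := by
  unfold BB Bf
  rw [← integral_sub (EE_int hD x) (EE_int hD y), ← Real.norm_eq_abs]
  have := norm_setIntegral_le_of_norm_le_const (μ := volume) (s := Set.Icc (1 : ℝ) 2)
    (f := fun c => EE D (fun h : DB X => toF h) c x - EE D (fun h : DB X => toF h) c y)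
    (C := 2 * ‖x - y‖) (by simp) (fun c _ => by
      have := EE_lip hD (toF_ok (X := X)) c c x y
      rw [sub_self, abs_zero, zero_add] at this
      rwa [Real.norm_eq_abs])
  refine this.trans ?_
  rw [vol1, mul_one]

lemma BB_contDiff (hD : ∀ k, Der (D k)) {Y : Type} [NormedAddCommGroup Y] [NormedSpace ℝ Y]
    (x : X) (P : Y →L[ℝ] X) (hP : ‖P‖ ≤ 1)
    (hF : ∀ y, Frag D (fun h : DB X => toF h (x + P y)) (fun h => (toF h).comp P)) :
    ContDiff ℝ 1 (fun y => BB D (x + P y)) :=
  (param_of_frag hD toF_ok x P hP hF).contDiff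

/-- the cut-off -/
noncomputable def cut : ContDiffBump (3 / 2 : ℝ) := ⟨1 / 4, 1 / 2, by norm_num, by norm_num⟩

lemma cut_one : cut (3 / 2) = 1 := by
  apply cut.one_of_mem_closedBall
  simp [cut]

lemma cut_zero {s : ℝ} (hs : 2 ≤ s) : cut s = 0 := by
  apply cut.zero_of_le_dist
  rw [Real.dist_eq]
  simp only [cut]
  rw [abs_of_nonneg (by linarith)]
  linarith

lemma cut_lip : ∃ C, LipschitzWith C (cut : ℝ → ℝ) :=
  ContDiff.lipschitzWith_of_hasCompactSupport cut.hasCompactSupport (cut.contDiff (n := 1)) (by simp)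

lemma BB_lipw (hD : ∀ k, Der (D k)) : LipschitzWith 2 (BB D) := by
  apply LipschitzWith.of_dist_le_mul
  intro x y
  rw [Real.dist_eq, dist_eq_norm]
  exact BB_lip hD x y

noncomputable def bump (D : ℕ → Set (DB X) → Set (DB X)) (x : X) : ℝ := cut (BB D x)

lemma bump_lip (hD : ∀ k, Der (D k)) : ∃ C, LipschitzWith C (bump D) := by
  obtain ⟨C, hC⟩ := cut_lip
  exact ⟨C * 2, hC.comp (BB_lipw hD)⟩

lemma bump_zero (hD : ∀ k, Der (D k)) : bump D 0 = 1 := by
  unfold bump
  rw [BB_one hD (by simp), cut_one]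

lemma bump_supp (hD : ∀ k, Der (D k)) : Bornology.IsBounded (Function.support (bump D)) := by
  apply (Metric.isBounded_ball (x := (0 : X)) (r := 2)).subset
  intro x hx
  rw [mem_ball_zero_iff]
  by_contra hcon
  push Not at hcon
  apply hx
  unfold bump
  exact cut_zero (hcon.trans (BB_ge hD x))

theorem bump_C1 (hD : ∀ k, Der (D k))
    (hF : ∀ x : X, Frag D (fun h : DB X => toF h x) (fun h => toF h)) :
    ContDiff ℝ 1 (bump D) := by
  have h1 : ContDiff ℝ 1 (fun y : X => BB D (0 + (ContinuousLinearMap.id ℝ X) y)) := by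
    apply BB_contDiff hD 0 (ContinuousLinearMap.id ℝ X) ContinuousLinearMap.norm_id_le
    intro y
    simp only [zero_add, ContinuousLinearMap.comp_id, ContinuousLinearMap.coe_id', id_eq]
    exact hF y
  have h2 : ContDiff ℝ 1 (BB D) := by
    simpa using h1
  exact (cut.contDiff (n := 1)).comp h2

end Pool.Agent.Helper827.B
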