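import Mathlib
import Pool.Agent.Helper827.B9

set_option autoImplicit false
set_option linter.unusedSectionVars false

namespace Pool.Agent.Helper827.B

open Filter Topology Set MeasureTheory

variable {X : Type} [NormedAddCommGroup X] [NormedSpace ℝ X]

lemma toF_open (Ω : Set (X →L[ℝ] ℝ)) (h : @IsOpen (X →L[ℝ] ℝ)
    (TopologicalSpace.induced (fun f : X →L[ℝ] ℝ => (⇑f : X → ℝ)) Pi.topologicalSpace) Ω) :
    IsOpen ((toF : DB X → (X →L[ℝ] ℝ)) ⁻¹' Ω) :=
  @Continuous.isOpen_preimage (DB X) (X →L[ℝ] ℝ) _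
    (TopologicalSpace.induced (fun f : X →L[ℝ] ℝ => (⇑f : X → ℝ)) Pi.topologicalSpace)
    toF toF_cont_ind Ω h

/-- Frechet version: norm fragmentation of the dual ball gives a Lipschitz C1 bump -/
theorem frechet_of_frag
    (hfr : ∀ ε : ℝ, 0 < ε → ∀ M : Set (DB X), IsClosed M → M.Nonempty → ∃ O : Set (DB X), IsOpen O ∧
      (M ∩ O).Nonempty ∧ ∀ h ∈ M ∩ O, ∀ h' ∈ M ∩ O, ‖toF h - toF h'‖ ≤ ε) :
    ∃ b : X → ℝ, ContDiff ℝ 1 b ∧ (∃ C, LipschitzWith C b) ∧ b 0 ≠ 0 ∧
      Bornology.IsBounded (Function.support b) := by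
  let S : ℕ → Set (DB X) → Prop := fun k M => ∀ h ∈ M, ∀ h' ∈ M, ‖toF h - toF h'‖ ≤ (1 / 2) ^ k
  have hS : ∀ k, ∀ M : Set (DB X), IsClosed M → M.Nonempty → ∃ O : Set (DB X), IsOpen O ∧
      (M ∩ O).Nonempty ∧ S k (M ∩ O) := by
    intro k M hM hne
    obtain ⟨O, h1, h2, h3⟩ := hfr ((1 / 2) ^ k) (by positivity) M hM hne
    exact ⟨O, h1, h2, h3⟩
  have hD : ∀ k, Der (mkD S hS k) := mkD_der hS
  refine ⟨bump (mkD S hS), ?_, bump_lip hD, ?_, bump_supp hD⟩
  · apply bump_C1 hD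
    intro x
    apply frag_F hD (DB_cont x)
    intro k A hA hne
    exact mkD_small hS k hA hne
  · rw [bump_zero hD]; exact one_ne_zero

/-- directional derivatives -/
theorem gateaux_of_C1 {B : X → ℝ} (hlip : ∀ x y, |B x - B y| ≤ 2 * ‖x - y‖)
    (hC : ∀ (x : X) (P : (ℝ × ℝ) →L[ℝ] X), ‖P‖ ≤ 1 → ContDiff ℝ 1 (fun y => B (x + P y))) (x : X) :
    ∃ L : X →L[ℝ] ℝ, ∀ h : X, HasDerivAt (fun t : ℝ => B (x + t • h)) (L h) 0 := by
  have key : ∀ h1 h2 : X, ∃ l1 l2 : ℝ, ∀ a b : ℝ,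
      HasDerivAt (fun t : ℝ => B (x + t • (a • h1 + b • h2))) (a * l1 + b * l2) 0 := by
    intro h1 h2
    obtain ⟨lam, hl, hl2⟩ : ∃ lam : ℝ, 0 < lam ∧ lam * (‖h1‖ + ‖h2‖) ≤ 1 := by
      refine ⟨1 / (‖h1‖ + ‖h2‖ + 1), by positivity, ?_⟩
      rw [one_div, inv_mul_le_iff₀ (by positivity)]
      linarith
    let P : (ℝ × ℝ) →L[ℝ] X := (ContinuousLinearMap.fst ℝ ℝ ℝ).smulRight (lam • h1) +
      (ContinuousLinearMap.snd ℝ ℝ ℝ).smulRight (lam • h2)
    have hPa : ∀ p : ℝ × ℝ, P p = p.1 • (lam • h1) + p.2 • (lam • h2) := by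
      intro p; simp [P]
    have hP : ‖P‖ ≤ 1 := by
      apply ContinuousLinearMap.opNorm_le_bound _ zero_le_one
      intro p
      rw [hPa, one_mul]
      refine (norm_add_le _ _).trans ?_
      rw [norm_smul, norm_smul, norm_smul, norm_smul, Real.norm_eq_abs lam, abs_of_pos hl]
      have e1 : ‖p.1‖ ≤ ‖p‖ := norm_fst_le p
      have e2 : ‖p.2‖ ≤ ‖p‖ := norm_snd_le p
      have e3 := norm_nonneg h1
      have e4 := norm_nonneg h2
      have e5 : ‖p.1‖ * (lam * ‖h1‖) ≤ ‖p‖ * (lam * ‖h1‖) := mul_le_mul_of_nonneg_right e1 (by positivity)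
      have e6 : ‖p.2‖ * (lam * ‖h2‖) ≤ ‖p‖ * (lam * ‖h2‖) := mul_le_mul_of_nonneg_right e2 (by positivity)
      nlinarith [norm_nonneg p, mul_le_mul_of_nonneg_left hl2 (norm_nonneg p)]
    have hd : DifferentiableAt ℝ (fun y => B (x + P y)) 0 :=
      ((hC x P hP).differentiable (by norm_num)).differentiableAt
    set G := fderiv ℝ (fun y => B (x + P y)) 0 with hG
    have hGd := hd.hasFDerivAt
    refine ⟨G (1 / lam, 0), G (0, 1 / lam), fun a b => ?_⟩
    have hcurve : HasDerivAt (fun t : ℝ => ((t * (a / lam), t * (b / lam)) : ℝ × ℝ)) (a / lam, b / lam) 0 := by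
      have c1 : HasDerivAt (fun t : ℝ => t * (a / lam)) (a / lam) 0 := by
        simpa using (hasDerivAt_id (0 : ℝ)).mul_const (a / lam)
      have c2 : HasDerivAt (fun t : ℝ => t * (b / lam)) (b / lam) 0 := by
        simpa using (hasDerivAt_id (0 : ℝ)).mul_const (b / lam)
      exact c1.prodMk c2
    have h0 : ((0 * (a / lam), 0 * (b / lam)) : ℝ × ℝ) = 0 := by simp
    have hcomp := HasFDerivAt.comp_hasDerivAt (x := (0 : ℝ)) (f := fun t : ℝ => ((t * (a / lam), t * (b / lam)) : ℝ × ℝ))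
      (l := fun y => B (x + P y)) (l' := G) (by rw [h0]; exact hGd) hcurve
    have e1 : (fun y => B (x + P y)) ∘ (fun t : ℝ => ((t * (a / lam), t * (b / lam)) : ℝ × ℝ)) =
        fun t : ℝ => B (x + t • (a • h1 + b • h2)) := by
      funext t
      simp only [Function.comp_apply, hPa, smul_add, smul_smul]
      have q1 : t * (a / lam) * lam = t * a := by field_simp
      have q2 : t * (b / lam) * lam = t * b := by field_simp
      rw [q1, q2]
    rw [e1] at hcomp
    have e2 : G (a / lam, b / lam) = a * G (1 / lam, 0) + b * G (0, 1 / lam) := by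
      have : ((a / lam, b / lam) : ℝ × ℝ) = a • (1 / lam, 0) + b • (0, 1 / lam) := by
        ext <;> simp [div_eq_mul_inv]
      rw [this, map_add, map_smul, map_smul, smul_eq_mul, smul_eq_mul]
    rw [e2] at hcomp
    exact hcomp
  have hder : ∀ h : X, ∃ l : ℝ, HasDerivAt (fun t : ℝ => B (x + t • h)) l 0 := by
    intro h
    obtain ⟨l1, l2, H⟩ := key h 0
    have := H 1 0
    simp only [one_smul, smul_zero, add_zero] at this
    exact ⟨_, this⟩
  choose l hl using hder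
  have hlin : ∀ (a b : ℝ) (h1 h2 : X), l (a • h1 + b • h2) = a * l h1 + b * l h2 := by
    intro a b h1 h2
    obtain ⟨l1, l2, H⟩ := key h1 h2
    have e1 : l h1 = l1 := by
      have := H 1 0
      simp only [one_smul, zero_smul, add_zero, one_mul, zero_mul] at this
      exact (hl h1).unique this
    have e2 : l h2 = l2 := by
      have := H 0 1
      simp only [one_smul, zero_smul, zero_add, one_mul, zero_mul] at this
      exact (hl h2).unique this
    rw [e1, e2]
    exact (hl _).unique (H a b)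
  let Lm : X →ₗ[ℝ] ℝ :=
    { toFun := l
      map_add' := fun a b => by
        have := hlin 1 1 a b
        simpa using this
      map_smul' := fun c a => by
        have := hlin c 0 a 0
        simpa using this }
  have hb : ∀ h, ‖Lm h‖ ≤ 2 * ‖h‖ := by
    intro h
    have h1 := (hl h).hasFDerivAt.le_of_lip' (C := 2 * ‖h‖) (by positivity)
      (Eventually.of_forall fun t => by
        rw [Real.norm_eq_abs]
        refine (hlip _ _).trans ?_
        have : x + t • h - (x + (0 : ℝ) • h) = (t - 0) • h := by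
          rw [sub_smul]; abel
        rw [this, norm_smul]
        apply le_of_eq; ring)
    have h2 := (ContinuousLinearMap.toSpanSingleton ℝ (l h)).le_opNorm (1 : ℝ)
    have h3 : ‖(ContinuousLinearMap.toSpanSingleton ℝ (l h)) (1 : ℝ)‖ = ‖l h‖ := by simp
    show ‖l h‖ ≤ 2 * ‖h‖
    rw [← h3]
    refine h2.trans ?_
    rw [norm_one, mul_one]
    exact h1
  refine ⟨Lm.mkContinuous 2 hb, fun h => hl h⟩

/-- Gateaux version -/
theorem gateaux_of_frag
    (ρ : DB X → DB X → ℝ) (hρ0 : ∀ f g, ρ f g = 0 ↔ f = g) (hρ : ∀ f g, 0 ≤ ρ f g)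
    (hfr : ∀ ε : ℝ, 0 < ε → ∀ M : Set (DB X), M.Nonempty → ∃ O : Set (DB X), IsOpen O ∧
      (M ∩ O).Nonempty ∧ ∀ h ∈ M ∩ O, ∀ h' ∈ M ∩ O, ρ h h' ≤ ε) :
    ∃ b : X → ℝ, (∃ C, LipschitzWith C b) ∧ Bornology.IsBounded (Function.support b) ∧
      b 0 ≠ 0 ∧ ∀ x : X, ∃ L : X →L[ℝ] ℝ, ∀ h : X,
        HasDerivAt (fun t : ℝ => b (x + t • h)) (L h) 0 := by
  let S : ℕ → Set (DB X) → Prop := fun k M => ∀ h ∈ M, ∀ h' ∈ M, ρ h h' ≤ (1 / 2) ^ k
  have hS : ∀ k, ∀ M : Set (DB X), IsClosed M → M.Nonempty → ∃ O : Set (DB X), IsOpen O ∧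
      (M ∩ O).Nonempty ∧ S k (M ∩ O) := by
    intro k M hM hne
    obtain ⟨O, h1, h2, h3⟩ := hfr ((1 / 2) ^ k) (by positivity) M hne
    exact ⟨O, h1, h2, h3⟩
  have hD : ∀ k, Der (mkD S hS k) := mkD_der hS
  refine ⟨bump (mkD S hS), bump_lip hD, bump_supp hD, ?_, ?_⟩
  · rw [bump_zero hD]; exact one_ne_zero
  · intro x
    obtain ⟨L, hL⟩ := gateaux_of_C1 (B := BB (mkD S hS)) (BB_lip hD) (by
      intro x P hP
      apply BB_contDiff hD x P hP
      intro y
      apply frag_G (D := mkD S hS) _ (DB_cont (x + P y)) ρ hρ0 hρ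
      · intro k A hA hne
        exact mkD_small hS k hA hne
      · -- continuity of h ↦ toF h ∘ P on the finite dimensional space
        have e1 : (fun h : DB X => (toF h).comp P) = fun h : DB X =>
            (toF h (P (1, 0))) • (ContinuousLinearMap.fst ℝ ℝ ℝ) +
            (toF h (P (0, 1))) • (ContinuousLinearMap.snd ℝ ℝ ℝ) := by
          funext h
          apply ContinuousLinearMap.ext
          rintro ⟨a, b⟩
          have : ((a, b) : ℝ × ℝ) = a • (1, 0) + b • (0, 1) := by ext <;> simp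
          rw [this]
          simp only [ContinuousLinearMap.comp_apply, map_add, map_smul]
          simp
        rw [e1]
        exact ((DB_cont _).smul continuous_const).add ((DB_cont _).smul continuous_const)) x
    have hcd : HasDerivAt (cut : ℝ → ℝ) (deriv cut (BB (mkD S hS) x)) (BB (mkD S hS) x) :=
      ((cut.contDiff (n := 1)).differentiable (by norm_num)).differentiableAt.hasDerivAt
    refine ⟨(deriv cut (BB (mkD S hS) x)) • L, fun h => ?_⟩
    have h0 : BB (mkD S hS) x = BB (mkD S hS) (x + (0 : ℝ) • h) := by simp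
    have := HasDerivAt.comp (x := (0 : ℝ)) (h := fun t : ℝ => BB (mkD S hS) (x + t • h))
      (h₂ := (cut : ℝ → ℝ)) (by rw [← h0]; exact hcd) (hL h)
    exact this

end Pool.Agent.Helper827.B
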