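import Mathlib
import Pool.Agent.Helper827.B10

set_option autoImplicit false
set_option linter.unusedSectionVars false

namespace Pool.Agent.Helper827.B

open Filter Topology Set

variable {X : Type} [NormedAddCommGroup X] [NormedSpace ℝ X]

/-- open sets meeting M -/
def Node (M : Set (DB X)) : Type := {O : Set (DB X) // IsOpen O ∧ (M ∩ O).Nonempty}

lemma exists_big {f : X →L[ℝ] ℝ} {ε : ℝ} (hε : 0 ≤ ε) (h : ε < ‖f‖) : ∃ x : X, ‖x‖ ≤ 1 ∧ ε < |f x| := by
  by_contra hcon
  push Not at hcon
  have : ‖f‖ ≤ ε := by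
    apply ContinuousLinearMap.opNorm_le_of_unit_norm hε
    intro x hx
    exact hcon x hx.le
  linarith

lemma node_step {M : Set (DB X)} {ε : ℝ} (hε : 0 < ε)
    (hno : ∀ O : Set (DB X), IsOpen O → (M ∩ O).Nonempty →
      ∃ h ∈ M ∩ O, ∃ h' ∈ M ∩ O, ε < ‖toF h - toF h'‖) (N : Node M) :
    ∃ (x : X) (N0 N1 : Node M), ‖x‖ ≤ 1 ∧ N0.1 ⊆ N.1 ∧ N1.1 ⊆ N.1 ∧
      ∀ g ∈ closure N0.1, ∀ g' ∈ closure N1.1, ε / 2 ≤ |toF g x - toF g' x| := by
  obtain ⟨h, hh, h', hh', hbig⟩ := hno N.1 N.2.1 N.2.2
  obtain ⟨x, hx, hx2⟩ := exists_big hε.le hbig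
  have hcont := DB_cont (X := X) x
  let O0 : Set (DB X) := N.1 ∩ {g | |toF g x - toF h x| < ε / 4}
  let O1 : Set (DB X) := N.1 ∩ {g | |toF g x - toF h' x| < ε / 4}
  have hO0 : IsOpen O0 := N.2.1.inter (isOpen_lt (hcont.sub continuous_const).abs continuous_const)
  have hO1 : IsOpen O1 := N.2.1.inter (isOpen_lt (hcont.sub continuous_const).abs continuous_const)
  have e4 : 0 < ε / 4 := by linarith
  refine ⟨x, ⟨O0, hO0, ⟨h, hh.1, hh.2, by simpa using e4⟩⟩, ⟨O1, hO1, ⟨h', hh'.1, hh'.2, by simpa using e4⟩⟩,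
    hx, inter_subset_left, inter_subset_left, ?_⟩
  intro g hg g' hg'
  have c0 : |toF g x - toF h x| ≤ ε / 4 := by
    have hcl : IsClosed {g : DB X | |toF g x - toF h x| ≤ ε / 4} :=
      isClosed_le (hcont.sub continuous_const).abs continuous_const
    exact closure_minimal (fun z hz => le_of_lt (show |toF z x - toF h x| < ε / 4 from hz.2)) hcl hg
  have c1 : |toF g' x - toF h' x| ≤ ε / 4 := by
    have hcl : IsClosed {g : DB X | |toF g x - toF h' x| ≤ ε / 4} :=
      isClosed_le (hcont.sub continuous_const).abs continuous_const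
    exact closure_minimal (fun z hz => le_of_lt (show |toF z x - toF h' x| < ε / 4 from hz.2)) hcl hg'
  have e1 : (toF h - toF h') x = toF h x - toF h' x := rfl
  rw [e1] at hx2
  have a0 := abs_le.1 c0
  have a1 := abs_le.1 c1
  rcases le_total 0 (toF h x - toF h' x) with hs | hs
  · rw [abs_of_nonneg hs] at hx2
    refine le_trans ?_ (le_abs_self _)
    linarith [a0.1, a1.2]
  · rw [abs_of_nonpos hs] at hx2
    refine le_trans ?_ (neg_le_abs _)
    linarith [a0.2, a1.1]

def pre (σ : ℕ → Bool) : ℕ → List Bool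
  | 0 => []
  | n + 1 => σ n :: pre σ n

theorem asplund_frag
    (hA : ∀ F : Submodule ℝ X, TopologicalSpace.IsSeparable (F : Set X) →
      TopologicalSpace.SeparableSpace (F →L[ℝ] ℝ)) :
    ∀ ε : ℝ, 0 < ε → ∀ M : Set (DB X), IsClosed M → M.Nonempty → ∃ O : Set (DB X), IsOpen O ∧
      (M ∩ O).Nonempty ∧ ∀ h ∈ M ∩ O, ∀ h' ∈ M ∩ O, ‖toF h - toF h'‖ ≤ ε := by
  intro ε hε M hM hne
  by_contra hcon
  push Not at hcon
  have hno : ∀ O : Set (DB X), IsOpen O → (M ∩ O).Nonempty →
      ∃ h ∈ M ∩ O, ∃ h' ∈ M ∩ O, ε < ‖toF h - toF h'‖ := fun O h1 h2 => hcon O h1 h2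
  choose x N0 N1 hx hN0 hN1 hsep using node_step hε hno
  let root : Node M := ⟨univ, isOpen_univ, by simpa using hne⟩
  let node : List Bool → Node M := fun s => List.rec root (fun b _ N => if b then N1 N else N0 N) s
  have hnode : ∀ b s, node (b :: s) = if b then N1 (node s) else N0 (node s) := fun b s => rfl
  have hsub : ∀ b s, (node (b :: s)).1 ⊆ (node s).1 := by
    intro b s
    rw [hnode]
    cases b
    · exact hN0 _
    · exact hN1 _
  have hex : ∀ σ : ℕ → Bool, ∃ g : DB X, ∀ n, g ∈ closure (M ∩ (node (pre σ n)).1) := by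
    intro σ
    have : (⋂ n, closure (M ∩ (node (pre σ n)).1)).Nonempty := by
      apply IsCompact.nonempty_iInter_of_sequence_nonempty_isCompact_isClosed
      · intro n
        exact closure_mono (inter_subset_inter_right _ (hsub _ _))
      · intro n
        exact (node (pre σ n)).2.2.mono subset_closure
      · exact isClosed_closure.isCompact
      · intro n
        exact isClosed_closure
    obtain ⟨g, hg⟩ := this
    exact ⟨g, mem_iInter.1 hg⟩
  choose f hf using hex
  have hfc : ∀ σ n, f σ ∈ closure (node (pre σ n)).1 := fun σ n =>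
    closure_mono inter_subset_right (hf σ n)
  let F : Submodule ℝ X := Submodule.span ℝ (range fun s : List Bool => x (node s))
  have hFsep : TopologicalSpace.IsSeparable (F : Set X) :=
    (countable_range _).isSeparable.span
  have := hA F hFsep
  let g : (ℕ → Bool) → (F →L[ℝ] ℝ) := fun σ => (toF (f σ)).comp F.subtypeL
  have hg : ∀ σ τ, σ ≠ τ → ε / 2 ≤ ‖g σ - g τ‖ := by
    intro σ τ hne
    have hexn : ∃ n, σ n ≠ τ n := by
      by_contra h
      push Not at h
      exact hne (funext h)
    classical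
    let n := Nat.find hexn
    have hn : σ n ≠ τ n := Nat.find_spec hexn
    have hlt : ∀ m < n, σ m = τ m := by
      intro m hm
      by_contra h
      exact Nat.find_min hexn hm h
    have hpre : ∀ m ≤ n, pre σ m = pre τ m := by
      intro m
      induction m with
      | zero => intro _; rfl
      | succ m ih =>
        intro hm
        unfold pre
        rw [hlt m (by omega), ih (by omega)]
    have hp := hpre n le_rfl
    set s := pre σ n with hs
    have h1 := hfc σ (n + 1)
    have h2 := hfc τ (n + 1)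
    have e1 : pre σ (n + 1) = σ n :: s := rfl
    have e2 : pre τ (n + 1) = τ n :: s := by rw [hp]; rfl
    rw [e1] at h1
    rw [e2] at h2
    have hxF : x (node s) ∈ F := Submodule.subset_span ⟨s, rfl⟩
    have hval : ε / 2 ≤ |toF (f σ) (x (node s)) - toF (f τ) (x (node s))| := by
      rw [hnode] at h1 h2
      cases hσ : σ n <;> cases hτ : τ n
      · exact absurd (hσ.trans hτ.symm) hn
      · rw [hσ] at h1; rw [hτ] at h2
        exact hsep (node s) _ h1 _ h2
      · rw [hσ] at h1; rw [hτ] at h2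
        rw [abs_sub_comm]
        exact hsep (node s) _ h2 _ h1
      · exact absurd (hσ.trans hτ.symm) hn
    have h3 := (g σ - g τ).le_opNorm ⟨x (node s), hxF⟩
    have e3 : (g σ - g τ) ⟨x (node s), hxF⟩ = toF (f σ) (x (node s)) - toF (f τ) (x (node s)) := rfl
    rw [e3, Real.norm_eq_abs] at h3
    have h4 : ‖(⟨x (node s), hxF⟩ : F)‖ ≤ 1 := hx (node s)
    have h5 := norm_nonneg (g σ - g τ)
    nlinarith
  have hcount : Countable (ℕ → Bool) := by
    apply Pairwise.countable_of_isOpen_disjoint (s := fun σ => Metric.ball (g σ) (ε / 4))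
    · intro σ τ hne
      apply Metric.ball_disjoint_ball
      have h1 := hg σ τ hne
      have h2 := dist_eq_norm (g σ) (g τ)
      exact le_trans (by linarith) (ge_of_eq h2)
    · intro σ; exact Metric.isOpen_ball
    · intro σ; exact ⟨g σ, Metric.mem_ball_self (by linarith)⟩
  have hunc : Uncountable (ℕ → Bool) := by
    rw [← Cardinal.aleph0_lt_mk_iff]
    have h1 : Cardinal.mk (ℕ → Bool) = 2 ^ Cardinal.aleph0 := by
      rw [← Cardinal.power_def, Cardinal.mk_bool, Cardinal.mk_nat]
    rw [h1]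
    exact Cardinal.cantor _
  exact not_countable (α := ℕ → Bool) hcount

theorem asplund_bump
    (hA : ∀ F : Submodule ℝ X, TopologicalSpace.IsSeparable (F : Set X) →
      TopologicalSpace.SeparableSpace (F →L[ℝ] ℝ)) :
    ∃ b : X → ℝ, ContDiff ℝ 1 b ∧ (∃ C, LipschitzWith C b) ∧ b 0 ≠ 0 ∧
      Bornology.IsBounded (Function.support b) :=
  frechet_of_frag (asplund_frag hA)

end Pool.Agent.Helper827.B
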