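import Mathlib
import Pool.Agent.Helper827.B10

set_option autoImplicit false
set_option linter.unusedSectionVars false

namespace Pool.Agent.Helper827.B

open Filter Topology Set Metric

/-- Ekeland principle for continuous functions bounded below -/
theorem ekeland {X : Type} [MetricSpace X] [CompleteSpace X] (x₀ : X) (F : X → ℝ)
    (hF : Continuous F) (b : ℝ) (hb : ∀ x, b ≤ F x) (ε : ℝ) (hε : 0 < ε) :
    ∃ v, F v ≤ F x₀ ∧ ∀ x, F v ≤ F x + ε * dist x v := by
  classical
  let S : X → Set X := fun x => {y | F y + ε * dist y x ≤ F x}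
  have hS : ∀ x y, y ∈ S x ↔ F y + ε * dist y x ≤ F x := fun x y => Iff.rfl
  have hself : ∀ x, x ∈ S x := by
    intro x; rw [hS, dist_self, mul_zero, add_zero]
  have htrans : ∀ x y z, y ∈ S x → z ∈ S y → z ∈ S x := by
    intro x y z hy hz
    rw [hS] at *
    have h1 := mul_le_mul_of_nonneg_left (dist_triangle z y x) hε.le
    rw [mul_add] at h1
    linarith
  have hcl : ∀ x, IsClosed (S x) := by
    intro x
    exact isClosed_le (hF.add (continuous_const.mul (continuous_id.dist continuous_const)))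
      continuous_const
  have hstep : ∀ (x : X) (n : ℕ), ∃ y ∈ S x, ∀ z ∈ S x, F y ≤ F z + (1 / 2 : ℝ) ^ n := by
    intro x n
    have hne : (F '' S x).Nonempty := ⟨F x, x, hself x, rfl⟩
    have hbd : BddBelow (F '' S x) := ⟨b, by rintro _ ⟨y, _, rfl⟩; exact hb y⟩
    obtain ⟨_, ⟨y, hy, rfl⟩, hy2⟩ := exists_lt_of_csInf_lt hne
      (show sInf (F '' S x) < sInf (F '' S x) + (1 / 2 : ℝ) ^ n by
        have : (0 : ℝ) < (1 / 2 : ℝ) ^ n := by positivity
        linarith)
    refine ⟨y, hy, fun z hz => ?_⟩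
    have := csInf_le hbd ⟨z, hz, rfl⟩
    linarith
  choose st hst1 hst2 using hstep
  let s : ℕ → X := fun n => Nat.rec x₀ (fun n x => st x n) n
  have hs : ∀ n, s (n + 1) = st (s n) n := fun n => rfl
  have hin : ∀ n m, n ≤ m → s m ∈ S (s n) := by
    intro n m hnm
    induction m, hnm using Nat.le_induction with
    | base => exact hself _
    | succ m _ ih => exact htrans _ _ _ ih (by rw [hs]; exact hst1 _ _)
  have hsmall : ∀ n z, z ∈ S (s (n + 1)) → dist z (s (n + 1)) ≤ (1 / 2 : ℝ) ^ n / ε := by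
    intro n z hz
    have h1 : z ∈ S (s n) := htrans _ _ _ (hin n (n + 1) (Nat.le_succ n)) hz
    have h2 := hst2 (s n) n z h1
    rw [← hs] at h2
    rw [hS] at hz
    rw [le_div_iff₀ hε]
    linarith
  have hlim0 : Tendsto (fun n : ℕ => (1 / 2 : ℝ) ^ n / ε) atTop (𝓝 0) := by
    have := (tendsto_pow_atTop_nhds_zero_of_lt_one (by norm_num : (0 : ℝ) ≤ 1 / 2)
      (by norm_num : (1 / 2 : ℝ) < 1)).div_const ε
    simpa using this
  have hc : CauchySeq s := by
    rw [Metric.cauchySeq_iff']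
    intro δ hδ
    obtain ⟨n, hn⟩ := (hlim0.eventually (gt_mem_nhds hδ)).exists
    refine ⟨n + 1, fun m hm => ?_⟩
    exact lt_of_le_of_lt (hsmall n _ (hin _ _ hm)) hn
  obtain ⟨v, hv⟩ := cauchySeq_tendsto_of_complete hc
  have hvS : ∀ n, v ∈ S (s n) := by
    intro n
    apply (hcl (s n)).mem_of_tendsto hv
    filter_upwards [eventually_ge_atTop n] with m hm
    exact hin n m hm
  refine ⟨v, ?_, fun x => ?_⟩
  · have h0 := hvS 0
    rw [hS] at h0
    have h1 : s 0 = x₀ := rfl
    rw [h1] at h0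
    have := mul_nonneg hε.le (dist_nonneg (x := v) (y := x₀))
    linarith
  by_contra hcon
  push Not at hcon
  have hxS : x ∈ S v := hcon.le
  have h1 : ∀ n, dist x (s (n + 1)) ≤ (1 / 2 : ℝ) ^ n / ε := fun n =>
    hsmall n x (htrans _ _ _ (hvS (n + 1)) hxS)
  have h2 : Tendsto (fun n => s (n + 1)) atTop (𝓝 x) := by
    rw [tendsto_iff_dist_tendsto_zero]
    refine squeeze_zero (fun _ => dist_nonneg) (fun n => ?_) hlim0
    rw [dist_comm]
    exact h1 n
  have h3 : Tendsto (fun n => s (n + 1)) atTop (𝓝 v) := (tendsto_add_atTop_iff_nat 1).2 hv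
  have h4 := tendsto_nhds_unique h2 h3
  rw [h4, dist_self, mul_zero, add_zero] at hcon
  exact lt_irrefl _ hcon

variable {X : Type} [NormedAddCommGroup X] [NormedSpace ℝ X]

/-- Ekeland-Lebourg: one-sided almost smooth points of Lipschitz functions -/
theorem EL [CompleteSpace X] {f : X → ℝ} (hf : Differentiable ℝ f) (hf0 : ∃ x, f x ≠ 0)
    (hfb : Bornology.IsBounded (Function.support f)) {φ : X → ℝ} {L : ℝ} (hL : 0 ≤ L)
    (hφ : ∀ x y, |φ x - φ y| ≤ L * ‖x - y‖) {δ : ℝ} (hδ : 0 < δ) :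
    ∃ v : X, ∃ ρ > 0, ∀ h : X, ‖h‖ ≤ ρ → φ (v + h) + φ (v - h) - 2 * φ v ≤ δ * ‖h‖ := by
  obtain ⟨x1, hx1⟩ := hf0
  obtain ⟨R0, hR0⟩ := hfb.exists_norm_le
  -- w
  let w : X → ℝ := fun x => (f x) ^ 2 / (1 + (f x) ^ 2)
  have hw0 : ∀ x, 0 ≤ w x := fun x => by positivity
  have hw1 : ∀ x, w x ≤ 1 := fun x => by
    simp only [w]
    rw [div_le_one (by positivity)]
    linarith
  have hwd : Differentiable ℝ w := by
    intro x
    have h1 : DifferentiableAt ℝ (fun x => (f x) ^ 2) x := (hf x).pow 2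
    have h2 : DifferentiableAt ℝ (fun x => 1 + (f x) ^ 2) x := h1.const_add 1
    have h3 : DifferentiableAt ℝ (fun x => (1 + (f x) ^ 2)⁻¹) x :=
      h2.fun_inv (ne_of_gt (by positivity))
    have h4 := h1.mul h3
    simp only [w, div_eq_mul_inv]
    exact h4
  have hwpos : ∀ x, f x ≠ 0 → 0 < w x := fun x hx => by
    simp only [w]; positivity
  have hwz : ∀ x, w x ≠ 0 → f x ≠ 0 := by
    intro x hx h0
    apply hx
    simp only [w, h0]; norm_num
  -- bounds for φ on the support
  set C : ℝ := |φ 0| + L * (|R0| + 1) + 1 with hC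
  have hC1 : 1 ≤ C := by
    have := abs_nonneg (φ 0)
    have := mul_nonneg hL (by positivity : 0 ≤ |R0| + 1)
    linarith
  have hφb : ∀ x, f x ≠ 0 → |φ x| ≤ C - 1 := by
    intro x hx
    have h1 := hφ x 0
    rw [sub_zero] at h1
    have h2 : ‖x‖ ≤ R0 := hR0 x hx
    have h3 : |φ x| ≤ |φ x - φ 0| + |φ 0| := by
      have := abs_add_le (φ x - φ 0) (φ 0)
      rwa [sub_add_cancel] at this
    have h4 : L * ‖x‖ ≤ L * (|R0| + 1) := mul_le_mul_of_nonneg_left
      (h2.trans (le_trans (le_abs_self _) (by linarith))) hL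
    rw [hC]
    linarith
  let P : X → ℝ := fun x => w x * (φ x + C)
  have hφc : Continuous φ := by
    have : LipschitzWith (Real.toNNReal L) φ := by
      apply LipschitzWith.of_dist_le_mul
      intro x y
      rw [Real.dist_eq, dist_eq_norm, Real.coe_toNNReal L hL]
      exact hφ x y
    exact this.continuous
  have hPc : Continuous P := hwd.continuous.mul (hφc.add continuous_const)
  have hPb : ∀ x, P x ≤ 2 * C := by
    intro x
    by_cases hx : f x = 0
    · have : w x = 0 := by simp only [w, hx]; norm_num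
      simp only [P, this, zero_mul]
      linarith
    · have h1 := abs_le.1 (hφb x hx)
      have h2 := hw0 x
      have h3 := hw1 x
      simp only [P]
      nlinarith [h1.1, h1.2]
  have hPx1 : w x1 ≤ P x1 := by
    have h1 := abs_le.1 (hφb x1 hx1)
    have h2 := hw0 x1
    simp only [P]
    nlinarith [h1.1]
  set c0 : ℝ := w x1 / (2 * C) with hc0
  have hwx1 := hwpos x1 hx1
  have hc0p : 0 < c0 := by positivity
  -- choose η
  set η : ℝ := δ / (2 * (2 * C) + 4 / c0 + 1) with hη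
  have hden : 0 < 2 * (2 * C) + 4 / c0 + 1 := by positivity
  have hηp : 0 < η := by positivity
  have hη2 : (2 * (2 * C) + 4 / c0) * η ≤ δ := by
    have : (2 * (2 * C) + 4 / c0 + 1) * η = δ := by rw [hη]; field_simp
    nlinarith
  obtain ⟨v, hv0, hv⟩ := ekeland x1 (fun x => - P x) hPc.neg (-(2 * C))
    (fun x => by have := hPb x; linarith) η hηp
  have hPv : w x1 ≤ P v := by linarith
  have hwv : 0 < w v := by
    rcases (hw0 v).lt_or_eq with h | h
    · exact h
    · exfalso
      have : P v = 0 := by simp only [P, ← h, zero_mul]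
      linarith
  have hfv := hwz v hwv.ne'
  have hwv0 : c0 ≤ w v := by
    rw [hc0, div_le_iff₀ (by positivity)]
    refine hPv.trans ?_
    have h1 := abs_le.1 (hφb v hfv)
    simp only [P]
    apply mul_le_mul_of_nonneg_left _ (hw0 v)
    linarith [h1.2]
  have hPle : ∀ x, P x ≤ P v + η * ‖x - v‖ := by
    intro x
    have := hv x
    rw [dist_eq_norm] at this
    linarith
  -- k = 1 / w
  have hkd : HasFDerivAt (fun x => (w x)⁻¹) (fderiv ℝ (fun x => (w x)⁻¹) v) v :=
    ((hwd v).inv hwv.ne').hasFDerivAt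
  have hk := (Asymptotics.isLittleO_iff.1 (hasFDerivAt_iff_isLittleO_nhds_zero.1 hkd)) hηp
  have hwnear : ∀ᶠ h in 𝓝 (0 : X), c0 / 2 < w (v + h) := by
    have hcont : ContinuousAt (fun h : X => w (v + h)) 0 := by
      have : Continuous (fun h : X => w (v + h)) := hwd.continuous.comp (continuous_const.add continuous_id)
      exact this.continuousAt
    apply hcont.eventually
    simp only [add_zero]
    exact Ioi_mem_nhds (by linarith)
  obtain ⟨ρ, hρ, Hρ⟩ := Metric.eventually_nhds_iff.1 (hk.and hwnear)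
  refine ⟨v, ρ / 2, half_pos hρ, fun h hh => ?_⟩
  have hh1 : dist h 0 < ρ := by rw [dist_zero_right]; linarith
  have hh2 : dist (-h) 0 < ρ := by rw [dist_zero_right, norm_neg]; linarith
  obtain ⟨a1, a2⟩ := Hρ hh1
  obtain ⟨b1, b2⟩ := Hρ hh2
  rw [norm_neg, map_neg, Real.norm_eq_abs] at b1
  rw [Real.norm_eq_abs] at a1
  rw [← sub_eq_add_neg] at b1 b2
  set l := (fderiv ℝ (fun x => (w x)⁻¹) v) h
  have c1 := (abs_le.1 a1).2
  have c2 := (abs_le.1 b1).2
  have d1 := hPle (v + h)
  have d2 := hPle (v - h)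
  have e1 : v + h - v = h := by abel
  have e2 : ‖v - h - v‖ = ‖h‖ := by
    have : v - h - v = -h := by abel
    rw [this, norm_neg]
  rw [e1] at d1
  rw [e2] at d2
  have hn := norm_nonneg h
  have wp : 0 < w (v + h) := by linarith
  have wm : 0 < w (v - h) := by linarith
  -- φ + C = P * k
  have f1 : φ (v + h) + C = P (v + h) * (w (v + h))⁻¹ := by
    simp only [P]; field_simp
  have f2 : φ (v - h) + C = P (v - h) * (w (v - h))⁻¹ := by
    simp only [P]; field_simp
  have f3 : φ v + C = P v * (w v)⁻¹ := by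
    simp only [P]; field_simp
  have kp : (w (v + h))⁻¹ ≤ 2 / c0 := by
    rw [inv_le_comm₀ wp (by positivity), inv_div]; linarith
  have km : (w (v - h))⁻¹ ≤ 2 / c0 := by
    rw [inv_le_comm₀ wm (by positivity), inv_div]; linarith
  have kp0 : 0 < (w (v + h))⁻¹ := by positivity
  have km0 : 0 < (w (v - h))⁻¹ := by positivity
  have g1 : φ (v + h) + C ≤ P v * (w (v + h))⁻¹ + η * ‖h‖ * (2 / c0) := by
    rw [f1]
    have := mul_le_mul_of_nonneg_right d1 kp0.le
    have h2 : η * ‖h‖ * (w (v + h))⁻¹ ≤ η * ‖h‖ * (2 / c0) :=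
      mul_le_mul_of_nonneg_left kp (by positivity)
    linarith
  have g2 : φ (v - h) + C ≤ P v * (w (v - h))⁻¹ + η * ‖h‖ * (2 / c0) := by
    rw [f2]
    have := mul_le_mul_of_nonneg_right d2 km0.le
    have h2 : η * ‖h‖ * (w (v - h))⁻¹ ≤ η * ‖h‖ * (2 / c0) :=
      mul_le_mul_of_nonneg_left km (by positivity)
    linarith
  have hPvp : 0 ≤ P v := by linarith
  have g3 : P v * (w (v + h))⁻¹ + P v * (w (v - h))⁻¹ ≤ P v * (2 * (w v)⁻¹ + 2 * (η * ‖h‖)) := by
    rw [← mul_add]
    apply mul_le_mul_of_nonneg_left _ hPvp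
    linarith
  have g4 : P v * (2 * (η * ‖h‖)) ≤ 2 * C * (2 * (η * ‖h‖)) :=
    mul_le_mul_of_nonneg_right (hPb v) (by positivity)
  have g5 : (2 * (2 * C) + 4 / c0) * η * ‖h‖ ≤ δ * ‖h‖ := mul_le_mul_of_nonneg_right hη2 hn
  have g6 : η * ‖h‖ * (2 / c0) * 2 = (4 / c0) * η * ‖h‖ := by ring
  nlinarith

/-- a Frechet differentiable bump makes the dual ball fragmented -/
theorem bump_frag [CompleteSpace X] {f : X → ℝ} (hf : Differentiable ℝ f) (hf0 : ∃ x, f x ≠ 0)
    (hfb : Bornology.IsBounded (Function.support f)) :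
    ∀ ε : ℝ, 0 < ε → ∀ M : Set (DB X), IsClosed M → M.Nonempty → ∃ O : Set (DB X), IsOpen O ∧
      (M ∩ O).Nonempty ∧ ∀ h ∈ M ∩ O, ∀ h' ∈ M ∩ O, ‖toF h - toF h'‖ ≤ ε := by
  intro ε hε M hM hne
  have hmax : ∀ x : X, ∃ g ∈ M, ∀ g' ∈ M, toF g' x ≤ toF g x := by
    intro x
    obtain ⟨g, hg, hmax⟩ := hM.isCompact.exists_isMaxOn hne (DB_cont x).continuousOn
    exact ⟨g, hg, fun g' hg' => hmax hg'⟩
  choose mx hmx1 hmx2 using hmax
  let σ : X → ℝ := fun x => toF (mx x) x
  have hσ : ∀ g ∈ M, ∀ x, toF g x ≤ σ x := fun g hg x => hmx2 x g hg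
  have hσL : ∀ x y, |σ x - σ y| ≤ 1 * ‖x - y‖ := by
    have key : ∀ x y, σ x - σ y ≤ ‖x - y‖ := by
      intro x y
      have h1 := hmx2 y (mx x) (hmx1 x)
      have h2 := (abs_le.1 (ev_le toF_ok (mx x) (x - y))).2
      simp only [map_sub] at h2
      simp only [σ]
      linarith
    intro x y
    rw [one_mul, abs_le]
    constructor
    · have := key y x
      rw [norm_sub_rev] at this
      linarith
    · exact key x y
  obtain ⟨v, ρ, hρ, hv⟩ := EL hf hf0 hfb (φ := σ) zero_le_one hσL (half_pos hε)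
  let τ := ε * ρ / 4
  have hτ : 0 < τ := by positivity
  refine ⟨{g | σ v - τ < toF g v}, isOpen_lt continuous_const (DB_cont v), ?_, ?_⟩
  · exact ⟨mx v, hmx1 v, by show σ v - τ < toF (mx v) v; simp only [σ]; linarith⟩
  · intro g hg g' hg'
    have hg2 : σ v - τ < toF g v := hg.2
    have hg2' : σ v - τ < toF g' v := hg'.2
    have key : ∀ h : X, ‖h‖ ≤ ρ → toF g h - toF g' h ≤ ε / 2 * ρ + 2 * τ := by
      intro h hh
      have h1 := hv h hh
      have h2 := hσ g hg.1 (v + h)
      have h3 := hσ g' hg'.1 (v - h)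
      rw [map_add] at h2
      rw [map_sub] at h3
      have h4 : ε / 2 * ‖h‖ ≤ ε / 2 * ρ := mul_le_mul_of_nonneg_left hh (by linarith)
      linarith
    have hτe : ε / 2 * ρ + 2 * τ = ε * ρ := by simp only [τ]; ring
    rw [hτe] at key
    apply ContinuousLinearMap.opNorm_le_of_unit_norm hε.le
    intro x hx
    have e1 : (toF g - toF g') x = toF g x - toF g' x := rfl
    rw [e1, Real.norm_eq_abs, abs_le]
    have k1 := key (ρ • x) (by rw [norm_smul, hx, mul_one, Real.norm_eq_abs, abs_of_pos hρ])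
    have k2 := key (-(ρ • x)) (by rw [norm_neg, norm_smul, hx, mul_one, Real.norm_eq_abs, abs_of_pos hρ])
    rw [map_smul, map_smul, smul_eq_mul, smul_eq_mul] at k1
    rw [map_neg, map_neg, map_smul, map_smul, smul_eq_mul, smul_eq_mul] at k2
    constructor
    · by_contra hcon
      push Not at hcon
      nlinarith
    · by_contra hcon
      push Not at hcon
      nlinarith

end Pool.Agent.Helper827.B
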