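import Mathlib
import Pool.Agent.Helper827.B12

set_option autoImplicit false
set_option linter.unusedSectionVars false

namespace Pool.Agent.Helper827.B

open Filter Topology Set Metric

variable {X : Type} [NormedAddCommGroup X] [NormedSpace ℝ X]
variable {Y : Type} [NormedAddCommGroup Y] [NormedSpace ℝ Y]

/-- difference quotients of f in the direction h, tested with M -/
def QS (M : Set (DB Y)) (f : X → Y) (h : X) : Set ℝ :=
  {a | ∃ (x : X) (t : ℝ) (y : DB Y), 0 < t ∧ y ∈ M ∧ a = toF y (f (x + t • h) - f x) / t}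

noncomputable def QP (M : Set (DB Y)) (f : X → Y) (h : X) : ℝ := sSup (QS M f h)

lemma QS_le {M : Set (DB Y)} {f : X → Y} {L : ℝ} (hf : ∀ x y, ‖f x - f y‖ ≤ L * ‖x - y‖)
    {h : X} {a : ℝ} (ha : a ∈ QS M f h) : a ≤ L * ‖h‖ := by
  obtain ⟨x, t, y, ht, hy, rfl⟩ := ha
  rw [div_le_iff₀ ht]
  have h1 := (abs_le.1 (ev_le toF_ok y (f (x + t • h) - f x))).2
  have h2 := hf (x + t • h) x
  rw [add_sub_cancel_left, norm_smul, Real.norm_eq_abs, abs_of_pos ht] at h2
  calc toF y (f (x + t • h) - f x) ≤ ‖f (x + t • h) - f x‖ := h1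
    _ ≤ L * (t * ‖h‖) := h2
    _ = L * ‖h‖ * t := by ring

lemma QS_bdd {M : Set (DB Y)} {f : X → Y} {L : ℝ} (hf : ∀ x y, ‖f x - f y‖ ≤ L * ‖x - y‖)
    (h : X) : BddAbove (QS M f h) := ⟨L * ‖h‖, fun _ ha => QS_le hf ha⟩

lemma QS_ne {M : Set (DB Y)} (hM : M.Nonempty) (f : X → Y) (h : X) : (QS M f h).Nonempty := by
  obtain ⟨y, hy⟩ := hM
  exact ⟨_, 0, 1, y, one_pos, hy, rfl⟩

lemma QP_ge {M : Set (DB Y)} {f : X → Y} {L : ℝ} (hf : ∀ x y, ‖f x - f y‖ ≤ L * ‖x - y‖)
    (h x : X) {t : ℝ} (ht : 0 < t) {y : DB Y} (hy : y ∈ M) :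
    toF y (f (x + t • h) - f x) ≤ t * QP M f h := by
  have : toF y (f (x + t • h) - f x) / t ≤ QP M f h :=
    le_csSup (QS_bdd hf h) ⟨x, t, y, ht, hy, rfl⟩
  rw [div_le_iff₀ ht] at this
  linarith

lemma QP_lip {M : Set (DB Y)} (hM : M.Nonempty) {f : X → Y} {L : ℝ}
    (hf : ∀ x y, ‖f x - f y‖ ≤ L * ‖x - y‖) (h k : X) :
    |QP M f h - QP M f k| ≤ L * ‖h - k‖ := by
  have key : ∀ h k : X, QP M f h ≤ QP M f k + L * ‖h - k‖ := by
    intro h k
    apply csSup_le (QS_ne hM f h)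
    rintro a ⟨x, t, y, ht, hy, rfl⟩
    rw [div_le_iff₀ ht]
    have h1 := QP_ge hf k x ht hy
    have h2 := (abs_le.1 (ev_le toF_ok y (f (x + t • h) - f (x + t • k)))).2
    have h3 := hf (x + t • h) (x + t • k)
    have h4 : x + t • h - (x + t • k) = t • (h - k) := by rw [smul_sub]; abel
    rw [h4, norm_smul, Real.norm_eq_abs, abs_of_pos ht] at h3
    have h5 : f (x + t • h) - f x = (f (x + t • h) - f (x + t • k)) + (f (x + t • k) - f x) := by
      abel
    rw [h5, map_add]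
    nlinarith
  rw [abs_le]
  constructor
  · have := key k h
    rw [norm_sub_rev] at this
    linarith
  · have := key h k
    linarith

/-- Lipschitz quotients of spaces with differentiable bumps have fragmented dual balls -/
theorem quot_frag [CompleteSpace X] {b : X → ℝ} (hb : Differentiable ℝ b) (hb0 : ∃ x, b x ≠ 0)
    (hbb : Bornology.IsBounded (Function.support b)) {f : X → Y} {L : ℝ} (hL : 0 ≤ L)
    (hf : ∀ x y, ‖f x - f y‖ ≤ L * ‖x - y‖) {c : ℝ} (hc : 0 < c)
    (hco : ∀ x : X, ∀ r : ℝ, 0 < r → ball (f x) (c * r) ⊆ f '' ball x r) :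
    ∀ ε : ℝ, 0 < ε → ∀ M : Set (DB Y), IsClosed M → M.Nonempty → ∃ O : Set (DB Y), IsOpen O ∧
      (M ∩ O).Nonempty ∧ ∀ h ∈ M ∩ O, ∀ h' ∈ M ∩ O, ‖toF h - toF h'‖ ≤ ε := by
  intro ε hε M _ hne
  obtain ⟨e, ρ, hρ, he⟩ := EL hb hb0 hbb (φ := QP M f) hL (QP_lip hne hf)
    (show 0 < c * ε / 4 by positivity)
  set τ := c * ρ * ε / 32 with hτdef
  have hτ : 0 < τ := by positivity
  obtain ⟨_, ⟨x, t, y0, ht, hy0, rfl⟩, hy1⟩ := exists_lt_of_lt_csSup (QS_ne hne f e)
    (show QP M f e - τ < sSup (QS M f e) by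
      show QP M f e - τ < QP M f e
      linarith)
  rw [lt_div_iff₀ ht] at hy1
  refine ⟨{g | (QP M f e - 2 * τ) * t < toF g (f (x + t • e) - f x)},
    isOpen_lt continuous_const (DB_cont _), ⟨y0, hy0, ?_⟩, ?_⟩
  · show (QP M f e - 2 * τ) * t < toF y0 (f (x + t • e) - f x)
    nlinarith [mul_pos hτ ht]
  intro g hg g' hg'
  set m := x + (t / 2) • e with hm
  set r := ρ * t / 2 with hr
  have hrp : 0 < r := by positivity
  have ht2 : 0 < t / 2 := by positivity
  -- one sided estimates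
  have key1 : ∀ g ∈ M ∩ {g | (QP M f e - 2 * τ) * t < toF g (f (x + t • e) - f x)},
      ∀ g' ∈ M ∩ {g | (QP M f e - 2 * τ) * t < toF g (f (x + t • e) - f x)},
      ∀ z : X, ‖z‖ ≤ r → toF g (f (m + z)) - toF g' (f (m + z)) ≤
        toF g (f x) - toF g' (f x) + 2 * τ * t + c * ε / 4 * ‖z‖ := by
    intro g hg g' hg' z hz
    have hg2' : (QP M f e - 2 * τ) * t < toF g' (f (x + t • e) - f x) := hg'.2
    set w := (2 / t) • z with hw
    have hwz : (t / 2) • w = z := by
      rw [hw, smul_smul]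
      have : t / 2 * (2 / t) = 1 := by field_simp
      rw [this, one_smul]
    have hwn : ‖w‖ = 2 / t * ‖z‖ := by
      rw [hw, norm_smul, Real.norm_eq_abs, abs_of_pos (by positivity)]
    have hwr : ‖w‖ ≤ ρ := by
      rw [hwn]
      calc 2 / t * ‖z‖ ≤ 2 / t * r := by gcongr
        _ = ρ := by rw [hr]; field_simp
    have h1 := QP_ge hf (e + w) x ht2 hg.1
    have h2 := QP_ge hf (e - w) (m + z) ht2 hg'.1
    have e1 : x + (t / 2) • (e + w) = m + z := by rw [smul_add, hwz, hm]; abel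
    have e2 : m + z + (t / 2) • (e - w) = x + t • e := by
      rw [smul_sub, hwz, hm]
      have : t • e = (t / 2) • e + (t / 2) • e := by rw [← add_smul]; ring_nf
      rw [this]; abel
    rw [e1, map_sub] at h1
    rw [e2, map_sub] at h2
    have h3 := he w hwr
    rw [map_sub] at hg2'
    have h4 : t / 2 * (QP M f (e + w) + QP M f (e - w) - 2 * QP M f e) ≤ t / 2 * (c * ε / 4 * ‖w‖) :=
      mul_le_mul_of_nonneg_left h3 ht2.le
    have h5 : t / 2 * (c * ε / 4 * ‖w‖) = c * ε / 4 * ‖z‖ := by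
      rw [hwn]; field_simp
    nlinarith
  have key2 : ∀ g ∈ M ∩ {g | (QP M f e - 2 * τ) * t < toF g (f (x + t • e) - f x)},
      ∀ g' ∈ M ∩ {g | (QP M f e - 2 * τ) * t < toF g (f (x + t • e) - f x)},
      ∀ u : Y, ‖u‖ < c * r → toF g u - toF g' u ≤ c * ε * r / 2 := by
    intro g hg g' hg' u hu
    have hmem : f m + u ∈ ball (f m) (c * r) := by
      rw [mem_ball, dist_eq_norm, add_sub_cancel_left]
      exact hu
    obtain ⟨v, hv, hv2⟩ := hco m r hrp hmem
    rw [mem_ball, dist_eq_norm] at hv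
    have h1 := key1 g hg g' hg' (v - m) hv.le
    have h2 := key1 g' hg' g hg 0 (by rw [norm_zero]; exact hrp.le)
    have e1 : m + (v - m) = v := by abel
    rw [e1, hv2, map_add, map_add] at h1
    rw [add_zero, norm_zero, mul_zero, add_zero] at h2
    have h3 : c * ε / 4 * ‖v - m‖ ≤ c * ε / 4 * r := mul_le_mul_of_nonneg_left hv.le (by positivity)
    have h4 : 2 * τ * t = c * ε * r / 8 := by rw [hτdef, hr]; ring
    linarith
  apply ContinuousLinearMap.opNorm_le_of_unit_norm hε.le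
  intro u hu
  have e1 : (toF g - toF g') u = toF g u - toF g' u := rfl
  have hcr : 0 < c * r / 2 := by positivity
  have hn1 : ‖(c * r / 2) • u‖ < c * r := by
    rw [norm_smul, hu, mul_one, Real.norm_eq_abs, abs_of_pos hcr]
    linarith [mul_pos hc hrp]
  have k1 := key2 g hg g' hg' ((c * r / 2) • u) hn1
  have k2 := key2 g' hg' g hg ((c * r / 2) • u) hn1
  rw [map_smul, map_smul, smul_eq_mul, smul_eq_mul] at k1 k2
  rw [e1, Real.norm_eq_abs, abs_le]
  have hcr2 : 0 < c * r := by positivity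
  constructor
  · by_contra hcon
    push Not at hcon
    nlinarith
  · by_contra hcon
    push Not at hcon
    nlinarith

/-- bump from a differentiable norm -/
theorem bump_of_norm [Nontrivial X] {N : X → ℝ} (hN2 : ∀ (t : ℝ) (x : X), N (t • x) = |t| * N x)
    {a b : ℝ} (ha : 0 < a) (hb : 0 < b) (hab : ∀ x : X, a * ‖x‖ ≤ N x ∧ N x ≤ b * ‖x‖)
    (hd : ∀ x : X, x ≠ 0 → DifferentiableAt ℝ N x) :
    ∃ f : X → ℝ, Differentiable ℝ f ∧ (∃ x, f x ≠ 0) ∧
      Bornology.IsBounded (Function.support f) := by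
  have hc1 : ∀ s : ℝ, s ≤ 1 → cut s = 0 := by
    intro s hs
    apply cut.zero_of_le_dist
    rw [Real.dist_eq]
    simp only [cut]
    rw [abs_sub_comm, abs_of_nonneg (by linarith)]
    linarith
  refine ⟨fun x => cut (N x), ?_, ?_, ?_⟩
  · intro x
    by_cases hx : x = 0
    · subst hx
      have : (fun x : X => cut (N x)) =ᶠ[𝓝 0] fun _ => (0 : ℝ) := by
        have h1 : ball (0 : X) (1 / b) ∈ 𝓝 (0 : X) := ball_mem_nhds _ (by positivity)
        filter_upwards [h1] with y hy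
        rw [mem_ball_zero_iff, lt_div_iff₀ hb] at hy
        apply hc1
        have := (hab y).2
        linarith
      exact (differentiableAt_const (0 : ℝ)).congr_of_eventuallyEq this
    · exact ((cut.contDiff (n := 1)).differentiable (by norm_num) (N x)).comp x (hd x hx)
  · obtain ⟨x, hx⟩ := exists_ne (0 : X)
    have h1 : 0 < N x := lt_of_lt_of_le (by positivity) (hab x).1
    refine ⟨(3 / 2 / N x) • x, ?_⟩
    show cut (N ((3 / 2 / N x) • x)) ≠ 0
    rw [hN2, abs_of_pos (by positivity), div_mul_cancel₀ _ h1.ne', cut_one]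
    exact one_ne_zero
  · apply (isBounded_ball (x := (0 : X)) (r := 2 / a)).subset
    intro x hx
    rw [mem_ball_zero_iff]
    by_contra hcon
    push Not at hcon
    apply hx
    rw [div_le_iff₀ ha] at hcon
    apply cut_zero
    have := (hab x).1
    linarith

end Pool.Agent.Helper827.B
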