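import Mathlib
import Pool.Agent.Helper827.B12

set_option autoImplicit false
set_option linter.unusedSectionVars false

namespace Pool.Agent.Helper827.B

open Filter Topology Set Metric

/-- norm fragmentability of the dual ball -/
def Frg (X : Type) [NormedAddCommGroup X] [NormedSpace ℝ X] : Prop :=
  ∀ ε : ℝ, 0 < ε → ∀ M : Set (DB X), IsClosed M → M.Nonempty → ∃ O : Set (DB X), IsOpen O ∧
    (M ∩ O).Nonempty ∧ ∀ h ∈ M ∩ O, ∀ h' ∈ M ∩ O, ‖toF h - toF h'‖ ≤ ε

lemma cont_DB {X : Type} [NormedAddCommGroup X] [NormedSpace ℝ X] {Z : Type} [TopologicalSpace Z]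
    {g : Z → DB X} (hg : ∀ x, Continuous fun z => toF (g z) x) : Continuous g := by
  apply Continuous.subtype_mk (f := fun z => (g z).1)
  apply WeakDual.continuous_of_continuous_eval
  intro x
  exact hg x

instance {X : Type} [NormedAddCommGroup X] [NormedSpace ℝ X] : T2Space (DB X) := by
  unfold DB
  infer_instance

/-- closures do not increase the diameter -/
lemma diam_closure {X : Type} [NormedAddCommGroup X] [NormedSpace ℝ X] {A : Set (DB X)} {ε : ℝ}
    (hA : ∀ h ∈ A, ∀ h' ∈ A, ∀ x : X, |toF h x - toF h' x| ≤ ε * ‖x‖) :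
    ∀ h ∈ closure A, ∀ h' ∈ closure A, ∀ x : X, |toF h x - toF h' x| ≤ ε * ‖x‖ := by
  have h1 : ∀ h ∈ closure A, ∀ h' ∈ A, ∀ x : X, |toF h x - toF h' x| ≤ ε * ‖x‖ := by
    intro h hh h' hh' x
    have hcl : IsClosed {h : DB X | |toF h x - toF h' x| ≤ ε * ‖x‖} :=
      isClosed_le (((DB_cont x).sub continuous_const).abs) continuous_const
    exact (closure_minimal (fun k hk => hA k hk h' hh' x) hcl) hh
  intro h hh h' hh' x
  have hcl : IsClosed {h' : DB X | |toF h x - toF h' x| ≤ ε * ‖x‖} :=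
    isClosed_le ((continuous_const.sub (DB_cont x)).abs) continuous_const
  exact (closure_minimal (fun k hk => h1 h hh k hk x) hcl) hh'

lemma pt_of_norm {X : Type} [NormedAddCommGroup X] [NormedSpace ℝ X] {f g : X →L[ℝ] ℝ} {ε : ℝ}
    (h : ‖f - g‖ ≤ ε) (x : X) : |f x - g x| ≤ ε * ‖x‖ := by
  have h1 := (f - g).le_opNorm x
  have h2 : (f - g) x = f x - g x := rfl
  rw [h2, Real.norm_eq_abs] at h1
  exact h1.trans (mul_le_mul_of_nonneg_right h (norm_nonneg _))

lemma norm_of_pt {X : Type} [NormedAddCommGroup X] [NormedSpace ℝ X] {f g : X →L[ℝ] ℝ} {ε : ℝ}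
    (hε : 0 ≤ ε) (h : ∀ x : X, |f x - g x| ≤ ε * ‖x‖) : ‖f - g‖ ≤ ε :=
  ContinuousLinearMap.opNorm_le_bound _ hε h

section three
variable {X : Type} [NormedAddCommGroup X] [NormedSpace ℝ X]

noncomputable def resY (Y : Submodule ℝ X) (h : DB X) : DB Y :=
  ofF ((toF h).comp Y.subtypeL) (by
    refine ContinuousLinearMap.opNorm_le_bound _ zero_le_one (fun y => ?_)
    rw [one_mul]
    exact ev_le toF_ok h (y : X))

lemma resY_apply (Y : Submodule ℝ X) (h : DB X) (y : Y) : toF (resY Y h) y = toF h (y : X) := rfl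

lemma resY_cont (Y : Submodule ℝ X) : Continuous (resY Y) :=
  cont_DB fun y => DB_cont (y : X)

/-- functionals vanishing on Y come from the quotient -/
lemma lift_quot (Y : Submodule ℝ X) [hYc : IsClosed (Y : Set X)] (e : X →L[ℝ] ℝ)
    (he : ∀ y ∈ Y, e y = 0) {C : ℝ} (hC : ‖e‖ ≤ C) :
    ∃ φ : (X ⧸ Y) →L[ℝ] ℝ, (∀ x, φ (Y.mkQ x) = e x) ∧ ‖φ‖ ≤ C := by
  have hC0 : 0 ≤ C := (norm_nonneg _).trans hC
  let l : (X ⧸ Y) →ₗ[ℝ] ℝ := Y.liftQ (e : X →ₗ[ℝ] ℝ) (fun y hy => by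
    rw [LinearMap.mem_ker]; exact he y hy)
  have hl : ∀ x, l (Y.mkQ x) = e x := fun x => by
    simp [l]
  have hb : ∀ q : X ⧸ Y, ‖l q‖ ≤ C * ‖q‖ := by
    intro q
    apply le_of_forall_pos_le_add
    intro δ hδ
    obtain ⟨x, hx, hx2⟩ := Submodule.Quotient.norm_mk_lt q (show 0 < δ / (C + 1) by positivity)
    have h1 : l q = e x := by rw [← hl x, ← hx]; rfl
    rw [h1]
    calc ‖e x‖ ≤ ‖e‖ * ‖x‖ := e.le_opNorm x
      _ ≤ C * (‖q‖ + δ / (C + 1)) := by gcongr
      _ = C * ‖q‖ + C / (C + 1) * δ := by ring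
      _ ≤ C * ‖q‖ + δ := by
        have : C / (C + 1) * δ ≤ 1 * δ := by
          gcongr
          rw [div_le_one (by positivity)]
          linarith
        linarith
  refine ⟨l.mkContinuous C hb, fun x => hl x, LinearMap.mkContinuous_norm_le _ hC0 _⟩

theorem three_space_frag (Y : Submodule ℝ X) [hYc : IsClosed (Y : Set X)] (hY : Frg Y)
    (hQ : Frg (X ⧸ Y)) : Frg X := by
  intro ε hε M hM hne
  -- step one: small restrictions
  obtain ⟨O1, hO1, ⟨r0, hr0⟩, hs1⟩ := hY (ε / 4) (by positivity) (resY Y '' M)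
    (hM.isCompact.image (resY_cont Y)).isClosed (hne.image _)
  set A : Set (DB X) := M ∩ resY Y ⁻¹' O1 with hA
  have hAne : A.Nonempty := by
    obtain ⟨⟨m, hm, hm2⟩, h2⟩ := hr0
    exact ⟨m, hm, by rw [mem_preimage, hm2]; exact h2⟩
  set M1 : Set (DB X) := closure A with hM1
  have hM1c : IsClosed M1 := isClosed_closure
  have hM1ne : M1.Nonempty := hAne.closure
  obtain ⟨f0, hf0⟩ := hM1ne
  have hsmall : ∀ h ∈ M1, ∀ h' ∈ M1, ∀ y : Y, |toF h (y : X) - toF h' (y : X)| ≤ ε / 4 * ‖y‖ := by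
    -- closure argument in X
    have h0 : ∀ h ∈ A, ∀ h' ∈ A, ∀ y : Y, |toF h (y : X) - toF h' (y : X)| ≤ ε / 4 * ‖y‖ := by
      intro h hh h' hh' y
      have := hs1 (resY Y h) ⟨mem_image_of_mem _ hh.1, hh.2⟩ (resY Y h')
        ⟨mem_image_of_mem _ hh'.1, hh'.2⟩
      exact pt_of_norm this y
    have h1 : ∀ h ∈ M1, ∀ h' ∈ A, ∀ y : Y, |toF h (y : X) - toF h' (y : X)| ≤ ε / 4 * ‖y‖ := by
      intro h hh h' hh' y
      have hcl : IsClosed {h : DB X | |toF h (y : X) - toF h' (y : X)| ≤ ε / 4 * ‖y‖} :=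
        isClosed_le (((DB_cont (y : X)).sub continuous_const).abs) continuous_const
      exact (closure_minimal (fun k hk => h0 k hk h' hh' y) hcl) hh
    intro h hh h' hh' y
    have hcl : IsClosed {h' : DB X | |toF h (y : X) - toF h' (y : X)| ≤ ε / 4 * ‖y‖} :=
      isClosed_le ((continuous_const.sub (DB_cont (y : X))).abs) continuous_const
    exact (closure_minimal (fun k hk => h1 h hh k hk y) hcl) hh'
  -- decomposition
  have hdec : ∀ h ∈ M1, ∃ φ : DB (X ⧸ Y), ∀ x : X,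
      |toF h x - toF f0 x - 4 * toF φ (Y.mkQ x)| ≤ ε / 4 * ‖x‖ := by
    intro h hh
    let g : Y →L[ℝ] ℝ := (toF h - toF f0).comp Y.subtypeL
    have hg1 : ‖g‖ ≤ ε / 4 := by
      refine ContinuousLinearMap.opNorm_le_bound _ (by positivity) (fun y => ?_)
      exact hsmall h hh f0 hf0 y
    have hg2 : ‖g‖ ≤ 2 := by
      refine ContinuousLinearMap.opNorm_le_bound _ (by norm_num) (fun y => ?_)
      have h1 := ev_le toF_ok h (y : X)
      have h2 := ev_le toF_ok f0 (y : X)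
      have h3 : g y = toF h (y : X) - toF f0 (y : X) := rfl
      rw [h3, Real.norm_eq_abs]
      have h4 := abs_sub (toF h (y : X)) (toF f0 (y : X))
      have h5 : ‖(y : X)‖ = ‖y‖ := rfl
      rw [h5] at h1 h2
      linarith
    obtain ⟨u, hu1, hu2⟩ := exists_extension_norm_eq Y g
    let e : X →L[ℝ] ℝ := toF h - toF f0 - u
    have he : ∀ y ∈ Y, e y = 0 := by
      intro y hy
      have h1 := hu1 ⟨y, hy⟩
      have h2 : g ⟨y, hy⟩ = toF h y - toF f0 y := rfl
      show toF h y - toF f0 y - u y = 0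
      rw [← h2, ← h1]
      simp
    have heC : ‖e‖ ≤ 4 := by
      have h1 := norm_sub_le (toF h - toF f0) u
      have h2 := norm_sub_le (toF h) (toF f0)
      have h3 := toF_norm h
      have h4 := toF_norm f0
      have h5 : ‖u‖ ≤ 2 := hu2 ▸ hg2
      linarith
    obtain ⟨φ, hφ1, hφ2⟩ := lift_quot Y e he heC
    refine ⟨ofF ((1 / 4 : ℝ) • φ) ?_, fun x => ?_⟩
    · rw [norm_smul, Real.norm_eq_abs, abs_of_pos (by norm_num)]
      linarith
    · rw [toF_ofF]
      have h1 : ((1 / 4 : ℝ) • φ) (Y.mkQ x) = 1 / 4 * e x := by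
        rw [← hφ1 x]; rfl
      rw [h1]
      have h2 : toF h x - toF f0 x - 4 * (1 / 4 * e x) = u x := by
        have : e x = toF h x - toF f0 x - u x := rfl
        rw [this]; ring
      rw [h2]
      have h3 := u.le_opNorm x
      rw [Real.norm_eq_abs] at h3
      refine h3.trans (mul_le_mul_of_nonneg_right ?_ (norm_nonneg _))
      exact hu2 ▸ hg1
  -- the relation
  let T : Set (M1 × DB (X ⧸ Y)) := {p | ∀ x : X,
      |toF p.1.1 x - toF f0 x - 4 * toF p.2 (Y.mkQ x)| ≤ ε / 4 * ‖x‖}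
  have hTc : IsClosed T := by
    have : T = ⋂ x : X, {p : M1 × DB (X ⧸ Y) |
        |toF p.1.1 x - toF f0 x - 4 * toF p.2 (Y.mkQ x)| ≤ ε / 4 * ‖x‖} := by
      ext p; simp [T]
    rw [this]
    refine isClosed_iInter fun x => isClosed_le ?_ continuous_const
    have c1 : Continuous fun p : M1 × DB (X ⧸ Y) => toF p.1.1 x :=
      (DB_cont x).comp (continuous_subtype_val.comp continuous_fst)
    have c2 : Continuous fun p : M1 × DB (X ⧸ Y) => toF p.2 (Y.mkQ x) :=
      (DB_cont (Y.mkQ x)).comp continuous_snd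
    exact ((c1.sub continuous_const).sub (continuous_const.mul c2)).abs
  have hM1cs : CompactSpace M1 := isCompact_iff_compactSpace.1 hM1c.isCompact
  have hTcs : CompactSpace T := isCompact_iff_compactSpace.1 hTc.isCompact
  let π : T → M1 := fun p => p.1.1
  have hπc : Continuous π := continuous_fst.comp continuous_subtype_val
  have hπs : Function.Surjective π := by
    intro h
    obtain ⟨φ, hφ⟩ := hdec h.1 h.2
    exact ⟨⟨(h, φ), hφ⟩, rfl⟩
  obtain ⟨E, hEc, hE1, hE2⟩ := exists_compact_surjective_zorn_subset hπc hπs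
  have hEcl : IsCompact E := isCompact_iff_compactSpace.2 hEc
  let q : T → DB (X ⧸ Y) := fun p => p.1.2
  have hqc : Continuous q := continuous_snd.comp continuous_subtype_val
  have hEne : E.Nonempty := by
    have : (⟨f0, hf0⟩ : M1) ∈ π '' E := by rw [hE1]; trivial
    obtain ⟨p, hp, _⟩ := this
    exact ⟨p, hp⟩
  obtain ⟨O2, hO2, ⟨q0, ⟨p0, hp0, hp0q⟩, hq0⟩, hs2⟩ := hQ (ε / 8) (by positivity) (q '' E)
    (hEcl.image hqc).isClosed (hEne.image _)
  -- the complement piece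
  let E0 : Set E := {p | q p.1 ∉ O2}
  have hE0c : IsClosed E0 := by
    have : E0 = (fun p : E => q p.1) ⁻¹' O2ᶜ := rfl
    rw [this]
    exact hO2.isClosed_compl.preimage (hqc.comp continuous_subtype_val)
  have hE0ne : E0 ≠ univ := by
    intro h
    have : (⟨p0, hp0⟩ : E) ∈ E0 := by rw [h]; trivial
    apply this
    show q p0 ∈ O2
    rw [hp0q]; exact hq0
  have hE3 := hE2 E0 hE0ne hE0c
  set K : Set M1 := E.domRestrict π '' E0 with hK
  have hKc : IsClosed K := by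
    have : CompactSpace E := hEc
    exact (hE0c.isCompact.image (hπc.comp continuous_subtype_val)).isClosed
  obtain ⟨h0, hh0⟩ := (ne_univ_iff_exists_notMem K).1 hE3
  -- open set of M1
  obtain ⟨W, hW, hWK⟩ := isOpen_induced_iff.1 hKc.isOpen_compl
  have hin : ∀ h : M1, h.1 ∈ W → ∃ φ : DB (X ⧸ Y), φ ∈ q '' E ∩ O2 ∧ ∀ x : X,
      |toF h.1 x - toF f0 x - 4 * toF φ (Y.mkQ x)| ≤ ε / 4 * ‖x‖ := by
    intro h hh
    have h1 : h ∈ Kᶜ := by rw [← hWK]; exact hh
    have h2 : h ∈ π '' E := by rw [hE1]; trivial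
    obtain ⟨p, hp, hpe⟩ := h2
    refine ⟨q p, ⟨mem_image_of_mem _ hp, ?_⟩, ?_⟩
    · by_contra hcon
      exact h1 ⟨⟨p, hp⟩, hcon, hpe⟩
    · rw [← hpe]
      exact p.2
  have hdiam : ∀ h ∈ M1 ∩ W, ∀ h' ∈ M1 ∩ W, ‖toF h - toF h'‖ ≤ ε := by
    intro h hh h' hh'
    obtain ⟨φ, hφ1, hφ2⟩ := hin ⟨h, hh.1⟩ hh.2
    obtain ⟨φ', hφ1', hφ2'⟩ := hin ⟨h', hh'.1⟩ hh'.2
    apply norm_of_pt hε.le
    intro x
    have h1 := hφ2 x
    have h2 := hφ2' x
    have h3 := pt_of_norm (hs2 φ hφ1 φ' hφ1') (Y.mkQ x)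
    have h4 : ‖Y.mkQ x‖ ≤ ‖x‖ := Submodule.Quotient.norm_mk_le Y x
    have h5 : ε / 8 * ‖Y.mkQ x‖ ≤ ε / 8 * ‖x‖ := mul_le_mul_of_nonneg_left h4 (by positivity)
    rw [abs_le] at h1 h2 h3 ⊢
    constructor
    · linarith [h1.1, h2.2, h3.1]
    · linarith [h1.2, h2.1, h3.2]
  -- back to M
  have hWne : (A ∩ W).Nonempty := by
    have h1 : h0.1 ∈ W := by
      have : h0 ∈ Kᶜ := hh0
      rw [← hWK] at this
      exact this
    have h2 : h0.1 ∈ closure A := h0.2
    rw [inter_comm]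
    exact mem_closure_iff.1 h2 W hW h1
  refine ⟨resY Y ⁻¹' O1 ∩ W, (hO1.preimage (resY_cont Y)).inter hW, ?_, ?_⟩
  · rw [← inter_assoc]; exact hWne
  · intro h hh h' hh'
    apply hdiam h ⟨subset_closure ⟨hh.1, hh.2.1⟩, hh.2.2⟩ h'
      ⟨subset_closure ⟨hh'.1, hh'.2.1⟩, hh'.2.2⟩

end three

end Pool.Agent.Helper827.B
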