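import Mathlib
import Pool.Agent.Helper827.B14

/-!
Separation by `C^1` functions: for a norm-fragmented family of functionals indexed by a compact
space, the sets `{x | |ev h x| ≤ q for all h ∈ A}` and `{x | q' ≤ |ev h x| for some h ∈ A}` are
separated by a `C^1` function.
-/

set_option autoImplicit false
set_option linter.unusedSectionVars false

namespace Pool.Agent.Helper827.B

open Filter Topology Set MeasureTheory

variable {X : Type} [NormedAddCommGroup X] [NormedSpace ℝ X]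

/-- norm fragmentation of a family of functionals -/
def FrE {K : Type} [TopologicalSpace K] (ev : K → (X →L[ℝ] ℝ)) : Prop :=
  ∀ ε : ℝ, 0 < ε → ∀ M : Set K, IsClosed M → M.Nonempty → ∃ O : Set K, IsOpen O ∧
    (M ∩ O).Nonempty ∧ ∀ h ∈ M ∩ O, ∀ h' ∈ M ∩ O, ‖ev h - ev h'‖ ≤ ε

theorem sep0 {K : Type} [TopologicalSpace K] [CompactSpace K] {ev : K → (X →L[ℝ] ℝ)}
    (hev : EvOK ev) (hfr : FrE ev) {q q' : ℝ} (hq : 0 < q) (hqq : q < q') :
    ∃ P : X → ℝ, ContDiff ℝ 1 P ∧ (∀ x, 0 ≤ P x ∧ P x ≤ 1) ∧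
      (∀ x, (∀ h, ev h x ≤ q) → P x = 1) ∧ (∀ x, (∃ h, q' ≤ ev h x) → P x = 0) := by
  let S : ℕ → Set K → Prop := fun k M => ∀ h ∈ M, ∀ h' ∈ M, ‖ev h - ev h'‖ ≤ (1 / 2) ^ k
  have hS : ∀ k, ∀ M : Set K, IsClosed M → M.Nonempty → ∃ O : Set K, IsOpen O ∧
      (M ∩ O).Nonempty ∧ S k (M ∩ O) := by
    intro k M hM hne
    obtain ⟨O, h1, h2, h3⟩ := hfr ((1 / 2) ^ k) (by positivity) M hM hne
    exact ⟨O, h1, h2, h3⟩
  have hD : ∀ k, Der (mkD S hS k) := mkD_der hS
  have hpar : Param (fun c y => EE (mkD S hS) ev c ((0 : X) + (ContinuousLinearMap.id ℝ X) y)) := by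
    apply param_of_frag hD hev 0 (ContinuousLinearMap.id ℝ X) ContinuousLinearMap.norm_id_le
    intro y
    simp only [zero_add, ContinuousLinearMap.comp_id, ContinuousLinearMap.coe_id', id_eq]
    apply frag_F hD (hev.cont y)
    intro k A hA hne
    exact mkD_small hS k hA hne
  have hpar2 : Param (EE (mkD S hS) ev) := by
    simpa using hpar
  have hB := hpar2.contDiff
  set s : ℝ := min (q' / q) 2 with hs
  have hs1 : 1 < s := by
    rw [hs, lt_min_iff]
    exact ⟨(one_lt_div hq).2 hqq, by norm_num⟩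
  have hs2 : s ≤ q' / q := min_le_left _ _
  set κ : ℝ := (∫ c in (1 : ℝ)..2, max c s) - ∫ c in (1 : ℝ)..2, c with hκ
  have hκ0 : 0 < κ := by
    rw [hκ, sub_pos]
    apply intervalIntegral.integral_lt_integral_of_continuousOn_of_le_of_exists_lt (by norm_num)
      continuous_id.continuousOn (continuous_id.max continuous_const).continuousOn
    · intro x _; exact le_max_left _ _
    · exact ⟨1, ⟨le_rfl, by norm_num⟩, lt_max_of_lt_right hs1⟩
  have hconv : ∀ g : ℝ → ℝ, ∫ c in Set.Icc (1 : ℝ) 2, g c = ∫ c in (1 : ℝ)..2, g c := by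
    intro g
    rw [integral_Icc_eq_integral_Ioc, ← intervalIntegral.integral_of_le (by norm_num)]
  refine ⟨fun x => Real.smoothTransition (1 - (Bf (EE (mkD S hS) ev) (q⁻¹ • x) -
    ∫ c in (1 : ℝ)..2, c) / κ), ?_, ?_, ?_, ?_⟩
  · apply Real.smoothTransition.contDiff.comp
    apply contDiff_const.sub
    apply ContDiff.div_const
    apply ContDiff.sub _ contDiff_const
    exact hB.comp (contDiff_const_smul (q⁻¹))
  · intro x
    exact ⟨Real.smoothTransition.nonneg _, Real.smoothTransition.le_one _⟩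
  · intro x hx
    have h1 : Bf (EE (mkD S hS) ev) (q⁻¹ • x) = ∫ c in (1 : ℝ)..2, c := by
      unfold Bf
      rw [← hconv]
      apply setIntegral_congr_fun measurableSet_Icc
      intro c hc
      apply (Phi_good hD 0).eq _ _ _ isClosed_univ (hev.cont (q⁻¹ • x))
      intro g _
      rw [map_smul, smul_eq_mul]
      have h2 : q⁻¹ * ev g x ≤ q⁻¹ * q := mul_le_mul_of_nonneg_left (hx g) (by positivity)
      rw [inv_mul_cancel₀ hq.ne'] at h2
      exact h2.trans hc.1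
    show Real.smoothTransition (1 - (Bf (EE (mkD S hS) ev) (q⁻¹ • x) - ∫ c in (1 : ℝ)..2, c) / κ) = 1
    rw [h1, sub_self, zero_div, sub_zero]
    exact Real.smoothTransition.one
  · rintro x ⟨h, hh⟩
    have h1 : ∫ c in (1 : ℝ)..2, max c s ≤ Bf (EE (mkD S hS) ev) (q⁻¹ • x) := by
      unfold Bf
      rw [← hconv]
      apply setIntegral_mono_on _ (hpar2.int _) measurableSet_Icc
      · intro c _
        apply max_le
        · exact EE_ge' hD hev
        · have h2 := (Phi_good hD 0).ub univ c (fun h => ev h (q⁻¹ • x)) isClosed_univ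
            (hev.cont _) h (mem_univ _)
          refine le_trans ?_ h2
          rw [map_smul, smul_eq_mul]
          refine hs2.trans ?_
          rw [div_eq_inv_mul]
          exact mul_le_mul_of_nonneg_left hh (by positivity)
      · exact (continuous_id.max continuous_const).continuousOn.integrableOn_compact isCompact_Icc
    apply Real.smoothTransition.zero_of_nonpos
    rw [sub_nonpos, le_div_iff₀ hκ0, one_mul]
    linarith

theorem sep1 {K : Type} [TopologicalSpace K] [CompactSpace K] {ev : K → (X →L[ℝ] ℝ)}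
    (hev : EvOK ev) (hfr : FrE ev) {q q' : ℝ} (hq : 0 < q) (hqq : q < q') :
    ∃ P : X → ℝ, ContDiff ℝ 1 P ∧ (∀ x, 0 ≤ P x ∧ P x ≤ 1) ∧
      (∀ x, (∀ h, |ev h x| ≤ q) → P x = 1) ∧ (∀ x, (∃ h, q' ≤ |ev h x|) → P x = 0) := by
  obtain ⟨P, p1, p2, p3, p4⟩ := sep0 hev hfr hq hqq
  have hev' : EvOK (fun h => - ev h) := by
    refine ⟨fun h => by rw [norm_neg]; exact hev.norm h, fun x => ?_⟩
    exact (hev.cont x).neg
  have hfr' : FrE (fun h => - ev h) := by
    intro ε hε M hM hne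
    obtain ⟨O, h1, h2, h3⟩ := hfr ε hε M hM hne
    refine ⟨O, h1, h2, fun h hh h' hh' => ?_⟩
    show ‖-ev h - -ev h'‖ ≤ ε
    rw [neg_sub_neg, norm_sub_rev]
    exact h3 h hh h' hh'
  obtain ⟨Q, r1, r2, r3, r4⟩ := sep0 hev' hfr' hq hqq
  refine ⟨fun x => P x * Q x, p1.mul r1, fun x => ?_, fun x hx => ?_, ?_⟩
  · refine ⟨mul_nonneg (p2 x).1 (r2 x).1, mul_le_one₀ (p2 x).2 (r2 x).1 (r2 x).2⟩
  · show P x * Q x = 1
    rw [p3 x (fun h => (abs_le.1 (hx h)).2), r3 x (fun h => ?_), mul_one]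
    have := (abs_le.1 (hx h)).1
    show - (ev h x) ≤ q
    linarith
  · rintro x ⟨h, hh⟩
    show P x * Q x = 0
    rcases le_abs.1 hh with h1 | h1
    · rw [p4 x ⟨h, h1⟩, zero_mul]
    · rw [r4 x ⟨h, h1⟩, mul_zero]

theorem sep2 {K : Type} [TopologicalSpace K] [CompactSpace K] {ev : K → (X →L[ℝ] ℝ)}
    (hn : ∀ h, ‖ev h‖ ≤ 2) (hc : ∀ x, Continuous fun h => ev h x) (hfr : FrE ev)
    {A : Set K} (hA : IsClosed A) {q q' : ℝ} (hq : 0 < q) (hqq : q < q') :
    ∃ P : X → ℝ, ContDiff ℝ 1 P ∧ (∀ x, 0 ≤ P x ∧ P x ≤ 1) ∧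
      (∀ x, (∀ h ∈ A, |ev h x| ≤ q) → P x = 1) ∧ (∀ x, (∃ h ∈ A, q' ≤ |ev h x|) → P x = 0) := by
  have hAc : CompactSpace A := isCompact_iff_compactSpace.1 hA.isCompact
  let ev' : A → (X →L[ℝ] ℝ) := fun h => (1 / 2 : ℝ) • ev h.1
  have hap : ∀ (h : A) (x : X), ev' h x = 1 / 2 * ev h.1 x := fun h x => rfl
  have hev' : EvOK ev' := by
    refine ⟨fun h => ?_, fun x => ?_⟩
    · show ‖(1 / 2 : ℝ) • ev h.1‖ ≤ 1
      rw [norm_smul, Real.norm_eq_abs, abs_of_pos (by norm_num : (0 : ℝ) < 1 / 2)]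
      have := hn h.1
      linarith
    · have := ((hc x).comp (continuous_subtype_val (p := fun h => h ∈ A)))
      exact (continuous_const (y := (1 / 2 : ℝ))).mul this
  have hfr' : FrE ev' := by
    intro ε hε M hM hne
    obtain ⟨O, h1, ⟨a, ⟨b, hb1, hb2⟩, ha2⟩, h3⟩ := hfr ε hε (Subtype.val '' M)
      (hA.isClosedEmbedding_subtypeVal.isClosedMap _ hM) (hne.image _)
    refine ⟨Subtype.val ⁻¹' O, h1.preimage continuous_subtype_val, ⟨b, hb1, ?_⟩, ?_⟩
    · rw [mem_preimage, hb2]; exact ha2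
    · intro h hh h' hh'
      have h4 := h3 h.1 ⟨mem_image_of_mem _ hh.1, hh.2⟩ h'.1 ⟨mem_image_of_mem _ hh'.1, hh'.2⟩
      have e1 : ev' h - ev' h' = (1 / 2 : ℝ) • (ev h.1 - ev h'.1) := by
        rw [smul_sub]
      rw [e1, norm_smul, Real.norm_eq_abs, abs_of_pos (by norm_num : (0 : ℝ) < 1 / 2)]
      have := norm_nonneg (ev h.1 - ev h'.1)
      linarith
  obtain ⟨P, p1, p2, p3, p4⟩ := sep1 hev' hfr' (half_pos hq) (div_lt_div_of_pos_right hqq two_pos)
  have habs : ∀ (h : A) (x : X), |ev' h x| = |ev h.1 x| / 2 := by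
    intro h x
    rw [hap, abs_mul, abs_of_pos (by norm_num : (0 : ℝ) < 1 / 2)]
    ring
  refine ⟨P, p1, p2, fun x hx => p3 x fun h => ?_, ?_⟩
  · rw [habs]
    have := hx h.1 h.2
    linarith
  · rintro x ⟨h, hh, hh2⟩
    refine p4 x ⟨⟨h, hh⟩, ?_⟩
    rw [habs]
    show q' / 2 ≤ |ev h x| / 2
    linarith

end Pool.Agent.Helper827.B
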