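import Mathlib
import Pool.Agent.Helper827.B15

/-!
A sigma-discrete family of `C^1` functions with small supports covering a ball of a normed space
with norm-fragmented dual ball.
-/

set_option autoImplicit false
set_option linter.unusedSectionVars false

namespace Pool.Agent.Helper827.B

open Filter Topology Set MeasureTheory

/-- local data on closed sets of the dual ball -/
structure Dat (X : Type) [NormedAddCommGroup X] [NormedSpace ℝ X] (R : ℝ) where
  φ : Set (DB X) → DB X → ℝ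
  p : Set (DB X) → DB X
  cont : ∀ A, Continuous (φ A)
  nn : ∀ A h, 0 ≤ φ A h
  mem : ∀ A, IsClosed A → A.Nonempty → p A ∈ A
  pos : ∀ A, IsClosed A → A.Nonempty → 0 < φ A (p A)
  small : ∀ A, IsClosed A → A.Nonempty → ∀ h ∈ A, 0 < φ A h → ‖toF h - toF (p A)‖ * R ≤ 1 / 4

variable {X : Type} [NormedAddCommGroup X] [NormedSpace ℝ X]

lemma exists_dat (hF : Frg X) {R : ℝ} (hR : 0 < R) : Nonempty (Dat X R) := by
  classical
  have key : ∀ A : Set (DB X), IsClosed A → A.Nonempty → ∃ (φ : DB X → ℝ) (p : DB X),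
      Continuous φ ∧ (∀ h, 0 ≤ φ h) ∧ p ∈ A ∧ 0 < φ p ∧
        ∀ h ∈ A, 0 < φ h → ‖toF h - toF p‖ * R ≤ 1 / 4 := by
    intro A hA hne
    obtain ⟨O, h1, ⟨p, hp, hpO⟩, h3⟩ := hF (1 / (4 * R)) (by positivity) A hA hne
    obtain ⟨f, hf1, hf2, hf3⟩ := exists_continuous_zero_one_of_isClosed (s := Oᶜ) (t := {p})
      h1.isClosed_compl isClosed_singleton (by
        rw [disjoint_singleton_right]
        exact fun h => h hpO)
    have hfp : f p = 1 := hf2 (mem_singleton p)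
    refine ⟨f, p, f.continuous, fun h => (hf3 h).1, hp, by rw [hfp]; exact one_pos, ?_⟩
    intro h hh hpos
    have hO : h ∈ O := by
      by_contra hcon
      have : f h = 0 := hf1 hcon
      rw [this] at hpos
      exact lt_irrefl _ hpos
    have h4 := h3 h ⟨hh, hO⟩ p ⟨hp, hpO⟩
    calc ‖toF h - toF p‖ * R ≤ 1 / (4 * R) * R := mul_le_mul_of_nonneg_right h4 hR.le
      _ = 1 / 4 := by field_simp
  have key2 : ∀ A : Set (DB X), ∃ (φ : DB X → ℝ) (p : DB X),
      Continuous φ ∧ (∀ h, 0 ≤ φ h) ∧ (IsClosed A → A.Nonempty → (p ∈ A ∧ 0 < φ p ∧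
        ∀ h ∈ A, 0 < φ h → ‖toF h - toF p‖ * R ≤ 1 / 4)) := by
    intro A
    by_cases hA : IsClosed A ∧ A.Nonempty
    · obtain ⟨φ, p, h1, h2, h3⟩ := key A hA.1 hA.2
      exact ⟨φ, p, h1, h2, fun _ _ => h3⟩
    · refine ⟨fun _ => 0, ofF 0 (by simp), continuous_const, fun _ => le_rfl, fun a b => ?_⟩
      exact absurd ⟨a, b⟩ hA
  choose φ p h1 h2 h3 using key2
  exact ⟨⟨φ, p, h1, h2, fun A a b => (h3 A a b).1, fun A a b => (h3 A a b).2.1,
    fun A a b => (h3 A a b).2.2⟩⟩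

variable {R : ℝ}

def DDd (d : Dat X R) (A : Set (DB X)) : Set (DB X) := A ∩ {h | d.φ A h = 0}

lemma DDd_der (d : Dat X R) : Der (DDd d) where
  closed A hA := hA.inter (isClosed_eq (d.cont A) continuous_const)
  sub A := inter_subset_left
  ne A hA hne heq := by
    have h1 : d.p A ∈ DDd d A := by
      rw [heq]
      exact d.mem A hA hne
    exact (d.pos A hA hne).ne' h1.2

noncomputable def AA (d : Dat X R) (ζ : Ordinal.{0}) : Set (DB X) := it (DDd d) univ ζ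

lemma AA_closed (d : Dat X R) (ζ : Ordinal.{0}) : IsClosed (AA d ζ) :=
  it_closed (DDd_der d) isClosed_univ ζ

lemma AA_succ (d : Dat X R) (ζ : Ordinal.{0}) : AA d (ζ + 1) = DDd d (AA d ζ) :=
  it_succ (DDd_der d) univ ζ

lemma AA_anti (d : Dat X R) {ξ ζ : Ordinal.{0}} (h : ξ ≤ ζ) : AA d ζ ⊆ AA d ξ := it_anti _ _ h

noncomputable def cf (d : Dat X R) (ζ : Ordinal.{0}) (m : ℕ) (h : DB X) : ℝ :=
  min 1 ((m : ℝ) * d.φ (AA d ζ) h)

lemma cf_nn (d : Dat X R) (ζ : Ordinal.{0}) (m : ℕ) (h : DB X) : 0 ≤ cf d ζ m h :=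
  le_min zero_le_one (mul_nonneg (Nat.cast_nonneg _) (d.nn _ _))

lemma cf_le (d : Dat X R) (ζ : Ordinal.{0}) (m : ℕ) (h : DB X) : cf d ζ m h ≤ 1 := min_le_left _ _

lemma cf_cont (d : Dat X R) (ζ : Ordinal.{0}) (m : ℕ) : Continuous (cf d ζ m) :=
  continuous_const.min (continuous_const.mul (d.cont _))

/-- countable part of a step -/
abbrev Cp := ℕ × ℕ × ℤ
/-- nodes: finite sequences of steps -/
abbrev Nd := List (Ordinal.{0} × Cp)

noncomputable def GG (d : Dat X R) : Nd → DB X → (X →L[ℝ] ℝ)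
  | [], _ => 0
  | (ζ, c) :: s, h => (1 - cf d ζ c.1 h) • GG d s h + cf d ζ c.1 h • toF (d.p (AA d ζ))

lemma GG_cont (d : Dat X R) (s : Nd) : Continuous (GG d s) := by
  induction s with
  | nil => exact continuous_const
  | cons a s ih =>
    obtain ⟨ζ, c⟩ := a
    have h1 := cf_cont d ζ c.1
    exact ((continuous_const.sub h1).smul ih).add (h1.smul continuous_const)

lemma GG_norm (d : Dat X R) (s : Nd) (h : DB X) : ‖GG d s h‖ ≤ 1 := by
  induction s with
  | nil => simp [GG]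
  | cons a s ih =>
    obtain ⟨ζ, c⟩ := a
    have h1 := cf_nn d ζ c.1 h
    have h2 := cf_le d ζ c.1 h
    have h3 := toF_norm (d.p (AA d ζ))
    show ‖(1 - cf d ζ c.1 h) • GG d s h + cf d ζ c.1 h • toF (d.p (AA d ζ))‖ ≤ 1
    refine (norm_add_le _ _).trans ?_
    rw [norm_smul, norm_smul, Real.norm_eq_abs, Real.norm_eq_abs, abs_of_nonneg h1,
      abs_of_nonneg (by linarith : 0 ≤ 1 - cf d ζ c.1 h)]
    have h4 : (1 - cf d ζ c.1 h) * ‖GG d s h‖ ≤ (1 - cf d ζ c.1 h) * 1 :=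
      mul_le_mul_of_nonneg_left ih (by linarith)
    have h5 : cf d ζ c.1 h * ‖toF (d.p (AA d ζ))‖ ≤ cf d ζ c.1 h * 1 :=
      mul_le_mul_of_nonneg_left h3 h1
    linarith

noncomputable def uu (d : Dat X R) (s : Nd) (h : DB X) : X →L[ℝ] ℝ := toF h - GG d s h

lemma uu_apply (d : Dat X R) (s : Nd) (h : DB X) (x : X) :
    uu d s h x = toF h x - GG d s h x := rfl

lemma uu_norm (d : Dat X R) (s : Nd) (h : DB X) : ‖uu d s h‖ ≤ 2 := by
  have h1 := toF_norm h
  have h2 := GG_norm d s h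
  have h3 := norm_sub_le (toF h) (GG d s h)
  unfold uu
  linarith

lemma uu_cont (d : Dat X R) (s : Nd) (x : X) : Continuous fun h => uu d s h x := by
  have h1 : Continuous fun h => GG d s h x :=
    (ContinuousLinearMap.apply ℝ ℝ x).continuous.comp (GG_cont d s)
  exact (DB_cont x).sub h1

lemma uu_fr (hF : Frg X) (d : Dat X R) (s : Nd) : FrE (uu d s) := by
  intro ε hε M hM hne
  obtain ⟨O, h1, ⟨p, hp, hpO⟩, h3⟩ := hF (ε / 2) (by positivity) M hM hne
  refine ⟨O ∩ {h | ‖GG d s h - GG d s p‖ < ε / 4}, h1.inter ?_, ⟨p, hp, hpO, ?_⟩, ?_⟩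
  · exact isOpen_lt (((GG_cont d s).sub continuous_const).norm) continuous_const
  · simp only [mem_setOf_eq, sub_self, norm_zero]; positivity
  · intro h hh h' hh'
    have h4 := h3 h ⟨hh.1, hh.2.1⟩ h' ⟨hh'.1, hh'.2.1⟩
    have h5 := hh.2.2
    have h6 := hh'.2.2
    simp only [mem_setOf_eq] at h5 h6
    have e : uu d s h - uu d s h' = (toF h - toF h') - ((GG d s h - GG d s p) -
        (GG d s h' - GG d s p)) := by unfold uu; abel
    rw [e]
    have h7 := norm_sub_le (toF h - toF h') ((GG d s h - GG d s p) - (GG d s h' - GG d s p))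
    have h8 := norm_sub_le (GG d s h - GG d s p) (GG d s h' - GG d s p)
    linarith

noncomputable def aj (j : ℕ) : ℝ := 1 / (6 * ((j : ℝ) + 1))

lemma aj_pos (j : ℕ) : 0 < aj j := by unfold aj; positivity

lemma aj_le (j : ℕ) : aj j ≤ 1 / 6 := by
  unfold aj
  apply one_div_le_one_div_of_le (by norm_num)
  have : (0 : ℝ) ≤ j := Nat.cast_nonneg _
  linarith

def PS (A : Set (DB X)) (ev : DB X → (X →L[ℝ] ℝ)) (q q' : ℝ) (P : X → ℝ) : Prop :=
  ContDiff ℝ 1 P ∧ (∀ x, 0 ≤ P x ∧ P x ≤ 1) ∧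
    (∀ x, (∀ h ∈ A, |ev h x| ≤ q) → P x = 1) ∧ (∀ x, (∃ h ∈ A, q' ≤ |ev h x|) → P x = 0)

noncomputable def PP (A : Set (DB X)) (ev : DB X → (X →L[ℝ] ℝ)) (q q' : ℝ) : X → ℝ :=
  open Classical in
  if h : ∃ P : X → ℝ, PS A ev q q' P then Classical.choose h else 0

lemma PP_spec (hF : Frg X) (d : Dat X R) (s : Nd) {A : Set (DB X)} (hA : IsClosed A) {q q' : ℝ}
    (hq : 0 < q) (hqq : q < q') : PS A (uu d s) q q' (PP A (uu d s) q q') := by
  have h : ∃ P : X → ℝ, PS A (uu d s) q q' P :=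
    sep2 (uu_norm d s) (uu_cont d s) (uu_fr hF d s) hA hq hqq
  unfold PP
  rw [dif_pos h]
  exact Classical.choose_spec h

noncomputable def bm : ContDiffBump (0 : ℝ) := ⟨1 / 2, 1, by norm_num, by norm_num⟩

/-- first factor: small on the next set -/
noncomputable def P1 (d : Dat X R) (s : Nd) (ζ : Ordinal.{0}) (j : ℕ) : X → ℝ :=
  PP (AA d (ζ + 1)) (uu d s) (3 / 2 - 3 * aj j) (3 / 2 - 2 * aj j)

/-- second factor: large on the present set -/
noncomputable def P2 (d : Dat X R) (s : Nd) (ζ : Ordinal.{0}) (j : ℕ) : X → ℝ :=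
  fun x => 1 - PP (AA d ζ) (uu d s) (3 / 2 - aj j) (3 / 2) x

/-- third factor -/
noncomputable def P3 (d : Dat X R) (ζ : Ordinal.{0}) (v : ℤ) : X → ℝ :=
  fun x => bm (toF (d.p (AA d ζ)) x - (v : ℝ))

noncomputable def ps (d : Dat X R) : Nd → X → ℝ
  | [], _ => 1
  | (ζ, c) :: s, x => ps d s x * (P1 d s ζ c.2.1 x * P2 d s ζ c.2.1 x * P3 d ζ c.2.2 x)

section
variable (hF : Frg X)
include hF

lemma P1_spec (d : Dat X R) (s : Nd) (ζ : Ordinal.{0}) (j : ℕ) :
    PS (AA d (ζ + 1)) (uu d s) (3 / 2 - 3 * aj j) (3 / 2 - 2 * aj j) (P1 d s ζ j) := by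
  have h1 := aj_pos j
  have h2 := aj_le j
  exact PP_spec hF d s (AA_closed d _) (by linarith) (by linarith)

lemma P2_spec (d : Dat X R) (s : Nd) (ζ : Ordinal.{0}) (j : ℕ) :
    PS (AA d ζ) (uu d s) (3 / 2 - aj j) (3 / 2) (PP (AA d ζ) (uu d s) (3 / 2 - aj j) (3 / 2)) := by
  have h1 := aj_pos j
  have h2 := aj_le j
  exact PP_spec hF d s (AA_closed d _) (by linarith) (by linarith)

lemma ps_contDiff (d : Dat X R) (s : Nd) : ContDiff ℝ 1 (ps d s) := by
  induction s with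
  | nil => exact contDiff_const
  | cons a s ih =>
    obtain ⟨ζ, c⟩ := a
    refine ih.mul (((P1_spec hF d s ζ c.2.1).1.mul (contDiff_const.sub
      (P2_spec hF d s ζ c.2.1).1)).mul ?_)
    exact bm.contDiff.comp ((toF (d.p (AA d ζ))).contDiff.sub contDiff_const)

lemma ps_nonneg (d : Dat X R) (s : Nd) (x : X) : 0 ≤ ps d s x := by
  induction s with
  | nil => exact zero_le_one
  | cons a s ih =>
    obtain ⟨ζ, c⟩ := a
    refine mul_nonneg ih (mul_nonneg (mul_nonneg ((P1_spec hF d s ζ c.2.1).2.1 x).1 ?_) bm.nonneg)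
    have := ((P2_spec hF d s ζ c.2.1).2.1 x).2
    unfold P2
    linarith

lemma P1_ne {d : Dat X R} {s : Nd} {ζ : Ordinal.{0}} {j : ℕ} {x : X} (h : P1 d s ζ j x ≠ 0) :
    ∀ g ∈ AA d (ζ + 1), |uu d s g x| < 3 / 2 - 2 * aj j := by
  intro g hg
  by_contra hcon
  push Not at hcon
  exact h ((P1_spec hF d s ζ j).2.2.2 x ⟨g, hg, hcon⟩)

lemma P2_ne {d : Dat X R} {s : Nd} {ζ : Ordinal.{0}} {j : ℕ} {x : X} (h : P2 d s ζ j x ≠ 0) :
    ∃ g ∈ AA d ζ, 3 / 2 - aj j < |uu d s g x| := by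
  by_contra hcon
  push Not at hcon
  apply h
  unfold P2
  rw [(P2_spec hF d s ζ j).2.2.1 x hcon, sub_self]

omit hF in
lemma P3_ne {d : Dat X R} {ζ : Ordinal.{0}} {v : ℤ} {x : X} (h : P3 d ζ v x ≠ 0) :
    |toF (d.p (AA d ζ)) x - v| < 1 := by
  by_contra hcon
  push Not at hcon
  apply h
  apply bm.zero_of_le_dist
  rw [Real.dist_eq, sub_zero]
  exact hcon

omit hF in
lemma ps_cons_ne {d : Dat X R} {s : Nd} {ζ : Ordinal.{0}} {c : Cp} {x : X}
    (h : ps d ((ζ, c) :: s) x ≠ 0) :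
    ps d s x ≠ 0 ∧ P1 d s ζ c.2.1 x ≠ 0 ∧ P2 d s ζ c.2.1 x ≠ 0 ∧ P3 d ζ c.2.2 x ≠ 0 := by
  have h1 : ps d s x * (P1 d s ζ c.2.1 x * P2 d s ζ c.2.1 x * P3 d ζ c.2.2 x) ≠ 0 := h
  have h2 := mul_ne_zero_iff.1 h1
  have h3 := mul_ne_zero_iff.1 h2.2
  have h4 := mul_ne_zero_iff.1 h3.1
  exact ⟨h2.1, h4.1, h4.2, h3.2⟩

lemma ps_disc (d : Dat X R) (τ : List Cp) : ∃ δ : ℝ, 0 < δ ∧ ∀ s t : Nd, s.map Prod.snd = τ →
    t.map Prod.snd = τ → s ≠ t → ∀ x x', ps d s x ≠ 0 → ps d t x' ≠ 0 → δ ≤ ‖x - x'‖ := by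
  induction τ with
  | nil =>
    refine ⟨1, one_pos, fun s t hs ht hne => ?_⟩
    rw [List.map_eq_nil_iff] at hs ht
    exact absurd (hs.trans ht.symm) hne
  | cons c τ ih =>
    obtain ⟨δ, hδ, H⟩ := ih
    have ha := aj_pos c.2.1
    refine ⟨min δ (aj c.2.1 / 2), lt_min hδ (by linarith), ?_⟩
    intro s t hs ht hne x x' hx hx'
    obtain ⟨⟨ζ, c1⟩, s', rfl, hc1, hs'⟩ := List.map_eq_cons_iff.1 hs
    obtain ⟨⟨ξ, c2⟩, t', rfl, hc2, ht'⟩ := List.map_eq_cons_iff.1 ht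
    simp only at hc1 hc2
    subst hc1
    subst hc2
    obtain ⟨a1, a2, a3, a4⟩ := ps_cons_ne hx
    obtain ⟨b1, b2, b3, b4⟩ := ps_cons_ne hx'
    by_cases hst : s' = t'
    · subst hst
      have hζξ : ζ ≠ ξ := by
        rintro rfl
        exact hne rfl
      refine (min_le_right _ _).trans ?_
      have key : ∀ (ζ ξ : Ordinal.{0}) (x x' : X), ζ < ξ → P1 d s' ζ c2.2.1 x ≠ 0 →
          P2 d s' ξ c2.2.1 x' ≠ 0 → aj c2.2.1 / 2 ≤ ‖x - x'‖ := by
        intro ζ ξ x x' hlt h1 h2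
        obtain ⟨g, hg, hg2⟩ := P2_ne hF h2
        have hg3 := P1_ne hF h1 g (AA_anti d (Order.add_one_le_of_lt hlt) hg)
        have h5 : |uu d s' g x' - uu d s' g x| ≤ 2 * ‖x - x'‖ := by
          rw [← map_sub, norm_sub_rev]
          have := (uu d s' g).le_opNorm (x' - x)
          rw [Real.norm_eq_abs] at this
          exact this.trans (mul_le_mul_of_nonneg_right (uu_norm d s' g) (norm_nonneg _))
        have h6 := abs_sub_abs_le_abs_sub (uu d s' g x') (uu d s' g x)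
        linarith
      rcases lt_or_gt_of_ne hζξ with hlt | hlt
      · exact key ζ ξ x x' hlt a2 b3
      · rw [norm_sub_rev]
        exact key ξ ζ x' x hlt b2 a3
    · exact (min_le_left _ _).trans (H s' t' hs' ht' hst x x' a1 b1)

omit hF in
lemma GG_close (d : Dat X R) (s : Nd) (x x' : X) (hx : ps d s x ≠ 0) (hx' : ps d s x' ≠ 0)
    (h : DB X) : |GG d s h x - GG d s h x'| ≤ 2 := by
  induction s with
  | nil => simp [GG]
  | cons a s ih =>
    obtain ⟨ζ, c⟩ := a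
    obtain ⟨a1, a2, a3, a4⟩ := ps_cons_ne hx
    obtain ⟨b1, b2, b3, b4⟩ := ps_cons_ne hx'
    have h1 := cf_nn d ζ c.1 h
    have h2 := cf_le d ζ c.1 h
    have h3 := abs_lt.1 (P3_ne a4)
    have h4 := abs_lt.1 (P3_ne b4)
    have h5 := abs_le.1 (ih a1 b1)
    have e : ∀ z, GG d ((ζ, c) :: s) h z = (1 - cf d ζ c.1 h) * GG d s h z +
        cf d ζ c.1 h * toF (d.p (AA d ζ)) z := fun z => rfl
    rw [e, e]
    have e2 : (1 - cf d ζ c.1 h) * GG d s h x + cf d ζ c.1 h * toF (d.p (AA d ζ)) x -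
        ((1 - cf d ζ c.1 h) * GG d s h x' + cf d ζ c.1 h * toF (d.p (AA d ζ)) x') =
        (1 - cf d ζ c.1 h) * (GG d s h x - GG d s h x') +
        cf d ζ c.1 h * (toF (d.p (AA d ζ)) x - toF (d.p (AA d ζ)) x') := by ring
    rw [e2]
    have h6 : 0 ≤ 1 - cf d ζ c.1 h := by linarith
    rw [abs_le]
    constructor
    · nlinarith [mul_le_mul_of_nonneg_left h5.1 h6]
    · nlinarith [mul_le_mul_of_nonneg_left h5.2 h6]

lemma cover_ext (d : Dat X R) (x : X) (hx : ‖x‖ ≤ R) (ζ : Ordinal.{0}) : ∀ s : Nd,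
    ps d s x ≠ 0 → (∀ h ∈ AA d ζ, |uu d s h x| < 3 / 2) →
    ∃ t, ps d t x ≠ 0 ∧ ∀ h, |uu d t h x| < 3 / 2 := by
  induction ζ using WellFoundedLT.induction with
  | ind ζ ih =>
    intro s hs hsm
    by_cases hall : ∀ h, |uu d s h x| < 3 / 2
    · exact ⟨s, hs, hall⟩
    push Not at hall
    obtain ⟨h00, hh00⟩ := hall
    have hu : Continuous fun h => |uu d s h x| := (uu_cont d s x).abs
    obtain ⟨ξ, ⟨h1, hh1, hh1'⟩, hξ⟩ := top_exists (D := fun _ => DDd d) (fun _ => DDd_der d) 0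
      isClosed_univ hu (e := 3 / 2) ⟨h00, mem_univ _, hh00⟩
    have hh1A : h1 ∈ AA d ξ := hh1
    have hξA : ∀ h ∈ AA d (ξ + 1), |uu d s h x| < 3 / 2 := hξ
    have hlt : ξ < ζ := by
      by_contra hcon
      push Not at hcon
      have := hsm h1 (AA_anti d hcon hh1A)
      linarith
    -- threshold
    obtain ⟨δ, hδ, hmar⟩ := margin (AA_closed d (ξ + 1)) hu hξA
    obtain ⟨j, hj⟩ := exists_nat_one_div_lt hδ
    have hj2 : 3 * aj j ≤ δ := by
      refine le_trans ?_ hj.le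
      unfold aj
      have : (0 : ℝ) < (j : ℝ) + 1 := by positivity
      rw [mul_one_div, div_le_div_iff₀ (by positivity) this]
      nlinarith
    -- multiplicity
    have hne : (AA d ξ).Nonempty := ⟨h1, hh1A⟩
    have hm : ∃ m : ℕ, ∀ h ∈ AA d ξ, 3 / 2 ≤ |uu d s h x| → 1 ≤ (m : ℝ) * d.φ (AA d ξ) h := by
      have hC : IsCompact (AA d ξ ∩ {h | 3 / 2 ≤ |uu d s h x|}) :=
        ((AA_closed d ξ).inter (isClosed_le continuous_const hu)).isCompact
      obtain ⟨h2, hh2, hmin⟩ := hC.exists_isMinOn ⟨h1, hh1A, hh1'⟩ (d.cont (AA d ξ)).continuousOn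
      have hpos : 0 < d.φ (AA d ξ) h2 := by
        refine lt_of_le_of_ne (d.nn _ _) (fun h0 => ?_)
        have h3 : h2 ∈ AA d (ξ + 1) := by
          rw [AA_succ]
          exact ⟨hh2.1, h0.symm⟩
        have h4 := hξA h2 h3
        have h5 := hh2.2
        simp only [mem_setOf_eq] at h5
        linarith
      obtain ⟨m, hm⟩ := exists_nat_ge (1 / d.φ (AA d ξ) h2)
      refine ⟨m, fun h hh hh' => ?_⟩
      have h3 : d.φ (AA d ξ) h2 ≤ d.φ (AA d ξ) h := hmin ⟨hh, hh'⟩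
      have h4 : 1 ≤ (m : ℝ) * d.φ (AA d ξ) h2 := by
        rw [div_le_iff₀ hpos] at hm
        exact hm
      exact h4.trans (mul_le_mul_of_nonneg_left h3 (Nat.cast_nonneg _))
    obtain ⟨m, hm⟩ := hm
    set c : Cp := (m, j, round (toF (d.p (AA d ξ)) x)) with hc
    apply ih ξ hlt ((ξ, c) :: s)
    · show ps d s x * (P1 d s ξ c.2.1 x * P2 d s ξ c.2.1 x * P3 d ξ c.2.2 x) ≠ 0
      have e1 : P1 d s ξ c.2.1 x = 1 := by
        apply (P1_spec hF d s ξ c.2.1).2.2.1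
        intro h hh
        have := hmar h hh
        show |uu d s h x| ≤ 3 / 2 - 3 * aj j
        linarith
      have e2 : P2 d s ξ c.2.1 x = 1 := by
        unfold P2
        rw [(P2_spec hF d s ξ c.2.1).2.2.2 x ⟨h1, hh1A, hh1'⟩, sub_zero]
      have e3 : P3 d ξ c.2.2 x = 1 := by
        apply bm.one_of_mem_closedBall
        rw [mem_closedBall_zero_iff, Real.norm_eq_abs]
        exact abs_sub_round _
      rw [e1, e2, e3, mul_one, mul_one, mul_one]
      exact hs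
    · intro h hh
      have h1' := cf_nn d ξ m h
      have h2' := cf_le d ξ m h
      have e : uu d ((ξ, c) :: s) h x = (1 - cf d ξ m h) * uu d s h x +
          cf d ξ m h * (toF h x - toF (d.p (AA d ξ)) x) := by
        have e0 : GG d ((ξ, c) :: s) h x = (1 - cf d ξ m h) * GG d s h x +
          cf d ξ m h * toF (d.p (AA d ξ)) x := rfl
        rw [uu_apply, uu_apply, e0]
        ring
      have hsmall : 0 < cf d ξ m h → |toF h x - toF (d.p (AA d ξ)) x| ≤ 1 / 4 := by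
        intro hcf
        have hφ : 0 < d.φ (AA d ξ) h := by
          refine lt_of_le_of_ne (d.nn _ _) (fun h0 => ?_)
          unfold cf at hcf
          rw [← h0, mul_zero] at hcf
          have := min_le_right (1 : ℝ) 0
          linarith
        have h3 := d.small _ (AA_closed d ξ) hne h hh hφ
        have h4 := (toF h - toF (d.p (AA d ξ))).le_opNorm x
        rw [Real.norm_eq_abs] at h4
        refine h4.trans (le_trans ?_ h3)
        exact mul_le_mul_of_nonneg_left hx (norm_nonneg _)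
      rw [e]
      by_cases hbig : 3 / 2 ≤ |uu d s h x|
      · have hcf : cf d ξ m h = 1 := min_eq_left (hm h hh hbig)
        rw [hcf, sub_self, zero_mul, zero_add, one_mul]
        have := hsmall (by rw [hcf]; exact one_pos)
        linarith
      · push Not at hbig
        have h5 : cf d ξ m h * |toF h x - toF (d.p (AA d ξ)) x| ≤ cf d ξ m h * (1 / 4) := by
          rcases h1'.eq_or_lt with h0 | h0
          · rw [← h0, zero_mul, zero_mul]
          · exact mul_le_mul_of_nonneg_left (hsmall h0) h1'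
        refine (abs_add_le _ _).trans_lt ?_
        rw [abs_mul, abs_mul, abs_of_nonneg h1', abs_of_nonneg (by linarith : 0 ≤ 1 - cf d ξ m h)]
        set M : ℝ := max |uu d s h x| (1 / 4) with hM
        have hM1 : |uu d s h x| ≤ M := le_max_left _ _
        have hM2 : 1 / 4 ≤ M := le_max_right _ _
        have hM3 : M < 3 / 2 := max_lt hbig (by norm_num)
        have h6 : (1 - cf d ξ m h) * |uu d s h x| ≤ (1 - cf d ξ m h) * M :=
          mul_le_mul_of_nonneg_left hM1 (by linarith)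
        have h7 : cf d ξ m h * (1 / 4) ≤ cf d ξ m h * M := mul_le_mul_of_nonneg_left hM2 h1'
        linarith

lemma cover (d : Dat X R) (x : X) (hx : ‖x‖ ≤ R) :
    ∃ t, ps d t x ≠ 0 ∧ ∀ h, |uu d t h x| < 3 / 2 := by
  obtain ⟨ζ, -, hζ⟩ := it_empty (DDd_der d) (isClosed_univ (X := DB X))
  apply cover_ext hF d x hx ζ []
  · exact one_ne_zero
  · intro h hh
    have : AA d ζ = ∅ := hζ
    rw [this] at hh
    exact absurd hh (notMem_empty _)

end

/-- the final functions -/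
noncomputable def Ps (d : Dat X R) (s : Nd) (x : X) : ℝ := ps d s x * PP univ (uu d s) (3 / 2) 2 x

theorem core (hF : Frg X) (hR : 0 < R) : ∃ Ψ : Nd → X → ℝ,
    (∀ s, ContDiff ℝ 1 (Ψ s)) ∧ (∀ s x, 0 ≤ Ψ s x) ∧
    (∀ τ : List Cp, ∃ δ : ℝ, 0 < δ ∧ ∀ s t : Nd, s.map Prod.snd = τ →
      t.map Prod.snd = τ → s ≠ t → ∀ x x', Ψ s x ≠ 0 → Ψ t x' ≠ 0 → δ ≤ ‖x - x'‖) ∧
    (∀ x, ‖x‖ ≤ R → ∃ s, Ψ s x ≠ 0) ∧
    (∀ s x x', Ψ s x ≠ 0 → Ψ s x' ≠ 0 → ‖x - x'‖ ≤ 6) := by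
  obtain ⟨d⟩ := exists_dat hF hR
  have hP : ∀ s, PS univ (uu d s) (3 / 2) 2 (PP univ (uu d s) (3 / 2) 2) := fun s =>
    PP_spec hF d s isClosed_univ (by norm_num) (by norm_num)
  refine ⟨Ps d, fun s => (ps_contDiff hF d s).mul (hP s).1,
    fun s x => mul_nonneg (ps_nonneg hF d s x) ((hP s).2.1 x).1, ?_, ?_, ?_⟩
  · intro τ
    obtain ⟨δ, hδ, H⟩ := ps_disc hF d τ
    refine ⟨δ, hδ, fun s t hs ht hne x x' hx hx' => ?_⟩
    exact H s t hs ht hne x x' (mul_ne_zero_iff.1 hx).1 (mul_ne_zero_iff.1 hx').1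
  · intro x hx
    obtain ⟨t, ht1, ht2⟩ := cover hF d x hx
    refine ⟨t, mul_ne_zero ht1 ?_⟩
    rw [(hP t).2.2.1 x (fun h _ => (ht2 h).le)]
    exact one_ne_zero
  · intro s x x' hx hx'
    obtain ⟨h, hh⟩ := exists_norming (x - x')
    have small : ∀ z, Ps d s z ≠ 0 → |uu d s h z| < 2 := by
      intro z hz
      by_contra hcon
      push Not at hcon
      exact (mul_ne_zero_iff.1 hz).2 ((hP s).2.2.2 z ⟨h, mem_univ _, hcon⟩)
    have h1 := abs_lt.1 (small x hx)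
    have h2 := abs_lt.1 (small x' hx')
    have h3 := abs_le.1 (GG_close d s x x' (mul_ne_zero_iff.1 hx).1 (mul_ne_zero_iff.1 hx').1 h)
    rw [← hh, map_sub]
    rw [uu_apply] at h1 h2
    linarith [h1.1, h1.2, h2.1, h2.2, h3.1, h3.2]

end Pool.Agent.Helper827.B
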