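import Mathlib
import Pool.Agent.Helper827.B16

/-!
Assembling a uniform `C^1` approximation from a sigma-discrete family of `C^1` functions.
-/

set_option autoImplicit false
set_option linter.unusedSectionVars false

namespace Pool.Agent.Helper827.B

open Filter Topology Set MeasureTheory

variable {X : Type} [NormedAddCommGroup X] [NormedSpace ℝ X]
variable {Y : Type} [NormedAddCommGroup Y] [NormedSpace ℝ Y]

lemma contDiff_lf {ι : Type*} {F : ι → X → Y} {n : WithTop ℕ∞} (hF : ∀ i, ContDiff ℝ n (F i))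
    (hlf : LocallyFinite fun i => Function.support (F i)) :
    ContDiff ℝ n (fun x => ∑ᶠ i, F i x) := by
  rw [contDiff_iff_contDiffAt]
  intro x
  obtain ⟨s, hs⟩ := finsum_eventually_eq_sum hlf x
  have h1 : ContDiffAt ℝ n (fun y => ∑ i ∈ s, F i y) x :=
    (ContDiff.sum fun i _ => hF i).contDiffAt
  exact h1.congr_of_eventuallyEq hs

theorem level1 {Γ : Type*} (Ψ : Γ → X → ℝ)
    (hC : ∀ γ, ContDiff ℝ 1 (Ψ γ)) (h0 : ∀ γ x, 0 ≤ Ψ γ x) {δ : ℝ} (hδ : 0 < δ)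
    (hdisc : ∀ γ γ', γ ≠ γ' → ∀ x x', Ψ γ x ≠ 0 → Ψ γ' x' ≠ 0 → δ ≤ ‖x - x'‖)
    (f : X → Y) {ε : ℝ} (y : Γ → Y) (hy : ∀ γ x, Ψ γ x ≠ 0 → ‖f x - y γ‖ ≤ ε) :
    ∃ (S : X → ℝ) (T : X → Y), ContDiff ℝ 1 S ∧ ContDiff ℝ 1 T ∧ (∀ x, 0 ≤ S x) ∧
      (∀ x, ‖S x • f x - T x‖ ≤ ε * S x) ∧ ∀ γ x, Ψ γ x ≠ 0 → 0 < S x := by
  have hlf : LocallyFinite fun γ => Function.support (Ψ γ) := by
    intro x
    refine ⟨Metric.ball x (δ / 2), Metric.ball_mem_nhds x (half_pos hδ), ?_⟩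
    apply Set.Subsingleton.finite
    rintro γ ⟨a, ha, ha2⟩ γ' ⟨b, hb, hb2⟩
    by_contra hne
    have h1 := hdisc γ γ' hne a b ha hb
    rw [Metric.mem_ball, dist_eq_norm] at ha2 hb2
    have h2 : a - b = (a - x) - (b - x) := by abel
    rw [h2] at h1
    have h3 := norm_sub_le (a - x) (b - x)
    linarith
  have hlf2 : LocallyFinite fun γ => Function.support (fun x => Ψ γ x • y γ) := by
    apply hlf.subset
    intro γ x hx
    rw [Function.mem_support] at hx ⊢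
    intro h
    apply hx
    show Ψ γ x • y γ = 0
    rw [h, zero_smul]
  have huniq : ∀ γ γ' x, Ψ γ x ≠ 0 → γ' ≠ γ → Ψ γ' x = 0 := by
    intro γ γ' x h1 h2
    by_contra h3
    have := hdisc γ' γ h2 x x h3 h1
    rw [sub_self, norm_zero] at this
    linarith
  have hS : ∀ γ x, Ψ γ x ≠ 0 → ∑ᶠ γ, Ψ γ x = Ψ γ x := by
    intro γ x h
    exact finsum_eq_single (fun γ => Ψ γ x) γ (fun γ' h' => huniq γ γ' x h h')
  have hT : ∀ γ x, Ψ γ x ≠ 0 → ∑ᶠ γ, Ψ γ x • y γ = Ψ γ x • y γ := by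
    intro γ x h
    exact finsum_eq_single (fun γ => Ψ γ x • y γ) γ (fun γ' h' => by
      show Ψ γ' x • y γ' = 0
      rw [huniq γ γ' x h h', zero_smul])
  refine ⟨fun x => ∑ᶠ γ, Ψ γ x, fun x => ∑ᶠ γ, Ψ γ x • y γ, contDiff_lf hC hlf,
    contDiff_lf (F := fun γ x => Ψ γ x • y γ) (fun γ => (hC γ).smul contDiff_const) hlf2,
    ?_, ?_, ?_⟩
  · intro x
    exact finsum_nonneg fun γ => h0 γ x
  · intro x
    show ‖(∑ᶠ γ, Ψ γ x) • f x - ∑ᶠ γ, Ψ γ x • y γ‖ ≤ ε * ∑ᶠ γ, Ψ γ x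
    by_cases hx : ∃ γ, Ψ γ x ≠ 0
    · obtain ⟨γ, hγ⟩ := hx
      rw [hS γ x hγ, hT γ x hγ, ← smul_sub, norm_smul, Real.norm_eq_abs, abs_of_nonneg (h0 γ x),
        mul_comm]
      exact mul_le_mul_of_nonneg_right (hy γ x hγ) (h0 γ x)
    · push Not at hx
      have e1 : ∑ᶠ γ, Ψ γ x = 0 := by
        rw [finsum_congr hx]; exact finsum_zero
      have e2 : ∑ᶠ γ, Ψ γ x • y γ = 0 := by
        rw [finsum_congr (fun γ => by rw [hx γ, zero_smul] : ∀ γ, Ψ γ x • y γ = 0)]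
        exact finsum_zero
      rw [e1, e2, zero_smul, sub_zero, norm_zero, mul_zero]
  · intro γ x h
    show 0 < ∑ᶠ γ, Ψ γ x
    rw [hS γ x h]
    exact lt_of_le_of_ne (h0 γ x) h.symm

theorem level2 (S : ℕ → X → ℝ) (T : ℕ → X → Y) (hS : ∀ n, ContDiff ℝ 1 (S n))
    (hT : ∀ n, ContDiff ℝ 1 (T n)) (h0 : ∀ n x, 0 ≤ S n x) {f : X → Y} {ε : ℝ}
    (hf : ∀ n x, ‖S n x • f x - T n x‖ ≤ ε * S n x) (hcov : ∀ x, ∃ n, 0 < S n x) :
    ∃ g : X → Y, ContDiff ℝ 1 g ∧ ∀ x, ‖f x - g x‖ ≤ ε := by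
  classical
  let θ : ℝ → ℝ := fun t => Real.smoothTransition (1 - t)
  have hθ1 : ∀ t, 1 ≤ t → θ t = 0 := fun t ht =>
    Real.smoothTransition.zero_of_nonpos (by linarith)
  have hθ0 : θ 0 = 1 := by
    show Real.smoothTransition (1 - 0) = 1
    rw [sub_zero]
    exact Real.smoothTransition.one
  have hθn : ∀ t, 0 ≤ θ t := fun t => Real.smoothTransition.nonneg _
  have hθc : ContDiff ℝ 1 θ :=
    Real.smoothTransition.contDiff.comp (contDiff_const.sub contDiff_id)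
  let χ : ℕ → X → ℝ := fun n x => ∏ m ∈ Finset.range n, θ ((n : ℝ) * S m x)
  have hχc : ∀ n, ContDiff ℝ 1 (χ n) := by
    intro n
    apply contDiff_prod
    intro m _
    exact hθc.comp (contDiff_const.mul (hS m))
  have hχn : ∀ n x, 0 ≤ χ n x := fun n x => Finset.prod_nonneg fun m _ => hθn _
  -- local finiteness
  have hloc : ∀ x, ∃ U ∈ 𝓝 x, ∃ n0 : ℕ, ∀ z ∈ U, ∀ n, n0 ≤ n → χ n z = 0 := by
    intro x
    obtain ⟨k, hk⟩ := hcov x
    obtain ⟨n1, hn1⟩ := exists_nat_gt (1 / (S k x / 2))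
    refine ⟨{z | S k x / 2 < S k z}, ?_, max n1 (k + 1), ?_⟩
    · exact (isOpen_lt continuous_const (hS k).continuous).mem_nhds (by
        show S k x / 2 < S k x
        linarith)
    · intro z hz n hn
      have hk2 : k ∈ Finset.range n := by
        rw [Finset.mem_range]
        exact lt_of_lt_of_le (Nat.lt_succ_self k) ((le_max_right _ _).trans hn)
      apply Finset.prod_eq_zero hk2
      apply hθ1
      have h1 : (n1 : ℝ) ≤ n := by exact_mod_cast (le_max_left _ _).trans hn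
      have h2 : S k x / 2 < S k z := hz
      have h3 : 0 < S k x / 2 := half_pos hk
      rw [div_lt_iff₀ h3] at hn1
      have h4 : (n1 : ℝ) * (S k x / 2) ≤ n * (S k x / 2) := mul_le_mul_of_nonneg_right h1 h3.le
      have h5 : (n : ℝ) * (S k x / 2) ≤ n * S k z :=
        mul_le_mul_of_nonneg_left h2.le (Nat.cast_nonneg _)
      linarith
  let W : ℕ → X → ℝ := fun n x => χ n x * S n x
  let V : ℕ → X → Y := fun n x => χ n x • T n x
  have hWlf : LocallyFinite fun n => Function.support (W n) := by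
    intro x
    obtain ⟨U, hU, n0, H⟩ := hloc x
    refine ⟨U, hU, (Set.finite_lt_nat n0).subset ?_⟩
    rintro n ⟨z, hz, hzU⟩
    by_contra hcon
    have hcon' : n0 ≤ n := not_lt.1 hcon
    apply hz
    show χ n z * S n z = 0
    rw [H z hzU n hcon', zero_mul]
  have hVlf : LocallyFinite fun n => Function.support (V n) := by
    intro x
    obtain ⟨U, hU, n0, H⟩ := hloc x
    refine ⟨U, hU, (Set.finite_lt_nat n0).subset ?_⟩
    rintro n ⟨z, hz, hzU⟩
    by_contra hcon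
    have hcon' : n0 ≤ n := not_lt.1 hcon
    apply hz
    show χ n z • T n z = 0
    rw [H z hzU n hcon', zero_smul]
  have hWc : ContDiff ℝ 1 (fun x => ∑ᶠ n, W n x) := contDiff_lf (fun n => (hχc n).mul (hS n)) hWlf
  have hVc : ContDiff ℝ 1 (fun x => ∑ᶠ n, V n x) := contDiff_lf (fun n => (hχc n).smul (hT n)) hVlf
  have hfin : ∀ x, ∃ n0 : ℕ, (∑ᶠ n, W n x = ∑ n ∈ Finset.range n0, W n x) ∧
      (∑ᶠ n, V n x = ∑ n ∈ Finset.range n0, V n x) ∧ ∀ n, n0 ≤ n → χ n x = 0 := by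
    intro x
    obtain ⟨U, hU, n0, H⟩ := hloc x
    have hx := mem_of_mem_nhds hU
    refine ⟨n0, ?_, ?_, fun n hn => H x hx n hn⟩
    · apply finsum_eq_sum_of_support_subset
      intro n hn
      simp only [Finset.coe_range, mem_Iio]
      by_contra hcon
      apply hn
      show χ n x * S n x = 0
      rw [H x hx n (not_lt.1 hcon), zero_mul]
    · apply finsum_eq_sum_of_support_subset
      intro n hn
      simp only [Finset.coe_range, mem_Iio]
      by_contra hcon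
      apply hn
      show χ n x • T n x = 0
      rw [H x hx n (not_lt.1 hcon), zero_smul]
  have hWpos : ∀ x, 0 < ∑ᶠ n, W n x := by
    intro x
    obtain ⟨n0, e1, -, e3⟩ := hfin x
    have hex := hcov x
    let k := Nat.find hex
    have hk : 0 < S k x := Nat.find_spec hex
    have hkm : ∀ m, m < k → S m x = 0 := by
      intro m hm
      have := Nat.find_min hex hm
      push Not at this
      exact le_antisymm this (h0 m x)
    have hχk : χ k x = 1 := by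
      apply Finset.prod_eq_one
      intro m hm
      rw [Finset.mem_range] at hm
      rw [hkm m hm, mul_zero, hθ0]
    have hkn : k ∈ Finset.range n0 := by
      rw [Finset.mem_range]
      by_contra hcon
      have := e3 k (not_lt.1 hcon)
      rw [hχk] at this
      exact one_ne_zero this
    rw [e1]
    have h1 : W k x ≤ ∑ n ∈ Finset.range n0, W n x :=
      Finset.single_le_sum (f := fun n => W n x) (fun n _ => mul_nonneg (hχn n x) (h0 n x)) hkn
    have h2 : W k x = S k x := by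
      show χ k x * S k x = S k x
      rw [hχk, one_mul]
    linarith
  refine ⟨fun x => (∑ᶠ n, W n x)⁻¹ • ∑ᶠ n, V n x, (hWc.inv fun x => (hWpos x).ne').smul hVc, ?_⟩
  intro x
  obtain ⟨n0, e1, e2, -⟩ := hfin x
  have hW := hWpos x
  have h1 : f x - (∑ᶠ n, W n x)⁻¹ • ∑ᶠ n, V n x =
      (∑ᶠ n, W n x)⁻¹ • ((∑ᶠ n, W n x) • f x - ∑ᶠ n, V n x) := by
    rw [smul_sub, smul_smul, inv_mul_cancel₀ hW.ne', one_smul]
  show ‖f x - (∑ᶠ n, W n x)⁻¹ • ∑ᶠ n, V n x‖ ≤ ε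
  rw [h1, norm_smul, norm_inv, Real.norm_eq_abs, abs_of_pos hW, inv_mul_le_iff₀ hW]
  rw [e1, e2, Finset.sum_smul, ← Finset.sum_sub_distrib, Finset.sum_mul]
  refine norm_sum_le_of_le _ fun n _ => ?_
  have h2 : W n x • f x - V n x = χ n x • (S n x • f x - T n x) := by
    show (χ n x * S n x) • f x - χ n x • T n x = χ n x • (S n x • f x - T n x)
    rw [smul_sub, smul_smul]
  rw [h2, norm_smul, Real.norm_eq_abs, abs_of_nonneg (hχn n x)]
  calc χ n x * ‖S n x • f x - T n x‖ ≤ χ n x * (ε * S n x) :=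
        mul_le_mul_of_nonneg_left (hf n x) (hχn n x)
    _ = W n x * ε := by
        show χ n x * (ε * S n x) = χ n x * S n x * ε
        ring

theorem approx_main (hF : Frg X) (f : X → Y) (hf : Continuous f) {ε : ℝ} (hε : 0 < ε) :
    ∃ g : X → Y, ContDiff ℝ 1 g ∧ ∀ x, ‖f x - g x‖ < ε := by
  classical
  have hcore := fun r : ℕ => core hF (show (0 : ℝ) < (r : ℝ) + 1 by positivity)
  choose Ψ c1 c2 c3 c4 c5 using hcore
  have key : ∀ i : ℕ × ℕ × List Cp, ∃ (S : X → ℝ) (T : X → Y), ContDiff ℝ 1 S ∧ ContDiff ℝ 1 T ∧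
      (∀ x, 0 ≤ S x) ∧ (∀ x, ‖S x • f x - T x‖ ≤ ε / 2 * S x) ∧
      ∀ s : Nd, s.map Prod.snd = i.2.2 →
        (∃ y, ∀ x, Ψ i.2.1 s (((i.1 : ℝ) + 1) • x) ≠ 0 → ‖f x - y‖ ≤ ε / 2) →
        ∀ x, Ψ i.2.1 s (((i.1 : ℝ) + 1) • x) ≠ 0 → 0 < S x := by
    rintro ⟨N, r, τ⟩
    have hN : (0 : ℝ) < (N : ℝ) + 1 := by positivity
    obtain ⟨δ, hδ, hδ2⟩ := c3 r τ
    let Γ := {s : Nd // s.map Prod.snd = τ ∧
      ∃ y, ∀ x, Ψ r s (((N : ℝ) + 1) • x) ≠ 0 → ‖f x - y‖ ≤ ε / 2}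
    obtain ⟨S, T, h1, h2, h3, h4, h5⟩ := level1 (X := X) (Y := Y) (Γ := Γ)
      (fun γ x => Ψ r γ.1 (((N : ℝ) + 1) • x))
      (fun γ => (c1 r γ.1).comp (contDiff_const_smul ((N : ℝ) + 1)))
      (fun γ x => c2 r γ.1 _) (δ := δ / ((N : ℝ) + 1)) (by positivity)
      (by
        intro γ γ' hne x x' hx hx'
        have hne' : γ.1 ≠ γ'.1 := fun h => hne (Subtype.ext h)
        have := hδ2 γ.1 γ'.1 γ.2.1 γ'.2.1 hne' _ _ hx hx'
        rw [← smul_sub, norm_smul, Real.norm_eq_abs, abs_of_pos hN] at this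
        rw [div_le_iff₀ hN, mul_comm]
        exact this)
      f (ε := ε / 2) (fun γ => Classical.choose γ.2.2)
      (fun γ x hx => Classical.choose_spec γ.2.2 x hx)
    refine ⟨S, T, h1, h2, h3, h4, ?_⟩
    intro s hs hy x hx
    exact h5 ⟨s, hs, hy⟩ x hx
  choose S T k1 k2 k3 k4 k5 using key
  obtain ⟨e, he⟩ := exists_surjective_nat (ℕ × ℕ × List Cp)
  obtain ⟨g, hg1, hg2⟩ := level2 (fun n => S (e n)) (fun n => T (e n)) (fun n => k1 _)
    (fun n => k2 _) (fun n => k3 _) (f := f) (ε := ε / 2) (fun n => k4 _) (by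
      intro x0
      obtain ⟨ρ, hρ, hρ2⟩ := Metric.continuousAt_iff.1 hf.continuousAt (ε / 2) (half_pos hε)
      obtain ⟨N, hN⟩ := exists_nat_gt (6 / ρ)
      have hN1 : (0 : ℝ) < (N : ℝ) + 1 := by positivity
      obtain ⟨r, hr⟩ := exists_nat_ge ‖((N : ℝ) + 1) • x0‖
      obtain ⟨s, hs⟩ := c4 r (((N : ℝ) + 1) • x0) (by linarith)
      obtain ⟨n, hn⟩ := he (N, r, s.map Prod.snd)
      refine ⟨n, ?_⟩
      show 0 < S (e n) x0
      rw [hn]
      refine k5 (N, r, s.map Prod.snd) s rfl ⟨f x0, fun x hx => ?_⟩ x0 hs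
      have h1 := c5 r s _ _ hx hs
      rw [← smul_sub, norm_smul, Real.norm_eq_abs, abs_of_pos hN1] at h1
      have h2 : ‖x - x0‖ < ρ := by
        rw [div_lt_iff₀ hρ] at hN
        by_contra hcon
        push Not at hcon
        have h3 : ((N : ℝ) + 1) * ρ ≤ ((N : ℝ) + 1) * ‖x - x0‖ :=
          mul_le_mul_of_nonneg_left hcon hN1.le
        linarith
      have h3 := hρ2 (x := x) (by rw [dist_eq_norm]; exact h2)
      rw [dist_eq_norm] at h3
      exact h3.le)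
  refine ⟨g, hg1, fun x => ?_⟩
  have := hg2 x
  linarith

end Pool.Agent.Helper827.B
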