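import Mathlib

/-! Generic finitary closure operators with countably-valued operations. -/

namespace Pool.Agent.H827
open Set Cardinal

section Closure
variable {U : Type}

/-- The closure of `S` under the operations `Op`. -/
inductive ClP (Op : List U → Set U) (S : Set U) : U → Prop
  | base {u : U} : u ∈ S → ClP Op S u
  | op (l : List U) {v : U} : (∀ u ∈ l, ClP Op S u) → v ∈ Op l → ClP Op S v

def cl (Op : List U → Set U) (S : Set U) : Set U := {u | ClP Op S u}

variable {Op : List U → Set U}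

theorem subset_cl (S : Set U) : S ⊆ cl Op S := fun _ h => ClP.base h

theorem cl_op {S : Set U} {l : List U} (hl : ∀ u ∈ l, u ∈ cl Op S) : Op l ⊆ cl Op S :=
  fun _ hv => ClP.op l hl hv

theorem cl_min {S T : Set U} (hST : S ⊆ T) (hT : ∀ l : List U, (∀ u ∈ l, u ∈ T) → Op l ⊆ T) :
    cl Op S ⊆ T := by
  intro u hu
  induction hu with
  | base h => exact hST h
  | op l _ hv ih => exact hT l ih hv

theorem cl_mono {S T : Set U} (hST : S ⊆ T) : cl Op S ⊆ cl Op T :=
  cl_min (hST.trans (subset_cl T)) (fun _ hl => cl_op hl)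

theorem cl_finitary_list {S : Set U} {l : List U}
    (h : ∀ u ∈ l, ∃ F : Set U, F.Finite ∧ F ⊆ S ∧ u ∈ cl Op F) :
    ∃ F : Set U, F.Finite ∧ F ⊆ S ∧ ∀ u ∈ l, u ∈ cl Op F := by
  induction l with
  | nil => exact ⟨∅, finite_empty, empty_subset _, by simp⟩
  | cons a l ih =>
    obtain ⟨F, hF, hFS, hl⟩ := ih (fun u hu => h u (List.mem_cons_of_mem _ hu))
    obtain ⟨G, hG, hGS, ha⟩ := h a List.mem_cons_self
    refine ⟨F ∪ G, hF.union hG, union_subset hFS hGS, ?_⟩
    intro u hu
    rcases List.mem_cons.1 hu with rfl | hu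
    · exact cl_mono subset_union_right ha
    · exact cl_mono subset_union_left (hl u hu)

theorem cl_finitary {S : Set U} {u : U} (hu : u ∈ cl Op S) :
    ∃ F : Set U, F.Finite ∧ F ⊆ S ∧ u ∈ cl Op F := by
  induction hu with
  | @base u h => exact ⟨{u}, finite_singleton u, singleton_subset_iff.2 h, subset_cl _ rfl⟩
  | op l _ hv ih =>
    obtain ⟨F, hF, hFS, hl⟩ := cl_finitary_list ih
    exact ⟨F, hF, hFS, cl_op hl hv⟩

theorem cl_finitary' {S : Set U} {l : List U} (h : ∀ u ∈ l, u ∈ cl Op S) :
    ∃ F : Set U, F.Finite ∧ F ⊆ S ∧ ∀ u ∈ l, u ∈ cl Op F :=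
  cl_finitary_list (fun u hu => cl_finitary (h u hu))

/-- one step -/
def stp (Op : List U → Set U) (T : Set U) : Set U := T ∪ ⋃ l : List T, Op (l.map Subtype.val)

def its (Op : List U → Set U) (S : Set U) : ℕ → Set U
  | 0 => S
  | n + 1 => stp Op (its Op S n)

theorem its_mono (S : Set U) : Monotone (its Op S) :=
  monotone_nat_of_le_succ (fun _ => subset_union_left)

theorem cl_subset_its (S : Set U) : cl Op S ⊆ ⋃ n, its Op S n := by
  apply cl_min
  · exact fun u hu => mem_iUnion.2 ⟨0, hu⟩
  · intro l hl v hv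
    have key : ∀ l : List U, (∀ u ∈ l, u ∈ ⋃ n, its Op S n) → ∃ n, ∀ u ∈ l, u ∈ its Op S n := by
      intro l
      induction l with
      | nil => intro _; exact ⟨0, by simp⟩
      | cons a l ih =>
        intro h
        obtain ⟨n, hn⟩ := ih (fun u hu => h u (List.mem_cons_of_mem _ hu))
        obtain ⟨m, hm⟩ := mem_iUnion.1 (h a List.mem_cons_self)
        refine ⟨max n m, fun u hu => ?_⟩
        rcases List.mem_cons.1 hu with rfl | hu
        · exact its_mono S (le_max_right n m) hm
        · exact its_mono S (le_max_left n m) (hn u hu)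
    obtain ⟨n, hn⟩ := key l hl
    refine mem_iUnion.2 ⟨n + 1, ?_⟩
    refine Or.inr (mem_iUnion.2 ⟨l.attach.map (fun u => ⟨u.1, hn u.1 u.2⟩), ?_⟩)
    simpa [List.map_map, Function.comp_def] using hv

theorem mk_its_le (hOp : ∀ l, (Op l).Countable) (S : Set U) (n : ℕ) :
    #(its Op S n) ≤ max ℵ₀ #S := by
  have hinf : ℵ₀ ≤ max ℵ₀ #S := le_max_left _ _
  induction n with
  | zero => exact le_max_right _ _
  | succ n ih =>
    show #(stp Op (its Op S n) : Set U) ≤ _
    refine (mk_union_le _ _).trans ?_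
    refine Cardinal.add_le_of_le hinf ih ?_
    refine (mk_iUnion_le _).trans ?_
    refine Cardinal.mul_le_of_le hinf ?_ ?_
    · exact (mk_list_le_max _).trans (max_le hinf ih)
    · exact ciSup_le' (fun l => (hOp _).le_aleph0.trans hinf)

theorem mk_cl_le (hOp : ∀ l, (Op l).Countable) (S : Set U) : #(cl Op S) ≤ max ℵ₀ #S := by
  have hinf : ℵ₀ ≤ max ℵ₀ #S := le_max_left _ _
  refine (mk_le_mk_of_subset (cl_subset_its S)).trans ?_
  refine (mk_iUnion_le _).trans ?_
  refine Cardinal.mul_le_of_le hinf ?_ ?_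
  · simp
  · exact ciSup_le' (fun n => mk_its_le hOp S n)

theorem cl_countable (hOp : ∀ l, (Op l).Countable) {S : Set U} (hS : S.Countable) :
    (cl Op S).Countable := by
  rw [← Cardinal.le_aleph0_iff_set_countable]
  exact (mk_cl_le hOp S).trans (max_le le_rfl hS.le_aleph0)

theorem countable_lists {s : Set U} (hs : s.Countable) : {l : List U | ∀ u ∈ l, u ∈ s}.Countable := by
  have := hs.to_subtype
  have h : {l : List U | ∀ u ∈ l, u ∈ s} = range (fun l : List s => l.map Subtype.val) := by
    ext l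
    constructor
    · intro h
      exact ⟨l.attach.map (fun u => ⟨u.1, h u.1 u.2⟩), by simp [List.map_map, Function.comp_def]⟩
    · rintro ⟨l, rfl⟩ u hu
      simp only [List.mem_map] at hu
      obtain ⟨v, _, rfl⟩ := hu
      exact v.2
  rw [h]
  exact countable_range _

end Closure

end Pool.Agent.H827
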