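import Mathlib
import Pool.Agent.Helper827.W1

/-! The dual ball as a Corson compact: support sets, cluster lemma. -/

set_option linter.unusedSectionVars false
set_option linter.style.haveILetI false
set_option linter.deprecated false

namespace Pool.Agent.H827
open Set Topology Filter

variable {X : Type} [NormedAddCommGroup X] [NormedSpace ℝ X]

/-- the dual unit ball with the weak-star topology -/
abbrev KB (X : Type) [NormedAddCommGroup X] [NormedSpace ℝ X] : Type :=
  {φ : WeakDual ℝ X // ∀ x : X, |φ x| ≤ ‖x‖}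

theorem KB.cont (x : X) : Continuous fun h : KB X => h.1 x :=
  (WeakDual.eval_continuous x).comp continuous_subtype_val

theorem KB.ext' {h k : KB X} (H : ∀ x, h.1 x = k.1 x) : h = k :=
  Subtype.ext (DFunLike.ext _ _ H)

theorem KB.bd (h : KB X) (x : X) : |h.1 x| ≤ ‖x‖ := h.2 x

instance : CompactSpace (KB X) := by
  have h : IsCompact {φ : WeakDual ℝ X | ∀ x : X, |φ x| ≤ ‖x‖} := by
    have h2 := WeakDual.isCompact_closedBall (𝕜 := ℝ) (E := X) 0 1
    have heq : {φ : WeakDual ℝ X | ∀ x : X, |φ x| ≤ ‖x‖} =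
        WeakDual.toStrongDual ⁻¹' Metric.closedBall 0 1 := by
      ext φ
      simp only [mem_setOf_eq, mem_preimage, mem_closedBall_zero_iff]
      constructor
      · intro h
        refine ContinuousLinearMap.opNorm_le_bound _ zero_le_one (fun x => ?_)
        rw [one_mul]
        exact h x
      · intro h x
        have := ContinuousLinearMap.le_opNorm (WeakDual.toStrongDual φ) x
        refine this.trans ?_
        calc _ ≤ 1 * ‖x‖ := by gcongr
          _ = _ := one_mul _
    rw [heq]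
    exact h2
  exact isCompact_iff_compactSpace.1 h

/-- build an element of the ball from a linear functional -/
noncomputable def KB.ofLin (f : X →ₗ[ℝ] ℝ) (hf : ∀ x, |f x| ≤ ‖x‖) : KB X :=
  ⟨StrongDual.toWeakDual (f.mkContinuous 1 (fun x => by rw [one_mul]; exact hf x) : X →L[ℝ] ℝ), fun x => hf x⟩

@[simp] theorem KB.ofLin_apply (f : X →ₗ[ℝ] ℝ) (hf : ∀ x, |f x| ≤ ‖x‖) (x : X) :
    (KB.ofLin f hf).1 x = f x := rfl

/-- zero of the ball -/
noncomputable def KB.zero : KB X := KB.ofLin 0 (fun x => by simp)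

@[simp] theorem KB.zero_apply (x : X) : (KB.zero : KB X).1 x = 0 := rfl

/-- linear combinations -/
noncomputable def cmb (a b : ℝ) (h k : KB X) : KB X :=
  open Classical in
  if H : |a| + |b| ≤ 1 then
    KB.ofLin (a • (h.1 : X →L[ℝ] ℝ).toLinearMap + b • (k.1 : X →L[ℝ] ℝ).toLinearMap) (fun x => by
      have h1 := h.2 x
      have h2 := k.2 x
      have h3 : |a * h.1 x| ≤ |a| * ‖x‖ := by rw [abs_mul]; gcongr
      have h4 : |b * k.1 x| ≤ |b| * ‖x‖ := by rw [abs_mul]; gcongr
      calc |a * h.1 x + b * k.1 x| ≤ |a * h.1 x| + |b * k.1 x| := abs_add_le _ _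
        _ ≤ (|a| + |b|) * ‖x‖ := by rw [add_mul]; exact add_le_add h3 h4
        _ ≤ 1 * ‖x‖ := by gcongr
        _ = ‖x‖ := one_mul _)
  else h

theorem cmb_apply {a b : ℝ} (H : |a| + |b| ≤ 1) (h k : KB X) (x : X) :
    (cmb a b h k).1 x = a * h.1 x + b * k.1 x := by
  unfold cmb
  rw [dif_pos H]
  rfl

/-- continuity criterion into the ball -/
theorem KB.continuous_of {α : Type} [TopologicalSpace α] {f : α → KB X}
    (hf : ∀ x, Continuous fun a => (f a).1 x) : Continuous f := by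
  apply Continuous.subtype_mk
  exact WeakDual.continuous_of_continuous_eval hf

theorem cmb_cont_left (a b : ℝ) (k : KB X) : Continuous fun h => cmb a b h k := by
  by_cases H : |a| + |b| ≤ 1
  · apply KB.continuous_of
    intro x
    simp_rw [cmb_apply H]
    exact ((KB.cont x).const_mul a).add continuous_const
  · have : (fun h => cmb a b h k) = id := by
      funext h
      unfold cmb
      rw [dif_neg H]
      rfl
    rw [this]
    exact continuous_id

theorem cmb_cont_right (a b : ℝ) (h : KB X) : Continuous fun k => cmb a b h k := by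
  by_cases H : |a| + |b| ≤ 1
  · apply KB.continuous_of
    intro x
    simp_rw [cmb_apply H]
    exact continuous_const.add ((KB.cont x).const_mul b)
  · have : (fun k => cmb a b h k) = fun _ => h := by
      funext k
      unfold cmb
      rw [dif_neg H]
    rw [this]
    exact continuous_const

theorem exists_norming [Nontrivial X] (x : X) : ∃ h : KB X, h.1 x = ‖x‖ := by
  obtain ⟨g, hg, hgx⟩ := exists_dual_vector' ℝ x
  refine ⟨KB.ofLin g.toLinearMap (fun y => ?_), ?_⟩
  · have := g.le_opNorm y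
    rw [hg, one_mul] at this
    exact this
  · simpa using hgx

/-! ### Countable determination -/

theorem exists_determining (φ : KB X → ℝ) (hφ : Continuous φ) :
    ∃ F : Set X, F.Countable ∧ ∀ h k : KB X, (∀ x ∈ F, h.1 x = k.1 x) → φ h = φ k := by
  have key : ∀ n : ℕ, ∃ F : Set X, F.Finite ∧ ∀ h k : KB X, (∀ x ∈ F, h.1 x = k.1 x) →
      |φ h - φ k| < 1 / (n + 1 : ℝ) := by
    intro n
    let C : Set (KB X × KB X) := {p | 1 / (n + 1 : ℝ) ≤ |φ p.1 - φ p.2|}
    have hC : IsCompact C := by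
      apply IsClosed.isCompact
      exact isClosed_le continuous_const ((hφ.comp continuous_fst).sub (hφ.comp continuous_snd)).abs
    obtain ⟨t, ht⟩ := hC.elim_finite_subcover (fun x : X => {p : KB X × KB X | p.1.1 x ≠ p.2.1 x})
      (fun x => isOpen_ne_fun ((KB.cont x).comp continuous_fst) ((KB.cont x).comp continuous_snd))
      (by
        intro p hp
        by_contra hcon
        simp only [mem_iUnion, mem_setOf_eq, not_exists, not_not] at hcon
        have : p.1 = p.2 := KB.ext' hcon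
        have hp' : 1 / (n + 1 : ℝ) ≤ |φ p.1 - φ p.2| := hp
        rw [this, sub_self, abs_zero] at hp'
        have : (0 : ℝ) < 1 / (n + 1 : ℝ) := by positivity
        linarith)
    refine ⟨t, t.finite_toSet, fun h k hk => ?_⟩
    by_contra hcon
    push Not at hcon
    have := ht (show (h, k) ∈ C from hcon)
    simp only [mem_iUnion, mem_setOf_eq] at this
    obtain ⟨x, hx, hne⟩ := this
    exact hne (hk x hx)
  choose F hF hF2 using key
  refine ⟨⋃ n, F n, countable_iUnion (fun n => (hF n).countable), fun h k hk => ?_⟩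
  by_contra hne
  have hpos : 0 < |φ h - φ k| := abs_pos.2 (sub_ne_zero.2 hne)
  obtain ⟨n, hn⟩ := exists_nat_one_div_lt hpos
  have := hF2 n h k (fun x hx => hk x (mem_iUnion.2 ⟨n, hx⟩))
  linarith

/-- A Corson structure on the dual ball. -/
structure Cors (X : Type) [NormedAddCommGroup X] [NormedSpace ℝ X] where
  S : KB X → Set X
  cnt : ∀ h, (S h).Countable
  closed : ∀ N : Set X, IsClosed {h | S h ⊆ N}
  sep : ∀ (N : Set X) (h k : KB X), S h ⊆ N → S k ⊆ N → (∀ x ∈ N, h.1 x = k.1 x) → h = k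

theorem exists_cors (H : ∃ (Γ : Type) (f : KB X → (Γ → ℝ)),
      Topology.IsEmbedding f ∧ ∀ φ, {γ : Γ | f φ γ ≠ 0}.Countable) : Nonempty (Cors X) := by
  obtain ⟨Γ, f, hf, hc⟩ := H
  have hfc : ∀ γ, Continuous fun h => f h γ := fun γ => (continuous_apply γ).comp hf.continuous
  choose F hF hF2 using fun γ => exists_determining (fun h => f h γ) (hfc γ)
  refine ⟨⟨fun h => ⋃ γ ∈ {γ : Γ | f h γ ≠ 0}, F γ, fun h => (hc h).biUnion (fun γ _ => hF γ), ?_, ?_⟩⟩
  · intro N
    have : {h | (⋃ γ ∈ {γ : Γ | f h γ ≠ 0}, F γ) ⊆ N} =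
        ⋂ γ ∈ {γ : Γ | ¬ F γ ⊆ N}, {h | f h γ = 0} := by
      ext h
      simp only [mem_setOf_eq, iUnion_subset_iff, mem_iInter]
      constructor
      · intro H γ hγ
        by_contra hne
        exact hγ (H γ hne)
      · intro H γ hne
        by_contra hγ
        exact hne (H γ hγ)
    rw [this]
    exact isClosed_biInter (fun γ _ => isClosed_eq (hfc γ) continuous_const)
  · intro N h k hh hk hx
    apply hf.injective
    funext γ
    by_cases hγ : F γ ⊆ N
    · exact hF2 γ h k (fun x hx' => hx x (hγ hx'))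
    · have h1 : f h γ = 0 := by
        by_contra hne
        exact hγ ((subset_biUnion_of_mem (u := F) (show γ ∈ {γ : Γ | f h γ ≠ 0} from hne)).trans hh)
      have h2 : f k γ = 0 := by
        by_contra hne
        exact hγ ((subset_biUnion_of_mem (u := F) (show γ ∈ {γ : Γ | f k γ ≠ 0} from hne)).trans hk)
      rw [h1, h2]

/-! ### conditions and the cluster lemma -/

/-- finite conditions -/
def cnd (l : List (X × ℚ × ℚ)) : Set (KB X) :=
  {h | ∀ p ∈ l, (p.2.1 : ℝ) ≤ h.1 p.1 ∧ h.1 p.1 ≤ (p.2.2 : ℝ)}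

/-- the conditions only use points from `N` -/
def ovr (N : Set X) (l : List (X × ℚ × ℚ)) : Prop := ∀ p ∈ l, p.1 ∈ N

theorem cnd_closed (l : List (X × ℚ × ℚ)) : IsClosed (cnd l : Set (KB X)) := by
  have : (cnd l : Set (KB X)) = ⋂ p ∈ {p | p ∈ l}, {h : KB X | (p.2.1 : ℝ) ≤ h.1 p.1 ∧ h.1 p.1 ≤ (p.2.2 : ℝ)} := by
    ext h
    simp [cnd]
  rw [this]
  refine isClosed_biInter (fun p _ => ?_)
  exact (isClosed_le continuous_const (KB.cont p.1)).inter (isClosed_le (KB.cont p.1) continuous_const)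

theorem cnd_append (l m : List (X × ℚ × ℚ)) : (cnd (l ++ m) : Set (KB X)) = cnd l ∩ cnd m := by
  ext h
  simp only [cnd, mem_setOf_eq, List.mem_append, mem_inter_iff]
  constructor
  · intro H
    exact ⟨fun p hp => H p (Or.inl hp), fun p hp => H p (Or.inr hp)⟩
  · rintro ⟨H1, H2⟩ p (hp | hp)
    · exact H1 p hp
    · exact H2 p hp

theorem ovr_append {N : Set X} {l m : List (X × ℚ × ℚ)} (hl : ovr N l) (hm : ovr N m) :
    ovr N (l ++ m) := by
  intro p hp
  rcases List.mem_append.1 hp with hp | hp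
  · exact hl p hp
  · exact hm p hp

theorem ovr_mono {N M : Set X} (h : N ⊆ M) {l : List (X × ℚ × ℚ)} (hl : ovr N l) : ovr M l :=
  fun p hp => h (hl p hp)

/-- cluster lemma -/
theorem cluster {B : Set (KB X)} (hB : IsClosed B) (N : Set X) (f : KB X)
    (hf : ∀ l, ovr N l → f ∈ cnd l → (B ∩ cnd l).Nonempty) :
    ∃ k ∈ B, ∀ x ∈ N, k.1 x = f.1 x := by
  let ι := {l : List (X × ℚ × ℚ) // ovr N l ∧ f ∈ cnd l}
  haveI : Nonempty ι := ⟨⟨[], by simp [ovr], by simp [cnd]⟩⟩
  have hne : (⋂ i : ι, B ∩ cnd i.1).Nonempty := by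
    apply IsCompact.nonempty_iInter_of_directed_nonempty_isCompact_isClosed
    · intro i j
      have hap := cnd_append (X := X) i.1 j.1
      refine ⟨⟨i.1 ++ j.1, ovr_append i.2.1 j.2.1, hap.symm ▸ ⟨i.2.2, j.2.2⟩⟩, ?_, ?_⟩
      · intro h hh
        have h2 : h ∈ cnd (i.1 ++ j.1) := hh.2
        rw [hap] at h2
        exact ⟨hh.1, h2.1⟩
      · intro h hh
        have h2 : h ∈ cnd (i.1 ++ j.1) := hh.2
        rw [hap] at h2
        exact ⟨hh.1, h2.2⟩
    · intro i; exact hf i.1 i.2.1 i.2.2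
    · intro i; exact (hB.inter (cnd_closed _)).isCompact
    · intro i; exact hB.inter (cnd_closed _)
  obtain ⟨k, hk⟩ := hne
  simp only [mem_iInter] at hk
  refine ⟨k, (hk ⟨[], by simp [ovr], by simp [cnd]⟩).1, fun x hx => ?_⟩
  have key : ∀ q r : ℚ, (q : ℝ) ≤ f.1 x → f.1 x ≤ r → (q : ℝ) ≤ k.1 x ∧ k.1 x ≤ r := by
    intro q r hq hr
    have := (hk ⟨[(x, q, r)], by simpa [ovr] using hx, by simpa [cnd] using ⟨hq, hr⟩⟩).2
    simpa [cnd] using this
  apply le_antisymm
  · refine le_of_forall_gt_imp_ge_of_dense ?_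
    intro a ha
    obtain ⟨r, hr1, hr2⟩ := exists_rat_btwn ha
    obtain ⟨q, hq⟩ := exists_rat_lt (f.1 x)
    exact (key q r hq.le hr1.le).2.trans hr2.le
  · refine le_of_forall_lt_imp_le_of_dense ?_
    intro a ha
    obtain ⟨q, hq1, hq2⟩ := exists_rat_btwn ha
    obtain ⟨r, hr⟩ := exists_rat_gt (f.1 x)
    exact hq1.le.trans (key q r hq2.le hr.le).1

/-- chosen witnesses -/
noncomputable def wit (A : Set (KB X)) (l : List (X × ℚ × ℚ)) : KB X :=
  open Classical in if h : (A ∩ cnd l).Nonempty then h.some else KB.zero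

theorem wit_mem {A : Set (KB X)} {l : List (X × ℚ × ℚ)} (h : (A ∩ cnd l).Nonempty) :
    wit A l ∈ A ∩ cnd l := by
  unfold wit
  rw [dif_pos h]
  exact h.some_mem

namespace Cors
variable (C : Cors X)

/-- elements supported in `N` -/
def KN (N : Set X) : Set (KB X) := {h | C.S h ⊆ N}

theorem KN_closed (N : Set X) : IsClosed (C.KN N) := C.closed N

theorem KN_mono {N M : Set X} (h : N ⊆ M) : C.KN N ⊆ C.KN M := fun _ hh => Subset.trans hh h

theorem KN_sep {N : Set X} {h k : KB X} (hh : h ∈ C.KN N) (hk : k ∈ C.KN N)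
    (H : ∀ x ∈ N, h.1 x = k.1 x) : h = k := C.sep N h k hh hk H

/-- `N` is closed for the witnesses of `A` -/
def Wcl (A : Set (KB X)) (N : Set X) : Prop :=
  ∀ l, ovr N l → (A ∩ cnd l).Nonempty → wit A l ∈ C.KN N

/-- retraction exists -/
theorem retr {A : Set (KB X)} (hA : IsClosed A) {N : Set X} (hN : C.Wcl A N) {f : KB X}
    (hf : f ∈ A) : ∃ k ∈ A ∩ C.KN N, ∀ x ∈ N, k.1 x = f.1 x := by
  apply cluster (hA.inter (C.KN_closed N))
  intro l hl hfl
  have h1 : (A ∩ cnd l).Nonempty := ⟨f, hf, hfl⟩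
  exact ⟨wit A l, ⟨(wit_mem h1).1, hN l hl h1⟩, (wit_mem h1).2⟩

/-- membership criterion -/
theorem mem_of_cnd {A : Set (KB X)} (hA : IsClosed A) {N : Set X} (hN : C.Wcl A N) {h : KB X}
    (hh : h ∈ C.KN N) (H : ∀ l, ovr N l → h ∈ cnd l → (A ∩ cnd l).Nonempty) : h ∈ A := by
  obtain ⟨k, hk, hkx⟩ := cluster (hA.inter (C.KN_closed N)) N h (by
    intro l hl hfl
    have h1 := H l hl hfl
    exact ⟨wit A l, ⟨(wit_mem h1).1, hN l hl h1⟩, (wit_mem h1).2⟩)
  rw [C.KN_sep hh hk.2 (fun x hx => (hkx x hx).symm)]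
  exact hk.1

/-- density of the witnesses -/
theorem dense {A : Set (KB X)} {N : Set X} {B : Set (KB X)} (hB : IsClosed B) (hBN : B ⊆ C.KN N)
    (H : ∀ l, ovr N l → (A ∩ cnd l).Nonempty → wit A l ∈ B) {h : KB X} (hA : h ∈ A)
    (hh : h ∈ C.KN N) : h ∈ B := by
  obtain ⟨k, hk, hkx⟩ := cluster hB N h (by
    intro l hl hfl
    have h1 : (A ∩ cnd l).Nonempty := ⟨h, hA, hfl⟩
    exact ⟨wit A l, H l hl h1, (wit_mem h1).2⟩)
  rw [C.KN_sep hh (hBN hk) (fun x hx => (hkx x hx).symm)]
  exact hk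

/-- closure under a binary operation -/
theorem op_mem {A : Set (KB X)} {N : Set X} (hN : C.Wcl A N)
    (θ : KB X → KB X → KB X) (hl : ∀ k, Continuous fun h => θ h k) (hr : ∀ h, Continuous fun k => θ h k)
    (H : ∀ l m, ovr N l → ovr N m → (A ∩ cnd l).Nonempty → (A ∩ cnd m).Nonempty →
      θ (wit A l) (wit A m) ∈ C.KN N) {h k : KB X} (hA : h ∈ A) (hh : h ∈ C.KN N) (kA : k ∈ A)
    (hk : k ∈ C.KN N) : θ h k ∈ C.KN N := by
  have step : ∀ m, ovr N m → (A ∩ cnd m).Nonempty → ∀ h, h ∈ A → h ∈ C.KN N →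
      θ h (wit A m) ∈ C.KN N := by
    intro m hm hm2 h hA hh
    have : h ∈ {h | h ∈ C.KN N ∧ θ h (wit A m) ∈ C.KN N} := by
      apply C.dense (A := A) (N := N) _ (fun _ h => h.1) _ hA hh
      · exact (C.KN_closed N).inter ((C.KN_closed N).preimage (hl _))
      · intro l hl' hl2
        exact ⟨hN l hl' hl2, H l m hl' hm hl2 hm2⟩
    exact this.2
  have : k ∈ {k | k ∈ C.KN N ∧ θ h k ∈ C.KN N} := by
    apply C.dense (A := A) (N := N) _ (fun _ h => h.1) _ kA hk
    · exact (C.KN_closed N).inter ((C.KN_closed N).preimage (hr _))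
    · intro l hl' hl2
      exact ⟨hN l hl' hl2, step l hl' hl2 h hA hh⟩
  exact this.2

end Cors

end Pool.Agent.H827
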