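import Mathlib
import Pool.Agent.Helper827.W2

/-! A total `c₀`-family of functionals in the dual ball. -/

set_option linter.unusedSectionVars false
set_option linter.style.haveILetI false
set_option linter.deprecated false

namespace Pool.Agent.H827
open Set Topology Filter
open Cardinal hiding univ

variable {X : Type} [NormedAddCommGroup X] [NormedSpace ℝ X]

theorem half_le : |(1/2 : ℝ)| + |(-1/2 : ℝ)| ≤ 1 := by
  norm_num [abs_of_nonneg, abs_of_neg]

/-- the operations used for the tags -/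
noncomputable def opA (C : Cors X) (L : Set (KB X)) (l : List X) : Set X :=
  (C.S KB.zero ∪ ⋃ c ∈ {c : List (X × ℚ × ℚ) | ∀ p ∈ c, p ∈ {p : X × ℚ × ℚ | p.1 ∈ l}}, C.S (wit L c)) ∪
    ⋃ c ∈ {c : List (X × ℚ × ℚ) | ∀ p ∈ c, p ∈ {p : X × ℚ × ℚ | p.1 ∈ l}},
      ⋃ d ∈ {c : List (X × ℚ × ℚ) | ∀ p ∈ c, p ∈ {p : X × ℚ × ℚ | p.1 ∈ l}},
        C.S (cmb (1/2) (-1/2) (wit L c) (wit L d))

theorem countable_cnds {s : Set X} (hs : s.Countable) :
    {c : List (X × ℚ × ℚ) | ∀ p ∈ c, p ∈ {p : X × ℚ × ℚ | p.1 ∈ s}}.Countable := by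
  apply countable_lists
  have : {p : X × ℚ × ℚ | p.1 ∈ s} = s ×ˢ univ := by
    ext p; simp
  rw [this]
  exact hs.prod countable_univ

theorem opA_countable (C : Cors X) (L : Set (KB X)) (l : List X) : (opA C L l).Countable := by
  have h : {c : List (X × ℚ × ℚ) | ∀ p ∈ c, p ∈ {p : X × ℚ × ℚ | p.1 ∈ l}}.Countable :=
    countable_cnds (s := {x | x ∈ l}) l.finite_toSet.countable
  refine ((C.cnt _).union (h.biUnion fun c _ => C.cnt _)).union ?_
  exact h.biUnion fun c _ => h.biUnion fun d _ => C.cnt _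

/-- tag-good sets -/
structure GoodA (C : Cors X) (L : Set (KB X)) (N : Set X) : Prop where
  zero : KB.zero ∈ C.KN N
  wcl : C.Wcl L N
  sub : ∀ l m, ovr N l → ovr N m → (L ∩ cnd l).Nonempty → (L ∩ cnd m).Nonempty →
      cmb (1/2) (-1/2) (wit L l) (wit L m) ∈ C.KN N

theorem goodA_cl (C : Cors X) (L : Set (KB X)) (S : Set X) : GoodA C L (cl (opA C L) S) := by
  refine ⟨?_, ?_, ?_⟩
  · intro x hx
    exact cl_op (l := []) (by simp) (Or.inl (Or.inl hx))
  · intro l hl _ x hx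
    refine cl_op (l := l.map Prod.fst) ?_ (Or.inl (Or.inr ?_))
    · intro u hu
      obtain ⟨p, hp, rfl⟩ := List.mem_map.1 hu
      exact hl p hp
    · exact mem_biUnion (show l ∈ {c : List (X × ℚ × ℚ) | ∀ p ∈ c, p ∈ {p : X × ℚ × ℚ | p.1 ∈ l.map Prod.fst}} from
        fun p hp => List.mem_map_of_mem hp) hx
  · intro l m hl hm _ _ x hx
    refine cl_op (l := l.map Prod.fst ++ m.map Prod.fst) ?_ (Or.inr ?_)
    · intro u hu
      rcases List.mem_append.1 hu with hu | hu
      · obtain ⟨p, hp, rfl⟩ := List.mem_map.1 hu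
        exact hl p hp
      · obtain ⟨p, hp, rfl⟩ := List.mem_map.1 hu
        exact hm p hp
    · refine mem_biUnion (x := l) ?_ (mem_biUnion (x := m) ?_ hx)
      · exact fun p hp => List.mem_append_left _ (List.mem_map_of_mem hp)
      · exact fun p hp => List.mem_append_right _ (List.mem_map_of_mem hp)

theorem GoodA.sub_mem {C : Cors X} {L : Set (KB X)} {N : Set X} (G : GoodA C L N) {h k : KB X}
    (hA : h ∈ L) (hh : h ∈ C.KN N) (kA : k ∈ L) (hk : k ∈ C.KN N) :
    cmb (1/2) (-1/2) h k ∈ C.KN N :=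
  C.op_mem G.wcl (cmb (1/2) (-1/2)) (cmb_cont_left _ _) (cmb_cont_right _ _) G.sub hA hh kA hk

/-- the conclusion for `L` -/
def Tags (L : Set (KB X)) : Prop :=
  ∃ (I : Type) (g : I → KB X), (∀ i, g i ∈ L) ∧ (∀ z ε, 0 < ε → {i | ε < |(g i).1 z|}.Finite) ∧
    ∀ z, (∀ i, (g i).1 z = 0) → ∀ h ∈ L, h.1 z = 0

theorem tags_countable {L : Set (KB X)} (hL : IsClosed L) (h0 : KB.zero ∈ L)
    (hd : ∀ h k, h ∈ L → k ∈ L → cmb (1/2) (-1/2) h k ∈ L) {s : Set X} (hs : s.Countable)
    (hsep : ∀ h k, h ∈ L → k ∈ L → (∀ x ∈ s, h.1 x = k.1 x) → h = k) : Tags L := by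
  let I := {l : List (X × ℚ × ℚ) // (∀ p ∈ l, p ∈ {p : X × ℚ × ℚ | p.1 ∈ s}) ∧ (L ∩ cnd l).Nonempty}
  have hIc : Countable I := by
    have : {l : List (X × ℚ × ℚ) | (∀ p ∈ l, p ∈ {p : X × ℚ × ℚ | p.1 ∈ s}) ∧ (L ∩ cnd l).Nonempty}.Countable :=
      (countable_cnds hs).mono (fun l hl => hl.1)
    exact this.to_subtype
  obtain ⟨ν, hν⟩ := exists_injective_nat I
  have key : ∀ (n : ℕ) (h : KB X), h ∈ L → ∃ k ∈ L, ∀ x, k.1 x = (1/2)^n * h.1 x := by
    intro n
    induction n with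
    | zero => intro h hh; exact ⟨h, hh, fun x => by simp⟩
    | succ n ih =>
      intro h hh
      obtain ⟨k, hk, hkx⟩ := ih h hh
      refine ⟨cmb (1/2) (-1/2) k KB.zero, hd _ _ hk h0, fun x => ?_⟩
      rw [cmb_apply half_le, hkx, KB.zero_apply]
      ring
  choose g hg hgx using fun i : I => key (ν i) (wit L i.1) (wit_mem i.2.2).1
  refine ⟨I, g, hg, ?_, ?_⟩
  · intro z ε hε
    have ht : Tendsto (fun n : ℕ => (1/2 : ℝ)^n * ‖z‖) atTop (𝓝 0) := by
      have := (tendsto_pow_atTop_nhds_zero_of_lt_one (r := (1/2 : ℝ)) (by norm_num) (by norm_num)).mul_const ‖z‖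
      simpa using this
    obtain ⟨n, hn⟩ := ((tendsto_order.1 ht).2 ε hε).exists_forall_of_atTop
    have hfin : (ν ⁻¹' (Iio n)).Finite := (finite_Iio n).preimage hν.injOn
    apply hfin.subset
    intro i hi
    by_contra hcon
    have h1 := hn (ν i) (not_lt.1 hcon)
    have h2 : |(g i).1 z| ≤ (1/2 : ℝ)^(ν i) * ‖z‖ := by
      rw [hgx, abs_mul, abs_of_nonneg (by positivity)]
      gcongr
      exact KB.bd _ _
    have h3 : ε < |(g i).1 z| := hi
    linarith
  · intro z hz h hh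
    have hB : IsClosed (L ∩ {k : KB X | k.1 z = 0}) := hL.inter (isClosed_eq (KB.cont z) continuous_const)
    obtain ⟨k, hk, hkx⟩ := cluster hB s h (by
      intro l hl hfl
      have h1 : (L ∩ cnd l).Nonempty := ⟨h, hh, hfl⟩
      refine ⟨wit L l, ⟨(wit_mem h1).1, ?_⟩, (wit_mem h1).2⟩
      have h2 := hz ⟨l, hl, h1⟩
      rw [hgx] at h2
      exact (mul_eq_zero.1 h2).resolve_left (by positivity))
    have : k = h := hsep k h hk.1 hh hkx
    rw [← this]
    exact hk.2

theorem fin_mono_nat {U : Type} {F : Set U} (hF : F.Finite) {P : ℕ → U → Prop}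
    (hP : ∀ m n u, m ≤ n → P m u → P n u) (h : ∀ u ∈ F, ∃ n, P n u) : ∃ n, ∀ u ∈ F, P n u := by
  induction F, hF using Set.Finite.induction_on with
  | empty => exact ⟨0, by simp⟩
  | @insert a s _ _ ih =>
    obtain ⟨n, hn⟩ := ih (fun u hu => h u (Or.inr hu))
    obtain ⟨m, hm⟩ := h a (Or.inl rfl)
    refine ⟨max n m, fun u hu => ?_⟩
    rcases hu with rfl | hu
    · exact hP _ _ _ (le_max_right _ _) hm
    · exact hP _ _ _ (le_max_left _ _) (hn u hu)

theorem fin_max {ι U : Type} [LinearOrder ι] (x : ι → U) {A : Set ι} {F : Set U} (hF : F.Finite)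
    (h : F ⊆ x '' A) : F = ∅ ∨ ∃ j ∈ A, F ⊆ x '' (Iic j) := by
  induction F, hF using Set.Finite.induction_on with
  | empty => exact Or.inl rfl
  | @insert a s _ _ ih =>
    right
    obtain ⟨j, hj, rfl⟩ := h (mem_insert a s)
    rcases ih ((subset_insert _ _).trans h) with rfl | ⟨i, hi, hs⟩
    · exact ⟨j, hj, by rintro u (rfl | hu); exacts [⟨j, le_rfl, rfl⟩, absurd hu (notMem_empty _)]⟩
    · rcases le_total i j with hij | hij
      · refine ⟨j, hj, ?_⟩
        rintro u (rfl | hu)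
        · exact ⟨j, le_rfl, rfl⟩
        · obtain ⟨i', hi', rfl⟩ := hs hu
          exact ⟨i', le_trans hi' hij, rfl⟩
      · refine ⟨i, hi, ?_⟩
        rintro u (rfl | hu)
        · exact ⟨j, hij, rfl⟩
        · exact hs hu

theorem exists_strictMono_seq {ι : Type} [LinearOrder ι] [WellFoundedLT ι] {S : Set ι}
    (hS : S.Infinite) : ∃ f : ℕ → ι, (∀ m n, m < n → f m < f n) ∧ ∀ n, f n ∈ S := by
  let f := fun n => (hS.natEmbedding S n).1
  have hf : Function.Injective f := Subtype.val_injective.comp (hS.natEmbedding S).injective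
  obtain ⟨g, hg | hg⟩ := exists_increasing_or_nonincreasing_subseq (· < ·) f
  · exact ⟨fun n => f (g n), hg, fun n => (hS.natEmbedding S (g n)).2⟩
  · exfalso
    have hdec : ∀ m n, m < n → f (g n) < f (g m) := by
      intro m n hmn
      refine lt_of_le_of_ne (not_lt.1 (hg m n hmn)) ?_
      intro h
      exact absurd (g.injective (hf h)) (ne_of_gt hmn)
    obtain ⟨m, ⟨n, rfl⟩, hm⟩ := WellFounded.has_min (wellFounded_lt (α := ι)) (range fun n => f (g n)) ⟨_, mem_range_self 0⟩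
    exact hm _ (mem_range_self (n + 1)) (hdec n (n + 1) (Nat.lt_succ_self n))

theorem tags_aux (C : Cors X) (κ : Cardinal.{0}) : ∀ L : Set (KB X), IsClosed L → KB.zero ∈ L →
    (∀ h k, h ∈ L → k ∈ L → cmb (1/2) (-1/2) h k ∈ L) → ∀ s : Set X, #s = κ →
    (∀ h k, h ∈ L → k ∈ L → (∀ x ∈ s, h.1 x = k.1 x) → h = k) → Tags L := by
  induction κ using WellFoundedLT.induction with
  | ind κ IH =>
  intro L hL h0 hd s hsκ hsep
  by_cases hcount : κ ≤ ℵ₀
  · exact tags_countable hL h0 hd (s := s) (by rw [← Cardinal.le_aleph0_iff_set_countable, hsκ]; exact hcount) hsep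
  push Not at hcount
  have hκ : ℵ₀ ≤ κ := hcount.le
  obtain ⟨e⟩ : Nonempty (κ.ord.ToType ≃ s) := Cardinal.eq.1 (by rw [hsκ, mk_ord_toType])
  let ι := κ.ord.ToType
  let x : ι → X := fun i => (e i).1
  let M : Set ι → Set X := fun A => cl (opA C L) (x '' A)
  have hM : ∀ A, GoodA C L (M A) := fun A => goodA_cl C L _
  have hMmono : ∀ A B : Set ι, A ⊆ B → M A ⊆ M B := fun A B hAB => cl_mono (image_mono hAB)
  have hcard : ∀ i : ι, #(M (Iic i)) < κ := by
    intro i
    refine (mk_cl_le (opA_countable C L) _).trans_lt ?_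
    refine max_lt hcount ?_
    refine mk_image_le.trans_lt ?_
    have h1 : (Iic i : Set ι) = insert i (Iio i) := by
      ext j
      simp [le_iff_eq_or_lt]
    rw [h1]
    refine mk_insert_le.trans_lt ?_
    exact Cardinal.add_lt_of_lt hκ (mk_Iio_ord_toType i) (one_lt_aleph0.trans_le hκ)
  have hcard0 : #(M ∅) < κ := by
    refine (mk_cl_le (opA_countable C L) _).trans_lt ?_
    refine max_lt hcount ?_
    simp only [image_empty, mk_eq_zero]
    exact aleph0_pos.trans_le hκ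
  let Δ : ι → Set (KB X) := fun i => {h | h ∈ L ∧ h ∈ C.KN (M (Iic i)) ∧ ∀ y ∈ M (Iio i), h.1 y = 0}
  have hΔ : ∀ i, Tags (Δ i) := by
    intro i
    refine IH _ (hcard i) (Δ i) ?_ ?_ ?_ (M (Iic i)) rfl ?_
    · have hcl : IsClosed {h : KB X | ∀ y ∈ M (Iio i), h.1 y = 0} := by
        have : {h : KB X | ∀ y ∈ M (Iio i), h.1 y = 0} = ⋂ y ∈ M (Iio i), {h : KB X | h.1 y = 0} := by
          ext h; simp
        rw [this]
        exact isClosed_biInter fun y _ => isClosed_eq (KB.cont y) continuous_const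
      exact hL.inter ((C.KN_closed _).inter hcl)
    · exact ⟨h0, (hM _).zero, fun y _ => rfl⟩
    · intro h k hh hk
      refine ⟨hd h k hh.1 hk.1, (hM _).sub_mem hh.1 hh.2.1 hk.1 hk.2.1, fun y hy => ?_⟩
      rw [cmb_apply half_le, hh.2.2 y hy, hk.2.2 y hy]
      simp
    · intro h k hh hk hx
      exact C.KN_sep hh.2.1 hk.2.1 hx
  have hbase : Tags (L ∩ C.KN (M ∅)) := by
    refine IH _ hcard0 _ (hL.inter (C.KN_closed _)) ⟨h0, (hM _).zero⟩ ?_ (M ∅) rfl ?_
    · intro h k hh hk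
      exact ⟨hd h k hh.1 hk.1, (hM _).sub_mem hh.1 hh.2 hk.1 hk.2⟩
    · intro h k hh hk hx
      exact C.KN_sep hh.2 hk.2 hx
  choose I g hgΔ hgfin hgtot using hΔ
  obtain ⟨I0, g0, hg0, hg0fin, hg0tot⟩ := hbase
  refine ⟨(Σ i : ι, I i) ⊕ I0, Sum.elim (fun t => g t.1 t.2) g0, ?_, ?_, ?_⟩
  · rintro (t | t)
    · exact (hgΔ t.1 t.2).1
    · exact (hg0 t).1
  · intro z ε hε
    have hS : {i : ι | ∃ a, ε < |(g i a).1 z|}.Finite := by
      by_contra hinf
      obtain ⟨f, hfm, hfS⟩ := exists_strictMono_seq (S := {i : ι | ∃ a, ε < |(g i a).1 z|}) hinf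
      choose a ha using hfS
      let h : ℕ → KB X := fun n => g (f n) (a n)
      let 𝒰 : Ultrafilter ℕ := Filter.hyperfilter ℕ
      let hl : KB X := (𝒰.map h).lim
      have hlim : Tendsto h 𝒰 (𝓝 hl) := (𝒰.map h).le_nhds_lim
      have hlx : ∀ y, Tendsto (fun n => (h n).1 y) 𝒰 (𝓝 (hl.1 y)) := fun y =>
        ((KB.cont y).tendsto hl).comp hlim
      let A : Set ι := {j | ∃ n, j < f n}
      have h1 : hl ∈ C.KN (M A) := by
        refine (C.KN_closed (M A)).mem_of_tendsto hlim (Eventually.of_forall fun n => ?_)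
        refine C.KN_mono (hMmono _ _ ?_) (hgΔ (f n) (a n)).2.1
        intro j hj
        exact ⟨n + 1, lt_of_le_of_lt hj (hfm _ _ (Nat.lt_succ_self n))⟩
      have h2 : ∀ y ∈ M A, hl.1 y = 0 := by
        intro y hy
        obtain ⟨F, hF, hFA, hyF⟩ := cl_finitary hy
        obtain ⟨n, hn⟩ := fin_mono_nat hF (P := fun n u => u ∈ x '' (Iio (f n)))
          (by
            rintro m n u hmn ⟨j, hj, rfl⟩
            rcases hmn.eq_or_lt with rfl | hmn
            · exact ⟨j, hj, rfl⟩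
            · exact ⟨j, lt_trans hj (hfm _ _ hmn), rfl⟩)
          (by
            intro u hu
            obtain ⟨j, ⟨n, hn⟩, rfl⟩ := hFA hu
            exact ⟨n, j, hn, rfl⟩)
        have hev : ∀ᶠ m in (𝒰 : Filter ℕ), (h m).1 y = 0 := by
          have : ∀ᶠ m in (𝒰 : Filter ℕ), n ≤ m := by
            have h3 : (𝒰 : Filter ℕ) ≤ atTop := by
              rw [← Nat.cofinite_eq_atTop]
              exact Filter.hyperfilter_le_cofinite
            exact h3 (eventually_ge_atTop n)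
          filter_upwards [this] with m hm
          apply (hgΔ (f m) (a m)).2.2
          refine cl_mono ?_ hyF
          intro u hu
          obtain ⟨j, hj, rfl⟩ := hn u hu
          rcases hm.eq_or_lt with rfl | hm
          · exact ⟨j, hj, rfl⟩
          · exact ⟨j, lt_trans hj (hfm _ _ hm), rfl⟩
        have h4 : Tendsto (fun n => (h n).1 y) 𝒰 (𝓝 0) :=
          Tendsto.congr' (by filter_upwards [hev] with m hm; exact hm.symm) tendsto_const_nhds
        exact tendsto_nhds_unique (hlx y) h4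
      have h3 : hl = KB.zero := C.KN_sep h1 (hM A).zero (fun y hy => h2 y hy)
      have h4 : ε ≤ |hl.1 z| := ge_of_tendsto (hlx z).abs (Eventually.of_forall fun n => (ha n).le)
      rw [h3, KB.zero_apply, abs_zero] at h4
      linarith
    have hsub : {i : (Σ i : ι, I i) ⊕ I0 | ε < |(Sum.elim (fun t => g t.1 t.2) g0 i).1 z|} ⊆
        (⋃ i ∈ {i : ι | ∃ a, ε < |(g i a).1 z|}, (fun a => (Sum.inl ⟨i, a⟩ : (Σ i : ι, I i) ⊕ I0)) '' {a | ε < |(g i a).1 z|})
          ∪ Sum.inr '' {a | ε < |(g0 a).1 z|} := by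
      rintro (⟨i, a⟩ | a) ha
      · left
        exact mem_biUnion (show i ∈ {i : ι | ∃ a, ε < |(g i a).1 z|} from ⟨a, ha⟩) ⟨a, ha, rfl⟩
      · right
        exact ⟨a, ha, rfl⟩
    refine Set.Finite.subset ?_ hsub
    exact (hS.biUnion fun i _ => (hgfin i z ε hε).image _).union ((hg0fin z ε hε).image _)
  · intro z hz
    have hzi : ∀ i, ∀ h ∈ Δ i, h.1 z = 0 := fun i => hgtot i z (fun a => hz (Sum.inl ⟨i, a⟩))
    have hz0 : ∀ h ∈ L ∩ C.KN (M ∅), h.1 z = 0 := hg0tot z (fun a => hz (Sum.inr a))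
    let P : Set ι → Prop := fun A => ∀ h ∈ L ∩ C.KN (M A), h.1 z = 0
    have union : ∀ A, (∀ j ∈ A, P (Iic j)) → P A := by
      intro A hA h hh
      have hB : IsClosed (C.KN (M A) ∩ {k : KB X | k.1 z = 0}) :=
        (C.KN_closed _).inter (isClosed_eq (KB.cont z) continuous_const)
      refine (C.dense (A := L) hB inter_subset_left ?_ hh.1 hh.2).2
      intro l hl hl2
      refine ⟨(hM A).wcl l hl hl2, ?_⟩
      obtain ⟨F, hF, hFA, hlF⟩ := cl_finitary' (l := l.map Prod.fst) (S := x '' A) (Op := opA C L) (by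
        intro u hu
        obtain ⟨p, hp, rfl⟩ := List.mem_map.1 hu
        exact hl p hp)
      rcases fin_max x hF hFA with rfl | ⟨j, hj, hFj⟩
      · apply hz0
        refine ⟨(wit_mem hl2).1, (hM ∅).wcl l ?_ hl2⟩
        intro p hp
        have := hlF p.1 (List.mem_map_of_mem hp)
        show p.1 ∈ cl (opA C L) (x '' ∅)
        rw [image_empty]
        exact this
      · apply hA j hj
        refine ⟨(wit_mem hl2).1, (hM (Iic j)).wcl l ?_ hl2⟩
        intro p hp
        exact cl_mono hFj (hlF p.1 (List.mem_map_of_mem hp))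
    have stepP : ∀ i, P (Iio i) → P (Iic i) := by
      intro i hi h hh
      obtain ⟨k, hk, hkx⟩ := C.retr hL (hM (Iio i)).wcl hh.1
      have hk2 : k ∈ C.KN (M (Iic i)) := C.KN_mono (hMmono _ _ Iio_subset_Iic_self) hk.2
      have h1 : cmb (1/2) (-1/2) h k ∈ Δ i := by
        refine ⟨hd h k hh.1 hk.1, (hM _).sub_mem hh.1 hh.2 hk.1 hk2, fun y hy => ?_⟩
        rw [cmb_apply half_le, hkx y hy]
        ring
      have h2 := hzi i _ h1
      rw [cmb_apply half_le, hi k hk] at h2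
      linarith
    have hall : ∀ i, P (Iic i) := by
      intro i
      induction i using WellFoundedLT.induction with
      | ind i ih => exact stepP i (union (Iio i) (fun j hj => ih j hj))
    have hfull : P univ := union univ (fun j _ => hall j)
    intro h hh
    obtain ⟨k, hk, hkx⟩ := C.retr hL (hM univ).wcl hh
    have : k = h := by
      apply hsep k h hk.1 hh
      intro y hy
      apply hkx
      exact subset_cl _ ⟨e.symm ⟨y, hy⟩, mem_univ _, by simp [x]⟩
    rw [← this]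
    exact hfull k hk

theorem exists_tags (C : Cors X) : ∃ (I : Type) (g : I → KB X),
    (∀ z ε, 0 < ε → {i | ε < |(g i).1 z|}.Finite) ∧
    ∀ z, (∀ i, (g i).1 z = 0) → z = 0 := by
  obtain ⟨I, g, -, h1, h2⟩ := tags_aux C #(univ : Set X) univ isClosed_univ (mem_univ _)
    (fun _ _ _ _ => mem_univ _) univ rfl (fun h k _ _ hx => KB.ext' (fun x => hx x (mem_univ _)))
  refine ⟨I, g, h1, fun z hz => ?_⟩
  by_contra hne
  haveI : Nontrivial X := ⟨z, 0, hne⟩
  obtain ⟨h, hh⟩ := exists_norming z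
  have := h2 z hz h (mem_univ _)
  rw [hh] at this
  exact hne (norm_eq_zero.1 this)

end Pool.Agent.H827
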