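import Mathlib
import Pool.Agent.Helper827.W3

/-! The smooth variational game. -/

set_option linter.unusedSectionVars false
set_option linter.style.haveILetI false
set_option linter.deprecated false

namespace Pool.Agent.H827
open Set Topology Filter

variable {X : Type} [NormedAddCommGroup X] [NormedSpace ℝ X]

/-- second differences are `o(s)` -/
def SD (φ : X → ℝ) : Prop := ∀ c y, ∀ ε > 0, ∃ δ > 0, ∀ s : ℝ, |s| < δ →
  |φ (c + s • y) + φ (c - s • y) - 2 * φ c| ≤ ε * |s|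

theorem SD.add {φ ψ : X → ℝ} (h1 : SD φ) (h2 : SD ψ) : SD (fun x => φ x + ψ x) := by
  intro c y ε hε
  obtain ⟨δ1, hδ1, H1⟩ := h1 c y (ε/2) (by positivity)
  obtain ⟨δ2, hδ2, H2⟩ := h2 c y (ε/2) (by positivity)
  refine ⟨min δ1 δ2, lt_min hδ1 hδ2, fun s hs => ?_⟩
  have e1 := H1 s (hs.trans_le (min_le_left _ _))
  have e2 := H2 s (hs.trans_le (min_le_right _ _))
  have : φ (c + s • y) + ψ (c + s • y) + (φ (c - s • y) + ψ (c - s • y)) - 2 * (φ c + ψ c)
      = (φ (c + s • y) + φ (c - s • y) - 2 * φ c) + (ψ (c + s • y) + ψ (c - s • y) - 2 * ψ c) := by ring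
  rw [this]
  refine (abs_add_le _ _).trans ?_
  linarith

theorem SD.aff {φ : X → ℝ} (h : SD φ) (a ρ : ℝ) (x0 : X) : SD (fun x => a * φ (ρ • (x - x0))) := by
  intro c y ε hε
  obtain ⟨δ, hδ, H⟩ := h (ρ • (c - x0)) (ρ • y) (ε / (|a| + 1)) (by positivity)
  refine ⟨δ, hδ, fun s hs => ?_⟩
  have e1 := H s hs
  have h1 : ρ • (c + s • y - x0) = ρ • (c - x0) + s • (ρ • y) := by
    rw [smul_comm s ρ y, ← smul_add]; congr 1; abel
  have h2 : ρ • (c - s • y - x0) = ρ • (c - x0) - s • (ρ • y) := by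
    rw [smul_comm s ρ y, ← smul_sub]; congr 1; abel
  simp only [h1, h2]
  have : a * φ (ρ • (c - x0) + s • (ρ • y)) + a * φ (ρ • (c - x0) - s • (ρ • y)) - 2 * (a * φ (ρ • (c - x0)))
      = a * (φ (ρ • (c - x0) + s • (ρ • y)) + φ (ρ • (c - x0) - s • (ρ • y)) - 2 * φ (ρ • (c - x0))) := by ring
  rw [this, abs_mul]
  calc |a| * _ ≤ |a| * (ε / (|a| + 1) * |s|) := by gcongr
    _ = (|a| / (|a| + 1)) * (ε * |s|) := by ring
    _ ≤ 1 * (ε * |s|) := by
        gcongr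
        rw [div_le_one (by positivity)]
        linarith
    _ = ε * |s| := one_mul _

/-- normalised bump -/
structure Bump (X : Type) [NormedAddCommGroup X] [NormedSpace ℝ X] where
  b : X → ℝ
  L : ℝ
  L0 : 0 ≤ L
  zero : b 0 = 1
  supp : ∀ x, 1 ≤ ‖x‖ → b x = 0
  lip : ∀ x y, |b x - b y| ≤ L * ‖x - y‖
  sd : SD b

theorem exists_bump (H : ∃ b : X → ℝ, (∃ K, LipschitzWith K b) ∧ (∃ x, b x ≠ 0) ∧
          Bornology.IsBounded (Function.support b) ∧
          ∀ x : X, ∃ L : X →L[ℝ] ℝ, ∀ h : X,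
            HasDerivAt (fun t : ℝ => b (x + t • h)) (L h) 0) : Nonempty (Bump X) := by
  obtain ⟨b, ⟨K, hK⟩, ⟨x0, hx0⟩, hbd, hd⟩ := H
  have hsd : SD b := by
    intro c y ε hε
    obtain ⟨L, hL⟩ := hd c
    have h1 := hL y
    rw [hasDerivAt_iff_isLittleO] at h1
    have h2 := h1.def (c := ε/2) (by positivity)
    rw [Metric.eventually_nhds_iff] at h2
    obtain ⟨δ, hδ, H⟩ := h2
    refine ⟨δ, hδ, fun s hs => ?_⟩
    have e1 := H (y := s) (by simpa using hs)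
    have e2 := H (y := -s) (by simpa using hs)
    simp only [sub_zero, zero_smul, add_zero, Real.norm_eq_abs, smul_eq_mul, abs_neg, neg_smul] at e1 e2
    have : b (c + s • y) + b (c - s • y) - 2 * b c =
        (b (c + s • y) - b c - s * L y) + (b (c + -(s • y)) - b c - -s * L y) := by
      rw [← sub_eq_add_neg]; ring
    rw [this]
    refine (abs_add_le _ _).trans ?_
    linarith
  obtain ⟨R, hR⟩ := hbd.subset_closedBall 0
  let ρ : ℝ := |R| + ‖x0‖ + 1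
  have hρ : 0 < ρ := by positivity
  have hKnn : (0:ℝ) ≤ K := K.2
  refine ⟨⟨fun x => (b x0)⁻¹ * b (ρ • (x - (-ρ⁻¹ • x0))), |(b x0)⁻¹| * K * ρ, by positivity, ?_, ?_, ?_, hsd.aff _ _ _⟩⟩
  · have : ρ • ((0:X) - (-ρ⁻¹ • x0)) = x0 := by
      rw [neg_smul, zero_sub, neg_neg, smul_smul, mul_inv_cancel₀ hρ.ne', one_smul]
    simp only [this]
    exact inv_mul_cancel₀ hx0
  · intro x hx
    have h1 : ρ • (x - (-ρ⁻¹ • x0)) = ρ • x + x0 := by
      rw [neg_smul, sub_neg_eq_add, smul_add, smul_smul, mul_inv_cancel₀ hρ.ne', one_smul]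
    simp only [h1]
    have h2 : b (ρ • x + x0) = 0 := by
      by_contra hne
      have h3 := hR hne
      rw [mem_closedBall_zero_iff] at h3
      have h4 : ‖ρ • x‖ ≤ ‖ρ • x + x0‖ + ‖x0‖ := by
        have := norm_sub_le (ρ • x + x0) x0
        simpa using this
      rw [norm_smul, Real.norm_eq_abs, abs_of_pos hρ] at h4
      have h5 : ρ * 1 ≤ ρ * ‖x‖ := by gcongr
      have h6 : R ≤ |R| := le_abs_self R
      have h7 : ρ = |R| + ‖x0‖ + 1 := rfl
      linarith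
    rw [h2, mul_zero]
  · intro x y
    rw [← mul_sub, abs_mul]
    have h1 := hK.dist_le_mul (ρ • (x - (-ρ⁻¹ • x0))) (ρ • (y - (-ρ⁻¹ • x0)))
    rw [Real.dist_eq, dist_eq_norm] at h1
    have h2 : ρ • (x - (-ρ⁻¹ • x0)) - ρ • (y - (-ρ⁻¹ • x0)) = ρ • (x - y) := by
      rw [← smul_sub]; congr 1; abel
    rw [h2, norm_smul, Real.norm_eq_abs, abs_of_pos hρ] at h1
    calc |(b x0)⁻¹| * _ ≤ |(b x0)⁻¹| * (K * (ρ * ‖x - y‖)) := by gcongr
      _ = _ := by ring

noncomputable def eN (n : ℕ) : ℝ := (1/4)^(n+3)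
noncomputable def rN (n : ℕ) : ℝ := (1/2)^(n+2)

theorem eN_pos (n : ℕ) : 0 < eN n := by unfold eN; positivity
theorem rN_pos (n : ℕ) : 0 < rN n := by unfold rN; positivity
theorem eN_succ (n : ℕ) : eN (n+1) = eN n / 4 := by unfold eN; ring
theorem eN_rN (n : ℕ) : eN n * (rN n)⁻¹ = (1/2)^(n+4) := by
  unfold eN rN
  rw [show (1/4:ℝ) = (1/2)^2 by norm_num, ← pow_mul, ← div_eq_mul_inv, div_eq_iff (by positivity), ← pow_add]
  congr 1
  ring

namespace Bump
variable (β : Bump X)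

theorem bdd (x : X) : |β.b x| ≤ 1 + β.L := by
  by_cases hx : 1 ≤ ‖x‖
  · rw [β.supp x hx, abs_zero]
    linarith [β.L0]
  · push Not at hx
    have h1 := β.lip x 0
    rw [β.zero, sub_zero] at h1
    have h2 : |β.b x| ≤ |β.b x - 1| + |1| := by
      have := abs_add_le (β.b x - 1) 1
      simpa using this
    have h3 : β.L * ‖x‖ ≤ β.L * 1 := by gcongr; exact β.L0
    rw [abs_one] at h2
    linarith

/-- the perturbed bump -/
noncomputable def g : List X → X → ℝ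
  | [], x => 4 * β.b x
  | y :: G, x => g G x + eN G.length * β.b ((rN G.length)⁻¹ • (x - y))

theorem g_sd (G : List X) : SD (β.g G) := by
  induction G with
  | nil =>
    have := β.sd.aff 4 1 0
    simpa [g, funext_iff] using this
  | cons y G ih => exact ih.add (β.sd.aff _ _ _)

theorem g_bdd (G : List X) : ∃ M, ∀ x, |β.g G x| ≤ M := by
  induction G with
  | nil =>
    refine ⟨4 * (1 + β.L), fun x => ?_⟩
    simp only [g]
    rw [abs_mul, abs_of_pos (by norm_num : (0:ℝ) < 4)]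
    have := β.bdd x
    linarith
  | cons y G ih =>
    obtain ⟨M, hM⟩ := ih
    refine ⟨M + eN G.length * (1 + β.L), fun x => ?_⟩
    simp only [g]
    refine (abs_add_le _ _).trans (add_le_add (hM x) ?_)
    rw [abs_mul, abs_of_pos (eN_pos _)]
    have := β.bdd ((rN G.length)⁻¹ • (x - y))
    have := eN_pos G.length
    gcongr

theorem g_cont (G : List X) : Continuous (β.g G) := by
  have hb : Continuous β.b := by
    have : LipschitzWith β.L.toNNReal β.b := by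
      apply LipschitzWith.of_dist_le_mul
      intro x y
      rw [Real.dist_eq, dist_eq_norm, Real.coe_toNNReal _ β.L0]
      exact β.lip x y
    exact this.continuous
  induction G with
  | nil => exact continuous_const.mul hb
  | cons y G ih =>
    refine ih.add (continuous_const.mul (hb.comp ?_))
    exact (continuous_id.sub continuous_const).const_smul _

/-- the supremum -/
noncomputable def m (B : Set (KB X)) (G : List X) : ℝ :=
  sSup {t | ∃ w ∈ B, ∃ x : X, ‖x‖ ≤ 2 ∧ t = w.1 x + β.g G x}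

theorem m_bdd (B : Set (KB X)) (G : List X) :
    BddAbove {t | ∃ w ∈ B, ∃ x : X, ‖x‖ ≤ 2 ∧ t = w.1 x + β.g G x} := by
  obtain ⟨M, hM⟩ := β.g_bdd G
  refine ⟨2 + M, ?_⟩
  rintro t ⟨w, _, x, hx, rfl⟩
  have h1 := (le_abs_self _).trans (KB.bd w x)
  have h2 := (le_abs_self _).trans (hM x)
  linarith

theorem le_m {B : Set (KB X)} {G : List X} {w : KB X} (hw : w ∈ B) {x : X} (hx : ‖x‖ ≤ 2) :
    w.1 x + β.g G x ≤ β.m B G :=
  le_csSup (β.m_bdd B G) ⟨w, hw, x, hx, rfl⟩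

/-- the kernel -/
def ker (B : Set (KB X)) (G : List X) : Set (KB X) :=
  {w | w ∈ B ∧ ∀ x : X, ‖x‖ ≤ 2 → w.1 x + β.g G x ≤ β.m B G - eN G.length / 4}

theorem ker_closed {B : Set (KB X)} (hB : IsClosed B) (G : List X) : IsClosed (β.ker B G) := by
  have h : IsClosed {w : KB X | ∀ x : X, ‖x‖ ≤ 2 → w.1 x + β.g G x ≤ β.m B G - eN G.length / 4} := by
    have : {w : KB X | ∀ x : X, ‖x‖ ≤ 2 → w.1 x + β.g G x ≤ β.m B G - eN G.length / 4} =
        ⋂ x ∈ {x : X | ‖x‖ ≤ 2}, {w : KB X | w.1 x + β.g G x ≤ β.m B G - eN G.length / 4} := by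
      ext w; simp
    rw [this]
    exact isClosed_biInter fun x _ => isClosed_le ((KB.cont x).add continuous_const) continuous_const
  exact hB.inter h

theorem m_ker {B : Set (KB X)} {G : List X} {w : KB X} (hw : w ∈ β.ker B G) :
    β.m (β.ker B G) G ≤ β.m B G - eN G.length / 4 := by
  apply csSup_le
  · exact ⟨_, w, hw, 0, by simp, rfl⟩
  · rintro t ⟨v, hv, x, hx, rfl⟩
    exact hv.2 x hx

theorem round {N : Set X} {𝒜 : Set (Set (KB X))} {h : KB X}
    (H2 : ∀ A ∈ 𝒜, ∀ G : List X, (∀ x ∈ G, x ∈ N) → h ∈ A → h ∉ β.ker A G →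
      ∃ x ∈ N, ‖x‖ ≤ 2 ∧ β.m A G - eN G.length / 4 < h.1 x + β.g G x)
    (H3 : ∀ A ∈ 𝒜, ∀ x ∈ N, ∀ q : ℚ, {w : KB X | w ∈ A ∧ (q : ℝ) ≤ w.1 x} ∈ 𝒜)
    (H4 : ∀ A ∈ 𝒜, ∀ G : List X, (∀ x ∈ G, x ∈ N) → β.ker A G ∈ 𝒜)
    (A : Set (KB X)) (hA : A ∈ 𝒜) (hhA : h ∈ A) (G : List X) (hG : ∀ x ∈ G, x ∈ N) :
    ∃ (B A' : Set (KB X)) (x : X), B ∈ 𝒜 ∧ A' ∈ 𝒜 ∧ B ⊆ A ∧ A' ⊆ B ∧ h ∈ B ∧ h ∈ A' ∧ x ∈ N ∧ ‖x‖ ≤ 2 ∧
      ∀ w ∈ A', β.m B G - eN G.length / 4 < w.1 x + β.g G x := by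
  let T : Set ℝ := {t | ∃ C ∈ 𝒜, C ⊆ A ∧ h ∈ C ∧ t = β.m C G}
  have hTne : T.Nonempty := ⟨_, A, hA, Subset.rfl, hhA, rfl⟩
  have hTbd : BddBelow T := by
    refine ⟨h.1 0 + β.g G 0, ?_⟩
    rintro t ⟨C, _, _, hC, rfl⟩
    exact β.le_m hC (by simp)
  obtain ⟨t, ⟨B, hB, hBA, hhB, rfl⟩, ht⟩ := exists_lt_of_csInf_lt hTne
    (show sInf T < sInf T + eN G.length / 4 by linarith [eN_pos G.length])
  have hnk : h ∉ β.ker B G := by
    intro hk
    have h1 := β.m_ker hk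
    have h2 : sInf T ≤ β.m (β.ker B G) G :=
      csInf_le hTbd ⟨β.ker B G, H4 B hB G hG, fun w hw => hBA hw.1, hk, rfl⟩
    linarith
  obtain ⟨x, hxN, hx2, hx⟩ := H2 B hB G hG hhB hnk
  obtain ⟨q, hq1, hq2⟩ := exists_rat_btwn (show β.m B G - eN G.length / 4 - β.g G x < h.1 x by linarith)
  refine ⟨B, {w : KB X | w ∈ B ∧ (q : ℝ) ≤ w.1 x}, x, hB, H3 B hB x hxN q, hBA, fun w hw => hw.1, hhB,
    ⟨hhB, hq2.le⟩, hxN, hx2, fun w hw => ?_⟩
  have := hw.2
  linarith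

theorem game [CompleteSpace X] {N : Set X} {𝒜 : Set (Set (KB X))} {h hs : KB X} (H1 : univ ∈ 𝒜)
    (H2 : ∀ A ∈ 𝒜, ∀ G : List X, (∀ x ∈ G, x ∈ N) → h ∈ A → h ∉ β.ker A G →
      ∃ x ∈ N, ‖x‖ ≤ 2 ∧ β.m A G - eN G.length / 4 < h.1 x + β.g G x)
    (H3 : ∀ A ∈ 𝒜, ∀ x ∈ N, ∀ q : ℚ, {w : KB X | w ∈ A ∧ (q : ℝ) ≤ w.1 x} ∈ 𝒜)
    (H4 : ∀ A ∈ 𝒜, ∀ G : List X, (∀ x ∈ G, x ∈ N) → β.ker A G ∈ 𝒜)
    (H5 : ∀ A ∈ 𝒜, h ∈ A → hs ∈ A) : h = hs := by
  let St := {p : Set (KB X) × List X // p.1 ∈ 𝒜 ∧ h ∈ p.1 ∧ ∀ x ∈ p.2, x ∈ N}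
  have R := fun p : St => β.round H2 H3 H4 p.1.1 p.2.1 p.2.2.1 p.1.2 p.2.2.2
  choose B A' x hB hA' hBA hA'B hhB hhA' hxN hx2 hlt using R
  let nxt : St → St := fun p => ⟨(A' p, x p :: p.1.2), hA' p, hhA' p, by
    intro y hy
    rcases List.mem_cons.1 hy with rfl | hy
    · exact hxN p
    · exact p.2.2.2 y hy⟩
  let st : ℕ → St := fun n => nxt^[n] ⟨(univ, []), H1, mem_univ _, by simp⟩
  have hst : ∀ n, st (n+1) = nxt (st n) := fun n => by
    show nxt^[n+1] _ = nxt (nxt^[n] _)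
    rw [Function.iterate_succ_apply']
  have hst0 : st 0 = ⟨(univ, []), H1, mem_univ _, by simp⟩ := rfl
  let G : ℕ → List X := fun n => (st n).1.2
  let y : ℕ → X := fun n => x (st n)
  have hG : ∀ n, G (n+1) = y n :: G n := fun n => by
    show (st (n+1)).1.2 = _
    rw [hst]
  have hlen : ∀ n, (G n).length = n := by
    intro n
    induction n with
    | zero => rfl
    | succ n ih => rw [hG, List.length_cons, ih]
  -- facts
  have F1 : ∀ n, ∀ w ∈ B (st n), ∀ z : X, ‖z‖ ≤ 2 → w.1 z + β.g (G n) z ≤ β.m (B (st n)) (G n) :=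
    fun n w hw z hz => β.le_m hw hz
  have F2 : ∀ n, ∀ w ∈ A' (st n), β.m (B (st n)) (G n) - eN n / 4 < w.1 (y n) + β.g (G n) (y n) := by
    intro n w hw
    have := hlt (st n) w hw
    rwa [hlen n] at this
  have F3 : ∀ n, B (st (n+1)) ⊆ A' (st n) := by
    intro n
    have := hBA (st (n+1))
    refine this.trans ?_
    rw [hst]
  have hgs : ∀ n z, β.g (G (n+1)) z = β.g (G n) z + eN n * β.b ((rN n)⁻¹ • (z - y n)) := by
    intro n z
    rw [hG]
    simp only [g]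
    rw [hlen n]
  have F4 : ∀ n, ‖y (n+1) - y n‖ < rN n := by
    intro n
    by_contra hcon
    push Not at hcon
    have h1 : β.b ((rN n)⁻¹ • (y (n+1) - y n)) = 0 := by
      apply β.supp
      rw [norm_smul, norm_inv, Real.norm_eq_abs, abs_of_pos (rN_pos n), ← div_eq_inv_mul,
        one_le_div (rN_pos n)]
      exact hcon
    have h2 := hgs n (y (n+1))
    rw [h1, mul_zero, add_zero] at h2
    have h3 := F2 (n+1) h (hhA' _)
    rw [h2] at h3
    have h4 := F1 n h (hhB _) (y (n+1)) (hx2 _)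
    have h5 := F1 (n+1) h (hhB _) (y n) (hx2 _)
    rw [hgs n (y n), sub_self, smul_zero, β.zero] at h5
    have h6 := F2 n h (hhA' _)
    have h7 := eN_succ n
    have h8 := eN_pos n
    linarith
  have F5 : ‖y 0‖ < 1 := by
    by_contra hcon
    push Not at hcon
    have h1 := β.supp _ hcon
    have h2 := F2 0 h (hhA' _)
    have h3 : β.g (G 0) (y 0) = 0 := by
      show 4 * β.b (y 0) = 0
      rw [h1, mul_zero]
    have h4 := F1 0 h (hhB _) 0 (by simp)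
    have h5 : β.g (G 0) 0 = 4 := by
      show 4 * β.b 0 = 4
      rw [β.zero, mul_one]
    have h6 : h.1 (0:X) = 0 := map_zero h.1
    have h7 := (le_abs_self _).trans (KB.bd h (y 0))
    have h8 : ‖y 0‖ ≤ 2 := hx2 _
    have h9 : eN 0 = 1/64 := by unfold eN; norm_num
    rw [h3] at h2
    rw [h5, h6] at h4
    linarith
  have hdist : ∀ n, dist (y n) (y (n+1)) ≤ 1/4 * (1/2)^n := by
    intro n
    rw [dist_comm, dist_eq_norm]
    refine (F4 n).le.trans (le_of_eq ?_)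
    unfold rN
    ring
  have hcau : CauchySeq y := cauchySeq_of_le_geometric (1/2) (1/4) (by norm_num) hdist
  obtain ⟨yl, hyl⟩ := cauchySeq_tendsto_of_complete hcau
  have hyl2 : ‖yl‖ < 2 := by
    have h1 := dist_le_of_le_geometric_of_tendsto₀ (1/2) (1/4) (by norm_num) hdist hyl
    have h2 : ‖yl‖ ≤ ‖y 0‖ + dist (y 0) yl := by
      rw [dist_eq_norm]
      have := norm_sub_le (y 0) (y 0 - yl)
      simpa using this
    norm_num at h1
    linarith
  -- Lipschitz estimates of the tails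
  have F6 : ∀ k n, k ≤ n → ∀ u v, |(β.g (G n) u - β.g (G k) u) - (β.g (G n) v - β.g (G k) v)| ≤
      β.L * ((1/2)^(k+3) - (1/2)^(n+3)) * ‖u - v‖ := by
    intro k n hkn u v
    induction n, hkn using Nat.le_induction with
    | base => simp
    | succ n hkn ih =>
      rw [hgs, hgs]
      have h1 := β.lip ((rN n)⁻¹ • (u - y n)) ((rN n)⁻¹ • (v - y n))
      have h2 : (rN n)⁻¹ • (u - y n) - (rN n)⁻¹ • (v - y n) = (rN n)⁻¹ • (u - v) := by
        rw [← smul_sub]; congr 1; abel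
      rw [h2, norm_smul, norm_inv, Real.norm_eq_abs, abs_of_pos (rN_pos n)] at h1
      have h3 : β.g (G n) u + eN n * β.b ((rN n)⁻¹ • (u - y n)) - β.g (G k) u -
          (β.g (G n) v + eN n * β.b ((rN n)⁻¹ • (v - y n)) - β.g (G k) v) =
          ((β.g (G n) u - β.g (G k) u) - (β.g (G n) v - β.g (G k) v)) +
          eN n * (β.b ((rN n)⁻¹ • (u - y n)) - β.b ((rN n)⁻¹ • (v - y n))) := by ring
      rw [h3]
      refine (abs_add_le _ _).trans ?_
      rw [abs_mul, abs_of_pos (eN_pos n)]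
      have h4 : eN n * |β.b ((rN n)⁻¹ • (u - y n)) - β.b ((rN n)⁻¹ • (v - y n))| ≤
          eN n * (β.L * ((rN n)⁻¹ * ‖u - v‖)) := by
        have := eN_pos n
        gcongr
      have h5 : eN n * (β.L * ((rN n)⁻¹ * ‖u - v‖)) = β.L * (1/2)^(n+4) * ‖u - v‖ := by
        rw [← eN_rN n]; ring
      have h6 : β.L * ((1/2)^(k+3) - (1/2)^(n+1+3)) * ‖u - v‖ =
          β.L * ((1/2)^(k+3) - (1/2)^(n+3)) * ‖u - v‖ + β.L * (1/2)^(n+4) * ‖u - v‖ := by
        ring
      linarith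
  -- basic inequality
  have hhs : ∀ n, hs ∈ A' (st n) := fun n => H5 _ (hA' _) (hhA' _)
  have hhsB : ∀ n, hs ∈ B (st n) := fun n => H5 _ (hB _) (hhB _)
  have basic : ∀ w, (∀ n, w ∈ A' (st n)) → (∀ n, w ∈ B (st n)) → ∀ n z, ‖z‖ ≤ 2 →
      w.1 z + β.g (G n) z ≤ w.1 (y n) + β.g (G n) (y n) + eN n / 4 := by
    intro w hw1 hw2 n z hz
    have h1 := F1 n w (hw2 n) z hz
    have h2 := F2 n w (hw1 n)
    linarith
  have key : ∀ w1 w2 : KB X, (∀ n, w1 ∈ A' (st n)) → (∀ n, w1 ∈ B (st n)) → (∀ n, w2 ∈ A' (st n)) →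
      (∀ n, w2 ∈ B (st n)) → ∀ z : X, ∀ ε > 0, w1.1 z - w2.1 z ≤ ε := by
    intro w1 w2 h11 h12 h21 h22 z ε hε
    -- choose k
    have hk : ∃ k : ℕ, β.L * (1/2)^(k+3) * (2 * ‖z‖) ≤ ε / 2 := by
      have ht : Tendsto (fun k : ℕ => β.L * (1/2 : ℝ)^(k+3) * (2 * ‖z‖)) atTop (𝓝 (β.L * 0 * (2 * ‖z‖))) := by
        refine Tendsto.mul_const _ (Tendsto.const_mul _ ?_)
        exact (tendsto_pow_atTop_nhds_zero_of_lt_one (r := (1/2 : ℝ)) (by norm_num) (by norm_num)).comp (tendsto_add_atTop_nat 3)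
      rw [mul_zero, zero_mul] at ht
      obtain ⟨k, hk⟩ := ((tendsto_order.1 ht).2 (ε/2) (by positivity)).exists
      exact ⟨k, hk.le⟩
    obtain ⟨k, hk⟩ := hk
    obtain ⟨δ, hδ, hsd⟩ := β.g_sd (G k) yl z (ε/2) (by positivity)
    -- choose s
    obtain ⟨s, hs0, hsδ, hs2⟩ : ∃ s : ℝ, 0 < s ∧ s < δ ∧ s * ‖z‖ < 2 - ‖yl‖ := by
      have h1 : 0 < (2 - ‖yl‖) / (‖z‖ + 1) := div_pos (by linarith) (by positivity)
      refine ⟨min (δ/2) ((2 - ‖yl‖) / (‖z‖ + 1)), lt_min (by positivity) h1, ?_, ?_⟩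
      · exact (min_le_left _ _).trans_lt (by linarith)
      · calc min (δ/2) ((2 - ‖yl‖) / (‖z‖ + 1)) * ‖z‖ ≤ ((2 - ‖yl‖) / (‖z‖ + 1)) * ‖z‖ := by
              gcongr; exact min_le_right _ _
          _ < ((2 - ‖yl‖) / (‖z‖ + 1)) * (‖z‖ + 1) := by
              apply mul_lt_mul_of_pos_left _ h1; linarith
          _ = 2 - ‖yl‖ := by field_simp
    have hev : ∀ᶠ n in atTop, k ≤ n ∧ ‖y n + s • z‖ ≤ 2 ∧ ‖y n - s • z‖ ≤ 2 := by
      have e1 : ∀ᶠ n in atTop, ‖y n‖ < 2 - s * ‖z‖ :=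
        (tendsto_order.1 hyl.norm).2 _ (by linarith)
      filter_upwards [eventually_ge_atTop k, e1] with n hn h1
      refine ⟨hn, ?_, ?_⟩
      · refine (norm_add_le _ _).trans ?_
        rw [norm_smul, Real.norm_eq_abs, abs_of_pos hs0]
        linarith
      · refine (norm_sub_le _ _).trans ?_
        rw [norm_smul, Real.norm_eq_abs, abs_of_pos hs0]
        linarith
    have hineq : ∀ᶠ n in atTop, s * (w1.1 z - w2.1 z) ≤
        (2 * β.g (G k) (y n) - β.g (G k) (y n + s • z) - β.g (G k) (y n - s • z)) +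
          β.L * (1/2)^(k+3) * (2 * (s * ‖z‖)) + eN n / 2 := by
      filter_upwards [hev] with n ⟨hkn, hn1, hn2⟩
      have b1 := basic w1 h11 h12 n _ hn1
      have b2 := basic w2 h21 h22 n _ hn2
      have e1 : w1.1 (y n + s • z) = w1.1 (y n) + s * w1.1 z := by
        rw [map_add, map_smul, smul_eq_mul]
      have e2 : w2.1 (y n - s • z) = w2.1 (y n) - s * w2.1 z := by
        rw [map_sub, map_smul, smul_eq_mul]
      rw [e1] at b1
      rw [e2] at b2
      have f1 := F6 k n hkn (y n) (y n + s • z)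
      have f2 := F6 k n hkn (y n) (y n - s • z)
      have n1 : ‖y n - (y n + s • z)‖ = s * ‖z‖ := by
        rw [sub_add_cancel_left, norm_neg, norm_smul, Real.norm_eq_abs, abs_of_pos hs0]
      have n2 : ‖y n - (y n - s • z)‖ = s * ‖z‖ := by
        rw [sub_sub_cancel, norm_smul, Real.norm_eq_abs, abs_of_pos hs0]
      rw [n1] at f1
      rw [n2] at f2
      have c1 : β.L * ((1/2)^(k+3) - (1/2)^(n+3)) * (s * ‖z‖) ≤ β.L * (1/2)^(k+3) * (s * ‖z‖) := by
        have hp : (0:ℝ) ≤ (1/2)^(n+3) := by positivity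
        have := β.L0
        gcongr
        linarith
      have g1 := (abs_le.1 f1).2
      have g2 := (abs_le.1 f2).2
      have := eN_pos n
      linarith
    have hlim : Tendsto (fun n => (2 * β.g (G k) (y n) - β.g (G k) (y n + s • z) - β.g (G k) (y n - s • z)) +
          β.L * (1/2)^(k+3) * (2 * (s * ‖z‖)) + eN n / 2) atTop
        (𝓝 ((2 * β.g (G k) yl - β.g (G k) (yl + s • z) - β.g (G k) (yl - s • z)) +
          β.L * (1/2)^(k+3) * (2 * (s * ‖z‖)) + 0 / 2)) := by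
      have hgc := β.g_cont (G k)
      refine Tendsto.add (Tendsto.add ?_ tendsto_const_nhds) (Tendsto.div_const ?_ _)
      · refine Tendsto.sub (Tendsto.sub ?_ ?_) ?_
        · exact ((hgc.tendsto yl).comp hyl).const_mul 2
        · exact (hgc.tendsto _).comp (hyl.add_const _)
        · exact (hgc.tendsto _).comp (hyl.sub_const _)
      · have := (tendsto_pow_atTop_nhds_zero_of_lt_one (r := (1/4 : ℝ)) (by norm_num) (by norm_num)).comp (tendsto_add_atTop_nat 3)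
        exact this
    have h1 := ge_of_tendsto hlim hineq
    have h2 := hsd s (by rwa [abs_of_pos hs0])
    rw [abs_of_pos hs0] at h2
    have h3 := (abs_le.1 h2).1
    have h4 : β.L * (1/2)^(k+3) * (2 * (s * ‖z‖)) ≤ (ε/2) * s := by
      calc β.L * (1/2)^(k+3) * (2 * (s * ‖z‖)) = (β.L * (1/2)^(k+3) * (2 * ‖z‖)) * s := by ring
        _ ≤ (ε/2) * s := by gcongr
    have h5 : s * (w1.1 z - w2.1 z) ≤ s * ε := by linarith
    exact le_of_mul_le_mul_left h5 hs0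
  apply KB.ext'
  intro z
  apply le_antisymm
  · refine le_of_forall_pos_le_add fun ε hε => ?_
    have := key h hs (fun n => hhA' _) (fun n => hhB _) hhs hhsB z ε hε
    linarith
  · refine le_of_forall_pos_le_add fun ε hε => ?_
    have := key hs h hhs hhsB (fun n => hhA' _) (fun n => hhB _) z ε hε
    linarith

end Bump

end Pool.Agent.H827
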