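import Mathlib
import Pool.Agent.Helper827.W4

/-! The main closure system. -/

set_option linter.unusedSectionVars false
set_option linter.style.haveILetI false
set_option linter.deprecated false

namespace Pool.Agent.H827
open Set Topology Filter TopologicalSpace

variable {X : Type} [NormedAddCommGroup X] [NormedSpace ℝ X] {I : Type}

/-- universe of the closure system -/
inductive UU (X : Type) [NormedAddCommGroup X] [NormedSpace ℝ X] (I : Type) : Type
  | pt (x : X) : UU X I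
  | cs (A : Closeds (KB X)) : UU X I
  | ix (i : I) : UU X I

/-- slices -/
def slc (A : Closeds (KB X)) (x : X) (q : ℚ) : Closeds (KB X) :=
  ⟨{w : KB X | w ∈ (A : Set (KB X)) ∧ (q : ℝ) ≤ w.1 x}, A.isClosed.inter (isClosed_le continuous_const (KB.cont x))⟩

/-- kernels -/
noncomputable def kr (β : Bump X) (A : Closeds (KB X)) (G : List X) : Closeds (KB X) :=
  ⟨β.ker A G, β.ker_closed A.isClosed G⟩

theorem exists_cov (β : Bump X) (A : Closeds (KB X)) (c : List (X × ℚ × ℚ)) (G : List X) :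
    ∃ F : Set X, F.Countable ∧ (¬ (β.ker A G ∩ cnd c).Nonempty → ∀ w ∈ (A : Set (KB X)), w ∈ cnd c →
      ∃ x ∈ F, ‖x‖ ≤ 2 ∧ β.m A G - eN G.length / 4 < w.1 x + β.g G x) := by
  by_cases H : (β.ker A G ∩ cnd c).Nonempty
  · exact ⟨∅, countable_empty, fun h => absurd H h⟩
  · have hc : IsCompact ((A : Set (KB X)) ∩ cnd c) := (A.isClosed.inter (cnd_closed c)).isCompact
    obtain ⟨t, ht1, ht2, ht3⟩ := hc.elim_finite_subcover_image (b := {x : X | ‖x‖ ≤ 2})
      (c := fun x : X => {w : KB X | β.m A G - eN G.length / 4 < w.1 x + β.g G x})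
      (fun x _ => isOpen_lt continuous_const ((KB.cont x).add continuous_const))
      (by
        rintro w ⟨hwA, hwc⟩
        by_contra hcon
        simp only [mem_iUnion, mem_setOf_eq, not_exists, not_lt] at hcon
        exact H ⟨w, ⟨hwA, fun x hx => hcon x hx⟩, hwc⟩)
    refine ⟨t, ht2.countable, fun _ w hwA hwc => ?_⟩
    have := ht3 ⟨hwA, hwc⟩
    simp only [mem_iUnion, mem_setOf_eq] at this
    obtain ⟨x, hx, hlt⟩ := this
    exact ⟨x, hx, ht1 hx, hlt⟩

noncomputable def cov (β : Bump X) (A : Closeds (KB X)) (c : List (X × ℚ × ℚ)) (G : List X) : Set X :=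
  (exists_cov β A c G).choose

theorem cov_countable (β : Bump X) (A : Closeds (KB X)) (c : List (X × ℚ × ℚ)) (G : List X) :
    (cov β A c G).Countable := (exists_cov β A c G).choose_spec.1

theorem cov_spec (β : Bump X) (A : Closeds (KB X)) (c : List (X × ℚ × ℚ)) (G : List X)
    (H : ¬ (β.ker A G ∩ cnd c).Nonempty) : ∀ w ∈ (A : Set (KB X)), w ∈ cnd c →
      ∃ x ∈ cov β A c G, ‖x‖ ≤ 2 ∧ β.m A G - eN G.length / 4 < w.1 x + β.g G x :=
  (exists_cov β A c G).choose_spec.2 H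

def PL (l : List (UU X I)) : Set X := {x | UU.pt x ∈ l}
def CL (l : List (UU X I)) : Set (Closeds (KB X)) := {A | UU.cs A ∈ l}
def IL (l : List (UU X I)) : Set I := {i | UU.ix i ∈ l}

theorem PL_countable (l : List (UU X I)) : (PL l).Countable :=
  (l.finite_toSet.preimage (f := fun x : X => (UU.pt x : UU X I))
    (fun _ _ _ _ h => by injection h)).countable
theorem CL_countable (l : List (UU X I)) : (CL l).Countable :=
  (l.finite_toSet.preimage (f := fun A => (UU.cs A : UU X I))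
    (fun _ _ _ _ h => by injection h)).countable
theorem IL_countable (l : List (UU X I)) : (IL l).Countable :=
  (l.finite_toSet.preimage (f := fun i => (UU.ix i : UU X I))
    (fun _ _ _ _ h => by injection h)).countable

def CN (l : List (UU X I)) : Set (List (X × ℚ × ℚ)) := {c | ∀ p ∈ c, p ∈ {p : X × ℚ × ℚ | p.1 ∈ PL l}}
def GLi (l : List (UU X I)) : Set (List X) := {G | ∀ x ∈ G, x ∈ PL l}

theorem CN_countable (l : List (UU X I)) : (CN l).Countable := countable_cnds (PL_countable l)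
theorem GLi_countable (l : List (UU X I)) : (GLi l).Countable := countable_lists (PL_countable l)

section
variable (C : Cors X) (β : Bump X) (g : I → KB X)

/-- the operations: closed sets -/
noncomputable def opC (l : List (UU X I)) : Set (Closeds (KB X)) :=
  ({⊤} ∪ ⋃ A ∈ CL l, ⋃ B ∈ CL l, {A ⊓ B}) ∪
  ((⋃ A ∈ CL l, ⋃ x ∈ PL l, ⋃ q : ℚ, {slc A x q}) ∪ ⋃ A ∈ CL l, ⋃ G ∈ GLi l, {kr β A G})

/-- the operations: points -/
noncomputable def opP (l : List (UU X I)) : Set X :=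
  ((⋃ A ∈ CL l, ⋃ c ∈ CN l, C.S (wit A c)) ∪
   (⋃ a : ℚ, ⋃ b : ℚ, ⋃ c ∈ CN l, ⋃ d ∈ CN l, C.S (cmb a b (wit univ c) (wit univ d)))) ∪
  ((⋃ A ∈ CL l, ⋃ c ∈ CN l, ⋃ G ∈ GLi l, cov β A c G) ∪ ⋃ i ∈ IL l, C.S (g i))

/-- the operations -/
noncomputable def opM (l : List (UU X I)) : Set (UU X I) :=
  (UU.cs '' opC β l ∪ UU.pt '' opP C β g l) ∪ UU.ix '' (⋃ x ∈ PL l, {i | (g i).1 x ≠ 0})

theorem opM_countable (hg : ∀ x, {i | (g i).1 x ≠ 0}.Countable) (l : List (UU X I)) :
    (opM C β g l).Countable := by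
  have hP := PL_countable l
  have hC := CL_countable l
  have hI := IL_countable l
  have hN := CN_countable l
  have hG := GLi_countable l
  refine ((Countable.image ?_ _).union (Countable.image ?_ _)).union (Countable.image ?_ _)
  · refine ((countable_singleton _).union ?_).union (Countable.union ?_ ?_)
    · exact hC.biUnion fun A _ => hC.biUnion fun B _ => countable_singleton _
    · exact hC.biUnion fun A _ => hP.biUnion fun B _ => countable_iUnion fun q => countable_singleton _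
    · exact hC.biUnion fun A _ => hG.biUnion fun B _ => countable_singleton _
  · refine (Countable.union ?_ ?_).union (Countable.union ?_ ?_)
    · exact hC.biUnion fun A _ => hN.biUnion fun c _ => C.cnt _
    · exact countable_iUnion fun a => countable_iUnion fun b => hN.biUnion fun c _ => hN.biUnion fun d _ => C.cnt _
    · exact hC.biUnion fun A _ => hN.biUnion fun c _ => hG.biUnion fun G _ => cov_countable _ _ _ _
    · exact hI.biUnion fun i _ => C.cnt _
  · exact hP.biUnion fun x _ => hg x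

/-- good triples -/
structure GoodM (N : Set X) (𝒜 : Set (Closeds (KB X))) (J : Set I) : Prop where
  top : ⊤ ∈ 𝒜
  inter : ∀ A ∈ 𝒜, ∀ B ∈ 𝒜, A ⊓ B ∈ 𝒜
  slice : ∀ A ∈ 𝒜, ∀ x ∈ N, ∀ q : ℚ, slc A x q ∈ 𝒜
  kern : ∀ A ∈ 𝒜, ∀ G : List X, (∀ x ∈ G, x ∈ N) → kr β A G ∈ 𝒜
  wcl : ∀ A ∈ 𝒜, C.Wcl (A : Set (KB X)) N
  comb : ∀ a b : ℚ, ∀ c d, ovr N c → ovr N d → cmb a b (wit univ c) (wit univ d) ∈ C.KN N
  cov : ∀ A ∈ 𝒜, ∀ c, ovr N c → ∀ G : List X, (∀ x ∈ G, x ∈ N) →
    ¬ (β.ker A G ∩ cnd c).Nonempty → ∀ w ∈ (A : Set (KB X)), w ∈ cnd c →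
      ∃ x ∈ N, ‖x‖ ≤ 2 ∧ β.m A G - eN G.length / 4 < w.1 x + β.g G x
  tag : ∀ i ∈ J, g i ∈ C.KN N
  pts : ∀ x ∈ N, ∀ i, (g i).1 x ≠ 0 → i ∈ J

def Nof (M : Set (UU X I)) : Set X := {x | UU.pt x ∈ M}
def Aof (M : Set (UU X I)) : Set (Closeds (KB X)) := {A | UU.cs A ∈ M}
def Jof (M : Set (UU X I)) : Set I := {i | UU.ix i ∈ M}

theorem goodM_cl (S : Set (UU X I)) :
    GoodM C β g (Nof (cl (opM C β g) S)) (Aof (cl (opM C β g) S)) (Jof (cl (opM C β g) S)) := by
  have hcs : ∀ l : List (UU X I), (∀ u ∈ l, u ∈ cl (opM C β g) S) → ∀ A ∈ opC β l, A ∈ Aof (cl (opM C β g) S) :=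
    fun l hl A hA => cl_op hl (Or.inl (Or.inl ⟨A, hA, rfl⟩))
  have hpt : ∀ l : List (UU X I), (∀ u ∈ l, u ∈ cl (opM C β g) S) → ∀ x ∈ opP C β g l, x ∈ Nof (cl (opM C β g) S) :=
    fun l hl A hA => cl_op hl (Or.inl (Or.inr ⟨A, hA, rfl⟩))
  have hovr : ∀ c, ovr (Nof (cl (opM C β g) S)) c → ∀ u ∈ c.map (fun p => (UU.pt p.1 : UU X I)), u ∈ cl (opM C β g) S := by
    intro c hc u hu
    obtain ⟨p, hp, rfl⟩ := List.mem_map.1 hu
    exact hc p hp
  have hGl : ∀ G : List X, (∀ x ∈ G, x ∈ Nof (cl (opM C β g) S)) → ∀ u ∈ G.map (fun x => (UU.pt x : UU X I)), u ∈ cl (opM C β g) S := by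
    intro c hc u hu
    obtain ⟨p, hp, rfl⟩ := List.mem_map.1 hu
    exact hc p hp
  refine ⟨?_, ?_, ?_, ?_, ?_, ?_, ?_, ?_, ?_⟩
  · exact hcs [] (by simp) _ (Or.inl (Or.inl rfl))
  · intro A hA B hB
    refine hcs [UU.cs A, UU.cs B] (by simpa using ⟨hA, hB⟩) _ (Or.inl (Or.inr ?_))
    exact mem_biUnion (x := A) (by simp [CL]) (mem_biUnion (x := B) (by simp [CL]) rfl)
  · intro A hA x hx q
    refine hcs [UU.cs A, UU.pt x] (by simpa using ⟨hA, hx⟩) _ (Or.inr (Or.inl ?_))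
    exact mem_biUnion (x := A) (by simp [CL]) (mem_biUnion (x := x) (by simp [PL]) (mem_iUnion.2 ⟨q, rfl⟩))
  · intro A hA G hG
    refine hcs (UU.cs A :: G.map (fun x => (UU.pt x : UU X I))) ?_ _ (Or.inr (Or.inr ?_))
    · intro u hu
      rcases List.mem_cons.1 hu with rfl | hu
      · exact hA
      · exact hGl G hG u hu
    · refine mem_biUnion (x := A) List.mem_cons_self (mem_biUnion (x := G) ?_ rfl)
      intro x hx
      exact List.mem_cons_of_mem _ (List.mem_map.2 ⟨x, hx, rfl⟩)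
  · intro A hA c hc _ x hx
    refine hpt (UU.cs A :: c.map (fun p => (UU.pt p.1 : UU X I))) ?_ _ (Or.inl (Or.inl ?_))
    · intro u hu
      rcases List.mem_cons.1 hu with rfl | hu
      · exact hA
      · exact hovr c hc u hu
    · refine mem_biUnion (x := A) List.mem_cons_self (mem_biUnion (x := c) ?_ hx)
      intro p hp
      exact List.mem_cons_of_mem _ (List.mem_map.2 ⟨p, hp, rfl⟩)
  · intro a b c d hc hd x hx
    refine hpt (c.map (fun p => (UU.pt p.1 : UU X I)) ++ d.map (fun p => (UU.pt p.1 : UU X I))) ?_ _ (Or.inl (Or.inr ?_))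
    · intro u hu
      rcases List.mem_append.1 hu with hu | hu
      · exact hovr c hc u hu
      · exact hovr d hd u hu
    · refine mem_iUnion.2 ⟨a, mem_iUnion.2 ⟨b, mem_biUnion (x := c) ?_ (mem_biUnion (x := d) ?_ hx)⟩⟩
      · intro p hp
        exact List.mem_append_left _ (List.mem_map.2 ⟨p, hp, rfl⟩)
      · intro p hp
        exact List.mem_append_right _ (List.mem_map.2 ⟨p, hp, rfl⟩)
  · intro A hA c hc G hG hne w hw hwc
    obtain ⟨x, hx, h2⟩ := cov_spec β A c G hne w hw hwc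
    refine ⟨x, ?_, h2⟩
    refine hpt (UU.cs A :: (c.map (fun p => (UU.pt p.1 : UU X I)) ++ G.map (fun x => (UU.pt x : UU X I)))) ?_ _
      (Or.inr (Or.inl ?_))
    · intro u hu
      rcases List.mem_cons.1 hu with rfl | hu
      · exact hA
      · rcases List.mem_append.1 hu with hu | hu
        · exact hovr c hc u hu
        · exact hGl G hG u hu
    · refine mem_biUnion (x := A) List.mem_cons_self (mem_biUnion (x := c) ?_ (mem_biUnion (x := G) ?_ hx))
      · intro p hp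
        exact List.mem_cons_of_mem _ (List.mem_append_left _ (List.mem_map.2 ⟨p, hp, rfl⟩))
      · intro p hp
        exact List.mem_cons_of_mem _ (List.mem_append_right _ (List.mem_map.2 ⟨p, hp, rfl⟩))
  · intro i hi x hx
    refine hpt [UU.ix i] (by intro u hu; rw [List.mem_singleton] at hu; subst hu; exact hi) _ (Or.inr (Or.inr ?_))
    exact mem_biUnion (x := i) (by simp [IL]) hx
  · intro x hx i hi
    refine cl_op (l := [UU.pt x]) (by intro u hu; rw [List.mem_singleton] at hu; subst hu; exact hx) (Or.inr ⟨i, ?_, rfl⟩)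
    exact mem_biUnion (x := x) (by simp [PL]) hi

end

namespace GoodM
variable {C : Cors X} {β : Bump X} {g : I → KB X} {N : Set X} {𝒜 : Set (Closeds (KB X))} {J : Set I}

theorem wclu (H : GoodM C β g N 𝒜 J) : C.Wcl univ N := by
  have := H.wcl ⊤ H.top
  simpa using this

theorem cmbq (H : GoodM C β g N 𝒜 J) (a b : ℚ) {h k : KB X} (hh : h ∈ C.KN N) (hk : k ∈ C.KN N) :
    cmb a b h k ∈ C.KN N :=
  C.op_mem H.wclu (cmb a b) (cmb_cont_left _ _) (cmb_cont_right _ _)
    (fun l m hl hm _ _ => H.comb a b l m hl hm) (mem_univ _) hh (mem_univ _) hk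

theorem zero_mem (H : GoodM C β g N 𝒜 J) : KB.zero ∈ C.KN N := by
  have h1 := H.comb 0 0 [] [] (by simp [ovr]) (by simp [ovr])
  have h2 : cmb ((0:ℚ):ℝ) ((0:ℚ):ℝ) (wit univ []) (wit univ []) = (KB.zero : KB X) := by
    apply KB.ext'
    intro x
    rw [cmb_apply (by simp)]
    simp
  rwa [h2] at h1

theorem neg_mem (H : GoodM C β g N 𝒜 J) {h : KB X} (hh : h ∈ C.KN N) :
    cmb (-1) 0 h h ∈ C.KN N := by
  have := H.cmbq (-1) 0 hh hh
  simpa using this

theorem conv_mem (H : GoodM C β g N 𝒜 J) {h k : KB X} (hh : h ∈ C.KN N) (hk : k ∈ C.KN N)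
    {t : ℝ} (ht0 : 0 ≤ t) (ht1 : t ≤ 1) : cmb t (1 - t) h k ∈ C.KN N := by
  let cp : ℝ → ℝ := fun t => max 0 (min 1 t)
  have hcp : ∀ t, |cp t| + |1 - cp t| ≤ 1 := by
    intro t
    have h1 : 0 ≤ cp t := le_max_left _ _
    have h2 : cp t ≤ 1 := max_le zero_le_one (min_le_left _ _)
    rw [abs_of_nonneg h1, abs_of_nonneg (by linarith)]
    linarith
  have hc : Continuous cp := continuous_const.max (continuous_const.min continuous_id)
  have hF : Continuous fun t => cmb (cp t) (1 - cp t) h k := by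
    apply KB.continuous_of
    intro x
    simp_rw [cmb_apply (hcp _)]
    exact (hc.mul continuous_const).add ((continuous_const.sub hc).mul continuous_const)
  have hcl : IsClosed {t : ℝ | cmb (cp t) (1 - cp t) h k ∈ C.KN N} := (C.KN_closed N).preimage hF
  have hall : ∀ t : ℝ, cmb (cp t) (1 - cp t) h k ∈ C.KN N := by
    intro t
    refine Rat.denseRange_cast.induction_on (p := fun t => cmb (cp t) (1 - cp t) h k ∈ C.KN N) t hcl ?_
    intro q
    have := H.cmbq (max 0 (min 1 q)) (1 - max 0 (min 1 q)) hh hk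
    have e : cp (q : ℝ) = ((max 0 (min 1 q) : ℚ) : ℝ) := by
      simp [cp]
    rw [e]
    have e2 : (1 : ℝ) - ((max 0 (min 1 q) : ℚ) : ℝ) = ((1 - max 0 (min 1 q) : ℚ) : ℝ) := by
      push_cast; ring
    rw [e2]
    exact this
  have := hall t
  have e : cp t = t := by
    simp only [cp]
    rw [min_eq_right ht1, max_eq_right ht0]
  rwa [e] at this

/-- the bipolar step -/
theorem bipolar (H : GoodM C β g N 𝒜 J) {φ : KB X}
    (hφ : ∀ u : X, ∀ t : ℝ, 0 < t → (∀ w ∈ C.KN N, |w.1 u| ≤ t) → φ.1 u ≤ t) : φ ∈ C.KN N := by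
  by_contra hcon
  let T : Set (WeakDual ℝ X) := Subtype.val '' (C.KN N)
  have hT1 : Convex ℝ T := by
    rintro _ ⟨h, hh, rfl⟩ _ ⟨k, hk, rfl⟩ a b ha hb hab
    refine ⟨cmb a (1 - a) h k, H.conv_mem hh hk ha (by linarith), ?_⟩
    apply DFunLike.ext
    intro x
    have hb' : b = 1 - a := by linarith
    subst hb'
    rw [cmb_apply (by rw [abs_of_nonneg ha, abs_of_nonneg hb]; linarith)]
    rfl
  have hT2 : IsClosed T := ((C.KN_closed N).isCompact.image continuous_subtype_val).isClosed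
  have hT3 : φ.1 ∉ T := by
    rintro ⟨h, hh, he⟩
    exact hcon (Subtype.ext he ▸ hh)
  haveI : LocallyConvexSpace ℝ (WeakDual ℝ X) := (WeakDual.withSeminorms ℝ X).toLocallyConvexSpace
  obtain ⟨F, t, hFt, htF⟩ := geometric_hahn_banach_closed_point hT1 hT2 hT3
  obtain ⟨u, hu⟩ := LinearMap.dualEmbedding_surjective (topDualPairing ℝ X) F
  have hFu : ∀ ψ : WeakDual ℝ X, F ψ = ψ u := by
    intro ψ
    rw [← hu]
    rfl
  have h0 : 0 < t := by
    have := hFt KB.zero.1 ⟨_, H.zero_mem, rfl⟩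
    rw [hFu] at this
    simpa using this
  have h1 : φ.1 u ≤ t := by
    apply hφ u t h0
    intro w hw
    rw [abs_le]
    constructor
    · have := hFt _ ⟨_, H.neg_mem hw, rfl⟩
      rw [hFu, cmb_apply (by simp)] at this
      linarith
    · have := hFt _ ⟨_, hw, rfl⟩
      rw [hFu] at this
      exact this.le
  rw [hFu] at htF
  linarith

theorem approx (H : GoodM C β g N 𝒜 J) (x : X) {ε : ℝ} (hε : 0 < ε) :
    ∃ y ∈ Submodule.span ℝ N, ∀ w ∈ C.KN N, |w.1 x - w.1 y| ≤ ε := by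
  let KK := {w : KB X // w ∈ C.KN N}
  haveI : CompactSpace KK := isCompact_iff_compactSpace.1 (C.KN_closed N).isCompact
  let T : X →ₗ[ℝ] C(KK, ℝ) :=
    { toFun := fun u => ⟨fun w => w.1.1 u, (KB.cont u).comp continuous_subtype_val⟩
      map_add' := fun u v => by ext w; simp
      map_smul' := fun c u => by ext w; simp }
  have hT : ∀ u (w : KK), T u w = w.1.1 u := fun u w => rfl
  by_cases hmem : T x ∈ closure ((Submodule.span ℝ N).map T : Set C(KK, ℝ))
  · rw [Metric.mem_closure_iff] at hmem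
    obtain ⟨_, ⟨y, hy, rfl⟩, hyd⟩ := hmem ε hε
    refine ⟨y, hy, fun w hw => ?_⟩
    have h1 := ContinuousMap.norm_coe_le_norm (T x - T y) ⟨w, hw⟩
    rw [dist_eq_norm] at hyd
    rw [ContinuousMap.sub_apply, hT, hT, Real.norm_eq_abs] at h1
    exact h1.trans hyd.le
  · exfalso
    have hcl : IsClosed (closure ((Submodule.span ℝ N).map T : Set C(KK, ℝ))) := isClosed_closure
    have hconv : Convex ℝ (closure ((Submodule.span ℝ N).map T : Set C(KK, ℝ))) :=
      (Submodule.convex _).closure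
    obtain ⟨Φ, t, hΦt, htΦ⟩ := geometric_hahn_banach_closed_point hconv hcl hmem
    have hzero : ∀ y ∈ Submodule.span ℝ N, Φ (T y) = 0 := by
      intro y hy
      by_contra hne
      have h1 := hΦt (T (((t + 1) / Φ (T y)) • y)) (subset_closure ⟨_, Submodule.smul_mem _ _ hy, rfl⟩)
      rw [map_smul, map_smul, smul_eq_mul, div_mul_cancel₀ _ hne] at h1
      linarith
    have h0t : 0 < t := by
      have := hΦt (T 0) (subset_closure ⟨0, Submodule.zero_mem _, rfl⟩)
      simpa using this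
    let c : ℝ := (‖Φ‖ + 1)⁻¹
    have hc : 0 < c := by positivity
    have hbound : ∀ u, |c * Φ (T u)| ≤ ‖T u‖ := by
      intro u
      rw [abs_mul, abs_of_pos hc]
      have h1 : |Φ (T u)| ≤ ‖Φ‖ * ‖T u‖ := Φ.le_opNorm _
      calc c * |Φ (T u)| ≤ c * (‖Φ‖ * ‖T u‖) := by gcongr
        _ = (c * ‖Φ‖) * ‖T u‖ := by ring
        _ ≤ 1 * ‖T u‖ := by
          gcongr
          have : c * (‖Φ‖ + 1) = 1 := inv_mul_cancel₀ (by positivity)
          linarith
        _ = ‖T u‖ := one_mul _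
    have hTu : ∀ u, ‖T u‖ ≤ ‖u‖ := by
      intro u
      rw [ContinuousMap.norm_le _ (norm_nonneg _)]
      intro w
      exact KB.bd w.1 u
    let φ : KB X := KB.ofLin (c • (Φ.toLinearMap ∘ₗ T)) (fun u => (hbound u).trans (hTu u))
    have hφa : ∀ u, φ.1 u = c * Φ (T u) := fun u => rfl
    have hφ : φ ∈ C.KN N := by
      apply H.bipolar
      intro u t ht hw
      rw [hφa]
      refine (le_abs_self _).trans ((hbound u).trans ?_)
      rw [ContinuousMap.norm_le _ ht.le]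
      intro w
      exact hw w.1 w.2
    have hφ0 : φ = KB.zero := by
      apply C.KN_sep hφ H.zero_mem
      intro y hy
      rw [hφa, hzero y (Submodule.subset_span hy)]
      simp
    have h2 : φ.1 x = 0 := by rw [hφ0]; rfl
    rw [hφa] at h2
    have h3 : Φ (T x) = 0 := (mul_eq_zero.1 h2).resolve_left hc.ne'
    rw [h3] at htΦ
    linarith

/-- agreement on `N` extends to the closed span -/
theorem agree {N : Set X} {h k : KB X} (H : ∀ x ∈ N, h.1 x = k.1 x) :
    ∀ y ∈ (Submodule.span ℝ N).topologicalClosure, h.1 y = k.1 y := by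
  intro y hy
  have h1 : ∀ y ∈ Submodule.span ℝ N, h.1 y = k.1 y := by
    intro y hy
    induction hy using Submodule.span_induction with
    | mem x hx => exact H x hx
    | zero => simp
    | add x y _ _ hx hy => rw [map_add, map_add, hx, hy]
    | smul a x _ hx => rw [map_smul, map_smul, hx]
  have hcl : IsClosed {y : X | h.1 y = k.1 y} := by
    have hc : ∀ h : KB X, Continuous fun y : X => h.1 y := by
      intro h
      exact ContinuousLinearMap.continuous (h.1 : X →L[ℝ] ℝ)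
    exact isClosed_eq (hc h) (hc k)
  exact (closure_minimal (s := (Submodule.span ℝ N : Set X)) h1 hcl) hy

theorem exists_retr (H : GoodM C β g N 𝒜 J) (f : KB X) : ∃ k ∈ C.KN N, ∀ x ∈ N, k.1 x = f.1 x := by
  obtain ⟨k, hk, hx⟩ := C.retr isClosed_univ H.wclu (mem_univ f)
  exact ⟨k, hk.2, hx⟩

theorem retr_mem (H : GoodM C β g N 𝒜 J) {A : Closeds (KB X)} (hA : A ∈ 𝒜) {f k : KB X}
    (hf : f ∈ (A : Set (KB X))) (hk : k ∈ C.KN N) (hx : ∀ x ∈ N, k.1 x = f.1 x) : k ∈ (A : Set (KB X)) := by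
  obtain ⟨k', hk', hx'⟩ := C.retr A.isClosed (H.wcl A hA) hf
  have : k = k' := C.KN_sep hk hk'.2 (fun x hxN => by rw [hx x hxN, hx' x hxN])
  rw [this]
  exact hk'.1

theorem proj [CompleteSpace X] (H : GoodM C β g N 𝒜 J) (x : X) :
    ∃ y ∈ (Submodule.span ℝ N).topologicalClosure, (∀ w ∈ C.KN N, w.1 y = w.1 x) ∧ ‖y‖ ≤ ‖x‖ := by
  rcases subsingleton_or_nontrivial X with hX | hX
  · refine ⟨0, Submodule.zero_mem _, fun w _ => ?_, by simp⟩
    rw [Subsingleton.elim x 0]
  have hnorm : ∀ y ∈ (Submodule.span ℝ N).topologicalClosure, ∃ w ∈ C.KN N, w.1 y = ‖y‖ := by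
    intro y hy
    obtain ⟨f, hf⟩ := exists_norming y
    obtain ⟨k, hk, hkx⟩ := H.exists_retr f
    exact ⟨k, hk, by rw [agree hkx y hy, hf]⟩
  choose y hy hyw using fun n : ℕ => H.approx x (ε := 1 / (n + 1 : ℝ)) (by positivity)
  have hcl : ∀ n, y n ∈ (Submodule.span ℝ N).topologicalClosure := fun n =>
    Submodule.le_topologicalClosure _ (hy n)
  have hb : Tendsto (fun n : ℕ => 2 * (1 / (n + 1 : ℝ))) atTop (𝓝 0) := by
    have := (tendsto_one_div_add_atTop_nhds_zero_nat (𝕜 := ℝ)).const_mul 2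
    simpa using this
  have hcau : CauchySeq y := by
    refine cauchySeq_of_le_tendsto_0 (fun n : ℕ => 2 * (1 / (n + 1 : ℝ))) ?_ hb
    intro n m K hn hm
    rw [dist_eq_norm]
    obtain ⟨w, hw, hwy⟩ := hnorm (y n - y m) (Submodule.sub_mem _ (hcl n) (hcl m))
    rw [← hwy, map_sub]
    have h1 := (abs_le.1 (hyw n w hw)).1
    have h2 := (abs_le.1 (hyw m w hw)).2
    have h3 : 1 / (n + 1 : ℝ) ≤ 1 / (K + 1 : ℝ) := by gcongr
    have h4 : 1 / (m + 1 : ℝ) ≤ 1 / (K + 1 : ℝ) := by gcongr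
    linarith
  obtain ⟨yl, hyl⟩ := cauchySeq_tendsto_of_complete hcau
  have hylc : yl ∈ (Submodule.span ℝ N).topologicalClosure :=
    (Submodule.isClosed_topologicalClosure _).mem_of_tendsto hyl (Eventually.of_forall hcl)
  have hw : ∀ w ∈ C.KN N, w.1 yl = w.1 x := by
    intro w hw
    have hwc : Continuous fun y : X => w.1 y := ContinuousLinearMap.continuous (w.1 : X →L[ℝ] ℝ)
    have h1 : Tendsto (fun n => |w.1 x - w.1 (y n)|) atTop (𝓝 |w.1 x - w.1 yl|) :=
      ((tendsto_const_nhds.sub ((hwc.tendsto yl).comp hyl))).abs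
    have h2 : |w.1 x - w.1 yl| ≤ 0 :=
      le_of_tendsto_of_tendsto h1 (tendsto_one_div_add_atTop_nhds_zero_nat (𝕜 := ℝ))
        (Eventually.of_forall fun n => hyw n w hw)
    have h3 : w.1 x - w.1 yl = 0 := abs_eq_zero.1 (le_antisymm h2 (abs_nonneg _))
    linarith
  refine ⟨yl, hylc, hw, ?_⟩
  obtain ⟨w, hwK, hwy⟩ := hnorm yl hylc
  rw [← hwy, hw w hwK]
  exact (le_abs_self _).trans (KB.bd w x)

/-- the main consequence of the bump -/
theorem small [CompleteSpace X] (H : GoodM C β g N 𝒜 J) {h : KB X} (hh : h ∈ C.KN N) {x : X}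
    (hx : ∀ w ∈ C.KN N, w.1 x = 0) {ε : ℝ} (hε : 0 < ε) :
    ∃ A ∈ 𝒜, h ∈ (A : Set (KB X)) ∧ ∀ w ∈ (A : Set (KB X)), |w.1 x| < ε := by
  by_contra hcon
  push Not at hcon
  let ι := {A : Closeds (KB X) // A ∈ 𝒜 ∧ h ∈ (A : Set (KB X))}
  haveI : Nonempty ι := ⟨⟨⊤, H.top, by simp⟩⟩
  have hB : IsClosed {w : KB X | ε ≤ |w.1 x|} := isClosed_le continuous_const (KB.cont x).abs
  have hne : (⋂ i : ι, (i.1 : Set (KB X)) ∩ {w : KB X | ε ≤ |w.1 x|}).Nonempty := by
    apply IsCompact.nonempty_iInter_of_directed_nonempty_isCompact_isClosed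
    · intro i j
      refine ⟨⟨i.1 ⊓ j.1, H.inter _ i.2.1 _ j.2.1, ⟨i.2.2, j.2.2⟩⟩, ?_, ?_⟩
      · rintro w ⟨hw1, hw2⟩
        exact ⟨hw1.1, hw2⟩
      · rintro w ⟨hw1, hw2⟩
        exact ⟨hw1.2, hw2⟩
    · intro i
      obtain ⟨w, hw1, hw2⟩ := hcon i.1 i.2.1 i.2.2
      exact ⟨w, hw1, hw2⟩
    · intro i; exact (i.1.isClosed.inter hB).isCompact
    · intro i; exact i.1.isClosed.inter hB
  obtain ⟨hs, hhs⟩ := hne
  simp only [mem_iInter] at hhs
  have heq : h = hs := by
    refine β.game (N := N) (𝒜 := SetLike.coe '' 𝒜) ⟨⊤, H.top, by simp⟩ ?_ ?_ ?_ ?_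
    · rintro _ ⟨A, hA, rfl⟩ G hG hhA hnk
      have hk := H.kern A hA G hG
      have : ∃ c, ovr N c ∧ h ∈ cnd c ∧ ¬ (β.ker A G ∩ cnd c).Nonempty := by
        by_contra hcon2
        push Not at hcon2
        exact hnk (C.mem_of_cnd (β.ker_closed A.isClosed G) (H.wcl _ hk) hh hcon2)
      obtain ⟨c, hc, hhc, hne⟩ := this
      exact H.cov A hA c hc G hG hne h hhA hhc
    · rintro _ ⟨A, hA, rfl⟩ x hx q
      exact ⟨slc A x q, H.slice A hA x hx q, rfl⟩
    · rintro _ ⟨A, hA, rfl⟩ G hG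
      exact ⟨kr β A G, H.kern A hA G hG, rfl⟩
    · rintro _ ⟨A, hA, rfl⟩ hhA
      exact (hhs ⟨A, hA, hhA⟩).1
  have h1 : ε ≤ |hs.1 x| := (hhs ⟨⊤, H.top, by simp⟩).2
  rw [← heq, hx h hh, abs_zero] at h1
  linarith

/-- points whose tags lie in `J` are in the closed span of `N` -/
theorem mem_span_of_tags [CompleteSpace X] (H : GoodM C β g N 𝒜 J)
    (htot : ∀ z, (∀ i, (g i).1 z = 0) → z = 0) {z : X} (hz : ∀ i, (g i).1 z ≠ 0 → i ∈ J) :
    z ∈ (Submodule.span ℝ N).topologicalClosure := by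
  obtain ⟨y, hy, hyw, -⟩ := H.proj z
  have : z - y = 0 := by
    apply htot
    intro i
    rw [map_sub]
    by_cases hi : i ∈ J
    · rw [hyw (g i) (H.tag i hi), sub_self]
    · have h1 : (g i).1 z = 0 := by
        by_contra hne
        exact hi (hz i hne)
      have h2 : (g i).1 y = (KB.zero : KB X).1 y := by
        apply agree (N := N) _ y hy
        intro x hx
        by_contra hne
        exact hi (H.pts x hx i (by simpa using hne))
      rw [h1, h2]
      simp
  rw [sub_eq_zero.1 this]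
  exact hy

end GoodM

end Pool.Agent.H827
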