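import Mathlib

/-! Weighted square sums. -/

set_option linter.unusedSectionVars false
set_option linter.deprecated false

namespace Pool.Agent.H827
open Set Topology Filter

/-- admissible weights -/
def Wt (c : ℕ → ℝ) : Prop := ∀ i, 0 ≤ c i ∧ c i ≤ 10 * (1/10)^i

noncomputable def qq (c u : ℕ → ℝ) : ℝ := ∑' i, c i * (u i * u i)
noncomputable def pp (c u v : ℕ → ℝ) : ℝ := ∑' i, c i * (u i * v i)

theorem geo_sum : Summable (fun i : ℕ => (10 : ℝ) * (1/10)^i) :=
  (summable_geometric_of_lt_one (by norm_num) (by norm_num)).mul_left 10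

theorem geo_tsum : ∑' i : ℕ, (10 : ℝ) * (1/10)^i = 100/9 := by
  rw [tsum_mul_left, tsum_geometric_of_lt_one (by norm_num) (by norm_num)]
  norm_num

theorem summ {c u v : ℕ → ℝ} (hc : Wt c) {B B' : ℝ} (hu : ∀ i, |u i| ≤ B) (hv : ∀ i, |v i| ≤ B') :
    Summable fun i => c i * (u i * v i) := by
  refine Summable.of_norm_bounded (g := fun i : ℕ => 10 * (1/10)^i * (B * B')) (geo_sum.mul_right _) ?_
  intro i
  have hB : 0 ≤ B := (abs_nonneg _).trans (hu i)
  rw [Real.norm_eq_abs, abs_mul, abs_mul, abs_of_nonneg (hc i).1]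
  have := hu i
  have := hv i
  gcongr
  exact (hc i).2

theorem qq_nonneg {c u : ℕ → ℝ} (hc : Wt c) : 0 ≤ qq c u :=
  tsum_nonneg fun i => mul_nonneg (hc i).1 (mul_self_nonneg _)

theorem qq_le {c u : ℕ → ℝ} (hc : Wt c) {B : ℝ} (hu : ∀ i, |u i| ≤ B) : qq c u ≤ 100/9 * B^2 := by
  have h1 : qq c u ≤ ∑' i : ℕ, 10 * (1/10 : ℝ)^i * (B^2) := by
    refine (summ hc hu hu).tsum_le_tsum ?_ (geo_sum.mul_right _)
    intro i
    have h2 : u i * u i ≤ B^2 := by
      have := hu i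
      have h0 := abs_nonneg (u i)
      have hB : 0 ≤ B := h0.trans this
      rw [← abs_mul_abs_self, sq]
      gcongr
    have := hc i
    have h3 := mul_self_nonneg (u i)
    gcongr
    exact this.2
  rw [tsum_mul_right, geo_tsum] at h1
  exact h1

theorem sqrt_qq_le {c u : ℕ → ℝ} (hc : Wt c) {B : ℝ} (hu : ∀ i, |u i| ≤ B) : √(qq c u) ≤ 4 * B := by
  have hB : 0 ≤ B := (abs_nonneg _).trans (hu 0)
  rw [Real.sqrt_le_left (by positivity)]
  refine (qq_le hc hu).trans ?_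
  nlinarith [sq_nonneg B]

theorem qq_add {c u v : ℕ → ℝ} (hc : Wt c) {B B' : ℝ} (hu : ∀ i, |u i| ≤ B) (hv : ∀ i, |v i| ≤ B') (s : ℝ) :
    qq c (fun i => u i + s * v i) = qq c u + 2 * s * pp c u v + s^2 * qq c v := by
  have h1 := (summ hc hu hu).hasSum
  have h2 := (summ hc hu hv).hasSum
  have h3 := (summ hc hv hv).hasSum
  have h4 := (h1.add (h2.mul_left (2 * s))).add (h3.mul_left (s^2))
  have h5 : (fun i => c i * ((u i + s * v i) * (u i + s * v i))) =
      fun b => c b * (u b * u b) + 2 * s * (c b * (u b * v b)) + s ^ 2 * (c b * (v b * v b)) := by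
    funext i
    ring
  rw [← h5] at h4
  exact h4.tsum_eq

theorem cauchy {c u v : ℕ → ℝ} (hc : Wt c) {B B' : ℝ} (hu : ∀ i, |u i| ≤ B) (hv : ∀ i, |v i| ≤ B') :
    (pp c u v)^2 ≤ qq c u * qq c v := by
  have h : ∀ s : ℝ, 0 ≤ qq c v * (s * s) + 2 * pp c u v * s + qq c u := by
    intro s
    have := qq_add hc hu hv s
    have h2 : 0 ≤ qq c (fun i => u i + s * v i) := qq_nonneg hc
    nlinarith
  have := discrim_le_zero h
  unfold discrim at this
  nlinarith

theorem minkowski {c u v : ℕ → ℝ} (hc : Wt c) {B B' : ℝ} (hu : ∀ i, |u i| ≤ B) (hv : ∀ i, |v i| ≤ B') :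
    √(qq c (fun i => u i + v i)) ≤ √(qq c u) + √(qq c v) := by
  have h1 := qq_add hc hu hv 1
  have h2 := cauchy hc hu hv
  have h0 : (fun i => u i + 1 * v i) = fun i => u i + v i := by funext i; ring
  rw [h0] at h1
  rw [Real.sqrt_le_left (by positivity)]
  have h3 : pp c u v ≤ √(qq c u) * √(qq c v) := by
    rw [← Real.sqrt_mul (qq_nonneg hc)]
    exact Real.le_sqrt_of_sq_le h2
  have h4 := Real.sq_sqrt (qq_nonneg (u := u) hc)
  have h5 := Real.sq_sqrt (qq_nonneg (u := v) hc)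
  nlinarith

theorem qq_smul {c u : ℕ → ℝ} (s : ℝ) : qq c (fun i => s * u i) = s^2 * qq c u := by
  unfold qq
  rw [← tsum_mul_left]
  congr 1
  funext i
  ring

theorem sqrt_qq_smul {c u : ℕ → ℝ} (s : ℝ) : √(qq c (fun i => s * u i)) = |s| * √(qq c u) := by
  rw [qq_smul, Real.sqrt_mul (sq_nonneg s), Real.sqrt_sq_eq_abs]

/-- second difference of the square root -/
theorem sqrt_second {c u v : ℕ → ℝ} (hc : Wt c) {B B' : ℝ} (hu : ∀ i, |u i| ≤ B) (hv : ∀ i, |v i| ≤ B')
    (hpos : 0 < qq c u) (s : ℝ) :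
    √(qq c (fun i => u i + s * v i)) + √(qq c (fun i => u i - s * v i)) - 2 * √(qq c u) ≤
      s^2 * (qq c v / √(qq c u)) := by
  have h1 := qq_add hc hu hv s
  have h2 := qq_add hc hu hv (-s)
  have h0 : (fun i => u i + -s * v i) = fun i => u i - s * v i := by funext i; ring
  rw [h0] at h2
  set a := qq c (fun i => u i + s * v i) with ha
  set b := qq c (fun i => u i - s * v i) with hb
  set r := √(qq c u) with hr
  have hr0 : 0 < r := Real.sqrt_pos.2 hpos
  have hr2 : r^2 = qq c u := Real.sq_sqrt hpos.le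
  have ha0 : 0 ≤ a := qq_nonneg hc
  have hb0 : 0 ≤ b := qq_nonneg hc
  have hv0 : 0 ≤ qq c v := qq_nonneg hc
  have h3 : √a + √b ≤ 2 * r + s^2 * (qq c v / r) := by
    have h4 : (√a + √b)^2 ≤ 2 * (a + b) := by
      have e1 := Real.sq_sqrt ha0
      have e2 := Real.sq_sqrt hb0
      nlinarith [sq_nonneg (√a - √b)]
    have h5 : 2 * (a + b) = 4 * (r^2 + s^2 * qq c v) := by
      rw [h1, h2, hr2]; ring
    have h6 : 4 * (r^2 + s^2 * qq c v) ≤ (2 * r + s^2 * (qq c v / r))^2 := by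
      have e1 : (2 * r + s^2 * (qq c v / r))^2 = 4 * (r^2 + s^2 * qq c v) + (s^2 * (qq c v / r))^2 := by
        field_simp
        ring
      rw [e1]
      nlinarith [sq_nonneg (s^2 * (qq c v / r))]
    have h7 : (√a + √b)^2 ≤ (2 * r + s^2 * (qq c v / r))^2 := by linarith
    exact le_of_sq_le_sq h7 (by positivity)
  linarith

/-- changing one coordinate -/
theorem qq_single {c u : ℕ → ℝ} (hc : Wt c) {B : ℝ} (hu : ∀ i, |u i| ≤ B) (k : ℕ) (s : ℝ) :
    qq c (fun i => u i + s * (if i = k then 1 else 0)) = qq c u + c k * (2 * s * u k + s^2) := by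
  have hv : ∀ i, |(if i = k then (1:ℝ) else 0)| ≤ 1 := by
    intro i; split_ifs <;> simp
  rw [qq_add hc hu hv s]
  have h1 : pp c u (fun i => if i = k then 1 else 0) = c k * u k := by
    unfold pp
    rw [tsum_eq_single k]
    · simp
    · intro i hi; simp [hi]
  have h2 : qq c (fun i => if i = k then 1 else 0) = c k := by
    unfold qq
    rw [tsum_eq_single k]
    · simp
    · intro i hi; simp [hi]
  rw [h1, h2]
  ring

/-- comparison of weights -/
theorem qq_mono_wt {c c' u : ℕ → ℝ} (hc : Wt c) (hc' : Wt c') {B : ℝ} (hu : ∀ i, |u i| ≤ B)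
    (h : ∀ i, c i ≤ c' i) : qq c u ≤ qq c' u := by
  refine (summ hc hu hu).tsum_le_tsum ?_ (summ hc' hu hu)
  intro i
  have := mul_self_nonneg (u i)
  gcongr
  exact h i

theorem wt_eq_of_qq_eq {c c' u : ℕ → ℝ} (hc : Wt c) (hc' : Wt c') {B : ℝ} (hu : ∀ i, |u i| ≤ B)
    (h : ∀ i, c i ≤ c' i) (hne : ∀ i, u i ≠ 0) (he : qq c' u ≤ qq c u) : ∀ i, c i = c' i := by
  by_contra hcon
  push Not at hcon
  obtain ⟨k, hk⟩ := hcon
  have hlt : c k < c' k := lt_of_le_of_ne (h k) hk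
  have : qq c u < qq c' u := by
    refine (summ hc hu hu).tsum_lt_tsum (i := k) ?_ ?_ (summ hc' hu hu)
    · intro i
      have := mul_self_nonneg (u i)
      show c i * (u i * u i) ≤ c' i * (u i * u i)
      gcongr
      exact h i
    · have := mul_self_pos.2 (hne k)
      show c k * (u k * u k) < c' k * (u k * u k)
      gcongr
  linarith

theorem wt_avg {c c' : ℕ → ℝ} (hc : Wt c) (hc' : Wt c') : Wt (fun i => (c i + c' i)/2) := by
  intro i
  have h1 := hc i
  have h2 := hc' i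
  constructor
  · linarith
  · show (c i + c' i)/2 ≤ _
    linarith

theorem qq_avg {c c' u : ℕ → ℝ} (hc : Wt c) (hc' : Wt c') {B : ℝ} (hu : ∀ i, |u i| ≤ B) :
    qq (fun i => (c i + c' i)/2) u = (qq c u + qq c' u)/2 := by
  have h1 := (summ hc hu hu).hasSum
  have h2 := (summ hc' hu hu).hasSum
  have h3 := (h1.add h2).div_const 2
  have h5 : (fun i => (c i + c' i)/2 * (u i * u i)) =
      fun b => (c b * (u b * u b) + c' b * (u b * u b))/2 := by
    funext i
    ring
  rw [← h5] at h3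
  exact h3.tsum_eq

theorem sqrt_avg {a b : ℝ} (ha : 0 ≤ a) (hb : 0 ≤ b) : (√a + √b)/2 ≤ √((a+b)/2) := by
  apply Real.le_sqrt_of_sq_le
  have e1 := Real.sq_sqrt ha
  have e2 := Real.sq_sqrt hb
  nlinarith [sq_nonneg (√a - √b)]

theorem sqrt_add_le' {a b : ℝ} (ha : 0 ≤ a) (hb : 0 ≤ b) : √(a+b) ≤ √a + √b := by
  rw [Real.sqrt_le_left (by positivity)]
  have e1 := Real.sq_sqrt ha
  have e2 := Real.sq_sqrt hb
  have := mul_nonneg (Real.sqrt_nonneg a) (Real.sqrt_nonneg b)
  nlinarith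

end Pool.Agent.H827
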