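import Mathlib
import Pool.Agent.Helper827.W5
import Pool.Agent.Helper827.W6a

/-! The functional `R` and the seminorm `NN`. -/

set_option linter.unusedSectionVars false
set_option linter.style.haveILetI false
set_option linter.deprecated false

namespace Pool.Agent.H827
open Set Topology Filter TopologicalSpace

variable {X : Type} [NormedAddCommGroup X] [NormedSpace ℝ X] {I : Type}

noncomputable def enumS (T : Set (UU X I)) : ℕ → UU X I :=
  open Classical in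
  if h : T.Countable ∧ T.Nonempty then (h.1.exists_eq_range h.2).choose else fun _ => UU.cs ⊤

theorem enumS_range {T : Set (UU X I)} (hc : T.Countable) (hn : T.Nonempty) : T = range (enumS T) := by
  have h : T.Countable ∧ T.Nonempty := ⟨hc, hn⟩
  unfold enumS
  rw [dif_pos h]
  exact (h.1.exists_eq_range h.2).choose_spec

noncomputable def negK (f : KB X) : KB X := cmb (-1) 0 f f
noncomputable def midK (f f' : KB X) : KB X := cmb (1/2) (1/2) f f'

theorem negK_apply (f : KB X) (x : X) : (negK f).1 x = - f.1 x := by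
  unfold negK
  rw [cmb_apply (by simp)]
  ring

theorem midK_apply (f f' : KB X) (x : X) : (midK f f').1 x = (f.1 x + f'.1 x)/2 := by
  unfold midK
  rw [cmb_apply (by norm_num)]
  ring

/-- the elementary functions -/
noncomputable def psi : UU X I → ℕ → KB X → ℝ
  | .pt x, _, f => (f.1 x/(1+‖x‖))^2
  | .cs A, j, f => sSup {t | ∃ x : X, ‖x‖ ≤ 1 ∧ (∀ w ∈ (A : Set (KB X)), |w.1 x| ≤ 1/(j+1:ℝ)) ∧ t = |f.1 x|}
  | .ix _, _, _ => 0

theorem psi_bdd (A : Closeds (KB X)) (j : ℕ) (f : KB X) :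
    BddAbove {t | ∃ x : X, ‖x‖ ≤ 1 ∧ (∀ w ∈ (A : Set (KB X)), |w.1 x| ≤ 1/(j+1:ℝ)) ∧ t = |f.1 x|} := by
  refine ⟨1, ?_⟩
  rintro t ⟨x, hx, _, rfl⟩
  exact (KB.bd f x).trans hx

theorem le_psi {A : Closeds (KB X)} {j : ℕ} (f : KB X) {x : X} (hx : ‖x‖ ≤ 1)
    (hA : ∀ w ∈ (A : Set (KB X)), |w.1 x| ≤ 1/(j+1:ℝ)) : |f.1 x| ≤ psi (UU.cs A : UU X I) j f :=
  le_csSup (psi_bdd A j f) ⟨x, hx, hA, rfl⟩

theorem psi_le {A : Closeds (KB X)} {j : ℕ} {f : KB X} {c : ℝ}
    (H : ∀ x : X, ‖x‖ ≤ 1 → (∀ w ∈ (A : Set (KB X)), |w.1 x| ≤ 1/(j+1:ℝ)) → |f.1 x| ≤ c) :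
    psi (UU.cs A : UU X I) j f ≤ c := by
  apply csSup_le
  · refine ⟨_, 0, by simp, fun w _ => ?_, rfl⟩
    rw [map_zero, abs_zero]
    positivity
  · rintro t ⟨x, hx, hA, rfl⟩
    exact H x hx hA

theorem psi_nonneg (u : UU X I) (j : ℕ) (f : KB X) : 0 ≤ psi u j f := by
  cases u with
  | pt x => exact sq_nonneg _
  | cs A =>
    have := le_psi (I := I) (A := A) (j := j) f (x := 0) (by simp) (fun w _ => by
      rw [map_zero, abs_zero]; positivity)
    exact (abs_nonneg _).trans this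
  | ix i => exact le_rfl

theorem psi_le_one (u : UU X I) (j : ℕ) (f : KB X) : psi u j f ≤ 1 := by
  cases u with
  | pt x =>
    show (f.1 x/(1+‖x‖))^2 ≤ 1
    rw [sq_le_one_iff_abs_le_one, abs_div, abs_of_nonneg (by positivity : 0 ≤ 1 + ‖x‖), div_le_one (by positivity)]
    linarith [KB.bd f x]
  | cs A => exact psi_le fun x hx _ => (KB.bd f x).trans hx
  | ix i => exact zero_le_one

theorem psi_neg (u : UU X I) (j : ℕ) (f : KB X) : psi u j (negK f) = psi u j f := by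
  cases u with
  | pt x =>
    show ((negK f).1 x/(1+‖x‖))^2 = (f.1 x/(1+‖x‖))^2
    rw [negK_apply]
    ring
  | cs A =>
    show sSup _ = sSup _
    congr 1
    ext t
    simp only [mem_setOf_eq, negK_apply, abs_neg]
  | ix i => rfl

theorem psi_mid (u : UU X I) (j : ℕ) (f f' : KB X) :
    psi u j (midK f f') ≤ (psi u j f + psi u j f')/2 := by
  cases u with
  | pt x =>
    show ((midK f f').1 x/(1+‖x‖))^2 ≤ ((f.1 x/(1+‖x‖))^2 + (f'.1 x/(1+‖x‖))^2)/2
    rw [midK_apply]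
    have : ((f.1 x + f'.1 x)/2)/(1+‖x‖) = (f.1 x/(1+‖x‖) + f'.1 x/(1+‖x‖))/2 := by ring
    rw [this]
    nlinarith [sq_nonneg (f.1 x/(1+‖x‖) - f'.1 x/(1+‖x‖))]
  | cs A =>
    apply psi_le
    intro x hx hA
    have h1 := le_psi (I := I) (j := j) f hx hA
    have h2 := le_psi (I := I) (j := j) f' hx hA
    rw [midK_apply, abs_div, abs_of_pos (by norm_num : (0:ℝ) < 2)]
    have := abs_add_le (f.1 x) (f'.1 x)
    linarith
  | ix i =>
    show (0:ℝ) ≤ (0 + 0)/2
    norm_num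

/-- equality at points -/
theorem psi_mid_eq {x : X} {j : ℕ} {f f' : KB X}
    (h : psi (UU.pt x : UU X I) j (midK f f') = (psi (UU.pt x : UU X I) j f + psi (UU.pt x : UU X I) j f')/2) :
    f.1 x = f'.1 x := by
  have h' : ((midK f f').1 x/(1+‖x‖))^2 = ((f.1 x/(1+‖x‖))^2 + (f'.1 x/(1+‖x‖))^2)/2 := h
  rw [midK_apply] at h'
  have e : ((f.1 x + f'.1 x)/2)/(1+‖x‖) = (f.1 x/(1+‖x‖) + f'.1 x/(1+‖x‖))/2 := by ring
  rw [e] at h'
  have h2 : (f.1 x/(1+‖x‖) - f'.1 x/(1+‖x‖))^2 = 0 := by nlinarith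
  have h3 : f.1 x/(1+‖x‖) - f'.1 x/(1+‖x‖) = 0 := by
    exact pow_eq_zero_iff (two_ne_zero) |>.1 h2
  rw [← sub_div, div_eq_zero_iff] at h3
  rcases h3 with h3 | h3
  · linarith
  · have := norm_nonneg x
    linarith

theorem psi_lsc (u : UU X I) (j : ℕ) : LowerSemicontinuous (psi u j : KB X → ℝ) := by
  cases u with
  | pt x =>
    apply Continuous.lowerSemicontinuous
    exact ((KB.cont x).div_const _).pow 2
  | cs A =>
    intro f y hy
    have hy' : y < sSup {t | ∃ x : X, ‖x‖ ≤ 1 ∧ (∀ w ∈ (A : Set (KB X)), |w.1 x| ≤ 1/(j+1:ℝ)) ∧ t = |f.1 x|} := hy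
    obtain ⟨t, ⟨x, hx, hA, rfl⟩, hyt⟩ := exists_lt_of_lt_csSup (by
      refine ⟨_, 0, by simp, fun w _ => ?_, rfl⟩
      rw [map_zero, abs_zero]
      positivity) hy'
    have := (tendsto_order.1 ((KB.cont x).abs.tendsto f)).1 y hyt
    filter_upwards [this] with f' hf'
    exact hf'.trans_le (le_psi f' hx hA)
  | ix i =>
    exact continuous_const.lowerSemicontinuous

/-! ### weighted sums of `[0,1]` sequences -/

noncomputable def SS (φ : ℕ → ℝ) : ℝ := ∑' k, (1/2 : ℝ)^(k+1) * φ k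

theorem ss_geo : Summable (fun k : ℕ => (1/2 : ℝ)^(k+1)) := by
  have := (summable_geometric_of_lt_one (r := (1/2:ℝ)) (by norm_num) (by norm_num)).mul_left (1/2)
  refine this.congr fun k => ?_
  ring

theorem ss_geo_tsum : ∑' k : ℕ, (1/2 : ℝ)^(k+1) = 1 := by
  have h : (fun k : ℕ => (1/2 : ℝ)^(k+1)) = fun k => 1/2 * (1/2)^k := by
    funext k; ring
  rw [h, tsum_mul_left, tsum_geometric_of_lt_one (by norm_num) (by norm_num)]
  norm_num

theorem ss_summ {φ : ℕ → ℝ} (h0 : ∀ k, 0 ≤ φ k) (h1 : ∀ k, φ k ≤ 1) :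
    Summable fun k => (1/2 : ℝ)^(k+1) * φ k := by
  refine Summable.of_nonneg_of_le (fun k => mul_nonneg (by positivity) (h0 k)) (fun k => ?_) ss_geo
  have : (0:ℝ) ≤ (1/2)^(k+1) := by positivity
  calc (1/2 : ℝ)^(k+1) * φ k ≤ (1/2)^(k+1) * 1 := by gcongr; exact h1 k
    _ = _ := mul_one _

theorem ss_nonneg {φ : ℕ → ℝ} (h0 : ∀ k, 0 ≤ φ k) : 0 ≤ SS φ :=
  tsum_nonneg fun k => mul_nonneg (by positivity) (h0 k)

theorem ss_mono {φ φ' : ℕ → ℝ} (h0 : ∀ k, 0 ≤ φ k) (h1 : ∀ k, φ' k ≤ 1) (h : ∀ k, φ k ≤ φ' k) :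
    SS φ ≤ SS φ' := by
  refine (ss_summ h0 (fun k => (h k).trans (h1 k))).tsum_le_tsum (fun k => ?_) (ss_summ (fun k => (h0 k).trans (h k)) h1)
  have := h k
  gcongr

theorem ss_le_one {φ : ℕ → ℝ} (h0 : ∀ k, 0 ≤ φ k) (h1 : ∀ k, φ k ≤ 1) : SS φ ≤ 1 := by
  have := ss_mono (φ' := fun _ => 1) h0 (fun _ => le_rfl) h1
  refine this.trans ?_
  unfold SS
  simp only [mul_one]
  rw [ss_geo_tsum]

theorem ss_eq {φ φ' : ℕ → ℝ} (h0 : ∀ k, 0 ≤ φ k) (h1 : ∀ k, φ' k ≤ 1) (h : ∀ k, φ k ≤ φ' k)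
    (he : SS φ' ≤ SS φ) : ∀ k, φ k = φ' k := by
  by_contra hcon
  push Not at hcon
  obtain ⟨k, hk⟩ := hcon
  have hlt : φ k < φ' k := lt_of_le_of_ne (h k) hk
  have : SS φ < SS φ' := by
    refine (ss_summ h0 (fun k => (h k).trans (h1 k))).tsum_lt_tsum (i := k) (fun k => ?_) ?_
      (ss_summ (fun k => (h0 k).trans (h k)) h1)
    · have := h k
      show (1/2 : ℝ)^(k+1) * φ k ≤ (1/2 : ℝ)^(k+1) * φ' k
      gcongr
    · show (1/2 : ℝ)^(k+1) * φ k < (1/2 : ℝ)^(k+1) * φ' k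
      gcongr
  linarith

theorem ss_avg {φ φ' : ℕ → ℝ} (h0 : ∀ k, 0 ≤ φ k) (h1 : ∀ k, φ k ≤ 1) (h0' : ∀ k, 0 ≤ φ' k) (h1' : ∀ k, φ' k ≤ 1) :
    SS (fun k => (φ k + φ' k)/2) = (SS φ + SS φ')/2 := by
  have a1 := (ss_summ h0 h1).hasSum
  have a2 := (ss_summ h0' h1').hasSum
  have h3 := (a1.add a2).div_const 2
  have h5 : (fun i => (1/2:ℝ)^(i+1) * ((φ i + φ' i)/2)) =
      fun b => ((1/2:ℝ)^(b+1) * φ b + (1/2:ℝ)^(b+1) * φ' b)/2 := by
    funext i
    ring
  rw [← h5] at h3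
  exact h3.tsum_eq

section
variable (C : Cors X) (β : Bump X) (g : I → KB X)

/-- sequence of elementary functions attached to `D` -/
noncomputable def phi (D : Set I) (f : KB X) (k : ℕ) : ℝ :=
  psi (enumS (cl (opM C β g) (UU.ix '' D)) (Nat.unpair k).1) (Nat.unpair k).2 f

noncomputable def Rr (D : Set I) (f : KB X) : ℝ := SS (phi C β g D f)

theorem phi_nonneg (D : Set I) (f : KB X) (k : ℕ) : 0 ≤ phi C β g D f k := psi_nonneg _ _ _
theorem phi_le_one (D : Set I) (f : KB X) (k : ℕ) : phi C β g D f k ≤ 1 := psi_le_one _ _ _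

theorem Rr_nonneg (D : Set I) (f : KB X) : 0 ≤ Rr C β g D f := ss_nonneg (phi_nonneg C β g D f)
theorem Rr_le_one (D : Set I) (f : KB X) : Rr C β g D f ≤ 1 :=
  ss_le_one (phi_nonneg C β g D f) (phi_le_one C β g D f)

theorem Rr_neg (D : Set I) (f : KB X) : Rr C β g D (negK f) = Rr C β g D f := by
  unfold Rr
  congr 1
  funext k
  exact psi_neg _ _ _

theorem Rr_mid (D : Set I) (f f' : KB X) :
    Rr C β g D (midK f f') ≤ (Rr C β g D f + Rr C β g D f')/2 := by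
  unfold Rr
  rw [← ss_avg (phi_nonneg C β g D f) (phi_le_one C β g D f) (phi_nonneg C β g D f') (phi_le_one C β g D f')]
  refine ss_mono (phi_nonneg C β g D _) (fun k => ?_) (fun k => psi_mid _ _ _ _)
  have := phi_le_one C β g D f k
  have := phi_le_one C β g D f' k
  linarith

theorem Rr_lsc (D : Set I) : LowerSemicontinuous (Rr C β g D) := by
  intro f y hy
  have hs := (ss_summ (phi_nonneg C β g D f) (phi_le_one C β g D f)).hasSum
  have ht := hs.tendsto_sum_nat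
  obtain ⟨n, hn⟩ := ((tendsto_order.1 ht).1 y hy).exists
  have hl : LowerSemicontinuous (fun f => ∑ k ∈ Finset.range n, (1/2 : ℝ)^(k+1) * phi C β g D f k) := by
    apply lowerSemicontinuous_sum
    intro k _
    intro f' y' hy'
    have h1 : y' / (1/2 : ℝ)^(k+1) < phi C β g D f' k := by
      rw [div_lt_iff₀ (by positivity)]
      linarith
    have h2 := psi_lsc (enumS (cl (opM C β g) (UU.ix '' D)) (Nat.unpair k).1) (Nat.unpair k).2 f' _ h1
    filter_upwards [h2] with f'' h3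
    have h4 : y' / (1/2 : ℝ)^(k+1) < phi C β g D f'' k := h3
    rw [div_lt_iff₀ (by positivity)] at h4
    linarith
  filter_upwards [hl f y hn] with f' hf'
  refine hf'.trans_le ?_
  exact (ss_summ (phi_nonneg C β g D f') (phi_le_one C β g D f')).sum_le_tsum _
    (fun k _ => mul_nonneg (by positivity) (phi_nonneg C β g D f' k))

theorem cl_ne (D : Set I) : (cl (opM C β g) (UU.ix '' D)).Nonempty :=
  ⟨UU.cs ⊤, (goodM_cl C β g (UU.ix '' D)).top⟩

theorem phi_cover {D : Set I} (hc : (cl (opM C β g) (UU.ix '' D)).Countable) {u : UU X I}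
    (hu : u ∈ cl (opM C β g) (UU.ix '' D)) (j : ℕ) : ∃ k, ∀ f, phi C β g D f k = psi u j f := by
  rw [enumS_range hc (cl_ne C β g D)] at hu
  obtain ⟨n, hn⟩ := hu
  refine ⟨Nat.pair n j, fun f => ?_⟩
  unfold phi
  rw [Nat.unpair_pair]
  simp only
  rw [hn]

theorem phi_mem {D : Set I} (hc : (cl (opM C β g) (UU.ix '' D)).Countable) (k : ℕ) :
    enumS (cl (opM C β g) (UU.ix '' D)) k ∈ cl (opM C β g) (UU.ix '' D) := by
  have h1 := enumS_range hc (cl_ne C β g D)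
  have h2 : enumS (cl (opM C β g) (UU.ix '' D)) k ∈ range (enumS (cl (opM C β g) (UU.ix '' D))) :=
    mem_range_self k
  rw [← h1] at h2
  exact h2

theorem Rr_le {D : Set I} (hc : (cl (opM C β g) (UU.ix '' D)).Countable) {f h : KB X}
    (H : ∀ u ∈ cl (opM C β g) (UU.ix '' D), ∀ j, psi u j h ≤ psi u j f) :
    Rr C β g D h ≤ Rr C β g D f :=
  ss_mono (phi_nonneg C β g D h) (phi_le_one C β g D f) (fun k => H _ (phi_mem C β g hc _) _)

theorem Rr_eq {D : Set I} (hc : (cl (opM C β g) (UU.ix '' D)).Countable) {f h : KB X}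
    (H : ∀ u ∈ cl (opM C β g) (UU.ix '' D), ∀ j, psi u j h ≤ psi u j f)
    (he : Rr C β g D f ≤ Rr C β g D h) :
    ∀ u ∈ cl (opM C β g) (UU.ix '' D), ∀ j, psi u j h = psi u j f := by
  intro u hu j
  have h1 := ss_eq (phi_nonneg C β g D h) (phi_le_one C β g D f) (fun k => H _ (phi_mem C β g hc _) _) he
  obtain ⟨k, hk⟩ := phi_cover C β g hc hu j
  rw [← hk, ← hk]
  exact h1 k

theorem Rr_mid_eq {D : Set I} (hc : (cl (opM C β g) (UU.ix '' D)).Countable) {f f' : KB X}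
    (he : (Rr C β g D f + Rr C β g D f')/2 ≤ Rr C β g D (midK f f')) :
    ∀ u ∈ cl (opM C β g) (UU.ix '' D), ∀ j, psi u j (midK f f') = (psi u j f + psi u j f')/2 := by
  intro u hu j
  have h1 : ∀ k, phi C β g D (midK f f') k = (phi C β g D f k + phi C β g D f' k)/2 := by
    refine ss_eq (phi_nonneg C β g D _) (fun k => ?_) (fun k => psi_mid _ _ _ _) ?_
    · have := phi_le_one C β g D f k
      have := phi_le_one C β g D f' k
      linarith
    · rw [ss_avg (phi_nonneg C β g D f) (phi_le_one C β g D f) (phi_nonneg C β g D f') (phi_le_one C β g D f')]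
      exact he
  obtain ⟨k, hk⟩ := phi_cover C β g hc hu j
  rw [← hk, ← hk, ← hk]
  exact h1 k

/-! ### the functionals `J` and the seminorm -/

noncomputable def wts (e : ℕ → I) (f : KB X) (i : ℕ) : ℝ := (1/10)^i * (10 - Rr C β g (e '' Iic i) f)

theorem wts_bd (e : ℕ → I) (f : KB X) (i : ℕ) : 9 * (1/10)^i ≤ wts C β g e f i := by
  unfold wts
  have := Rr_le_one C β g (e '' Iic i) f
  have h : (0:ℝ) ≤ (1/10)^i := by positivity
  nlinarith

theorem wts_wt (e : ℕ → I) (f : KB X) : Wt (wts C β g e f) := by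
  intro i
  have h1 := wts_bd C β g e f i
  have h : (0:ℝ) ≤ (1/10)^i := by positivity
  refine ⟨by nlinarith, ?_⟩
  unfold wts
  have := Rr_nonneg C β g (e '' Iic i) f
  nlinarith

noncomputable def JJ (e : ℕ → I) (f : KB X) (z : X) (y : I → ℝ) : ℝ :=
  f.1 z + √(qq (wts C β g e f) (fun i => y (e i)))

noncomputable def NN (z : X) (y : I → ℝ) : ℝ :=
  sSup {t | ∃ (e : ℕ → I) (f : KB X), Function.Injective e ∧ t = JJ C β g e f z y}

theorem JJ_le {y : I → ℝ} {B : ℝ} (hy : ∀ i, |y i| ≤ B) (e : ℕ → I) (f : KB X) (z : X) :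
    JJ C β g e f z y ≤ ‖z‖ + 4 * B := by
  unfold JJ
  have h1 := (le_abs_self _).trans (KB.bd f z)
  have h2 := sqrt_qq_le (wts_wt C β g e f) (u := fun i => y (e i)) (fun i => hy (e i))
  linarith

theorem NN_bdd {y : I → ℝ} {B : ℝ} (hy : ∀ i, |y i| ≤ B) (z : X) :
    BddAbove {t | ∃ (e : ℕ → I) (f : KB X), Function.Injective e ∧ t = JJ C β g e f z y} := by
  refine ⟨‖z‖ + 4 * B, ?_⟩
  rintro t ⟨e, f, _, rfl⟩
  exact JJ_le C β g hy e f z

theorem JJ_le_NN {y : I → ℝ} {B : ℝ} (hy : ∀ i, |y i| ≤ B) {e : ℕ → I} (he : Function.Injective e)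
    (f : KB X) (z : X) : JJ C β g e f z y ≤ NN C β g z y :=
  le_csSup (NN_bdd C β g hy z) ⟨e, f, he, rfl⟩

theorem NN_le [Infinite I] {z : X} {y : I → ℝ} {c : ℝ}
    (H : ∀ e : ℕ → I, Function.Injective e → ∀ f, JJ C β g e f z y ≤ c) : NN C β g z y ≤ c := by
  apply csSup_le
  · exact ⟨_, Infinite.natEmbedding I, KB.zero, (Infinite.natEmbedding I).injective, rfl⟩
  · rintro t ⟨e, f, he, rfl⟩
    exact H e he f

theorem exists_JJ [Infinite I] {z : X} {y : I → ℝ} {c : ℝ} (h : c < NN C β g z y) :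
    ∃ (e : ℕ → I) (f : KB X), Function.Injective e ∧ c < JJ C β g e f z y := by
  have hne : {t | ∃ (e : ℕ → I) (f : KB X), Function.Injective e ∧ t = JJ C β g e f z y}.Nonempty :=
    ⟨_, Infinite.natEmbedding I, KB.zero, (Infinite.natEmbedding I).injective, rfl⟩
  obtain ⟨t, ⟨e, f, he, rfl⟩, ht⟩ := exists_lt_of_lt_csSup hne h
  exact ⟨e, f, he, ht⟩

theorem NN_le' [Infinite I] {y : I → ℝ} {B : ℝ} (hy : ∀ i, |y i| ≤ B) (z : X) :
    NN C β g z y ≤ ‖z‖ + 4 * B :=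
  NN_le C β g fun e _ f => JJ_le C β g hy e f z

theorem JJ_add {y y' : I → ℝ} {B B' : ℝ} (hy : ∀ i, |y i| ≤ B) (hy' : ∀ i, |y' i| ≤ B')
    (e : ℕ → I) (f : KB X) (z z' : X) :
    JJ C β g e f (z + z') (fun i => y i + y' i) ≤ JJ C β g e f z y + JJ C β g e f z' y' := by
  unfold JJ
  rw [map_add]
  have := minkowski (wts_wt C β g e f) (u := fun i => y (e i)) (v := fun i => y' (e i)) (fun i => hy (e i)) (fun i => hy' (e i))
  linarith

theorem JJ_smul_nonneg {s : ℝ} (hs : 0 ≤ s) (e : ℕ → I) (f : KB X) (z : X) (y : I → ℝ) :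
    JJ C β g e f (s • z) (fun i => s * y i) = s * JJ C β g e f z y := by
  unfold JJ
  rw [map_smul, sqrt_qq_smul (u := fun i => y (e i)), abs_of_nonneg hs, smul_eq_mul]
  ring

theorem JJ_neg (e : ℕ → I) (f : KB X) (z : X) (y : I → ℝ) :
    JJ C β g e (negK f) (-z) (fun i => -y i) = JJ C β g e f z y := by
  unfold JJ
  have h1 : wts C β g e (negK f) = wts C β g e f := by
    funext i
    unfold wts
    rw [Rr_neg]
  have h2 : qq (wts C β g e f) (fun i => -y (e i)) = qq (wts C β g e f) (fun i => y (e i)) := by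
    unfold qq
    congr 1
    funext i
    ring
  rw [h1, h2, negK_apply, map_neg, neg_neg]

theorem NN_add [Infinite I] {y y' : I → ℝ} {B B' : ℝ} (hy : ∀ i, |y i| ≤ B) (hy' : ∀ i, |y' i| ≤ B') (z z' : X) :
    NN C β g (z + z') (fun i => y i + y' i) ≤ NN C β g z y + NN C β g z' y' := by
  apply NN_le
  intro e he f
  exact (JJ_add C β g hy hy' e f z z').trans
    (add_le_add (JJ_le_NN C β g hy he f z) (JJ_le_NN C β g hy' he f z'))

theorem NN_neg [Infinite I] {y : I → ℝ} {B : ℝ} (hy : ∀ i, |y i| ≤ B) (z : X) :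
    NN C β g (-z) (fun i => -y i) ≤ NN C β g z y := by
  apply NN_le
  intro e he f
  have h1 := JJ_neg C β g e f (-z) (fun i => -y i)
  simp only [neg_neg] at h1
  rw [← h1]
  exact JJ_le_NN C β g hy he _ z

theorem NN_smul_le [Infinite I] {y : I → ℝ} {B : ℝ} (hy : ∀ i, |y i| ≤ B) (z : X) (s : ℝ) :
    NN C β g (s • z) (fun i => s * y i) ≤ |s| * NN C β g z y := by
  have pos : ∀ s : ℝ, 0 ≤ s → NN C β g (s • z) (fun i => s * y i) ≤ s * NN C β g z y := by
    intro s hs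
    apply NN_le
    intro e he f
    rw [JJ_smul_nonneg C β g hs]
    exact mul_le_mul_of_nonneg_left (JJ_le_NN C β g hy he f z) hs
  rcases le_total 0 s with hs | hs
  · rw [abs_of_nonneg hs]
    exact pos s hs
  · rw [abs_of_nonpos hs]
    refine le_trans ?_ (pos (-s) (by linarith))
    have hy2 : ∀ i, |(-s) * y i| ≤ (-s) * B := by
      intro i
      rw [abs_mul, abs_of_nonneg (by linarith : 0 ≤ -s)]
      have := hy i
      have hs' : 0 ≤ -s := by linarith
      gcongr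
    have h1 := NN_neg C β g hy2 ((-s) • z)
    have e1 : -((-s) • z) = s • z := by rw [neg_smul, neg_neg]
    have e2 : (fun i => -((-s) * y i)) = fun i => s * y i := by funext i; ring
    rw [e1, e2] at h1
    exact h1

theorem norm_le_NN [Infinite I] {y : I → ℝ} {B : ℝ} (hy : ∀ i, |y i| ≤ B) (z : X) :
    ‖z‖ ≤ NN C β g z y := by
  by_cases hz : z = 0
  · rw [hz, norm_zero]
    have h1 := JJ_le_NN C β g hy (Infinite.natEmbedding I).injective KB.zero 0
    refine le_trans ?_ h1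
    unfold JJ
    rw [map_zero, zero_add]
    exact Real.sqrt_nonneg _
  · haveI : Nontrivial X := ⟨z, 0, hz⟩
    obtain ⟨f, hf⟩ := exists_norming z
    have h1 := JJ_le_NN C β g hy (Infinite.natEmbedding I).injective f z
    refine le_trans ?_ h1
    unfold JJ
    rw [hf]
    linarith [Real.sqrt_nonneg (qq (wts C β g (Infinite.natEmbedding I) f) (fun i => y ((Infinite.natEmbedding I) i)))]

end

end Pool.Agent.H827
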