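import Mathlib
import Pool.Agent.Helper827.W6b

/-! Greedy choice, stabilisation, upper semicontinuity. -/

set_option linter.unusedSectionVars false
set_option linter.style.haveILetI false
set_option linter.deprecated false

namespace Pool.Agent.H827
open Set Topology Filter TopologicalSpace

variable {X : Type} [NormedAddCommGroup X] [NormedSpace ℝ X] {I : Type}

section
variable (C : Cors X) (β : Bump X) (g : I → KB X)

theorem wts_congr {e e' : ℕ → I} {n : ℕ} (h : ∀ j ≤ n, e j = e' j) (f : KB X) :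
    wts C β g e f n = wts C β g e' f n := by
  unfold wts
  have : e '' Iic n = e' '' Iic n := image_congr fun j hj => h j hj
  rw [this]

theorem greedy0 {y : I → ℝ} {B : ℝ} (hB : 0 < B) (hy : ∀ i, |y i| ≤ B) {e : ℕ → I}
    (he : Function.Injective e) (f : KB X) (z : X) (i : ℕ) {vs : I} (hvs : vs ∉ e '' Iio i)
    (hmax : ∀ v, v ∉ e '' Iio i → |y v| ≤ |y vs|) (hlt : y (e i)^2 < y vs^2/2) :
    JJ C β g e f z y + (1/10)^i * (y vs)^2 / (4 * B) ≤ NN C β g z y := by
  classical
  let e' : ℕ → I := fun j => Equiv.swap (e i) vs (e j)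
  have he' : Function.Injective e' := (Equiv.swap (e i) vs).injective.comp he
  have h1 : ∀ j < i, e' j = e j := by
    intro j hj
    apply Equiv.swap_apply_of_ne_of_ne
    · intro h
      exact absurd (he h) (ne_of_lt hj)
    · intro h
      exact hvs ⟨j, hj, h⟩
  have h2 : e' i = vs := Equiv.swap_apply_left _ _
  refine le_trans ?_ (JJ_le_NN C β g hy he' f z)
  unfold JJ
  set c := wts C β g e f with hc
  set c' := wts C β g e' f with hc'
  have wc : Wt c := wts_wt C β g e f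
  have wc' : Wt c' := wts_wt C β g e' f
  have hcc : ∀ j < i, c' j = c j := fun j hj =>
    wts_congr C β g (fun k hk => h1 k (lt_of_le_of_lt hk hj)) f
  have s1 := summ wc (u := fun i => y (e i)) (v := fun i => y (e i)) (fun i => hy _) (fun i => hy _)
  have s2 := summ wc' (u := fun i => y (e' i)) (v := fun i => y (e' i)) (fun i => hy _) (fun i => hy _)
  set Q := qq c (fun i => y (e i)) with hQ
  set Q' := qq c' (fun i => y (e' i)) with hQ'
  have p10 : (0:ℝ) < (1/10)^i := by positivity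
  -- upper bound for Q
  have u1 : Q = ∑ j ∈ Finset.range (i+1), c j * (y (e j) * y (e j)) + ∑' j, c (j + (i+1)) * (y (e (j+(i+1))) * y (e (j+(i+1)))) :=
    (s1.sum_add_tsum_nat_add (i+1)).symm
  have u2 : ∑' j, c (j + (i+1)) * (y (e (j+(i+1))) * y (e (j+(i+1)))) ≤ (1/10)^i * (10/9) * (y vs)^2 := by
    have hs : Summable fun j : ℕ => 10 * (1/10 : ℝ)^j * ((1/10)^(i+1) * (y vs)^2) := geo_sum.mul_right _
    have h3 : ∑' j, c (j + (i+1)) * (y (e (j+(i+1))) * y (e (j+(i+1)))) ≤
        ∑' j : ℕ, 10 * (1/10 : ℝ)^j * ((1/10)^(i+1) * (y vs)^2) := by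
      refine ((summable_nat_add_iff (i+1)).2 s1).tsum_le_tsum (fun j => ?_) hs
      have h4 : y (e (j+(i+1))) * y (e (j+(i+1))) ≤ (y vs)^2 := by
        have h5 : e (j+(i+1)) ∉ e '' Iio i := by
          rintro ⟨k, hk, hke⟩
          have := he hke
          have hk' : k < i := hk
          omega
        have h6 := hmax _ h5
        rw [← abs_mul_abs_self, ← sq_abs (y vs), sq]
        gcongr
      have h5 := (wc (j + (i+1))).2
      have h6 := (wc (j + (i+1))).1
      calc c (j + (i+1)) * (y (e (j+(i+1))) * y (e (j+(i+1)))) ≤ (10 * (1/10)^(j+(i+1))) * (y vs)^2 := by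
            have := mul_self_nonneg (y (e (j+(i+1))))
            gcongr
        _ = 10 * (1/10 : ℝ)^j * ((1/10)^(i+1) * (y vs)^2) := by ring
    rw [tsum_mul_right, geo_tsum] at h3
    refine h3.trans (le_of_eq ?_)
    ring
  have u3 : c i * (y (e i) * y (e i)) ≤ (1/10)^i * 5 * (y vs)^2 := by
    have h5 := (wc i).2
    have h6 := (wc i).1
    calc c i * (y (e i) * y (e i)) ≤ (10 * (1/10)^i) * (y (e i) * y (e i)) := by
          have := mul_self_nonneg (y (e i))
          gcongr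
      _ ≤ (10 * (1/10)^i) * (y vs^2/2) := by
          gcongr
          nlinarith
      _ = _ := by ring
  have u4 : ∑ j ∈ Finset.range (i+1), c' j * (y (e' j) * y (e' j)) ≤ Q' :=
    s2.sum_le_tsum _ (fun j _ => mul_nonneg (wc' j).1 (mul_self_nonneg _))
  have u5 : 9 * (1/10)^i * (y vs)^2 ≤ c' i * (y (e' i) * y (e' i)) := by
    rw [h2, ← sq]
    have := wts_bd C β g e' f i
    gcongr
  have u6 : ∑ j ∈ Finset.range i, c' j * (y (e' j) * y (e' j)) = ∑ j ∈ Finset.range i, c j * (y (e j) * y (e j)) := by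
    apply Finset.sum_congr rfl
    intro j hj
    rw [hcc j (Finset.mem_range.1 hj), h1 j (Finset.mem_range.1 hj)]
  rw [Finset.sum_range_succ] at u1 u4
  have gain : 2 * ((1/10)^i * (y vs)^2) ≤ Q' - Q := by
    have hnn : 0 ≤ (1/10 : ℝ)^i * (y vs)^2 := by positivity
    nlinarith
  have hQ0 : 0 ≤ Q := qq_nonneg wc
  have hQ0' : 0 ≤ Q' := qq_nonneg wc'
  have b1 : √Q ≤ 4 * B := sqrt_qq_le wc (u := fun i => y (e i)) (fun i => hy _)
  have b2 : √Q' ≤ 4 * B := sqrt_qq_le wc' (u := fun i => y (e' i)) (fun i => hy _)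
  have e1 := Real.sq_sqrt hQ0
  have e2 := Real.sq_sqrt hQ0'
  have hge : √Q ≤ √Q' := by
    apply Real.sqrt_le_sqrt
    have hnn : 0 ≤ (1/10 : ℝ)^i * (y vs)^2 := by positivity
    linarith
  have h7 : (√Q' - √Q) * (√Q' + √Q) = Q' - Q := by nlinarith
  have h8 : (√Q' - √Q) * (√Q' + √Q) ≤ (√Q' - √Q) * (8 * B) := by
    apply mul_le_mul_of_nonneg_left _ (by linarith)
    linarith
  have h9 : (1/10)^i * (y vs)^2 / (4 * B) ≤ √Q' - √Q := by
    rw [div_le_iff₀ (by positivity)]
    nlinarith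
  linarith

theorem greedy {y : I → ℝ} {B : ℝ} (hB : 0 < B) (hy : ∀ i, |y i| ≤ B)
    (hyc : ∀ ε > 0, {v | ε < |y v|}.Finite) {e : ℕ → I}
    (he : Function.Injective e) (f : KB X) (z : X) (i : ℕ) {v0 : I} (hv0 : v0 ∉ e '' Iio i)
    (hlt : y (e i)^2 < y v0^2/2) :
    JJ C β g e f z y + (1/10)^i * (y v0)^2 / (4 * B) ≤ NN C β g z y := by
  have hv0pos : 0 < |y v0| := by
    rw [abs_pos]
    intro h0
    rw [h0] at hlt
    nlinarith [sq_nonneg (y (e i))]
  let S : Set I := {v | v ∉ e '' Iio i ∧ |y v0| ≤ |y v|}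
  have hSfin : S.Finite := by
    apply (hyc (|y v0|/2) (by positivity)).subset
    rintro v ⟨_, hv⟩
    show |y v0|/2 < |y v|
    linarith
  obtain ⟨vs, ⟨hvs1, hvs2⟩, hvs3⟩ := Set.exists_max_image S (fun v => |y v|) hSfin ⟨v0, hv0, le_rfl⟩
  have hmax : ∀ v, v ∉ e '' Iio i → |y v| ≤ |y vs| := by
    intro v hv
    by_cases hvv : |y v0| ≤ |y v|
    · exact hvs3 v ⟨hv, hvv⟩
    · push Not at hvv
      linarith
  have hsq : y v0^2 ≤ y vs^2 := by
    rw [← sq_abs (y v0), ← sq_abs (y vs)]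
    gcongr
  have h1 := greedy0 C β g hB hy he f z i hvs1 hmax (by linarith)
  refine le_trans ?_ h1
  gcongr

theorem stab [Infinite I] (𝒰 : Ultrafilter ℕ) {y : I → ℝ} {B : ℝ} (hB : 0 < B) (hy : ∀ i, |y i| ≤ B)
    (hyc : ∀ ε > 0, {v | ε < |y v|}.Finite) (hinf : {v | y v ≠ 0}.Infinite)
    {e : ℕ → ℕ → I} (he : ∀ m, Function.Injective (e m)) {f : ℕ → KB X} {z : X}
    (hlim : Tendsto (fun m => JJ C β g (e m) (f m) z y) 𝒰 (𝓝 (NN C β g z y))) :
    ∃ e' : ℕ → I, Function.Injective e' ∧ range e' = {v | y v ≠ 0} ∧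
      ∀ i, ∀ᶠ m in (𝒰 : Filter ℕ), e m i = e' i := by
  -- eventually no big gap
  have gap : ∀ i, ∀ v0 : I, y v0 ≠ 0 → ∀ T : Set I, v0 ∉ T → (∀ᶠ m in (𝒰 : Filter ℕ), e m '' Iio i = T) →
      ∀ᶠ m in (𝒰 : Filter ℕ), y v0^2/2 ≤ y (e m i)^2 := by
    intro i v0 hv0 T hT hev
    have hpos : 0 < (1/10 : ℝ)^i * (y v0)^2 / (4 * B) := by
      have := sq_pos_of_ne_zero hv0
      positivity
    have h1 := (tendsto_order.1 hlim).1 (NN C β g z y - (1/10 : ℝ)^i * (y v0)^2 / (4 * B)) (by linarith)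
    filter_upwards [h1, hev] with m hm1 hm2
    by_contra hcon
    push Not at hcon
    have := greedy C β g hB hy hyc (he m) (f m) z i (v0 := v0) (by rw [hm2]; exact hT) hcon
    linarith
  have main : ∀ i, ∃ v, y v ≠ 0 ∧ ∀ᶠ m in (𝒰 : Filter ℕ), e m i = v := by
    intro i
    induction i using Nat.strong_induction_on with
    | _ i ih =>
      choose! w hw using ih
      have hall : ∀ᶠ m in (𝒰 : Filter ℕ), ∀ j ∈ Iio i, e m j = w j :=
        (Filter.eventually_all_finite (Set.finite_Iio i)).2 (fun j hj => (hw j hj).2)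
      have himg : ∀ᶠ m in (𝒰 : Filter ℕ), e m '' Iio i = w '' Iio i := by
        filter_upwards [hall] with m hm
        exact image_congr hm
      obtain ⟨v0, hv0, hv0T⟩ := (hinf.diff ((Set.finite_Iio i).image w)).nonempty
      have h1 := gap i v0 hv0 _ hv0T himg
      have hfin : {v | y v0^2/2 ≤ y v^2}.Finite := by
        have hp : 0 < |y v0| := abs_pos.2 hv0
        apply (hyc (|y v0|/2) (by positivity)).subset
        intro v hv
        show |y v0|/2 < |y v|
        have hv' : y v0^2/2 ≤ y v^2 := hv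
        rw [← sq_abs (y v0), ← sq_abs (y v)] at hv'
        by_contra hcon
        push Not at hcon
        have := abs_nonneg (y v)
        nlinarith
      have h2 : ∀ᶠ m in (𝒰 : Filter ℕ), ∃ v ∈ {v | y v0^2/2 ≤ y v^2}, e m i = v := by
        filter_upwards [h1] with m hm
        exact ⟨e m i, hm, rfl⟩
      obtain ⟨v, hv, hev⟩ := (Ultrafilter.eventually_exists_mem_iff hfin).1 h2
      refine ⟨v, ?_, hev⟩
      intro h0
      have hv' : y v0^2/2 ≤ y v^2 := hv
      rw [h0] at hv'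
      have := sq_pos_of_ne_zero (a := y v0) hv0
      nlinarith
  choose e' he'0 he' using main
  refine ⟨e', ?_, ?_, he'⟩
  · intro i j hij
    obtain ⟨m, hm1, hm2⟩ := ((he' i).and (he' j)).exists
    apply he m
    rw [hm1, hm2, hij]
  · apply Subset.antisymm
    · rintro _ ⟨i, rfl⟩
      exact he'0 i
    · intro v hv
      by_contra hcon
      have hinj : Function.Injective e' := by
        intro i j hij
        obtain ⟨m, hm1, hm2⟩ := ((he' i).and (he' j)).exists
        apply he m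
        rw [hm1, hm2, hij]
      have hv' : y v ≠ 0 := hv
      have hbig : ∀ i, y v^2/2 ≤ y (e' i)^2 := by
        intro i
        have himg : ∀ᶠ m in (𝒰 : Filter ℕ), e m '' Iio i = e' '' Iio i := by
          have hall : ∀ᶠ m in (𝒰 : Filter ℕ), ∀ j ∈ Iio i, e m j = e' j :=
            (Filter.eventually_all_finite (Set.finite_Iio i)).2 (fun j hj => he' j)
          filter_upwards [hall] with m hm
          exact image_congr hm
        have hvT : v ∉ e' '' Iio i := by
          rintro ⟨j, _, hj⟩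
          exact hcon ⟨j, hj⟩
        have h1 := gap i v hv _ hvT himg
        obtain ⟨m, hm1, hm2⟩ := (h1.and (he' i)).exists
        rw [hm2] at hm1
        exact hm1
      have hp : 0 < |y v| := abs_pos.2 hv'
      have hsub : range e' ⊆ {u | |y v|/2 < |y u|} := by
        rintro _ ⟨i, rfl⟩
        have := hbig i
        rw [← sq_abs (y v), ← sq_abs (y (e' i))] at this
        show |y v|/2 < |y (e' i)|
        by_contra hcon
        push Not at hcon
        have := abs_nonneg (y (e' i))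
        nlinarith
      exact (Set.infinite_range_of_injective hinj) ((hyc (|y v|/2) (by positivity)).subset hsub)

theorem usc (𝒰 : Ultrafilter ℕ) {y : I → ℝ} {B : ℝ} (hy : ∀ i, |y i| ≤ B) {z : X}
    {e : ℕ → ℕ → I} {f : ℕ → KB X} {e' : ℕ → I} {f' : KB X}
    (he' : ∀ i, ∀ᶠ m in (𝒰 : Filter ℕ), e m i = e' i) (hf' : Tendsto f 𝒰 (𝓝 f')) {ε : ℝ} (hε : 0 < ε) :
    ∀ᶠ m in (𝒰 : Filter ℕ), JJ C β g (e m) (f m) z y ≤ JJ C β g e' f' z y + ε := by
  -- eta
  set η : ℝ := (ε/2)^2 with hη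
  have hη0 : 0 < η := by positivity
  have hB0 : 0 ≤ B^2 := sq_nonneg B
  set c' := wts C β g e' f' with hc'
  have wc' : Wt c' := wts_wt C β g e' f'
  have s2 := summ wc' (u := fun i => y (e' i)) (v := fun i => y (e' i)) (fun i => hy _) (fun i => hy _)
  -- tail
  obtain ⟨n, hn⟩ : ∃ n : ℕ, (1/10 : ℝ)^n * (100/9 * B^2) ≤ η/2 := by
    have ht : Tendsto (fun n : ℕ => (1/10 : ℝ)^n * (100/9 * B^2)) atTop (𝓝 0) := by
      have := (tendsto_pow_atTop_nhds_zero_of_lt_one (r := (1/10 : ℝ)) (by norm_num) (by norm_num)).mul_const (100/9 * B^2)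
      simpa using this
    obtain ⟨n, hn⟩ := ((tendsto_order.1 ht).2 (η/2) (by positivity)).exists
    exact ⟨n, hn.le⟩
  set ρ : ℝ := η / (2 * (2 * B^2 + 1)) with hρ
  have hρ0 : 0 < ρ := by positivity
  have hall1 : ∀ᶠ m in (𝒰 : Filter ℕ), ∀ j ∈ Iio n, e m j = e' j :=
    (Filter.eventually_all_finite (Set.finite_Iio n)).2 (fun j hj => he' j)
  have hall2 : ∀ᶠ m in (𝒰 : Filter ℕ), ∀ j ∈ Iio n, Rr C β g (e' '' Iic j) f' - ρ < Rr C β g (e' '' Iic j) (f m) := by
    refine (Filter.eventually_all_finite (Set.finite_Iio n)).2 (fun j hj => ?_)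
    exact hf'.eventually (Rr_lsc C β g (e' '' Iic j) f' (Rr C β g (e' '' Iic j) f' - ρ) (by linarith))
  have hfz : ∀ᶠ m in (𝒰 : Filter ℕ), (f m).1 z < f'.1 z + ε/2 := by
    have h1 : Tendsto (fun m => (f m).1 z) 𝒰 (𝓝 (f'.1 z)) := ((KB.cont z).tendsto f').comp hf'
    exact (tendsto_order.1 h1).2 _ (by linarith)
  filter_upwards [hall1, hall2, hfz] with m hm1 hm2 hm3
  set c := wts C β g (e m) (f m) with hc
  have wc : Wt c := wts_wt C β g (e m) (f m)
  have s1 := summ wc (u := fun i => y (e m i)) (v := fun i => y (e m i)) (fun i => hy _) (fun i => hy _)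
  have u1 : qq c (fun i => y (e m i)) = ∑ j ∈ Finset.range n, c j * (y (e m j) * y (e m j)) + ∑' j, c (j + n) * (y (e m (j+n)) * y (e m (j+n))) :=
    (s1.sum_add_tsum_nat_add n).symm
  have u2 : ∑' j, c (j + n) * (y (e m (j+n)) * y (e m (j+n))) ≤ η/2 := by
    have hs : Summable fun j : ℕ => 10 * (1/10 : ℝ)^j * ((1/10)^n * B^2) := geo_sum.mul_right _
    have h3 : ∑' j, c (j + n) * (y (e m (j+n)) * y (e m (j+n))) ≤
        ∑' j : ℕ, 10 * (1/10 : ℝ)^j * ((1/10)^n * B^2) := by
      refine ((summable_nat_add_iff n).2 s1).tsum_le_tsum (fun j => ?_) hs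
      have h4 : y (e m (j+n)) * y (e m (j+n)) ≤ B^2 := by
        have h6 := hy (e m (j+n))
        have hB : 0 ≤ B := (abs_nonneg _).trans h6
        rw [← abs_mul_abs_self, sq]
        gcongr
      have h5 := (wc (j + n)).2
      have h6 := (wc (j + n)).1
      calc c (j + n) * (y (e m (j+n)) * y (e m (j+n))) ≤ (10 * (1/10)^(j+n)) * B^2 := by
            have := mul_self_nonneg (y (e m (j+n)))
            gcongr
        _ = _ := by ring
    rw [tsum_mul_right, geo_tsum] at h3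
    refine h3.trans (le_trans (le_of_eq ?_) hn)
    ring
  have u3 : ∀ j ∈ Finset.range n, c j * (y (e m j) * y (e m j)) ≤ c' j * (y (e' j) * y (e' j)) + (1/10)^j * (ρ * B^2) := by
    intro j hj
    have hj' : j < n := Finset.mem_range.1 hj
    rw [hm1 j hj']
    have h1 : c j = wts C β g e' (f m) j := wts_congr C β g (fun k hk => hm1 k (lt_of_le_of_lt hk hj')) (f m)
    have h2 : c j ≤ c' j + (1/10)^j * ρ := by
      rw [h1, hc']
      unfold wts
      have := hm2 j hj'
      have h0 : (0:ℝ) < (1/10)^j := by positivity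
      nlinarith
    have h3 : y (e' j) * y (e' j) ≤ B^2 := by
      have h6 := hy (e' j)
      have hB : 0 ≤ B := (abs_nonneg _).trans h6
      rw [← abs_mul_abs_self, sq]
      gcongr
    calc c j * (y (e' j) * y (e' j)) ≤ (c' j + (1/10)^j * ρ) * (y (e' j) * y (e' j)) := by
          have := mul_self_nonneg (y (e' j))
          gcongr
      _ = c' j * (y (e' j) * y (e' j)) + (1/10)^j * (ρ * (y (e' j) * y (e' j))) := by ring
      _ ≤ c' j * (y (e' j) * y (e' j)) + (1/10)^j * (ρ * B^2) := by gcongr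
  have u4 : ∑ j ∈ Finset.range n, (1/10 : ℝ)^j * (ρ * B^2) ≤ η/2 := by
    rw [← Finset.sum_mul]
    have h1 : ∑ j ∈ Finset.range n, (1/10 : ℝ)^j ≤ 10/9 := by
      have h2 := (summable_geometric_of_lt_one (r := (1/10 : ℝ)) (by norm_num) (by norm_num)).sum_le_tsum
        (Finset.range n) (fun j _ => by positivity)
      rw [tsum_geometric_of_lt_one (by norm_num) (by norm_num)] at h2
      norm_num at h2 ⊢
      exact h2
    calc (∑ j ∈ Finset.range n, (1/10 : ℝ)^j) * (ρ * B^2) ≤ (10/9) * (ρ * B^2) := by gcongr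
      _ ≤ η/2 := by
        rw [hρ]
        have h3 : (10/9 : ℝ) * (η / (2 * (2 * B^2 + 1)) * B^2) = (η/2) * ((10/9) * B^2 / (2 * B^2 + 1)) := by
          field_simp
        rw [h3]
        have h4 : (10/9) * B^2 / (2 * B^2 + 1) ≤ 1 := by
          rw [div_le_one (by positivity)]
          linarith
        calc (η/2) * ((10/9) * B^2 / (2 * B^2 + 1)) ≤ (η/2) * 1 := by gcongr
          _ = _ := mul_one _
  have u5 : ∑ j ∈ Finset.range n, c' j * (y (e' j) * y (e' j)) ≤ qq c' (fun i => y (e' i)) :=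
    s2.sum_le_tsum _ (fun j _ => mul_nonneg (wc' j).1 (mul_self_nonneg _))
  have u6 := Finset.sum_le_sum u3
  rw [Finset.sum_add_distrib] at u6
  have u7 : qq c (fun i => y (e m i)) ≤ qq c' (fun i => y (e' i)) + η := by linarith
  have u8 : √(qq c (fun i => y (e m i))) ≤ √(qq c' (fun i => y (e' i))) + ε/2 := by
    refine (Real.sqrt_le_sqrt u7).trans ((sqrt_add_le' (qq_nonneg wc') hη0.le).trans ?_)
    rw [hη, Real.sqrt_sq (by positivity)]
  unfold JJ
  linarith

/-- optimal data -/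
structure Opt (e : ℕ → I) (f : KB X) (z : X) (y : I → ℝ) : Prop where
  inj : Function.Injective e
  ran : range e = {v | y v ≠ 0}
  val : JJ C β g e f z y = NN C β g z y

theorem exists_opt [Infinite I] (𝒰 : Ultrafilter ℕ) {y : I → ℝ} {B : ℝ} (hB : 0 < B) (hy : ∀ i, |y i| ≤ B)
    (hyc : ∀ ε > 0, {v | ε < |y v|}.Finite) (hinf : {v | y v ≠ 0}.Infinite)
    {e : ℕ → ℕ → I} (he : ∀ m, Function.Injective (e m)) {f : ℕ → KB X} {z : X}
    (hlim : Tendsto (fun m => JJ C β g (e m) (f m) z y) 𝒰 (𝓝 (NN C β g z y))) :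
    ∃ (e' : ℕ → I) (f' : KB X), Opt C β g e' f' z y ∧
      (∀ i, ∀ᶠ m in (𝒰 : Filter ℕ), e m i = e' i) ∧ Tendsto f 𝒰 (𝓝 f') := by
  obtain ⟨e', hinj, hran, hev⟩ := stab C β g 𝒰 hB hy hyc hinf he hlim
  have hft : Tendsto f 𝒰 (𝓝 (𝒰.map f).lim) := (𝒰.map f).le_nhds_lim
  refine ⟨e', (𝒰.map f).lim, ⟨hinj, hran, ?_⟩, hev, hft⟩
  apply le_antisymm
  · exact JJ_le_NN C β g hy hinj _ z
  · refine le_of_forall_pos_le_add fun ε hε => ?_
    have := usc C β g 𝒰 hy (z := z) hev hft hε
    exact le_of_tendsto hlim this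

end

end Pool.Agent.H827
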