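import Mathlib
import Pool.Agent.Helper827.W6c

/-! Uniqueness of the optimal data in the absence of coordinate kinks. -/

set_option linter.unusedSectionVars false
set_option linter.style.haveILetI false
set_option linter.deprecated false

namespace Pool.Agent.H827
open Set Topology Filter TopologicalSpace

variable {X : Type} [NormedAddCommGroup X] [NormedSpace ℝ X] {I : Type}

/-- coordinate vector -/
noncomputable def dl (v : I) : I → ℝ := Set.indicator {v} (fun _ => 1)

theorem dl_self (v : I) : dl v v = 1 := by simp [dl]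
theorem dl_ne {u v : I} (h : u ≠ v) : dl v u = 0 := by simp [dl, h]
theorem dl_abs (v u : I) : |dl v u| ≤ 1 := by
  by_cases h : u = v
  · rw [h, dl_self]; simp
  · rw [dl_ne h]; simp

theorem zero_of_kink {G : ℝ → ℝ} {D : ℝ} (hG : HasDerivAt G D 0)
    (h : ∀ ε > 0, ∃ δ > 0, ∀ s : ℝ, |s| < δ → G s - G 0 ≤ ε * |s|) : D = 0 := by
  have key : ∀ ε > 0, |D| ≤ 2 * ε := by
    intro ε hε
    rw [hasDerivAt_iff_isLittleO] at hG
    have h2 := hG.def (c := ε) hε
    rw [Metric.eventually_nhds_iff] at h2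
    obtain ⟨δ, hδ, H⟩ := h2
    obtain ⟨δ', hδ', H'⟩ := h ε hε
    let s := min δ δ' / 2
    have hm : 0 < min δ δ' := lt_min hδ hδ'
    have hs : 0 < s := by positivity
    have hs1 : s < δ := by
      have := min_le_left δ δ'
      show min δ δ' / 2 < δ
      linarith
    have hs2 : s < δ' := by
      have := min_le_right δ δ'
      show min δ δ' / 2 < δ'
      linarith
    have a1 := H (y := s) (by simpa [abs_of_pos hs] using hs1)
    have a2 := H (y := -s) (by simpa [abs_of_pos hs] using hs1)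
    have b1 := H' s (by rwa [abs_of_pos hs])
    have b2 := H' (-s) (by rwa [abs_neg, abs_of_pos hs])
    simp only [sub_zero, Real.norm_eq_abs, smul_eq_mul, abs_neg, abs_of_pos hs] at a1 a2 b1 b2
    have c1 := (abs_le.1 a1)
    have c2 := (abs_le.1 a2)
    rw [abs_le]
    constructor
    · have h3 : s * (-D) ≤ s * (2 * ε) := by nlinarith
      have := le_of_mul_le_mul_left h3 hs
      linarith
    · have h3 : s * D ≤ s * (2 * ε) := by nlinarith
      exact le_of_mul_le_mul_left h3 hs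
  by_contra hne
  have hpos : 0 < |D| := abs_pos.2 hne
  have := key (|D|/4) (by positivity)
  linarith

section
variable (C : Cors X) (β : Bump X) (g : I → KB X)

theorem Opt.ne {e : ℕ → I} {f : KB X} {z : X} {y : I → ℝ} (O : Opt C β g e f z y) (i : ℕ) : y (e i) ≠ 0 := by
  have : e i ∈ range e := mem_range_self i
  rw [O.ran] at this
  exact this

theorem Opt.qq_pos {e : ℕ → I} {f : KB X} {z : X} {y : I → ℝ} {B : ℝ} (hy : ∀ i, |y i| ≤ B)
    (O : Opt C β g e f z y) (f' : KB X) : 0 < qq (wts C β g e f') (fun i => y (e i)) := by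
  have wc := wts_wt C β g e f'
  have s1 := summ wc (u := fun i => y (e i)) (v := fun i => y (e i)) (fun i => hy _) (fun i => hy _)
  have h1 := s1.sum_le_tsum (Finset.range 1) (fun j _ => mul_nonneg (wc j).1 (mul_self_nonneg _))
  rw [Finset.sum_range_one] at h1
  refine lt_of_lt_of_le ?_ h1
  have h2 := wts_bd C β g e f' 0
  have h3 := mul_self_pos.2 (O.ne C β g 0)
  have h4 : 0 < wts C β g e f' 0 := by
    refine lt_of_lt_of_le ?_ h2
    norm_num
  positivity

theorem deriv_coord {e : ℕ → I} {f : KB X} {z : X} {y : I → ℝ} {B : ℝ} (hy : ∀ i, |y i| ≤ B)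
    (O : Opt C β g e f z y) {v : I} {k : ℕ} (hk : e k = v) (σ : ℝ) :
    HasDerivAt (fun s : ℝ => JJ C β g e f z (fun i => y i + (σ * s) * dl v i))
      (σ * (wts C β g e f k * y v / √(qq (wts C β g e f) (fun i => y (e i))))) 0 := by
  have wc := wts_wt C β g e f
  set c := wts C β g e f with hc
  set Q := qq c (fun i => y (e i)) with hQ
  have hQ0 : 0 < Q := O.qq_pos C β g hy f
  have h1 : (fun s : ℝ => JJ C β g e f z (fun i => y i + (σ * s) * dl v i)) =
      fun s => f.1 z + √(Q + c k * (2 * (σ * s) * y v + (σ * s)^2)) := by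
    funext s
    unfold JJ
    have h2 : (fun i => y (e i) + (σ * s) * dl v (e i)) = fun i => y (e i) + (σ * s) * (if i = k then 1 else 0) := by
      funext i
      by_cases hi : i = k
      · rw [hi, hk, dl_self, if_pos rfl]
      · rw [if_neg hi, dl_ne]
        intro h
        exact hi (O.inj (h.trans hk.symm))
    rw [h2, qq_single wc (u := fun i => y (e i)) (fun i => hy _) k (σ * s), hk]
  rw [h1]
  have h3 : HasDerivAt (fun s : ℝ => Q + c k * (2 * (σ * s) * y v + (σ * s)^2)) (c k * (2 * σ * y v)) 0 := by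
    have a1 := (hasDerivAt_id (0:ℝ)).const_mul (c k * 2 * σ * y v)
    have a2 := (hasDerivAt_pow 2 (0:ℝ)).const_mul (c k * σ^2)
    have a3 := (a1.add a2).const_add Q
    refine (a3.congr_deriv ?_).congr_of_eventuallyEq (Eventually.of_forall fun s => ?_)
    · norm_num
      ring
    · simp only [Pi.add_apply, id]
      ring
  have hin : Q + c k * (2 * (σ * 0) * y v + (σ * 0)^2) = Q := by ring
  have h4 := h3.sqrt (by rw [hin]; exact hQ0.ne')
  have h5 := h4.const_add (f.1 z)
  refine h5.congr_deriv ?_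
  rw [hin]
  have : √Q ≠ 0 := (Real.sqrt_pos.2 hQ0).ne'
  field_simp

/-- absence of coordinate kinks -/
def NoKink (z : X) (y : I → ℝ) : Prop :=
  ∀ v, y v ≠ 0 → ∀ ε > 0, ∃ δ > 0, ∀ s : ℝ, |s| < δ →
    NN C β g z (fun i => y i + s * dl v i) + NN C β g z (fun i => y i + (-s) * dl v i) - 2 * NN C β g z y ≤ ε * |s|

theorem slope_eq {e e' : ℕ → I} {f f' : KB X} {z : X} {y : I → ℝ} {B : ℝ} (hy : ∀ i, |y i| ≤ B)
    (hk : NoKink C β g z y) (O : Opt C β g e f z y) (O' : Opt C β g e' f' z y) {v : I} {k k' : ℕ}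
    (hek : e k = v) (hek' : e' k' = v) :
    wts C β g e f k / √(qq (wts C β g e f) (fun i => y (e i))) =
      wts C β g e' f' k' / √(qq (wts C β g e' f') (fun i => y (e' i))) := by
  have hv : y v ≠ 0 := by rw [← hek]; exact O.ne C β g k
  have d1 := deriv_coord C β g hy O hek 1
  have d2 := deriv_coord C β g hy O' hek' (-1)
  have d3 := d1.add d2
  have h0 := zero_of_kink d3 (by
    intro ε hε
    obtain ⟨δ, hδ, H⟩ := hk v hv ε hε
    refine ⟨δ, hδ, fun s hs => ?_⟩
    have h1 := H s hs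
    simp only [one_mul, neg_mul, neg_zero, zero_mul, add_zero, Pi.add_apply]
    have b1 : ∀ i, |y i + s * dl v i| ≤ B + |s| := by
      intro i
      refine (abs_add_le _ _).trans (add_le_add (hy i) ?_)
      rw [abs_mul]
      calc |s| * |dl v i| ≤ |s| * 1 := by gcongr; exact dl_abs v i
        _ = |s| := mul_one _
    have b2 : ∀ i, |y i + (-s) * dl v i| ≤ B + |s| := by
      intro i
      refine (abs_add_le _ _).trans (add_le_add (hy i) ?_)
      rw [abs_mul, abs_neg]
      calc |s| * |dl v i| ≤ |s| * 1 := by gcongr; exact dl_abs v i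
        _ = |s| := mul_one _
    have c1 := JJ_le_NN C β g b1 O.inj f z
    have c2 := JJ_le_NN C β g b2 O'.inj f' z
    have v1 : JJ C β g e f z (fun i => y i) = NN C β g z y := O.val
    have v2 : JJ C β g e' f' z (fun i => y i) = NN C β g z y := O'.val
    rw [v1, v2]
    simp only [neg_mul] at c2 h1
    linarith)
  have h1 : wts C β g e f k * y v / √(qq (wts C β g e f) (fun i => y (e i))) =
      wts C β g e' f' k' * y v / √(qq (wts C β g e' f') (fun i => y (e' i))) := by linarith
  have h2 : (wts C β g e f k / √(qq (wts C β g e f) (fun i => y (e i)))) * y v =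
      (wts C β g e' f' k' / √(qq (wts C β g e' f') (fun i => y (e' i)))) * y v := by
    rw [div_mul_eq_mul_div, div_mul_eq_mul_div]
    exact h1
  exact mul_right_cancel₀ hv h2

theorem pos_eq {e e' : ℕ → I} {f f' : KB X} {z : X} {y : I → ℝ} {B : ℝ} (hy : ∀ i, |y i| ≤ B)
    (hk : NoKink C β g z y) (O : Opt C β g e f z y) (O' : Opt C β g e' f' z y) : e = e' := by
  set Q := qq (wts C β g e f) (fun i => y (e i)) with hQ
  set Q' := qq (wts C β g e' f') (fun i => y (e' i)) with hQ'
  have hQ0 : 0 < √Q := Real.sqrt_pos.2 (O.qq_pos C β g hy f)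
  have hQ0' : 0 < √Q' := Real.sqrt_pos.2 (O'.qq_pos C β g hy f')
  let τ := √Q / √Q'
  have hτ : 0 < τ := div_pos hQ0 hQ0'
  have hsl : ∀ k k', e k = e' k' → wts C β g e f k = wts C β g e' f' k' * τ := by
    intro k k' h
    have h1 := slope_eq C β g hy hk O O' (v := e k) rfl h.symm
    rw [div_eq_div_iff hQ0.ne' hQ0'.ne'] at h1
    show _ = _ * (√Q / √Q')
    rw [mul_div_assoc', eq_div_iff hQ0'.ne']
    exact h1
  have up : ∀ k, wts C β g e f k ≤ 10 * (1/10)^k := fun k => (wts_wt C β g e f k).2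
  have up' : ∀ k, wts C β g e' f' k ≤ 10 * (1/10)^k := fun k => (wts_wt C β g e' f' k).2
  have lo := wts_bd C β g e f
  have lo' := wts_bd C β g e' f'
  have pw : ∀ k : ℕ, (1/10 : ℝ)^k ≤ 1 := fun k => pow_le_one₀ (by norm_num) (by norm_num)
  have pw0 : ∀ k : ℕ, (0:ℝ) < (1/10 : ℝ)^k := fun k => by positivity
  have memr : ∀ k, ∃ k', e' k' = e k := by
    intro k
    have h1 : e k ∈ range e := mem_range_self k
    rw [O.ran, ← O'.ran] at h1
    exact h1
  have memr' : ∀ k', ∃ k, e k = e' k' := by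
    intro k
    have h1 : e' k ∈ range e' := mem_range_self k
    rw [O'.ran, ← O.ran] at h1
    exact h1
  have hτ1 : 9/10 ≤ τ := by
    obtain ⟨k', hk'⟩ := memr 0
    have h1 := hsl 0 k' hk'.symm
    have h2 := lo 0
    have h3 := up' k'
    have h4 := pw k'
    rw [pow_zero, mul_one] at h2
    nlinarith
  have hτ2 : τ ≤ 10/9 := by
    obtain ⟨k, hk'⟩ := memr' 0
    have h1 := hsl k 0 hk'
    have h2 := lo' 0
    have h3 := up k
    have h4 := pw k
    rw [pow_zero, mul_one] at h2
    nlinarith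
  have hkk : ∀ k k', e k = e' k' → k = k' := by
    intro k k' h
    have h1 := hsl k k' h
    rcases lt_trichotomy k k' with hlt | heq | hgt
    · exfalso
      have h2 : (1/10 : ℝ)^k' ≤ (1/10)^(k+1) := pow_le_pow_of_le_one (by norm_num) (by norm_num) hlt
      rw [pow_succ] at h2
      have h3 := lo k
      have h4 := up' k'
      have h5 := pw0 k
      have h6 : wts C β g e' f' k' * τ ≤ (10 * (1/10)^k') * (10/9) := by
        have := (wts_wt C β g e' f' k').1
        gcongr
      nlinarith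
    · exact heq
    · exfalso
      have h2 : (1/10 : ℝ)^k ≤ (1/10)^(k'+1) := pow_le_pow_of_le_one (by norm_num) (by norm_num) hgt
      rw [pow_succ] at h2
      have h3 := up k
      have h4 := lo' k'
      have h5 := pw0 k'
      have h6 : (9 * (1/10)^k') * (9/10) ≤ wts C β g e' f' k' * τ := by
        have := (wts_wt C β g e' f' k').1
        gcongr
      nlinarith
  funext k
  obtain ⟨k', hk'⟩ := memr k
  rw [hkk k k' hk'.symm]
  rw [hkk k k' hk'.symm] at hk'
  exact hk'.symm

theorem cl_range {e : ℕ → I} {u : UU X I} (hu : u ∈ cl (opM C β g) (UU.ix '' range e)) :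
    ∃ n, u ∈ cl (opM C β g) (UU.ix '' (e '' Iic n)) := by
  obtain ⟨F, hF, hFS, huF⟩ := cl_finitary hu
  obtain ⟨n, hn⟩ := fin_mono_nat hF (P := fun n u => u ∈ UU.ix '' (e '' Iic n))
    (by
      rintro m n u hmn ⟨_, ⟨j, hj, rfl⟩, rfl⟩
      exact ⟨_, ⟨j, le_trans hj hmn, rfl⟩, rfl⟩)
    (by
      intro u hu
      obtain ⟨_, ⟨j, rfl⟩, rfl⟩ := hFS hu
      exact ⟨j, _, ⟨j, mem_Iic.2 le_rfl, rfl⟩, rfl⟩)
  exact ⟨n, cl_mono hn huF⟩

theorem cl_Iic_countable (hcount : ∀ x, {i | (g i).1 x ≠ 0}.Countable) (e : ℕ → I) (n : ℕ) :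
    (cl (opM C β g) (UU.ix '' (e '' Iic n))).Countable :=
  cl_countable (opM_countable C β g hcount) (((finite_Iic n).image e).image _).countable

theorem cl_Iic_sub (e : ℕ → I) (n : ℕ) :
    cl (opM C β g) (UU.ix '' (e '' Iic n)) ⊆ cl (opM C β g) (UU.ix '' range e) :=
  cl_mono (image_mono (image_subset_range _ _))

theorem retract_eq [CompleteSpace X] (hcount : ∀ x, {i | (g i).1 x ≠ 0}.Countable)
    (htot : ∀ z, (∀ i, (g i).1 z = 0) → z = 0) {e : ℕ → I} {f : KB X} {z : X} {y : I → ℝ} {B : ℝ}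
    (hy : ∀ i, |y i| ≤ B) (hsupp : ∀ i, (g i).1 z ≠ 0 → y i ≠ 0) (O : Opt C β g e f z y) {h : KB X}
    (hh : h ∈ C.KN (Nof (cl (opM C β g) (UU.ix '' range e))))
    (hx : ∀ x ∈ Nof (cl (opM C β g) (UU.ix '' range e)), h.1 x = f.1 x) : h = f := by
  have H := goodM_cl C β g (UU.ix '' range e)
  set M := cl (opM C β g) (UU.ix '' range e) with hM
  have hz : z ∈ (Submodule.span ℝ (Nof M)).topologicalClosure := by
    apply H.mem_span_of_tags htot
    intro i hi
    have h1 : i ∈ range e := by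
      rw [O.ran]
      exact hsupp i hi
    exact subset_cl _ ⟨i, h1, rfl⟩
  have hfz : h.1 z = f.1 z := GoodM.agree hx z hz
  choose P hP1 hP2 hP3 using H.proj
  have hPf : ∀ x, h.1 x = f.1 (P x) := fun x => by
    rw [← hP2 x h hh, GoodM.agree hx _ (hP1 x)]
  have hpsi : ∀ u ∈ M, ∀ j, psi u j h ≤ psi u j f := by
    intro u hu j
    cases u with
    | pt x =>
      show (h.1 x/(1+‖x‖))^2 ≤ (f.1 x/(1+‖x‖))^2
      rw [hx x hu]
    | cs A =>
      apply psi_le
      intro x hx1 hxA
      rw [hPf x]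
      apply le_psi
      · exact (hP3 x).trans hx1
      · intro w hw
        obtain ⟨k, hk, hkx⟩ := H.exists_retr w
        have h1 : k ∈ (A : Set (KB X)) := H.retr_mem hu hw hk hkx
        rw [← GoodM.agree hkx _ (hP1 x), hP2 x k hk]
        exact hxA k h1
    | ix i => exact le_rfl
  have hR : ∀ n, Rr C β g (e '' Iic n) h ≤ Rr C β g (e '' Iic n) f := fun n =>
    Rr_le C β g (cl_Iic_countable C β g hcount e n) (fun u hu j => hpsi u (cl_Iic_sub C β g e n hu) j)
  have hw : ∀ n, wts C β g e f n ≤ wts C β g e h n := by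
    intro n
    unfold wts
    have := hR n
    gcongr
  have hQ1 : 0 < qq (wts C β g e f) (fun i => y (e i)) := O.qq_pos C β g hy f
  have hQ2 : 0 < qq (wts C β g e h) (fun i => y (e i)) := O.qq_pos C β g hy h
  have hQle : qq (wts C β g e h) (fun i => y (e i)) ≤ qq (wts C β g e f) (fun i => y (e i)) := by
    have h1 := JJ_le_NN C β g hy O.inj h z
    rw [← O.val] at h1
    unfold JJ at h1
    rw [hfz] at h1
    have h2 : √(qq (wts C β g e h) (fun i => y (e i))) ≤ √(qq (wts C β g e f) (fun i => y (e i))) := by linarith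
    exact (Real.sqrt_le_sqrt_iff hQ1.le).1 h2
  have hweq := wt_eq_of_qq_eq (wts_wt C β g e f) (wts_wt C β g e h) (u := fun i => y (e i)) (fun i => hy _) hw
    (fun i => O.ne C β g i) hQle
  have hReq : ∀ n, Rr C β g (e '' Iic n) f ≤ Rr C β g (e '' Iic n) h := by
    intro n
    have h1 := hweq n
    unfold wts at h1
    have h2 : (0:ℝ) < (1/10)^n := by positivity
    have h3 := mul_left_cancel₀ h2.ne' h1
    linarith
  have hpsieq : ∀ u ∈ M, ∀ j, psi u j h = psi u j f := by
    intro u hu j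
    obtain ⟨n, hn⟩ := cl_range C β g hu
    exact Rr_eq C β g (cl_Iic_countable C β g hcount e n) (fun u hu j => hpsi u (cl_Iic_sub C β g e n hu) j)
      (hReq n) u hn j
  by_contra hne
  have : ∃ x, h.1 x ≠ f.1 x := by
    by_contra hcon
    push Not at hcon
    exact hne (KB.ext' hcon)
  obtain ⟨x, hxne⟩ := this
  let a : ℝ := (‖x - P x‖ + 1)⁻¹
  have ha : 0 < a := by positivity
  let x2 : X := a • (x - P x)
  have hx2n : ‖x2‖ ≤ 1 := by
    show ‖a • (x - P x)‖ ≤ 1
    rw [norm_smul, Real.norm_eq_abs, abs_of_pos ha]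
    have : a * (‖x - P x‖ + 1) = 1 := inv_mul_cancel₀ (by positivity)
    linarith
  have hx2f : f.1 x2 ≠ 0 := by
    show f.1 (a • (x - P x)) ≠ 0
    rw [map_smul, map_sub, ← hPf x, smul_eq_mul]
    apply mul_ne_zero ha.ne'
    intro h0
    apply hxne
    linarith
  have hx2w : ∀ w ∈ C.KN (Nof M), w.1 x2 = 0 := by
    intro w hw
    show w.1 (a • (x - P x)) = 0
    rw [map_smul, map_sub, hP2 x w hw, sub_self, smul_zero]
  obtain ⟨j, hj⟩ := exists_nat_one_div_lt (abs_pos.2 hx2f)
  obtain ⟨A, hA, hhA, hAw⟩ := H.small hh hx2w (ε := 1/(j+1:ℝ)) (by positivity)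
  have h1 := hpsieq (UU.cs A) hA j
  have h2 : |f.1 x2| ≤ psi (UU.cs A : UU X I) j f := le_psi f hx2n (fun w hw => (hAw w hw).le)
  have h3 : psi (UU.cs A : UU X I) j h ≤ 1/(j+1:ℝ) := psi_le (fun x _ hxA => hxA h hhA)
  linarith

theorem unique [CompleteSpace X] (hcount : ∀ x, {i | (g i).1 x ≠ 0}.Countable)
    (htot : ∀ z, (∀ i, (g i).1 z = 0) → z = 0) {e e' : ℕ → I} {f f' : KB X} {z : X} {y : I → ℝ} {B : ℝ}
    (hy : ∀ i, |y i| ≤ B) (hsupp : ∀ i, (g i).1 z ≠ 0 → y i ≠ 0) (hk : NoKink C β g z y)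
    (O : Opt C β g e f z y) (O' : Opt C β g e' f' z y) : e = e' ∧ f = f' := by
  have hee := pos_eq C β g hy hk O O'
  subst hee
  refine ⟨rfl, ?_⟩
  have H := goodM_cl C β g (UU.ix '' range e)
  set M := cl (opM C β g) (UU.ix '' range e) with hM
  set fm := midK f f' with hfm
  set c := wts C β g e f with hc
  set c' := wts C β g e f' with hc'
  set c'' := wts C β g e fm with hc''
  have wc : Wt c := wts_wt C β g e f
  have wc' : Wt c' := wts_wt C β g e f'
  have wc'' : Wt c'' := wts_wt C β g e fm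
  have hub : ∀ i, |(fun i => y (e i)) i| ≤ B := fun i => hy _
  have hQ1 : 0 < qq c (fun i => y (e i)) := O.qq_pos C β g hy f
  have hQ2 : 0 < qq c' (fun i => y (e i)) := O.qq_pos C β g hy f'
  have hQ3 : 0 < qq c'' (fun i => y (e i)) := O.qq_pos C β g hy fm
  have hle : √(qq c'' (fun i => y (e i))) ≤ (√(qq c (fun i => y (e i))) + √(qq c' (fun i => y (e i))))/2 := by
    have h1 := JJ_le_NN C β g hy O.inj fm z
    have h2 := O.val
    have h3 := O'.val
    unfold JJ at h1 h2 h3
    rw [hfm, midK_apply, ← hfm] at h1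
    linarith
  have hcc : ∀ i, (c i + c' i)/2 ≤ c'' i := by
    intro i
    rw [hc, hc', hc'']
    unfold wts
    have h1 := Rr_mid C β g (e '' Iic i) f f'
    have h2 : (0:ℝ) < (1/10)^i := by positivity
    rw [← hfm] at h1
    nlinarith
  have havg := qq_avg wc wc' hub
  have hle2 : qq c'' (fun i => y (e i)) ≤ qq (fun i => (c i + c' i)/2) (fun i => y (e i)) := by
    rw [havg]
    have h1 := sqrt_avg hQ1.le hQ2.le
    have h2 := hle.trans h1
    exact (Real.sqrt_le_sqrt_iff (by positivity)).1 h2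
  have hweq := wt_eq_of_qq_eq (wt_avg wc wc') wc'' hub hcc (fun i => O.ne C β g i) hle2
  have hReq : ∀ n, (Rr C β g (e '' Iic n) f + Rr C β g (e '' Iic n) f')/2 ≤ Rr C β g (e '' Iic n) (midK f f') := by
    intro n
    have h1 := hweq n
    rw [hc, hc', hc''] at h1
    unfold wts at h1
    have h2 : (0:ℝ) < (1/10)^n := by positivity
    have h3 : (1/10 : ℝ)^n * (10 - (Rr C β g (e '' Iic n) f + Rr C β g (e '' Iic n) f')/2) =
        (1/10)^n * (10 - Rr C β g (e '' Iic n) fm) := by
      rw [← h1]; ring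
    have h4 := mul_left_cancel₀ h2.ne' h3
    rw [hfm] at h4
    linarith
  have hpt : ∀ x ∈ Nof M, f.1 x = f'.1 x := by
    intro x hx
    obtain ⟨n, hn⟩ := cl_range C β g hx
    have h1 := Rr_mid_eq C β g (cl_Iic_countable C β g hcount e n) (hReq n) _ hn 0
    exact psi_mid_eq h1
  obtain ⟨h, hh, hhx⟩ := H.exists_retr f
  have e1 : h = f := retract_eq C β g hcount htot hy hsupp O hh hhx
  have e2 : h = f' := retract_eq C β g hcount htot hy hsupp O' hh (fun x hx => by rw [hhx x hx, hpt x hx])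
  rw [← e1, e2]

end

end Pool.Agent.H827
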