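import Mathlib
import Pool.Agent.Helper827.W6d

/-! Second differences of the seminorm in the absence of coordinate kinks. -/

set_option linter.unusedSectionVars false
set_option linter.style.haveILetI false
set_option linter.deprecated false

namespace Pool.Agent.H827
open Set Topology Filter TopologicalSpace

variable {X : Type} [NormedAddCommGroup X] [NormedSpace ℝ X] {I : Type}

section
variable (C : Cors X) (β : Bump X) (g : I → KB X)

theorem bd_line {y y' : I → ℝ} {B B' : ℝ} (hy : ∀ i, |y i| ≤ B) (hy' : ∀ i, |y' i| ≤ B') (σ : ℝ) :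
    ∀ i, |y i + σ * y' i| ≤ B + |σ| * B' := by
  intro i
  refine (abs_add_le _ _).trans (add_le_add (hy i) ?_)
  rw [abs_mul]
  have := hy' i
  gcongr

theorem JJ_line_ge {y y' : I → ℝ} {B B' : ℝ} (hy : ∀ i, |y i| ≤ B) (hy' : ∀ i, |y' i| ≤ B')
    (e : ℕ → I) (f : KB X) (z z' : X) (σ : ℝ) :
    JJ C β g e f (z + σ • z') (fun i => y i + σ * y' i) ≤ JJ C β g e f z y + |σ| * (‖z'‖ + 4 * B') := by
  have hb : ∀ i, |σ * y' i| ≤ |σ| * B' := by
    intro i
    rw [abs_mul]
    have := hy' i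
    gcongr
  have h1 := JJ_add C β g hy hb e f z (σ • z')
  have h2 := JJ_le C β g hb e f (σ • z')
  rw [norm_smul, Real.norm_eq_abs] at h2
  linarith

theorem JJ_line_le {y y' : I → ℝ} {B B' : ℝ} (hy : ∀ i, |y i| ≤ B) (hy' : ∀ i, |y' i| ≤ B')
    (e : ℕ → I) (f : KB X) (z z' : X) (σ : ℝ) :
    JJ C β g e f z y ≤ JJ C β g e f (z + σ • z') (fun i => y i + σ * y' i) + |σ| * (‖z'‖ + 4 * B') := by
  have h := JJ_line_ge C β g (bd_line hy hy' σ) hy' e f (z + σ • z') z' (-σ)
  have e1 : z + σ • z' + -σ • z' = z := by rw [neg_smul]; abel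
  have e2 : (fun i => y i + σ * y' i + -σ * y' i) = y := by funext i; ring
  rw [e1, e2, abs_neg] at h
  exact h

theorem NN_line_ge [Infinite I] {y y' : I → ℝ} {B B' : ℝ} (hy : ∀ i, |y i| ≤ B) (hy' : ∀ i, |y' i| ≤ B')
    (z z' : X) (σ : ℝ) :
    NN C β g (z + σ • z') (fun i => y i + σ * y' i) ≤ NN C β g z y + |σ| * (‖z'‖ + 4 * B') := by
  apply NN_le
  intro e he f
  exact (JJ_line_ge C β g hy hy' e f z z' σ).trans (by linarith [JJ_le_NN C β g hy he f z])

theorem NN_line_le [Infinite I] {y y' : I → ℝ} {B B' : ℝ} (hy : ∀ i, |y i| ≤ B) (hy' : ∀ i, |y' i| ≤ B')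
    (z z' : X) (σ : ℝ) :
    NN C β g z y ≤ NN C β g (z + σ • z') (fun i => y i + σ * y' i) + |σ| * (‖z'‖ + 4 * B') := by
  apply NN_le
  intro e he f
  exact (JJ_line_le C β g hy hy' e f z z' σ).trans (by linarith [JJ_le_NN C β g (bd_line hy hy' σ) he f (z + σ • z')])

theorem JJ_conv {y y' : I → ℝ} {B B' : ℝ} (hy : ∀ i, |y i| ≤ B) (hy' : ∀ i, |y' i| ≤ B')
    (e : ℕ → I) (f : KB X) (z z' : X) {l : ℝ} (hl0 : 0 ≤ l) (hl1 : l ≤ 1) (τ : ℝ) :
    JJ C β g e f (z + (l * τ) • z') (fun i => y i + (l * τ) * y' i) ≤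
      (1 - l) * JJ C β g e f z y + l * JJ C β g e f (z + τ • z') (fun i => y i + τ * y' i) := by
  have hb1 : ∀ i, |(1 - l) * y i| ≤ (1 - l) * B := by
    intro i
    rw [abs_mul, abs_of_nonneg (by linarith : 0 ≤ 1 - l)]
    have := hy i
    have h0 : 0 ≤ 1 - l := by linarith
    gcongr
  have hb2 : ∀ i, |l * (y i + τ * y' i)| ≤ l * (B + |τ| * B') := by
    intro i
    rw [abs_mul, abs_of_nonneg hl0]
    have := bd_line hy hy' τ i
    gcongr
  have h1 := JJ_add C β g hb1 hb2 e f ((1 - l) • z) (l • (z + τ • z'))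
  rw [JJ_smul_nonneg C β g (by linarith : 0 ≤ 1 - l), JJ_smul_nonneg C β g hl0] at h1
  have e1 : (1 - l) • z + l • (z + τ • z') = z + (l * τ) • z' := by
    rw [smul_add, smul_smul, sub_smul, one_smul]; abel
  have e2 : (fun i => (1 - l) * y i + l * (y i + τ * y' i)) = fun i => y i + (l * τ) * y' i := by
    funext i; ring
  rw [e1, e2] at h1
  exact h1

theorem main_sd [CompleteSpace X] [Infinite I] (hcount : ∀ x, {i | (g i).1 x ≠ 0}.Countable)
    (htot : ∀ z, (∀ i, (g i).1 z = 0) → z = 0) {z : X} {y : I → ℝ} {B : ℝ}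
    (hB : 0 < B) (hy : ∀ i, |y i| ≤ B) (hyc : ∀ ε > 0, {v | ε < |y v|}.Finite)
    (hinf : {v | y v ≠ 0}.Infinite)
    (hsupp : ∀ i, (g i).1 z ≠ 0 → y i ≠ 0) (hk : NoKink C β g z y)
    {z' : X} {y' : I → ℝ} {B' : ℝ} (hy' : ∀ i, |y' i| ≤ B') :
    ∀ ε > 0, ∃ δ > 0, ∀ s : ℝ, 0 < s → s < δ →
      NN C β g (z + s • z') (fun i => y i + s * y' i) + NN C β g (z + (-s) • z') (fun i => y i + (-s) * y' i)
        - 2 * NN C β g z y ≤ ε * s := by
  by_contra hcon
  push Not at hcon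
  obtain ⟨ε, hε, hcon⟩ := hcon
  obtain ⟨i0⟩ : Nonempty I := inferInstance
  have hB'0 : 0 ≤ B' := (abs_nonneg _).trans (hy' i0)
  choose s hs0 hs1 hs using fun m : ℕ => hcon (1 / (m + 1 : ℝ)) (by positivity)
  set C0 := ‖z'‖ + 4 * B' with hC0
  have hC0n : 0 ≤ C0 := by positivity
  choose e f hei hef using fun m => exists_JJ C β g
    (show NN C β g (z + s m • z') (fun i => y i + s m * y' i) - (s m)^2 < NN C β g (z + s m • z') (fun i => y i + s m * y' i) by
      have := hs0 m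
      have : 0 < (s m)^2 := by positivity
      linarith)
  choose e' f' hei' hef' using fun m => exists_JJ C β g
    (show NN C β g (z + (-(s m)) • z') (fun i => y i + (-(s m)) * y' i) - (s m)^2 <
        NN C β g (z + (-(s m)) • z') (fun i => y i + (-(s m)) * y' i) by
      have := hs0 m
      have : 0 < (s m)^2 := by positivity
      linarith)
  let 𝒰 : Ultrafilter ℕ := Filter.hyperfilter ℕ
  have hU : (𝒰 : Filter ℕ) ≤ atTop := by
    rw [← Nat.cofinite_eq_atTop]
    exact Filter.hyperfilter_le_cofinite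
  have hst : Tendsto s 𝒰 (𝓝 0) := by
    have h1 : Tendsto s atTop (𝓝 0) :=
      squeeze_zero (fun m => (hs0 m).le) (fun m => (hs1 m).le) tendsto_one_div_add_atTop_nhds_zero_nat
    exact h1.mono_left hU
  have hst2 : Tendsto (fun m => NN C β g z y - ((s m)^2 + 2 * (s m) * C0)) 𝒰 (𝓝 (NN C β g z y)) := by
    have : Tendsto (fun m => NN C β g z y - ((s m)^2 + 2 * (s m) * C0)) 𝒰 (𝓝 (NN C β g z y - (0^2 + 2 * 0 * C0))) :=
      tendsto_const_nhds.sub ((hst.pow 2).add ((hst.const_mul 2).mul_const C0))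
    simpa using this
  have hlim : Tendsto (fun m => JJ C β g (e m) (f m) z y) 𝒰 (𝓝 (NN C β g z y)) := by
    refine tendsto_of_tendsto_of_tendsto_of_le_of_le hst2 tendsto_const_nhds (fun m => ?_)
      (fun m => JJ_le_NN C β g hy (hei m) (f m) z)
    have h1 := JJ_line_ge C β g hy hy' (e m) (f m) z z' (s m)
    have h2 := NN_line_le C β g hy hy' z z' (s m)
    have h3 := hef m
    rw [abs_of_pos (hs0 m)] at h1 h2
    show NN C β g z y - ((s m)^2 + 2 * (s m) * C0) ≤ JJ C β g (e m) (f m) z y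
    linarith
  have hlim' : Tendsto (fun m => JJ C β g (e' m) (f' m) z y) 𝒰 (𝓝 (NN C β g z y)) := by
    refine tendsto_of_tendsto_of_tendsto_of_le_of_le hst2 tendsto_const_nhds (fun m => ?_)
      (fun m => JJ_le_NN C β g hy (hei' m) (f' m) z)
    have h1 := JJ_line_ge C β g hy hy' (e' m) (f' m) z z' (-(s m))
    have h2 := NN_line_le C β g hy hy' z z' (-(s m))
    have h3 := hef' m
    rw [abs_neg, abs_of_pos (hs0 m)] at h1 h2
    show NN C β g z y - ((s m)^2 + 2 * (s m) * C0) ≤ JJ C β g (e' m) (f' m) z y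
    linarith
  obtain ⟨E, F, O, hE, hF⟩ := exists_opt C β g 𝒰 hB hy hyc hinf hei hlim
  obtain ⟨E', F', O', hE', hF'⟩ := exists_opt C β g 𝒰 hB hy hyc hinf hei' hlim'
  obtain ⟨h1, h2⟩ := unique C β g hcount htot hy hsupp hk O O'
  subst h1
  subst h2
  have hQ := O.qq_pos C β g hy F
  set Q0 := qq (wts C β g E F) (fun i => y (E i)) with hQ0
  set V := qq (wts C β g E F) (fun i => y' (E i)) with hV
  have hV0 : 0 ≤ V := qq_nonneg (wts_wt C β g E F)
  set W := V / √Q0 with hW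
  have hW0 : 0 ≤ W := div_nonneg hV0 (Real.sqrt_nonneg _)
  set s1 := ε / (8 * (W + 1)) with hs1d
  have hs1p : 0 < s1 := by positivity
  have hs1W : s1 * W ≤ ε / 8 := by
    rw [hs1d]
    have : ε / (8 * (W + 1)) * W = (ε/8) * (W / (W+1)) := by field_simp
    rw [this]
    have h3 : W / (W+1) ≤ 1 := by rw [div_le_one (by positivity)]; linarith
    calc (ε/8) * (W / (W+1)) ≤ (ε/8) * 1 := by gcongr
      _ = _ := mul_one _
  set η := s1 * ε / 16 with hη
  have hη0 : 0 < η := by positivity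
  have hsec : JJ C β g E F (z + s1 • z') (fun i => y i + s1 * y' i) +
      JJ C β g E F (z + (-s1) • z') (fun i => y i + (-s1) * y' i) - 2 * NN C β g z y ≤ s1^2 * W := by
    rw [← O.val]
    unfold JJ
    rw [map_add, map_add, map_smul, map_smul, smul_eq_mul, smul_eq_mul]
    have h3 := sqrt_second (wts_wt C β g E F) (u := fun i => y (E i)) (v := fun i => y' (E i))
      (fun i => hy _) (fun i => hy' _) hQ s1
    have h4 : (fun i => y (E i) + -s1 * y' (E i)) = fun i => y (E i) - s1 * y' (E i) := by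
      funext i; ring
    rw [h4]
    linarith
  have u1 := usc C β g 𝒰 (bd_line hy hy' s1) (z := z + s1 • z') hE hF hη0
  have u2 := usc C β g 𝒰 (bd_line hy hy' (-s1)) (z := z + (-s1) • z') hE' hF' hη0
  have u3 := (tendsto_order.1 hlim).1 (NN C β g z y - η) (by linarith)
  have u4 := (tendsto_order.1 hlim').1 (NN C β g z y - η) (by linarith)
  have u5 := (tendsto_order.1 hst).2 (min s1 (ε/16)) (lt_min hs1p (by positivity))
  obtain ⟨m, m1, m2, m3, m4, m5⟩ := (u1.and (u2.and (u3.and (u4.and u5)))).exists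
  have m5a : s m < s1 := m5.trans_le (min_le_left _ _)
  have m5b : s m < ε/16 := m5.trans_le (min_le_right _ _)
  have hsm := hs0 m
  set l := s m / s1 with hl
  have hl0 : 0 ≤ l := by positivity
  have hl1 : l ≤ 1 := by rw [hl, div_le_one hs1p]; exact m5a.le
  have hls : l * s1 = s m := by rw [hl]; field_simp
  have hls' : l * (-s1) = -(s m) := by rw [mul_neg, hls]
  have c1 := JJ_conv C β g hy hy' (e m) (f m) z z' hl0 hl1 s1
  have c2 := JJ_conv C β g hy hy' (e' m) (f' m) z z' hl0 hl1 (-s1)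
  rw [hls] at c1
  rw [hls'] at c2
  have d0 := hs m
  have d1 := hef m
  have d2 := hef' m
  have d3 := JJ_le_NN C β g hy (hei m) (f m) z
  have d4 := JJ_le_NN C β g hy (hei' m) (f' m) z
  set a1 := JJ C β g (e m) (f m) (z + s1 • z') (fun i => y i + s1 * y' i)
  set a2 := JJ C β g (e' m) (f' m) (z + (-s1) • z') (fun i => y i + (-s1) * y' i)
  set b1 := JJ C β g (e m) (f m) z y
  set b2 := JJ C β g (e' m) (f' m) z y
  have key : l * (a1 - b1 + (a2 - b2)) ≤ l * (s1^2 * W + 4 * η) := by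
    apply mul_le_mul_of_nonneg_left _ hl0
    linarith
  have key2 : l * (s1^2 * W + 4 * η) = s m * (s1 * W + ε/4) := by
    rw [hη, hl]
    field_simp
    ring
  have key3 : s m * (s1 * W + ε/4) ≤ s m * (ε/8 + ε/4) := by gcongr
  have key4 : 2 * (s m)^2 ≤ s m * (ε/8) := by nlinarith
  nlinarith

end

end Pool.Agent.H827
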