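import Mathlib

/-! A seminorm with `o(s)` second differences is Gateaux differentiable. -/

namespace Pool.Agent.H827
open Set Topology Filter

variable {X : Type} [NormedAddCommGroup X] [NormedSpace ℝ X]

theorem gateaux {M : X → ℝ} (hadd : ∀ x y, M (x + y) ≤ M x + M y) (hsmul : ∀ (c : ℝ) x, M (c • x) = |c| * M x)
    {K : ℝ} (hK : ∀ x, M x ≤ K * ‖x‖) {z : X}
    (hsd : ∀ h : X, ∀ ε > 0, ∃ δ > 0, ∀ s : ℝ, 0 < s → s < δ → M (z + s • h) + M (z + (-s) • h) - 2 * M z ≤ ε * s) :
    ∃ L : X →L[ℝ] ℝ, ∀ h : X, HasDerivAt (fun t : ℝ => M (z + t • h)) (L h) 0 := by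
  have hneg : ∀ x, M (-x) = M x := by
    intro x
    have := hsmul (-1) x
    simpa using this
  -- Lipschitz
  have hlip : ∀ x h, |M (x + h) - M x| ≤ K * ‖h‖ := by
    intro x h
    rw [abs_le]
    constructor
    · have h1 := hadd (x + h) (-h)
      rw [add_neg_cancel_right, hneg] at h1
      have := hK h
      linarith
    · have h1 := hadd x h
      have := hK h
      linarith
  -- convexity along lines
  have hconv : ∀ x y, ∀ l : ℝ, 0 ≤ l → l ≤ 1 → M ((1 - l) • x + l • y) ≤ (1 - l) * M x + l * M y := by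
    intro x y l h0 h1
    have h2 := hadd ((1 - l) • x) (l • y)
    rw [hsmul, hsmul, abs_of_nonneg (by linarith), abs_of_nonneg h0] at h2
    exact h2
  have hsd0 : ∀ h : X, ∀ s : ℝ, 0 ≤ M (z + s • h) + M (z + (-s) • h) - 2 * M z := by
    intro h s
    have h1 := hconv (z + s • h) (z + (-s) • h) (1/2) (by norm_num) (by norm_num)
    have h2 : (1 - (1/2:ℝ)) • (z + s • h) + (1/2:ℝ) • (z + (-s) • h) = z := by
      rw [neg_smul]
      module
    rw [h2] at h1
    linarith
  let q : X → ℝ → ℝ := fun h t => (M (z + t • h) - M z) / t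
  have hqmono : ∀ h : X, ∀ s t : ℝ, 0 < s → s ≤ t → q h s ≤ q h t := by
    intro h s t hs hst
    have ht : 0 < t := hs.trans_le hst
    have h1 := hconv z (z + t • h) (s/t) (by positivity) (by rw [div_le_one ht]; exact hst)
    have h2 : (1 - s/t) • z + (s/t) • (z + t • h) = z + s • h := by
      rw [smul_add, smul_smul, div_mul_cancel₀ _ ht.ne', sub_smul, one_smul]
      abel
    rw [h2] at h1
    show (M (z + s • h) - M z) / s ≤ (M (z + t • h) - M z) / t
    rw [div_le_div_iff₀ hs ht]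
    have h3 : t * M (z + s • h) ≤ t * ((1 - s/t) * M z + (s/t) * M (z + t • h)) := by gcongr
    have h4 : t * ((1 - s/t) * M z + (s/t) * M (z + t • h)) = (t - s) * M z + s * M (z + t • h) := by
      field_simp
    rw [h4] at h3
    linarith
  have hqbd : ∀ h : X, ∀ t : ℝ, 0 < t → |q h t| ≤ K * ‖h‖ := by
    intro h t ht
    show |(M (z + t • h) - M z) / t| ≤ _
    rw [abs_div, abs_of_pos ht, div_le_iff₀ ht]
    have := hlip z (t • h)
    rw [norm_smul, Real.norm_eq_abs, abs_of_pos ht] at this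
    linarith
  let D : X → ℝ := fun h => sInf {r | ∃ t : ℝ, 0 < t ∧ r = q h t}
  have hbb : ∀ h, BddBelow {r | ∃ t : ℝ, 0 < t ∧ r = q h t} := by
    intro h
    refine ⟨-(K * ‖h‖), ?_⟩
    rintro r ⟨t, ht, rfl⟩
    exact (abs_le.1 (hqbd h t ht)).1
  have hDle : ∀ h t, 0 < t → D h ≤ q h t := fun h t ht => csInf_le (hbb h) ⟨t, ht, rfl⟩
  have hne : ∀ h, {r | ∃ t : ℝ, 0 < t ∧ r = q h t}.Nonempty := fun h => ⟨_, 1, one_pos, rfl⟩
  have hder : ∀ h, HasDerivAt (fun t : ℝ => M (z + t • h)) (D h) 0 := by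
    intro h
    rw [hasDerivAt_iff_isLittleO]
    refine Asymptotics.IsLittleO.of_bound fun c hc => ?_
    obtain ⟨r, ⟨t0, ht0, rfl⟩, hr⟩ := exists_lt_of_csInf_lt (hne h) (show D h < D h + c by linarith)
    obtain ⟨δ, hδ, H⟩ := hsd h c hc
    rw [Metric.eventually_nhds_iff]
    refine ⟨min t0 δ, lt_min ht0 hδ, ?_⟩
    intro t ht
    simp only [dist_zero_right, Real.norm_eq_abs] at ht
    simp only [sub_zero, zero_smul, add_zero, Real.norm_eq_abs, smul_eq_mul]
    have ht1 : |t| < t0 := ht.trans_le (min_le_left _ _)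
    have ht2 : |t| < δ := ht.trans_le (min_le_right _ _)
    rcases lt_trichotomy t 0 with hneg' | hz | hpos
    · have hp : 0 < -t := by linarith
      rw [abs_of_neg hneg'] at ht1 ht2 ⊢
      have h1 := H (-t) hp ht2
      rw [neg_neg] at h1
      have h0 := hsd0 h t
      have h2 := hDle h (-t) hp
      have h3 := hqmono h (-t) t0 hp ht1.le
      have h4 : q h (-t) * (-t) = M (z + (-t) • h) - M z := div_mul_cancel₀ _ hp.ne'
      have h5 : D h * (-t) ≤ q h (-t) * (-t) := by gcongr
      have h6 : q h (-t) * (-t) ≤ (D h + c) * (-t) := by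
        have : q h (-t) ≤ D h + c := by linarith
        gcongr
      rw [abs_le]
      constructor
      · nlinarith
      · nlinarith
    · rw [hz]
      simp
    · rw [abs_of_pos hpos] at ht1 ht2 ⊢
      have h2 := hDle h t hpos
      have h3 := hqmono h t t0 hpos ht1.le
      have h4 : q h t * t = M (z + t • h) - M z := div_mul_cancel₀ _ hpos.ne'
      have h5 : D h * t ≤ q h t * t := by gcongr
      have h6 : q h t * t ≤ (D h + c) * t := by
        have : q h t ≤ D h + c := by linarith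
        gcongr
      rw [abs_le]
      constructor
      · nlinarith
      · nlinarith
  -- homogeneity
  have hDsmul : ∀ (c : ℝ) h, D (c • h) = c * D h := by
    intro c h
    have h1 := hder (c • h)
    have h2 : HasDerivAt (fun t : ℝ => M (z + (t * c) • h)) (D h * c) 0 := by
      have h3 : HasDerivAt (fun t : ℝ => t * c) c 0 := by
        simpa using (hasDerivAt_id (0:ℝ)).mul_const c
      have h4 : HasDerivAt (fun t : ℝ => M (z + t • h)) (D h) ((fun t : ℝ => t * c) 0) := by
        simpa using hder h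
      exact h4.comp (0:ℝ) h3
    have h5 : (fun t : ℝ => M (z + t • (c • h))) = fun t : ℝ => M (z + (t * c) • h) := by
      funext t
      rw [smul_smul]
    rw [h5] at h1
    rw [h1.unique h2]
    ring
  have hDsub : ∀ h k, D (h + k) ≤ D h + D k := by
    intro h k
    have h1 := hder (h + k)
    have h2 := hder ((2:ℝ) • h)
    have h3 := hder ((2:ℝ) • k)
    refine le_of_forall_pos_le_add fun ε hε => ?_
    obtain ⟨r, ⟨s, hs, rfl⟩, hr⟩ := exists_lt_of_csInf_lt (hne ((2:ℝ) • h)) (show D ((2:ℝ) • h) < D ((2:ℝ) • h) + ε by linarith)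
    obtain ⟨r, ⟨t, ht, rfl⟩, hr'⟩ := exists_lt_of_csInf_lt (hne ((2:ℝ) • k)) (show D ((2:ℝ) • k) < D ((2:ℝ) • k) + ε by linarith)
    let m := min s t
    have hm : 0 < m := lt_min hs ht
    have e1 := hqmono ((2:ℝ) • h) m s hm (min_le_left _ _)
    have e2 := hqmono ((2:ℝ) • k) m t hm (min_le_right _ _)
    have e3 := hDle (h + k) m hm
    have e4 : q (h + k) m ≤ (q ((2:ℝ) • h) m + q ((2:ℝ) • k) m) / 2 := by
      show (M (z + m • (h + k)) - M z) / m ≤ ((M (z + m • (2:ℝ) • h) - M z) / m + (M (z + m • (2:ℝ) • k) - M z) / m) / 2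
      rw [← add_div, div_div, mul_comm m 2, ← div_div]
      gcongr
      have h4 := hconv (z + m • (2:ℝ) • h) (z + m • (2:ℝ) • k) (1/2) (by norm_num) (by norm_num)
      have h5 : (1 - (1/2:ℝ)) • (z + m • (2:ℝ) • h) + (1/2:ℝ) • (z + m • (2:ℝ) • k) = z + m • (h + k) := by
        module
      rw [h5] at h4
      linarith
    rw [hDsmul] at hr hr'
    linarith
  have hDneg : ∀ h, D (-h) = - D h := by
    intro h
    have := hDsmul (-1) h
    simpa using this
  have hDadd : ∀ h k, D (h + k) = D h + D k := by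
    intro h k
    apply le_antisymm (hDsub h k)
    have h1 := hDsub (-h) (-k)
    rw [← neg_add, hDneg, hDneg, hDneg] at h1
    linarith
  let L : X →ₗ[ℝ] ℝ :=
    { toFun := D
      map_add' := hDadd
      map_smul' := fun c h => by rw [hDsmul]; simp }
  have hLb : ∀ h, ‖L h‖ ≤ K * ‖h‖ := by
    intro h
    show |D h| ≤ _
    rw [abs_le]
    constructor
    · apply le_csInf (hne h)
      rintro r ⟨t, ht, rfl⟩
      exact (abs_le.1 (hqbd h t ht)).1
    · exact (hDle h 1 one_pos).trans (abs_le.1 (hqbd h 1 one_pos)).2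
  refine ⟨L.mkContinuous K hLb, fun h => ?_⟩
  exact hder h

end Pool.Agent.H827
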