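import Mathlib
import Pool.Agent.Helper827.W6e
import Pool.Agent.Helper827.W8

/-! Averaging over random weights. -/

set_option linter.unusedSectionVars false
set_option linter.style.haveILetI false
set_option linter.deprecated false

namespace Pool.Agent.H827
open Set Topology Filter TopologicalSpace MeasureTheory

section measure
variable {I : Type}

noncomputable def nu : Measure ℝ := volume.restrict (Icc (0:ℝ) 1)

instance : IsProbabilityMeasure nu := by
  constructor
  unfold nu
  rw [Measure.restrict_apply_univ]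
  simp

noncomputable def mu (I : Type) : Measure (I → ℝ) := Measure.infinitePi (fun _ : I => nu)

instance : IsProbabilityMeasure (mu I) := by
  unfold mu
  infer_instance

theorem meas_upd [DecidableEq I] (v : I) : Measurable (fun p : (I → ℝ) × ℝ => Function.update p.1 v p.2) := by
  apply measurable_pi_lambda
  intro i
  by_cases h : i = v
  · subst h
    simp only [Function.update_self]
    exact measurable_snd
  · simp only [Function.update_of_ne h]
    exact (measurable_pi_apply i).comp measurable_fst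

theorem resample [DecidableEq I] (v : I) :
    ((mu I).prod nu).map (fun p : (I → ℝ) × ℝ => Function.update p.1 v p.2) = mu I := by
  apply Measure.eq_infinitePi
  intro s t ht
  rw [Measure.map_apply (meas_upd v) (MeasurableSet.pi s.countable_toSet (fun i _ => ht i))]
  by_cases hv : v ∈ s
  · have h1 : (fun p : (I → ℝ) × ℝ => Function.update p.1 v p.2) ⁻¹' (Set.pi s t) =
        (Set.pi (s.erase v : Finset I) t) ×ˢ (t v) := by
      ext ⟨u, r⟩
      simp only [mem_preimage, Set.mem_pi, mem_prod, Finset.mem_coe, Finset.mem_erase]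
      constructor
      · intro h
        refine ⟨fun i hi => ?_, ?_⟩
        · have := h i hi.2
          rwa [Function.update_of_ne hi.1] at this
        · have := h v hv
          rwa [Function.update_self] at this
      · rintro ⟨h1, h2⟩ i hi
        by_cases hiv : i = v
        · subst hiv
          rwa [Function.update_self]
        · rw [Function.update_of_ne hiv]
          exact h1 i ⟨hiv, hi⟩
    rw [h1, Measure.prod_prod]
    unfold mu
    rw [Measure.infinitePi_pi _ (fun i _ => ht i), mul_comm, Finset.mul_prod_erase s (fun i => nu (t i)) hv]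
  · have h1 : (fun p : (I → ℝ) × ℝ => Function.update p.1 v p.2) ⁻¹' (Set.pi s t) =
        (Set.pi (s : Finset I) t) ×ˢ univ := by
      ext ⟨u, r⟩
      simp only [mem_preimage, Set.mem_pi, mem_prod, Finset.mem_coe, mem_univ, and_true]
      constructor
      · intro h i hi
        have := h i hi
        rwa [Function.update_of_ne (by rintro rfl; exact hv hi)] at this
      · intro h i hi
        rw [Function.update_of_ne (by rintro rfl; exact hv hi)]
        exact h i hi
    rw [h1, Measure.prod_prod]
    unfold mu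
    rw [Measure.infinitePi_pi _ (fun i _ => ht i), measure_univ, mul_one]

theorem ae_of_resample [DecidableEq I] (v : I) {P : (I → ℝ) → Prop} (hP : MeasurableSet {u | P u})
    (h : ∀ u, ∀ᵐ r ∂nu, P (Function.update u v r)) : ∀ᵐ u ∂(mu I), P u := by
  rw [← resample v, ae_map_iff (meas_upd v).aemeasurable hP]
  have hs : MeasurableSet {p : (I → ℝ) × ℝ | ¬ P (Function.update p.1 v p.2)} :=
    (meas_upd v hP.compl)
  rw [ae_iff]
  apply Measure.measure_prod_null_of_ae_null hs
  exact Eventually.of_forall fun u => h u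

end measure

/-- weight function -/
noncomputable def wf (t : ℝ) : ℝ := 1 + max 0 (min 1 t)

theorem wf_ge (t : ℝ) : 1 ≤ wf t := by
  unfold wf
  have := le_max_left 0 (min 1 t)
  linarith

theorem wf_le (t : ℝ) : wf t ≤ 2 := by
  unfold wf
  have := max_le (zero_le_one) (min_le_left 1 t)
  linarith

theorem wf_abs (t : ℝ) : |wf t| ≤ 2 := by
  rw [abs_of_nonneg (by linarith [wf_ge t])]
  exact wf_le t

theorem wf_cont : Continuous wf :=
  continuous_const.add (continuous_const.max (continuous_const.min continuous_id))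

theorem wf_Icc {t : ℝ} (h : t ∈ Icc (0:ℝ) 1) : wf t = 1 + t := by
  unfold wf
  rw [min_eq_right h.2, max_eq_right h.1]

variable {X : Type} [NormedAddCommGroup X] [NormedSpace ℝ X] {I : Type}

section
variable (C : Cors X) (β : Bump X) (g : I → KB X)

theorem NN_lip [Infinite I] {y y' : I → ℝ} {B B' δ : ℝ} (hy : ∀ i, |y i| ≤ B) (hy' : ∀ i, |y' i| ≤ B')
    (h : ∀ i, |y i - y' i| ≤ δ) (z : X) : |NN C β g z y - NN C β g z y'| ≤ 4 * δ := by
  have key : ∀ (y y' : I → ℝ) (B' : ℝ), (∀ i, |y' i| ≤ B') → (∀ i, |y i - y' i| ≤ δ) →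
      NN C β g z y ≤ NN C β g z y' + 4 * δ := by
    intro y y' B' hy' h
    have h1 := NN_add C β g hy' h z 0
    have h2 := NN_le' C β g h (0:X)
    rw [norm_zero] at h2
    have e : (fun i => y' i + (y i - y' i)) = y := by funext i; ring
    rw [add_zero, e] at h1
    linarith
  have h1 := key y y' B' hy' h
  have h2 := key y' y B hy (fun i => by rw [abs_sub_comm]; exact h i)
  rw [abs_le]
  constructor <;> linarith

theorem NN_conv [Infinite I] {y y' : I → ℝ} {B B' : ℝ} (hy : ∀ i, |y i| ≤ B) (hy' : ∀ i, |y' i| ≤ B')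
    (z : X) {l : ℝ} (hl0 : 0 ≤ l) (hl1 : l ≤ 1) (τ : ℝ) :
    NN C β g z (fun i => y i + (l * τ) * y' i) ≤
      (1 - l) * NN C β g z y + l * NN C β g z (fun i => y i + τ * y' i) := by
  apply NN_le
  intro e he f
  have h1 := JJ_conv C β g hy hy' e f z 0 hl0 hl1 τ
  simp only [smul_zero, add_zero] at h1
  have h2 := JJ_le_NN C β g hy he f z
  have h3 := JJ_le_NN C β g (bd_line hy hy' τ) he f z
  have h0 : 0 ≤ 1 - l := by linarith
  calc JJ C β g e f z (fun i => y i + (l * τ) * y' i) ≤ _ := h1
    _ ≤ _ := by gcongr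

theorem NN_mid [Infinite I] {y y' : I → ℝ} {B B' : ℝ} (hy : ∀ i, |y i| ≤ B) (hy' : ∀ i, |y' i| ≤ B')
    (z z' : X) (s : ℝ) :
    0 ≤ NN C β g (z + s • z') (fun i => y i + s * y' i) + NN C β g (z + (-s) • z') (fun i => y i + (-s) * y' i)
        - 2 * NN C β g z y := by
  have h1 := NN_add C β g (bd_line hy hy' s) (bd_line hy hy' (-s)) (z + s • z') (z + (-s) • z')
  have hb2 : ∀ i, |2 * y i| ≤ 2 * B := by
    intro i
    rw [abs_mul, abs_of_pos (by norm_num : (0:ℝ) < 2)]
    linarith [hy i]
  have h2 := NN_smul_le C β g hb2 ((2:ℝ) • z) (1/2)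
  have e1 : (1/2:ℝ) • (2:ℝ) • z = z := by rw [smul_smul]; norm_num
  have e2 : (fun i => 1/2 * (2 * y i)) = y := by funext i; ring
  have e3 : z + s • z' + (z + (-s) • z') = (2:ℝ) • z := by rw [neg_smul, two_smul]; abel
  have e4 : (fun i => y i + s * y' i + (y i + -s * y' i)) = fun i => 2 * y i := by funext i; ring
  rw [e1, e2, abs_of_pos (by norm_num : (0:ℝ) < 1/2)] at h2
  rw [e3, e4] at h1
  linarith

/-- measurability in the weights -/
theorem meas_NN [Infinite I] {a b : I → ℝ} {A B : ℝ} (ha : ∀ i, |a i| ≤ A) (hb : ∀ i, |b i| ≤ B)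
    (hac : ∀ ε > 0, {i | ε < |a i|}.Finite) (z : X) :
    Measurable (fun u : I → ℝ => NN C β g z (fun i => wf (u i) * a i + b i)) := by
  classical
  obtain ⟨i0⟩ : Nonempty I := inferInstance
  have hA : 0 ≤ A := (abs_nonneg _).trans (ha i0)
  let F : ℕ → Set I := fun n => {i | 1 / (n + 1 : ℝ) < |a i|}
  have hF : ∀ n, (F n).Finite := fun n => hac _ (by positivity)
  let an : ℕ → I → ℝ := fun n i => if i ∈ F n then a i else 0
  have han : ∀ n i, |an n i| ≤ A := by
    intro n i
    by_cases h : i ∈ F n
    · simp only [an, if_pos h]; exact ha i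
    · simp only [an, if_neg h, abs_zero]; exact hA
  have hbd : ∀ (c : I → ℝ), (∀ i, |c i| ≤ A) → ∀ (u : I → ℝ) i, |wf (u i) * c i + b i| ≤ 2 * A + B := by
    intro c hc u i
    refine (abs_add_le _ _).trans (add_le_add ?_ (hb i))
    rw [abs_mul]
    have h1 := wf_abs (u i)
    have h2 := hc i
    gcongr
  have hmeas : ∀ n, Measurable (fun u : I → ℝ => NN C β g z (fun i => wf (u i) * an n i + b i)) := by
    intro n
    haveI : Finite (F n) := hF n
    let Ψ : (F n → ℝ) → ℝ := fun p => NN C β g z (fun i => (if h : i ∈ F n then wf (p ⟨i, h⟩) * a i else 0) + b i)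
    have hΨ : Continuous Ψ := by
      haveI : Fintype (F n) := Fintype.ofFinite _
      rw [Metric.continuous_iff]
      intro p ε hε
      have hcw : Continuous (fun q : F n → ℝ => fun i : F n => wf (q i)) :=
        continuous_pi fun i => wf_cont.comp (continuous_apply i)
      rw [Metric.continuous_iff] at hcw
      obtain ⟨δ, hδ, H⟩ := hcw p (ε / (4 * A + 1)) (by positivity)
      refine ⟨δ, hδ, fun q hq => ?_⟩
      have h1 := H q hq
      rw [Real.dist_eq]
      have hbb : ∀ (q : F n → ℝ) i, |(if h : i ∈ F n then wf (q ⟨i, h⟩) * a i else 0) + b i| ≤ 2 * A + B := by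
        intro q i
        refine (abs_add_le _ _).trans (add_le_add ?_ (hb i))
        by_cases h : i ∈ F n
        · rw [dif_pos h, abs_mul]
          have h1 := wf_abs (q ⟨i, h⟩)
          have h2 := ha i
          gcongr
        · rw [dif_neg h, abs_zero]
          positivity
      have h2 := NN_lip C β g (hbb q) (hbb p) (δ := (ε / (4 * A + 1)) * A) (fun i => by
        by_cases h : i ∈ F n
        · rw [dif_pos h, dif_pos h]
          have e : wf (q ⟨i, h⟩) * a i + b i - (wf (p ⟨i, h⟩) * a i + b i) = (wf (q ⟨i, h⟩) - wf (p ⟨i, h⟩)) * a i := by ring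
          rw [e, abs_mul]
          have h3 : |wf (q ⟨i, h⟩) - wf (p ⟨i, h⟩)| ≤ ε / (4 * A + 1) := by
            have h4 := (dist_pi_lt_iff (by positivity)).1 h1 ⟨i, h⟩
            rw [Real.dist_eq] at h4
            exact h4.le
          have h2 := ha i
          gcongr
        · rw [dif_neg h, dif_neg h, sub_self, abs_zero]
          positivity) z
      refine h2.trans_lt ?_
      have : 4 * (ε / (4 * A + 1) * A) = ε * (4 * A / (4 * A + 1)) := by field_simp
      rw [this]
      have h5 : 4 * A / (4 * A + 1) < 1 := by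
        rw [div_lt_one (by positivity)]; linarith
      calc ε * (4 * A / (4 * A + 1)) < ε * 1 := by gcongr
        _ = ε := mul_one _
    have heq : (fun u : I → ℝ => NN C β g z (fun i => wf (u i) * an n i + b i)) =
        Ψ ∘ (fun u : I → ℝ => fun i : F n => u i.1) := by
      funext u
      show NN C β g z _ = NN C β g z _
      congr 1
      funext i
      by_cases h : i ∈ F n
      · simp only [an, if_pos h, dif_pos h]
      · simp only [an, if_neg h, dif_neg h, mul_zero]
    rw [heq]
    exact hΨ.measurable.comp (measurable_pi_lambda _ fun i => measurable_pi_apply i.1)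
  refine measurable_of_tendsto_metrizable hmeas ?_
  rw [tendsto_pi_nhds]
  intro u
  rw [tendsto_iff_dist_tendsto_zero]
  have hle : ∀ n, dist (NN C β g z (fun i => wf (u i) * an n i + b i)) (NN C β g z (fun i => wf (u i) * a i + b i)) ≤
      8 * (1 / (n + 1 : ℝ)) := by
    intro n
    rw [Real.dist_eq]
    have h2 := NN_lip C β g (hbd (an n) (han n) u) (hbd a ha u) (δ := 2 * (1 / (n + 1 : ℝ))) (fun i => by
      have e : wf (u i) * an n i + b i - (wf (u i) * a i + b i) = wf (u i) * (an n i - a i) := by ring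
      rw [e, abs_mul]
      have h1 := wf_abs (u i)
      have h3 : |an n i - a i| ≤ 1 / (n + 1 : ℝ) := by
        by_cases h : i ∈ F n
        · simp only [an, if_pos h, sub_self, abs_zero]; positivity
        · simp only [an, if_neg h, zero_sub, abs_neg]
          exact not_lt.1 h
      gcongr) z
    linarith
  refine squeeze_zero (fun n => dist_nonneg) hle ?_
  have := (tendsto_one_div_add_atTop_nhds_zero_nat (𝕜 := ℝ)).const_mul 8
  simpa using this

/-- weighted tags -/
noncomputable def Yw (u : I → ℝ) (z : X) : I → ℝ := fun i => wf (u i) * (g i).1 z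

theorem Yw_bd (u : I → ℝ) (z : X) (i : I) : |Yw g u z i| ≤ 2 * ‖z‖ := by
  unfold Yw
  rw [abs_mul]
  have h1 := wf_abs (u i)
  have h2 := KB.bd (g i) z
  gcongr

/-- kink differences -/
noncomputable def Dk (z : X) (v : I) (s : ℝ) (u : I → ℝ) : ℝ :=
  NN C β g z (fun i => Yw g u z i + s * dl v i) + NN C β g z (fun i => Yw g u z i + (-s) * dl v i)
    - 2 * NN C β g z (Yw g u z)

theorem Dk_meas [Infinite I] (hg0 : ∀ z ε, 0 < ε → {i | ε < |(g i).1 z|}.Finite) (z : X) (v : I) (s : ℝ) :
    Measurable (Dk C β g z v s) := by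
  have h1 : ∀ s : ℝ, Measurable (fun u : I → ℝ => NN C β g z (fun i => wf (u i) * (g i).1 z + s * dl v i)) := by
    intro s
    refine meas_NN C β g (A := ‖z‖) (B := |s|) (fun i => KB.bd (g i) z) (fun i => ?_) (fun ε hε => hg0 z ε hε) z
    rw [abs_mul]
    calc |s| * |dl v i| ≤ |s| * 1 := by gcongr; exact dl_abs v i
      _ = |s| := mul_one _
  have h2 : Measurable (fun u : I → ℝ => NN C β g z (Yw g u z)) := by
    have := h1 0
    simp only [zero_mul, add_zero] at this
    exact this
  exact ((h1 s).add (h1 (-s))).sub (h2.const_mul 2)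

theorem nokink_ae [Infinite I] (hg0 : ∀ z ε, 0 < ε → {i | ε < |(g i).1 z|}.Finite) (z : X)
    (hcount : {i | (g i).1 z ≠ 0}.Countable) : ∀ᵐ u ∂(mu I), NoKink C β g z (Yw g u z) := by
  classical
  have key : ∀ v, (g v).1 z ≠ 0 → ∀ᵐ u ∂(mu I), ∀ k : ℕ, ∃ n : ℕ,
      (n + 1 : ℝ) * Dk C β g z v (1 / (n + 1 : ℝ)) u ≤ 1 / (k + 1 : ℝ) := by
    intro v hv
    apply ae_of_resample v
    · have : {u : I → ℝ | ∀ k : ℕ, ∃ n : ℕ, (n + 1 : ℝ) * Dk C β g z v (1 / (n + 1 : ℝ)) u ≤ 1 / (k + 1 : ℝ)} =
          ⋂ k : ℕ, ⋃ n : ℕ, {u | (n + 1 : ℝ) * Dk C β g z v (1 / (n + 1 : ℝ)) u ≤ 1 / (k + 1 : ℝ)} := by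
        ext u; simp
      rw [this]
      exact MeasurableSet.iInter fun k => MeasurableSet.iUnion fun n =>
        measurableSet_le ((Dk_meas C β g hg0 z v _).const_mul _) measurable_const
    · intro u
      set a := (g v).1 z with ha
      let y0 : I → ℝ := fun i => if i = v then 0 else wf (u i) * (g i).1 z
      have hy0 : ∀ i, |y0 i| ≤ 2 * ‖z‖ := by
        intro i
        by_cases h : i = v
        · simp only [y0, if_pos h, abs_zero]; positivity
        · simp only [y0, if_neg h]; exact Yw_bd g u z i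
      let H : ℝ → ℝ := fun r => NN C β g z (fun i => y0 i + ((1 + r) * a) * dl v i)
      have hbb : ∀ r i, |y0 i + ((1 + r) * a) * dl v i| ≤ 2 * ‖z‖ + |(1 + r) * a| * 1 :=
        fun r => bd_line hy0 (dl_abs v) _
      have hlip : LipschitzWith (4 * |a|).toNNReal H := by
        apply LipschitzWith.of_dist_le_mul
        intro r r'
        rw [Real.dist_eq, Real.dist_eq, Real.coe_toNNReal _ (by positivity)]
        have h1 := NN_lip C β g (hbb r) (hbb r') (δ := |r - r'| * |a|) (fun i => by
          have e : y0 i + ((1 + r) * a) * dl v i - (y0 i + ((1 + r') * a) * dl v i) = (r - r') * a * dl v i := by ring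
          rw [e, abs_mul, abs_mul]
          calc |r - r'| * |a| * |dl v i| ≤ |r - r'| * |a| * 1 := by gcongr; exact dl_abs v i
            _ = _ := mul_one _) z
        calc |H r - H r'| ≤ 4 * (|r - r'| * |a|) := h1
          _ = 4 * |a| * |r - r'| := by ring
      have hd := hlip.ae_differentiableAt_real
      have hd2 : ∀ᵐ r ∂nu, DifferentiableAt ℝ H r := ae_restrict_of_ae hd
      have hm : ∀ᵐ r ∂nu, r ∈ Icc (0:ℝ) 1 := ae_restrict_mem measurableSet_Icc
      filter_upwards [hd2, hm] with r hr hr1 k
      have hder := hr.hasDerivAt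
      rw [hasDerivAt_iff_isLittleO] at hder
      have habs : 0 < |a| := abs_pos.2 hv
      have h2 := hder.def (c := |a| / (2 * (k + 1 : ℝ))) (by positivity)
      rw [Metric.eventually_nhds_iff] at h2
      obtain ⟨δ, hδ, HH⟩ := h2
      obtain ⟨n, hn⟩ := exists_nat_one_div_lt (show 0 < δ * |a| by positivity)
      refine ⟨n, ?_⟩
      have hY : Yw g (Function.update u v r) z = fun i => y0 i + ((1 + r) * a) * dl v i := by
        funext i
        by_cases h : i = v
        · subst h
          simp only [Yw, y0, if_true, Function.update_self, dl_self, wf_Icc hr1, ha]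
          ring
        · simp only [Yw, y0, if_neg h, Function.update_of_ne h, dl_ne h]
          ring
      have hHs : ∀ s : ℝ, NN C β g z (fun i => Yw g (Function.update u v r) z i + s * dl v i) = H (r + s / a) := by
        intro s
        rw [hY]
        show NN C β g z _ = NN C β g z _
        congr 1
        funext i
        have : (1 + (r + s / a)) * a = (1 + r) * a + s := by field_simp; ring
        rw [this]
        ring
      have hH0 : NN C β g z (Yw g (Function.update u v r) z) = H r := by rw [hY]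
      set s : ℝ := 1 / (n + 1 : ℝ) with hs
      have hs0 : 0 < s := by positivity
      have b1 := HH (y := r + s / a) (by
        rw [Real.dist_eq, add_sub_cancel_left, abs_div, abs_of_pos hs0, div_lt_iff₀ habs]
        exact hn)
      have b2 := HH (y := r + (-s) / a) (by
        rw [Real.dist_eq, add_sub_cancel_left, abs_div, abs_neg, abs_of_pos hs0, div_lt_iff₀ habs]
        exact hn)
      simp only [add_sub_cancel_left, Real.norm_eq_abs, abs_div, abs_neg, abs_of_pos hs0, smul_eq_mul] at b1 b2
      have c1 := (abs_le.1 b1).2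
      have c2 := (abs_le.1 b2).2
      have e1 : |a| / (2 * (k + 1 : ℝ)) * (s / |a|) = s / (2 * (k + 1 : ℝ)) := by
        field_simp
      rw [e1] at c1 c2
      have e2 : Dk C β g z v s (Function.update u v r) = H (r + s / a) + H (r + (-s) / a) - 2 * H r := by
        unfold Dk
        rw [hHs, hHs, hH0]
      rw [e2]
      have e3 : H (r + s / a) + H (r + (-s) / a) - 2 * H r ≤ s / (k + 1 : ℝ) := by
        have e4 : s / (2 * (k + 1 : ℝ)) + s / (2 * (k + 1 : ℝ)) = s / (k + 1 : ℝ) := by
          field_simp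
          norm_num
        have e5 : -s / a = -(s / a) := neg_div _ _
        rw [e5] at c2 ⊢
        linarith
      calc (n + 1 : ℝ) * (H (r + s / a) + H (r + (-s) / a) - 2 * H r) ≤ (n + 1 : ℝ) * (s / (k + 1 : ℝ)) := by gcongr
        _ = 1 / (k + 1 : ℝ) := by rw [hs]; field_simp
  have hall : ∀ᵐ u ∂(mu I), ∀ v ∈ {i | (g i).1 z ≠ 0}, ∀ k : ℕ, ∃ n : ℕ,
      (n + 1 : ℝ) * Dk C β g z v (1 / (n + 1 : ℝ)) u ≤ 1 / (k + 1 : ℝ) :=
    (ae_ball_iff hcount).2 (fun v hv => key v hv)
  filter_upwards [hall] with u hu v hv ε hε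
  have hv' : (g v).1 z ≠ 0 := by
    intro h0
    apply hv
    simp [Yw, h0]
  obtain ⟨k, hk⟩ := exists_nat_one_div_lt hε
  obtain ⟨n, hn⟩ := hu v hv' k
  set s0 : ℝ := 1 / (n + 1 : ℝ) with hs0
  have hs0p : 0 < s0 := by positivity
  refine ⟨s0, hs0p, fun s hs => ?_⟩
  set l := |s| / s0 with hl
  have hl0 : 0 ≤ l := by positivity
  have hl1 : l ≤ 1 := by rw [hl, div_le_one hs0p]; exact hs.le
  have hls : l * s0 = |s| := by rw [hl]; field_simp
  have c1 := NN_conv C β g (Yw_bd g u z) (dl_abs v) z hl0 hl1 s0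
  have c2 := NN_conv C β g (Yw_bd g u z) (dl_abs v) z hl0 hl1 (-s0)
  have hls' : l * (-s0) = -|s| := by rw [mul_neg, hls]
  rw [hls] at c1
  rw [hls'] at c2
  have hsum : NN C β g z (fun i => Yw g u z i + |s| * dl v i) + NN C β g z (fun i => Yw g u z i + (-|s|) * dl v i)
      - 2 * NN C β g z (Yw g u z) ≤ l * Dk C β g z v s0 u := by
    unfold Dk
    nlinarith
  have hfin : l * Dk C β g z v s0 u ≤ ε * |s| := by
    have h1 : (n + 1 : ℝ) * s0 = 1 := by rw [hs0]; field_simp
    have h2 : Dk C β g z v s0 u = s0 * ((n + 1 : ℝ) * Dk C β g z v s0 u) := by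
      rw [← mul_assoc, mul_comm s0, h1, one_mul]
    have h3 : Dk C β g z v s0 u ≤ s0 * ε := by
      rw [h2]
      have : (n + 1 : ℝ) * Dk C β g z v s0 u ≤ ε := hn.trans hk.le
      gcongr
    calc l * Dk C β g z v s0 u ≤ l * (s0 * ε) := by gcongr
      _ = (l * s0) * ε := by ring
      _ = ε * |s| := by rw [hls]; ring
  rcases le_total 0 s with hsn | hsn
  · rw [abs_of_nonneg hsn] at hsum hfin ⊢
    linarith
  · rw [abs_of_nonpos hsn] at hsum hfin ⊢
    rw [neg_neg] at hsum
    linarith

end

end Pool.Agent.H827
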