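import Mathlib
import Pool.Agent.Helper827.W7

/-! Final assembly. -/

set_option linter.unusedSectionVars false
set_option linter.style.haveILetI false
set_option linter.deprecated false

namespace Pool.Agent.H827
open Set Topology Filter TopologicalSpace MeasureTheory

variable {X : Type} [NormedAddCommGroup X] [NormedSpace ℝ X]

theorem exists_inf_tags (C : Cors X) [Nontrivial X] : ∃ (I : Type) (_ : Infinite I) (g : I → KB X),
    (∀ z ε, 0 < ε → {i | ε < |(g i).1 z|}.Finite) ∧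
    (∀ z, (∀ i, (g i).1 z = 0) → z = 0) ∧
    ∀ z, z ≠ 0 → {i | (g i).1 z ≠ 0}.Infinite := by
  obtain ⟨I, g, hg0, htot⟩ := exists_tags C
  have hI : Nonempty I := by
    by_contra hne
    rw [not_nonempty_iff] at hne
    obtain ⟨z, hz⟩ := exists_ne (0 : X)
    exact hz (htot z (fun i => (hne.false i).elim))
  let g' : I × ℕ → KB X := fun p => cmb ((1/2)^p.2) 0 (g p.1) (g p.1)
  have hg' : ∀ p z, (g' p).1 z = (1/2)^p.2 * (g p.1).1 z := by
    intro p z
    show (cmb ((1/2)^p.2) 0 (g p.1) (g p.1)).1 z = _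
    have h1 : ((1/2 : ℝ)^p.2) ≤ 1 := pow_le_one₀ (by norm_num) (by norm_num)
    have h2 : (0:ℝ) ≤ (1/2 : ℝ)^p.2 := by positivity
    rw [cmb_apply (by rw [abs_zero, add_zero, abs_of_nonneg h2]; exact h1)]
    ring
  refine ⟨I × ℕ, inferInstance, g', ?_, ?_, ?_⟩
  · intro z ε hε
    have ht : Tendsto (fun n : ℕ => (1/2 : ℝ)^n * ‖z‖) atTop (𝓝 0) := by
      have := (tendsto_pow_atTop_nhds_zero_of_lt_one (r := (1/2 : ℝ)) (by norm_num) (by norm_num)).mul_const ‖z‖
      simpa using this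
    obtain ⟨n, hn⟩ := ((tendsto_order.1 ht).2 ε hε).exists_forall_of_atTop
    apply ((hg0 z ε hε).prod (finite_Iio n)).subset
    rintro ⟨i, m⟩ hp
    have hp' : ε < |(g' (i, m)).1 z| := hp
    rw [hg', abs_mul, abs_of_nonneg (by positivity : (0:ℝ) ≤ (1/2 : ℝ)^(i, m).2)] at hp'
    simp only at hp'
    have h1 : ((1/2 : ℝ)^m) ≤ 1 := pow_le_one₀ (by norm_num) (by norm_num)
    have h2 : (0:ℝ) ≤ (1/2 : ℝ)^m := by positivity
    refine mem_prod.2 ⟨?_, ?_⟩
    · show ε < |(g i).1 z|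
      have := abs_nonneg ((g i).1 z)
      nlinarith
    · show m < n
      by_contra hcon
      have h3 := hn m (not_lt.1 hcon)
      have h4 : (1/2 : ℝ)^m * |(g i).1 z| ≤ (1/2 : ℝ)^m * ‖z‖ := by
        gcongr
        exact KB.bd _ _
      linarith
  · intro z hz
    apply htot
    intro i
    have := hz (i, 0)
    rw [hg'] at this
    simpa using this
  · intro z hz
    have : ∃ i, (g i).1 z ≠ 0 := by
      by_contra hcon
      push Not at hcon
      exact hz (htot z hcon)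
    obtain ⟨i, hi⟩ := this
    apply Set.infinite_of_injective_forall_mem (f := fun n : ℕ => (i, n))
    · intro m n h
      exact (Prod.mk.inj h).2
    · intro n
      show (g' (i, n)).1 z ≠ 0
      rw [hg']
      exact mul_ne_zero (by positivity) hi

theorem main_norm [CompleteSpace X] [Nontrivial X] (C : Cors X) (β : Bump X) :
    ∃ N : X → ℝ, (∀ x y : X, N (x + y) ≤ N x + N y) ∧
        (∀ (c : ℝ) (x : X), N (c • x) = |c| * N x) ∧
        (∀ x : X, ‖x‖ ≤ N x ∧ N x ≤ 9 * ‖x‖) ∧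
        ∀ x : X, x ≠ 0 → ∃ L : X →L[ℝ] ℝ, ∀ h : X,
          HasDerivAt (fun t : ℝ => N (x + t • h)) (L h) 0 := by
  obtain ⟨I, hI, g, hg0, htot, hginf⟩ := exists_inf_tags C
  have hcount : ∀ x, {i | (g i).1 x ≠ 0}.Countable := by
    intro x
    have : {i | (g i).1 x ≠ 0} ⊆ ⋃ n : ℕ, {i | 1 / (n + 1 : ℝ) < |(g i).1 x|} := by
      intro i hi
      obtain ⟨n, hn⟩ := exists_nat_one_div_lt (abs_pos.2 hi)
      exact mem_iUnion.2 ⟨n, hn⟩
    exact (countable_iUnion fun n => (hg0 x _ (by positivity)).countable).mono this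
  let Φ : X → (I → ℝ) → ℝ := fun z u => NN C β g z (Yw g u z)
  have hΦm : ∀ z, Measurable (Φ z) := by
    intro z
    have := meas_NN C β g (A := ‖z‖) (B := 0) (b := fun _ => 0) (fun i => KB.bd (g i) z) (fun i => by simp)
      (fun ε hε => hg0 z ε hε) z
    simp only [add_zero] at this
    exact this
  have hΦlo : ∀ z u, ‖z‖ ≤ Φ z u := fun z u => norm_le_NN C β g (Yw_bd g u z) z
  have hΦhi : ∀ z u, Φ z u ≤ 9 * ‖z‖ := by
    intro z u
    have := NN_le' C β g (Yw_bd g u z) z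
    show NN C β g z (Yw g u z) ≤ _
    linarith
  have hΦi : ∀ z, Integrable (Φ z) (mu I) := by
    intro z
    refine Integrable.of_bound (hΦm z).aestronglyMeasurable (9 * ‖z‖) (Eventually.of_forall fun u => ?_)
    rw [Real.norm_eq_abs, abs_of_nonneg ((norm_nonneg z).trans (hΦlo z u))]
    exact hΦhi z u
  have hYadd : ∀ u z z', Yw g u (z + z') = fun i => Yw g u z i + Yw g u z' i := by
    intro u z z'
    funext i
    simp only [Yw]
    rw [map_add]
    ring
  have hYsmul : ∀ u (c : ℝ) z, Yw g u (c • z) = fun i => c * Yw g u z i := by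
    intro u c z
    funext i
    simp only [Yw]
    rw [map_smul, smul_eq_mul]
    ring
  have hYline : ∀ u (s : ℝ) z z', Yw g u (z + s • z') = fun i => Yw g u z i + s * Yw g u z' i := by
    intro u s z z'
    rw [hYadd, hYsmul]
  let M : X → ℝ := fun z => ∫ u, Φ z u ∂(mu I)
  have hMlo : ∀ z, ‖z‖ ≤ M z := by
    intro z
    have h1 : ∫ _u : I → ℝ, ‖z‖ ∂(mu I) ≤ M z := integral_mono (integrable_const _) (hΦi z) (hΦlo z)
    simpa using h1
  have hMhi : ∀ z, M z ≤ 9 * ‖z‖ := by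
    intro z
    have h1 : M z ≤ ∫ _u : I → ℝ, 9 * ‖z‖ ∂(mu I) := integral_mono (hΦi z) (integrable_const _) (hΦhi z)
    simpa using h1
  have hMadd : ∀ x y, M (x + y) ≤ M x + M y := by
    intro x y
    show ∫ u, Φ (x + y) u ∂(mu I) ≤ ∫ u, Φ x u ∂(mu I) + ∫ u, Φ y u ∂(mu I)
    rw [← integral_add (hΦi x) (hΦi y)]
    refine integral_mono (hΦi _) ((hΦi x).add (hΦi y)) fun u => ?_
    show NN C β g (x + y) (Yw g u (x + y)) ≤ NN C β g x (Yw g u x) + NN C β g y (Yw g u y)
    rw [hYadd]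
    exact NN_add C β g (Yw_bd g u x) (Yw_bd g u y) x y
  have hMsmul' : ∀ (c : ℝ) x, M (c • x) ≤ |c| * M x := by
    intro c x
    show ∫ u, Φ (c • x) u ∂(mu I) ≤ |c| * ∫ u, Φ x u ∂(mu I)
    rw [← integral_const_mul]
    refine integral_mono (hΦi _) ((hΦi x).const_mul _) fun u => ?_
    show NN C β g (c • x) (Yw g u (c • x)) ≤ |c| * NN C β g x (Yw g u x)
    rw [hYsmul]
    exact NN_smul_le C β g (Yw_bd g u x) x c
  have hMsmul : ∀ (c : ℝ) x, M (c • x) = |c| * M x := by
    intro c x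
    apply le_antisymm (hMsmul' c x)
    by_cases hc : c = 0
    · rw [hc, abs_zero, zero_mul]
      exact (norm_nonneg _).trans (hMlo _)
    · have h1 := hMsmul' c⁻¹ (c • x)
      rw [smul_smul, inv_mul_cancel₀ hc, one_smul, abs_inv] at h1
      have h2 : 0 < |c| := abs_pos.2 hc
      have h3 : |c| * M x ≤ |c| * (|c|⁻¹ * M (c • x)) := by gcongr
      rwa [← mul_assoc, mul_inv_cancel₀ h2.ne', one_mul] at h3
  refine ⟨M, hMadd, hMsmul, fun x => ⟨hMlo x, hMhi x⟩, ?_⟩
  intro z hz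
  apply gateaux hMadd hMsmul hMhi
  intro h
  by_contra hcon
  push Not at hcon
  obtain ⟨ε, hε, hcon⟩ := hcon
  choose s hs0 hs1 hs using fun m : ℕ => hcon (1 / (m + 1 : ℝ)) (by positivity)
  have hst : Tendsto s atTop (𝓝 0) :=
    squeeze_zero (fun m => (hs0 m).le) (fun m => (hs1 m).le) tendsto_one_div_add_atTop_nhds_zero_nat
  let F : ℕ → (I → ℝ) → ℝ := fun m u => (Φ (z + s m • h) u + Φ (z + (-(s m)) • h) u - 2 * Φ z u) / s m
  have hFnn : ∀ m u, 0 ≤ F m u := by
    intro m u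
    apply div_nonneg _ (hs0 m).le
    show 0 ≤ NN C β g (z + s m • h) (Yw g u (z + s m • h)) + NN C β g (z + (-(s m)) • h) (Yw g u (z + (-(s m)) • h))
        - 2 * NN C β g z (Yw g u z)
    rw [hYline, hYline]
    exact NN_mid C β g (Yw_bd g u z) (Yw_bd g u h) z h (s m)
  have hFm : ∀ m, AEStronglyMeasurable (F m) (mu I) := by
    intro m
    exact ((((hΦm _).add (hΦm _)).sub ((hΦm z).const_mul 2)).div_const (s m)).aestronglyMeasurable
  have hFb : ∀ m, ∀ᵐ u ∂(mu I), ‖F m u‖ ≤ 18 * ‖h‖ := by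
    intro m
    refine Eventually.of_forall fun u => ?_
    rw [Real.norm_eq_abs, abs_of_nonneg (hFnn m u)]
    show (NN C β g (z + s m • h) (Yw g u (z + s m • h)) + NN C β g (z + (-(s m)) • h) (Yw g u (z + (-(s m)) • h))
        - 2 * NN C β g z (Yw g u z)) / s m ≤ 18 * ‖h‖
    rw [div_le_iff₀ (hs0 m), hYline, hYline]
    have h1 := NN_line_ge C β g (Yw_bd g u z) (Yw_bd g u h) z h (s m)
    have h2 := NN_line_ge C β g (Yw_bd g u z) (Yw_bd g u h) z h (-(s m))
    rw [abs_neg, abs_of_pos (hs0 m)] at h2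
    rw [abs_of_pos (hs0 m)] at h1
    linarith
  have hFt : ∀ᵐ u ∂(mu I), Tendsto (fun m => F m u) atTop (𝓝 0) := by
    filter_upwards [nokink_ae C β g hg0 z (hcount z)] with u hu
    have hzpos : 0 < ‖z‖ := norm_pos_iff.2 hz
    have hsupp : ∀ i, (g i).1 z ≠ 0 → Yw g u z i ≠ 0 := by
      intro i hi
      have := wf_ge (u i)
      exact mul_ne_zero (by linarith) hi
    have hsup2 : {v | Yw g u z v ≠ 0} = {i | (g i).1 z ≠ 0} := by
      ext v
      constructor
      · intro hv h0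
        apply hv
        simp [Yw, h0]
      · exact hsupp v
    have hmain := main_sd C β g hcount htot (z := z) (y := Yw g u z) (B := 2 * ‖z‖) (by positivity)
      (Yw_bd g u z) (by
        intro ε hε
        apply (hg0 z (ε/2) (by positivity)).subset
        intro v hv
        have hv' : ε < |Yw g u z v| := hv
        simp only [Yw] at hv'
        rw [abs_mul] at hv'
        have h1 := wf_abs (u v)
        have h2 := abs_nonneg ((g v).1 z)
        show ε/2 < |(g v).1 z|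
        nlinarith) (by rw [hsup2]; exact hginf z hz) hsupp hu (z' := h) (Yw_bd g u h)
    rw [Metric.tendsto_atTop]
    intro η hη
    obtain ⟨δ, hδ, H⟩ := hmain (η/2) (by positivity)
    obtain ⟨m0, hm0⟩ := ((tendsto_order.1 hst).2 δ hδ).exists_forall_of_atTop
    refine ⟨m0, fun m hm => ?_⟩
    rw [Real.dist_eq, sub_zero, abs_of_nonneg (hFnn m u)]
    have h1 := H (s m) (hs0 m) (hm0 m hm)
    have h2 : F m u ≤ η/2 := by
      show (NN C β g (z + s m • h) (Yw g u (z + s m • h)) + NN C β g (z + (-(s m)) • h) (Yw g u (z + (-(s m)) • h))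
        - 2 * NN C β g z (Yw g u z)) / s m ≤ η/2
      rw [div_le_iff₀ (hs0 m), hYline, hYline]
      exact h1
    linarith
  have hlim := tendsto_integral_of_dominated_convergence (fun _ => 18 * ‖h‖) hFm (integrable_const _) hFb hFt
  rw [integral_zero] at hlim
  have hge : ∀ m, ε ≤ ∫ u, F m u ∂(mu I) := by
    intro m
    have h1 : ∫ u, F m u ∂(mu I) = (M (z + s m • h) + M (z + (-(s m)) • h) - 2 * M z) / s m := by
      show ∫ u, (Φ (z + s m • h) u + Φ (z + (-(s m)) • h) u - 2 * Φ z u) / s m ∂(mu I) = _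
      have i12 : Integrable (fun u => Φ (z + s m • h) u + Φ (z + (-(s m)) • h) u) (mu I) :=
        (hΦi _).add (hΦi _)
      have i3 : Integrable (fun u => 2 * Φ z u) (mu I) := (hΦi z).const_mul 2
      rw [integral_div, integral_sub i12 i3, integral_add (hΦi _) (hΦi _), integral_const_mul]
    rw [h1, le_div_iff₀ (hs0 m)]
    exact (hs m).le
  have := ge_of_tendsto' hlim hge
  linarith

theorem final [CompleteSpace X] (C : Cors X) (β : Bump X) :
    ∃ N : X → ℝ, (∀ x y : X, N (x + y) ≤ N x + N y) ∧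
        (∀ (c : ℝ) (x : X), N (c • x) = |c| * N x) ∧
        (∃ a c : ℝ, 0 < a ∧ 0 < c ∧ ∀ x : X, a * ‖x‖ ≤ N x ∧ N x ≤ c * ‖x‖) ∧
        ∀ x : X, x ≠ 0 → ∃ L : X →L[ℝ] ℝ, ∀ h : X,
          HasDerivAt (fun t : ℝ => N (x + t • h)) (L h) 0 := by
  rcases subsingleton_or_nontrivial X with hX | hX
  · refine ⟨fun _ => 0, fun _ _ => by simp, fun _ _ => by simp, ⟨1, 1, one_pos, one_pos, fun x => ?_⟩, fun x hx => ?_⟩
    · rw [Subsingleton.elim x 0]
      simp
    · exact absurd (Subsingleton.elim x 0) hx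
  · obtain ⟨N, h1, h2, h3, h4⟩ := main_norm C β
    refine ⟨N, h1, h2, ⟨1, 9, one_pos, by norm_num, fun x => ?_⟩, h4⟩
    rw [one_mul]
    exact h3 x

end Pool.Agent.H827
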